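import Pool.Agent.TA43.Fin

set_option autoImplicit false

/-!
# IS45/Clm43: the climb from a law without gaps

`hgap` is (3') of note 3657 for the level `j`. If `P_s(≤ j) < 1/2` for all `s` up to `s_mid = C_old Dn/(120 N)` the old
climb `TA43.climb` applies with `D = C_old Dn`; otherwise some `s` in `[D/(120 N), s_mid]` has `P_s(≤ j) = 1/2`.
-/

namespace Pool.IS45

open Pool.TA43

/-- `√(n log n)`, `n = N + 1` -/
noncomputable def Sn (N : ℕ) : ℝ := Real.sqrt (((N : ℝ) + 1) * Real.log ((N : ℝ) + 1))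

theorem Sn_nonneg (N : ℕ) : 0 ≤ Sn N := Real.sqrt_nonneg _

/-- the middle tilt tends to zero -/
theorem mid_small (C η : ℝ) (hC : 0 < C) (hη : 0 < η) : ∃ N0 : ℕ, ∀ N ≥ N0,
    C * Dn N / (120 * N) ≤ η := by
  obtain ⟨κ, hκd⟩ : ∃ κ : ℝ, κ = 60 * η / C := ⟨_, rfl⟩
  have hκ : 0 < κ := by rw [hκd]; positivity
  have hT : Filter.Tendsto (fun N : ℕ => (N : ℝ) + 1) Filter.atTop Filter.atTop :=
    Filter.tendsto_atTop_add_const_right _ _ tendsto_natCast_atTop_atTop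
  have ev1 : ∀ᶠ N : ℕ in Filter.atTop, Real.log ((N : ℝ) + 1) ≤ κ ^ 4 * ((N : ℝ) + 1) := by
    have h := (Real.isLittleO_log_id_atTop.bound (by positivity : (0 : ℝ) < κ ^ 4))
    refine (hT.eventually h).mono fun N hN => ?_
    have h0 : (0 : ℝ) ≤ (N : ℝ) + 1 := by positivity
    rw [id_eq, Real.norm_eq_abs, Real.norm_eq_abs, abs_of_nonneg h0] at hN
    exact (le_abs_self _).trans hN
  have ev4 : ∀ᶠ N : ℕ in Filter.atTop, 1 ≤ N := Filter.eventually_ge_atTop 1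
  obtain ⟨N0, hN0⟩ := Filter.eventually_atTop.1 (ev1.and ev4)
  refine ⟨N0, fun N hN => ?_⟩
  obtain ⟨h1, h4⟩ := hN0 N hN
  have hN' : (1 : ℝ) ≤ N := by exact_mod_cast h4
  have hn0 : (0 : ℝ) < (N : ℝ) + 1 := by positivity
  have hL0 : 0 ≤ Real.log ((N : ℝ) + 1) := Real.log_nonneg (by linarith)
  have hsq := Dn_sqS63 N hL0
  have h2 : Real.sqrt (((N : ℝ) + 1) * Real.log ((N : ℝ) + 1)) ≤ κ ^ 2 * ((N : ℝ) + 1) := by
    apply Real.sqrt_le_iff.2
    refine ⟨by positivity, ?_⟩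
    calc ((N : ℝ) + 1) * Real.log ((N : ℝ) + 1) ≤ ((N : ℝ) + 1) * (κ ^ 4 * ((N : ℝ) + 1)) :=
          mul_le_mul_of_nonneg_left h1 hn0.le
      _ = (κ ^ 2 * ((N : ℝ) + 1)) ^ 2 := by ring
  have h3 : Dn N ≤ κ * ((N : ℝ) + 1) := by
    apply le_of_sq_le_sq _ (by positivity)
    rw [hsq]
    calc ((N : ℝ) + 1) * Real.sqrt (((N : ℝ) + 1) * Real.log ((N : ℝ) + 1))
        ≤ ((N : ℝ) + 1) * (κ ^ 2 * ((N : ℝ) + 1)) := mul_le_mul_of_nonneg_left h2 hn0.le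
      _ = (κ * ((N : ℝ) + 1)) ^ 2 := by ring
  rw [div_le_iff₀ (by positivity)]
  calc C * Dn N ≤ C * (κ * ((N : ℝ) + 1)) := mul_le_mul_of_nonneg_left h3 hC.le
    _ = 60 * η * ((N : ℝ) + 1) := by
      rw [hκd]
      field_simp
    _ ≤ 60 * η * (2 * N) := by
      apply mul_le_mul_of_nonneg_left _ (by positivity)
      linarith
    _ = η * (120 * N) := by ring

/-- numbers of the new climb -/
theorem num43 (c2 C1 : ℝ) (hc2 : 0 < c2) (hC1 : 0 < C1) : ∃ C : ℝ, 0 < C ∧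
    ∃ N0 : ℕ, ∀ N ≥ N0, ∀ D s : ℝ, C * Sn N ≤ D → D / (120 * N) ≤ s → s ≤ 1 →
    C1 * Real.sqrt (Real.log ((N : ℝ) + 1) / ((N : ℝ) + 1)) ≤ s ∧ 0 < s ∧
    ((N : ℝ) + 2) * Real.exp (s / 2) * Real.exp (-(c2 * s ^ 2 * N)) ≤
      Real.exp (-(c2 / 2 * s ^ 2 * N)) / ((N : ℝ) + 1) ^ 4 := by
  have hT : Filter.Tendsto (fun N : ℕ => (N : ℝ) + 1) Filter.atTop Filter.atTop :=
    Filter.tendsto_atTop_add_const_right _ _ tendsto_natCast_atTop_atTop
  have ev2 : ∀ᶠ N : ℕ in Filter.atTop, 1 ≤ Real.log ((N : ℝ) + 1) :=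
    (Real.tendsto_log_atTop.comp hT).eventually_ge_atTop _
  have ev4 : ∀ᶠ N : ℕ in Filter.atTop, 1 ≤ N := Filter.eventually_ge_atTop 1
  obtain ⟨N0, hN0⟩ := Filter.eventually_atTop.1 (ev2.and ev4)
  obtain ⟨R, hRd⟩ : ∃ R : ℝ, R = Real.sqrt (32 / c2) := ⟨_, rfl⟩
  have hR0 : 0 ≤ R := by rw [hRd]; positivity
  have hR2 : c2 * R ^ 2 = 32 := by
    rw [hRd, Real.sq_sqrt (by positivity)]
    field_simp
  refine ⟨120 * (C1 + R), by positivity, N0, ?_⟩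
  intro N hN D s hD hs hs1
  obtain ⟨h2, h4⟩ := hN0 N hN
  have hN' : (1 : ℝ) ≤ N := by exact_mod_cast h4
  have hn0 : (0 : ℝ) < (N : ℝ) + 1 := by positivity
  obtain ⟨L, hLd⟩ : ∃ L : ℝ, L = Real.log ((N : ℝ) + 1) := ⟨_, rfl⟩
  rw [← hLd] at h2
  obtain ⟨q, hqd⟩ : ∃ q : ℝ, q = Real.sqrt (L / ((N : ℝ) + 1)) := ⟨_, rfl⟩
  have hq0 : 0 < q := by rw [hqd]; positivity
  have hq2 : q ^ 2 * ((N : ℝ) + 1) = L := by
    rw [hqd, Real.sq_sqrt (by positivity)]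
    field_simp
  have hSq : Sn N = q * ((N : ℝ) + 1) := by
    unfold Sn
    rw [← hLd]
    apply (Real.sqrt_eq_iff_mul_self_eq (by positivity) (by positivity)).2
    calc ((N : ℝ) + 1) * L = q ^ 2 * ((N : ℝ) + 1) * ((N : ℝ) + 1) := by rw [hq2]; ring
      _ = q * ((N : ℝ) + 1) * (q * ((N : ℝ) + 1)) := by ring
  have hs2 : (C1 + R) * q ≤ s := by
    rw [div_le_iff₀ (by positivity)] at hs
    rw [hSq] at hD
    have h5 : 120 * (C1 + R) * (q * N) ≤ s * (120 * N) := by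
      refine le_trans ?_ (hD.trans hs)
      apply mul_le_mul_of_nonneg_left _ (by positivity)
      apply mul_le_mul_of_nonneg_left _ hq0.le
      linarith
    have h6 : (C1 + R) * q * (120 * N) ≤ s * (120 * N) := by
      calc (C1 + R) * q * (120 * N) = 120 * (C1 + R) * (q * N) := by ring
        _ ≤ _ := h5
    exact le_of_mul_le_mul_right h6 (by positivity)
  have hC1q : C1 * q ≤ s := by
    refine le_trans ?_ hs2
    have : 0 ≤ R * q := by positivity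
    linarith
  have hRq : R * q ≤ s := by
    refine le_trans ?_ hs2
    have : 0 ≤ C1 * q := by positivity
    linarith
  have hs0 : 0 < s := lt_of_lt_of_le (by positivity) hC1q
  refine ⟨by rw [← hLd, ← hqd]; exact hC1q, hs0, ?_⟩
  have hsq : R ^ 2 * q ^ 2 ≤ s ^ 2 := by
    have := pow_le_pow_left₀ (by positivity) hRq 2
    rwa [mul_pow] at this
  have hbig : 8 * L ≤ c2 / 2 * s ^ 2 * N := by
    have h7 : 32 * q ^ 2 ≤ c2 * s ^ 2 := by
      calc 32 * q ^ 2 = c2 * (R ^ 2 * q ^ 2) := by rw [← hR2]; ring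
        _ ≤ c2 * s ^ 2 := mul_le_mul_of_nonneg_left hsq hc2.le
    have h8 : L ≤ q ^ 2 * (2 * N) := by
      rw [← hq2]
      apply mul_le_mul_of_nonneg_left _ (by positivity)
      linarith
    have h9 : 32 * q ^ 2 * N ≤ c2 * s ^ 2 * N := mul_le_mul_of_nonneg_right h7 (by linarith)
    nlinarith
  have e1 : ((N : ℝ) + 1) ^ 4 = Real.exp (4 * L) := by
    rw [hLd, mul_comm, Real.exp_mul, Real.exp_log hn0]
    norm_cast
  have e2 : (N : ℝ) + 2 ≤ Real.exp (1 + L) := by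
    rw [Real.exp_add, hLd, Real.exp_log hn0]
    have : (2 : ℝ) ≤ Real.exp 1 := by
      have := Real.add_one_le_exp (1 : ℝ)
      linarith
    nlinarith
  rw [e1, ← Real.exp_sub]
  calc ((N : ℝ) + 2) * Real.exp (s / 2) * Real.exp (-(c2 * s ^ 2 * N))
      ≤ Real.exp (1 + L) * Real.exp (s / 2) * Real.exp (-(c2 * s ^ 2 * N)) := by gcongr
    _ = Real.exp (1 + L + s / 2 + -(c2 * s ^ 2 * N)) := by
      rw [← Real.exp_add, ← Real.exp_add]
    _ ≤ _ := by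
      apply Real.exp_le_exp.2
      have h10 : c2 * s ^ 2 * N = c2 / 2 * s ^ 2 * N + c2 / 2 * s ^ 2 * N := by ring
      linarith

/-- THE NEW CLIMB. `hgap` = (3') at the level `j`, `δ = c2/16`. -/
theorem climb43 (ε s0 c2 δ s1 C1 : ℝ) (hε : 0 < ε) (hs0 : 0 < s0) (hc2 : 0 < c2) (hδ : 0 < δ)
    (hδ2 : 16 * δ ≤ c2) (hs1 : 0 < s1) (hC1 : 0 < C1) : ∃ C : ℝ, 0 < C ∧
    ∃ N0 : ℕ, ∀ N ≥ N0, ∀ (v : ℕ → ℝ) (β j : ℕ) (D : ℝ),
    (∀ i, 0 ≤ v i) → 0 < VV N v 0 → j ≤ N →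
    (∀ m, OV N v m * OV N v (m + 2) ≤ OV N v (m + 1) ^ 2) →
    (∀ (i : ℕ) (s : ℝ), (β : ℝ) + ε * N / 2 ≤ i → s0 < s →
      VV N v s / 2 < VS v s (Finset.range (i + 1))) →
    (∀ s : ℝ, 0 ≤ s → s ≤ D / (120 * N) → VS v s (Finset.range (j + 1)) < VV N v s / 2) →
    (∀ (i : ℕ) (s : ℝ), (β : ℝ) + ε * N / 4 ≤ i → i ≤ j → 0 < s → s ≤ s0 →
      ((N : ℝ) + 2) * Real.exp (s / 2) * Real.exp (-(c2 * s ^ 2 * N)) * VV N v s ≤
        v i * Real.exp (-(s * i)) → v i ≤ v (i + 1)) →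
    (∀ s : ℝ, C1 * Real.sqrt (Real.log ((N : ℝ) + 1) / ((N : ℝ) + 1)) ≤ s → s ≤ s1 →
      VS v s (Finset.range (j + 1)) = VV N v s / 2 →
      ∃ i : ℕ, (j : ℝ) - 4 * δ * s * ((N : ℝ) + 1) ≤ i ∧ i ≤ j ∧
        VV N v s / ((N : ℝ) + 1) ^ 4 ≤ v i * Real.exp (-(s * i))) →
    (β : ℝ) + ε * N ≤ j → C * Sn N ≤ D → v j ≤ v (j + 1) := by
  obtain ⟨Co, hCo, N1, hold⟩ := climb ε s0 c2 hε hs0 hc2
  obtain ⟨Cn, hCn, N2, hnum⟩ := num43 c2 C1 hc2 hC1
  obtain ⟨N3, hmid⟩ := mid_small Co (min (min s0 s1) (min 1 (3 * ε / (32 * δ)))) hCo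
    (by positivity)
  refine ⟨Cn, hCn, max (max N1 N2) (max N3 1), ?_⟩
  intro N hN v β j D hv hVV hj hlc htb hlow hstep hgap hβ hD
  have g1 : N1 ≤ N := ((le_max_left _ _).trans (le_max_left _ _)).trans hN
  have g2 : N2 ≤ N := ((le_max_right _ _).trans (le_max_left _ _)).trans hN
  have g3 : N3 ≤ N := ((le_max_left _ _).trans (le_max_right _ _)).trans hN
  have g4 : 1 ≤ N := ((le_max_right _ _).trans (le_max_right _ _)).trans hN
  have hN' : (1 : ℝ) ≤ N := by exact_mod_cast g4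
  have hm := hmid N g3
  have m1 : Co * Dn N / (120 * N) ≤ s0 := hm.trans ((min_le_left _ _).trans (min_le_left _ _))
  have m2 : Co * Dn N / (120 * N) ≤ s1 := hm.trans ((min_le_left _ _).trans (min_le_right _ _))
  have m3 : Co * Dn N / (120 * N) ≤ 1 := hm.trans ((min_le_right _ _).trans (min_le_left _ _))
  have m4 : Co * Dn N / (120 * N) ≤ 3 * ε / (32 * δ) :=
    hm.trans ((min_le_right _ _).trans (min_le_right _ _))
  by_cases hc : ∀ s : ℝ, 0 ≤ s → s ≤ Co * Dn N / (120 * N) →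
      VS v s (Finset.range (j + 1)) < VV N v s / 2
  · exact hold N g1 v β j (Co * Dn N) hv hVV hj hlc htb hc hstep hβ le_rfl
  push Not at hc
  obtain ⟨s2, h20, h2m, h2⟩ := hc
  have hD0 : 0 ≤ D := le_trans (mul_nonneg hCn.le (Sn_nonneg N)) hD
  have ha0 : 0 ≤ D / (120 * N) := by positivity
  have has2 : D / (120 * N) ≤ s2 := by
    by_contra h
    push Not at h
    have := hlow s2 h20 h.le
    linarith
  obtain ⟨s, has, hss2, hsm⟩ := med48 N v j _ s2 has2 (hlow _ ha0 le_rfl).le h2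
  have hsm1 : s ≤ Co * Dn N / (120 * N) := hss2.trans h2m
  obtain ⟨k1, hspos, k3⟩ := hnum N g2 D s hD has (hsm1.trans m3)
  obtain ⟨i₀, hi1, hi2, hi3⟩ := hgap s k1 (hsm1.trans m2) hsm
  have hVVs := VV_nonneg48 N v hv s
  have hi₀b : (β : ℝ) + ε * N / 4 ≤ i₀ := by
    have e1 : 4 * δ * s * ((N : ℝ) + 1) ≤ 3 * ε / 4 * N := by
      have e2 : s * (32 * δ) ≤ 3 * ε := by
        have := hsm1.trans m4
        rwa [le_div_iff₀ (by positivity)] at this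
      have e3 : s * (32 * δ) * N ≤ 3 * ε * N := mul_le_mul_of_nonneg_right e2 (by linarith)
      have e4 : 4 * δ * s * ((N : ℝ) + 1) ≤ 4 * δ * s * (2 * N) := by
        apply mul_le_mul_of_nonneg_left _ (by positivity)
        linarith
      linarith
    linarith
  have hcost : s * (4 * δ * s * ((N : ℝ) + 1)) ≤ c2 / 2 * s ^ 2 * N := by
    have e1 : δ * (s ^ 2 * (8 * N)) ≤ c2 / 16 * (s ^ 2 * (8 * N)) := by
      apply mul_le_mul_of_nonneg_right _ (by positivity)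
      linarith
    have e4 : s * (4 * δ * s * ((N : ℝ) + 1)) ≤ s * (4 * δ * s * (2 * N)) := by
      apply mul_le_mul_of_nonneg_left _ hspos.le
      apply mul_le_mul_of_nonneg_left _ (by positivity)
      linarith
    calc s * (4 * δ * s * ((N : ℝ) + 1)) ≤ s * (4 * δ * s * (2 * N)) := e4
      _ = δ * (s ^ 2 * (8 * N)) := by ring
      _ ≤ c2 / 16 * (s ^ 2 * (8 * N)) := e1
      _ = c2 / 2 * s ^ 2 * N := by ring
  have key : ∀ d : ℕ, i₀ + d ≤ j → v i₀ ≤ v (i₀ + d) ∧ v (i₀ + d) ≤ v (i₀ + d + 1) := by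
    have step : ∀ i : ℕ, i₀ ≤ i → i ≤ j → v i₀ ≤ v i → v i ≤ v (i + 1) := by
      intro i h1 h2 h3
      have h1r : (i₀ : ℝ) ≤ i := by exact_mod_cast h1
      have h2r : (i : ℝ) ≤ j := by exact_mod_cast h2
      apply hstep i s (by linarith) h2 hspos (hsm1.trans m1)
      have h4 : (i : ℝ) - i₀ ≤ 4 * δ * s * ((N : ℝ) + 1) := by linarith
      have h5 : Real.exp (-(c2 / 2 * s ^ 2 * N)) ≤ Real.exp (-(s * ((i : ℝ) - i₀))) := by
        apply Real.exp_le_exp.2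
        have := mul_le_mul_of_nonneg_left h4 hspos.le
        linarith
      calc ((N : ℝ) + 2) * Real.exp (s / 2) * Real.exp (-(c2 * s ^ 2 * N)) * VV N v s
          ≤ Real.exp (-(c2 / 2 * s ^ 2 * N)) / ((N : ℝ) + 1) ^ 4 * VV N v s :=
            mul_le_mul_of_nonneg_right k3 hVVs
        _ = Real.exp (-(c2 / 2 * s ^ 2 * N)) * (VV N v s / ((N : ℝ) + 1) ^ 4) := by ring
        _ ≤ Real.exp (-(s * ((i : ℝ) - i₀))) * (v i₀ * Real.exp (-(s * i₀))) :=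
            mul_le_mul h5 hi3 (by positivity) (Real.exp_nonneg _)
        _ = v i₀ * Real.exp (-(s * i)) := by
            rw [mul_left_comm, ← Real.exp_add]
            congr 2
            ring
        _ ≤ v i * Real.exp (-(s * i)) := mul_le_mul_of_nonneg_right h3 (Real.exp_nonneg _)
    intro d
    induction d with
    | zero =>
      intro h
      exact ⟨le_rfl, step i₀ le_rfl h le_rfl⟩
    | succ d ih =>
      intro h
      have h1 := ih (by omega)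
      have h2 : v i₀ ≤ v (i₀ + (d + 1)) := h1.1.trans h1.2
      exact ⟨h2, step _ (by omega) h h2⟩
  have hfinal := (key (j - i₀) (by omega)).2
  have he : i₀ + (j - i₀) = j := by omega
  rwa [he] at hfinal

end Pool.IS45
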