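import Pool.Agent.IS45.Word

set_option autoImplicit false

/-!
# IS45/CntS34: union bounds
-/

namespace Pool.IS34c

open Pool.HB45 Pool.IS45

/-- union bound -/
theorem ub {ι κ : Type} (s : Finset ι) (P : Finset κ) (p : ι → Prop) (q : κ → ι → Prop)
    [DecidablePred p] [∀ T, DecidablePred (q T)] (w : ι → ℝ)
    (hw : ∀ i ∈ s, 0 ≤ w i) (h : ∀ i ∈ s, p i → ∃ T ∈ P, q T i) :
    ∑ i ∈ s.filter p, w i ≤ ∑ T ∈ P, ∑ i ∈ s.filter (q T), w i := by
  have h1 : ∀ T ∈ P, ∑ i ∈ s.filter (q T), w i = ∑ i ∈ s, if q T i then w i else 0 := fun T _ =>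
    Finset.sum_filter _ _
  rw [Finset.sum_congr rfl h1, Finset.sum_comm, Finset.sum_filter]
  refine Finset.sum_le_sum fun i hi => ?_
  have h2 : ∀ T ∈ P, 0 ≤ if q T i then w i else 0 := by
    intro T _
    split_ifs
    · exact hw i hi
    · exact le_rfl
  split_ifs with hp
  · obtain ⟨T, hT, hq⟩ := h i hi hp
    refine le_trans ?_ (Finset.single_le_sum h2 hT)
    rw [if_pos hq]
  · exact Finset.sum_nonneg h2

theorem sg_sub {N : ℕ} (om : Fin (N + 1) → ℕ) (F : Fin (N + 1) → ℕ) :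
    sg om F ⊆ Finset.range N := by
  intro x hx
  unfold sg at hx
  rw [Finset.mem_image] at hx
  obtain ⟨i, _, rfl⟩ := hx
  exact Finset.mem_range.2 i.isLt

open Classical in
/-- the bound for one set of gap indices, whether or not it lies in `range N` -/
theorem one_set {N : ℕ} {Q : Rel (N + 1)} {om : Fin (N + 1) → ℕ} (hL : Lab Q om) (M : ℕ) (r : ℝ)
    (hr0 : 0 < r) (hr1 : r < 1) (T : Finset ℕ) :
    ∑ F ∈ (PP Q om M).filter (fun F => T ⊆ sg om F), r ^ mx F ≤
      (1 - r ^ 3) ^ T.card * (WR Q om r / (1 - r) ^ (N + 1)) := by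
  have h3 : 0 ≤ 1 - r ^ 3 := by
    have := pow_le_one₀ (n := 3) hr0.le hr1.le
    linarith
  have h0 : 0 < 1 - r := by linarith
  have hW : 0 ≤ WR Q om r := Finset.sum_nonneg fun _ _ => by positivity
  by_cases hT : T ⊆ Finset.range N
  · have h := sum_up hL M r hr0 hr1 (LE Q) T hT
    have h1 : (PP Q om M).filter (fun F => word om F ∈ LE Q ∧ T ⊆ sg om F) =
        (PP Q om M).filter (fun F => T ⊆ sg om F) := by
      refine Finset.filter_congr fun F hF => ?_
      constructor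
      · exact fun h => h.2
      · exact fun h => ⟨word_mem hL hF, h⟩
    rw [h1] at h
    exact h
  · have h1 : (PP Q om M).filter (fun F => T ⊆ sg om F) = ∅ := by
      rw [Finset.filter_eq_empty_iff]
      intro F _ h
      exact hT (h.trans (sg_sub om F))
    rw [h1, Finset.sum_empty]
    positivity

open Classical in
theorem cnt_small {N : ℕ} {Q : Rel (N + 1)} {om : Fin (N + 1) → ℕ} (hL : Lab Q om) (M : ℕ) (r : ℝ)
    (hr0 : 0 < r) (hr1 : r < 1) (A : Finset ℕ) (R : ℕ) :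
    ∑ F ∈ (PP Q om M).filter (fun F => R ≤ (sg om F ∩ A).card), r ^ mx F ≤
      (A.card.choose R : ℝ) * (1 - r ^ 3) ^ R * (WR Q om r / (1 - r) ^ (N + 1)) := by
  refine (ub (PP Q om M) (A.powersetCard R) (fun F => R ≤ (sg om F ∩ A).card)
    (fun T F => T ⊆ sg om F) (fun F => r ^ mx F) (fun _ _ => by positivity) ?_).trans ?_
  · intro F _ hR
    obtain ⟨T, hT, hc⟩ := Finset.exists_subset_card_eq hR
    refine ⟨T, ?_, fun x hx => (Finset.mem_inter.1 (hT hx)).1⟩
    rw [Finset.mem_powersetCard]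
    exact ⟨fun x hx => (Finset.mem_inter.1 (hT hx)).2, hc⟩
  · have h1 : ∀ T ∈ A.powersetCard R, ∑ F ∈ (PP Q om M).filter (fun F => T ⊆ sg om F), r ^ mx F ≤
        (1 - r ^ 3) ^ R * (WR Q om r / (1 - r) ^ (N + 1)) := by
      intro T hT
      rw [Finset.mem_powersetCard] at hT
      have h := one_set hL M r hr0 hr1 T
      rw [hT.2] at h
      exact h
    refine (Finset.sum_le_sum h1).trans (le_of_eq ?_)
    rw [Finset.sum_const, Finset.card_powersetCard, nsmul_eq_mul]
    ring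

end Pool.IS34c
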