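import Pool.Agent.IS45.CntS34

set_option autoImplicit false

/-!
# IS45/CntVS34: few very bad separators
-/

namespace Pool.IS34c

open Pool.HB45 Pool.IS45

/-- one of the three pairs at separator `k` -/
def pr (B k : ℕ) (c : Fin 3) : Finset ℕ := {k * (B + 2) + B - 1 + c.val, k * (B + 2) + B + c.val}

theorem pr_card (B k : ℕ) (c : Fin 3) (hB : 3 ≤ B) : (pr B k c).card = 2 := by
  unfold pr
  exact Finset.card_pair (by omega)

theorem pr_disj {B k l : ℕ} (hB : 3 ≤ B) (h : k ≠ l) (c d : Fin 3) :
    Disjoint (pr B k c) (pr B l d) := by
  rw [Finset.disjoint_left]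
  intro x hx hx'
  unfold pr at hx hx'
  rw [Finset.mem_insert, Finset.mem_singleton] at hx hx'
  have hc := c.isLt
  have hd := d.isLt
  rcases Nat.lt_or_gt_of_ne h with h1 | h1
  · have h3 : (k + 1) * (B + 2) ≤ l * (B + 2) := Nat.mul_le_mul_right _ h1
    rw [Nat.add_mul] at h3
    omega
  · have h3 : (l + 1) * (B + 2) ≤ k * (B + 2) := Nat.mul_le_mul_right _ h1
    rw [Nat.add_mul] at h3
    omega

open Classical in
theorem cnt_vb {N B m : ℕ} (hB : 3 ≤ B) {Q : Rel (N + 1)} {om : Fin (N + 1) → ℕ} (hL : Lab Q om)
    (M : ℕ) (r : ℝ) (hr0 : 0 < r) (hr1 : r < 1) (R : ℕ) :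
    ∑ F ∈ (PP Q om M).filter (fun F => R ≤ (VB B m (sg om F)).card), r ^ mx F ≤
      (m.choose R : ℝ) * (3 * (1 - r ^ 3) ^ 2) ^ R * (WR Q om r / (1 - r) ^ (N + 1)) := by
  refine (ub (PP Q om M) ((Finset.range m).powersetCard R)
    (fun F => R ≤ (VB B m (sg om F)).card)
    (fun T F => T ⊆ VB B m (sg om F)) (fun F => r ^ mx F) (fun _ _ => by positivity) ?_).trans ?_
  · intro F _ hR
    obtain ⟨T, hT, hc⟩ := Finset.exists_subset_card_eq hR
    refine ⟨T, ?_, hT⟩
    rw [Finset.mem_powersetCard]
    refine ⟨hT.trans ?_, hc⟩
    unfold VB
    exact Finset.filter_subset _ _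
  · have h1 : ∀ T ∈ (Finset.range m).powersetCard R,
        ∑ F ∈ (PP Q om M).filter (fun F => T ⊆ VB B m (sg om F)), r ^ mx F ≤
        (3 * (1 - r ^ 3) ^ 2) ^ R * (WR Q om r / (1 - r) ^ (N + 1)) := by
      intro T hT
      rw [Finset.mem_powersetCard] at hT
      obtain ⟨_, hTR⟩ := hT
      have hU : ∀ c : {x // x ∈ T} → Fin 3,
          (T.attach.biUnion fun k => pr B k.val (c k)).card = 2 * R := by
        intro c
        rw [Finset.card_biUnion]
        · rw [Finset.sum_congr rfl fun k _ => pr_card B k.val (c k) hB, Finset.sum_const,
            Finset.card_attach, hTR, smul_eq_mul, mul_comm]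
        · intro k _ l _ hkl
          exact pr_disj hB (fun h => hkl (Subtype.ext h)) _ _
      refine (ub (PP Q om M) (Finset.univ : Finset ({x // x ∈ T} → Fin 3))
        (fun F => T ⊆ VB B m (sg om F))
        (fun c F => (T.attach.biUnion fun k => pr B k.val (c k)) ⊆ sg om F) (fun F => r ^ mx F)
        (fun _ _ => by positivity) ?_).trans ?_
      · intro F _ hTF
        have h2 : ∀ k : {x // x ∈ T}, ∃ c : Fin 3, pr B k.val c ⊆ sg om F := by
          intro k
          have h3 := hTF k.property
          unfold VB at h3
          rw [Finset.mem_filter] at h3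
          have hk0 : 1 ≤ k.val * (B + 2) + B := by omega
          rcases h3.2 with (h4 | h4) | h4
          · refine ⟨0, ?_⟩
            intro x hx
            unfold pr at hx
            rw [Finset.mem_insert, Finset.mem_singleton] at hx
            rcases hx with hx | hx
            · rw [hx]; simpa using h4.1
            · rw [hx]; simpa using h4.2
          · refine ⟨1, ?_⟩
            intro x hx
            unfold pr at hx
            rw [Finset.mem_insert, Finset.mem_singleton] at hx
            rcases hx with hx | hx
            · rw [hx]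
              have : k.val * (B + 2) + B - 1 + (1 : Fin 3).val = k.val * (B + 2) + B := by
                simp
                omega
              rw [this]
              exact h4.1
            · rw [hx]
              exact h4.2
          · refine ⟨2, ?_⟩
            intro x hx
            unfold pr at hx
            rw [Finset.mem_insert, Finset.mem_singleton] at hx
            rcases hx with hx | hx
            · rw [hx]
              have : k.val * (B + 2) + B - 1 + (2 : Fin 3).val = k.val * (B + 2) + B + 1 := by
                simp
                omega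
              rw [this]
              exact h4.1
            · rw [hx]
              exact h4.2
        choose c hc using h2
        refine ⟨c, Finset.mem_univ _, ?_⟩
        rw [Finset.biUnion_subset]
        exact fun k _ => hc k
      · have h2 : ∀ c ∈ (Finset.univ : Finset ({x // x ∈ T} → Fin 3)),
            ∑ F ∈ (PP Q om M).filter (fun F => (T.attach.biUnion fun k => pr B k.val (c k)) ⊆
              sg om F), r ^ mx F ≤
            (1 - r ^ 3) ^ (2 * R) * (WR Q om r / (1 - r) ^ (N + 1)) := by
          intro c _
          have h := one_set hL M r hr0 hr1 (T.attach.biUnion fun k => pr B k.val (c k))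
          rw [hU c] at h
          exact h
        refine (Finset.sum_le_sum h2).trans (le_of_eq ?_)
        rw [Finset.sum_const, Finset.card_univ, Fintype.card_fun, Fintype.card_fin,
          Fintype.card_coe, hTR, nsmul_eq_mul, mul_pow, ← pow_mul]
        push_cast
        ring
    refine (Finset.sum_le_sum h1).trans (le_of_eq ?_)
    rw [Finset.sum_const, Finset.card_powersetCard, Finset.card_range, nsmul_eq_mul]
    ring

end Pool.IS34c
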