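import Pool.Agent.IS45.Word
import Pool.Agent.IS45.CntS34
import Pool.Agent.IS45.CntVS34

set_option autoImplicit false

/-!
# IS45/Cnt (STUB): few small gaps at the separators
-/

namespace Pool.IS45

open Pool.HB45

open Classical in
/-- PROOF. Union bound over the sets `T ⊆ A` with `R` elements, `sum_up` with `S = T`, `G = LE Q` (`sg ⊆ range N`). -/
theorem cnt_small {N : ℕ} {Q : Rel (N + 1)} {om : Fin (N + 1) → ℕ} (hL : Lab Q om) (M : ℕ) (r : ℝ)
    (hr0 : 0 < r) (hr1 : r < 1) (A : Finset ℕ) (R : ℕ) :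
    ∑ F ∈ (PP Q om M).filter (fun F => R ≤ (sg om F ∩ A).card), r ^ mx F ≤
      (A.card.choose R : ℝ) * (1 - r ^ 3) ^ R * (WR Q om r / (1 - r) ^ (N + 1)) := by
  exact Pool.IS34c.cnt_small hL M r hr0 hr1 A R

open Classical in
/-- PROOF. Union bound over the sets `T` of `R` separators and the choice of one of three pairs of neighbouring gap
indices at each of them (`3^R`): these are `2 R` different gap indices (`B ≥ 3`), `sum_up`. -/
theorem cnt_vb {N B m : ℕ} (hB : 3 ≤ B) {Q : Rel (N + 1)} {om : Fin (N + 1) → ℕ} (hL : Lab Q om)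
    (M : ℕ) (r : ℝ) (hr0 : 0 < r) (hr1 : r < 1) (R : ℕ) :
    ∑ F ∈ (PP Q om M).filter (fun F => R ≤ (VB B m (sg om F)).card), r ^ mx F ≤
      (m.choose R : ℝ) * (3 * (1 - r ^ 3) ^ 2) ^ R * (WR Q om r / (1 - r) ^ (N + 1)) := by
  exact Pool.IS34c.cnt_vb hB hL M r hr0 hr1 R

/-- PROOF. `a.choose R ≤ (e a/R)^R` (`Nat.choose_le_pow_div`, `R! ≥ (R/e)^R`). -/
theorem choose_bd (a R : ℕ) (p : ℝ) (hp : 0 ≤ p) (hR : 1 ≤ R) :
    (a.choose R : ℝ) * p ^ R ≤ (3 * a * p / R) ^ R := by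
  exact Pool.IS9w.choose_bd a R p hp hR

end Pool.IS45
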