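import Pool.Agent.IS45.Defs

set_option autoImplicit false

/-!
# IS45/ConcS25: `des` is concentrated around the cut function
-/

namespace Pool.IS45.ConcS25

open Pool.HB45

theorem mgf_one {T : Type} (S : Finset T) (p d : T → ℝ) (hp : ∀ t ∈ S, 0 ≤ p t) (R lam : ℝ)
    (hd : ∀ t ∈ S, 0 ≤ d t ∧ d t ≤ R) (hlam : |lam| * R ≤ 1) (hS : 0 < ∑ t ∈ S, p t) :
    ∑ t ∈ S, p t * Real.exp (lam * (d t - (∑ t ∈ S, d t * p t) / ∑ t ∈ S, p t)) ≤
      Real.exp (lam ^ 2 * R ^ 2) * ∑ t ∈ S, p t := by
  obtain ⟨P, hP⟩ : ∃ P, P = ∑ t ∈ S, p t := ⟨_, rfl⟩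
  obtain ⟨D, hD⟩ : ∃ D, D = ∑ t ∈ S, d t * p t := ⟨_, rfl⟩
  rw [← hP] at hS ⊢
  rw [← hD]
  have hD0 : 0 ≤ D := by
    rw [hD]
    exact Finset.sum_nonneg fun t ht => mul_nonneg (hd t ht).1 (hp t ht)
  have hD1 : D ≤ R * P := by
    rw [hD, hP, Finset.mul_sum]
    exact Finset.sum_le_sum fun t ht => mul_le_mul_of_nonneg_right (hd t ht).2 (hp t ht)
  have hm0 : 0 ≤ D / P := div_nonneg hD0 hS.le
  have hm1 : D / P ≤ R := by
    rw [div_le_iff₀ hS]
    exact hD1
  have hone : ∀ t ∈ S, p t * Real.exp (lam * (d t - D / P)) ≤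
      p t * (1 + lam * (d t - D / P) + lam ^ 2 * R ^ 2) := by
    intro t ht
    refine mul_le_mul_of_nonneg_left ?_ (hp t ht)
    obtain ⟨h1, h2⟩ := hd t ht
    have h3 : |d t - D / P| ≤ R := by
      rw [abs_le]
      constructor <;> linarith
    have h4 : |lam * (d t - D / P)| ≤ 1 := by
      rw [abs_mul]
      exact (mul_le_mul_of_nonneg_left h3 (abs_nonneg _)).trans hlam
    have h5 := (abs_le.1 (Real.abs_exp_sub_one_sub_id_le h4)).2
    have h6 : (lam * (d t - D / P)) ^ 2 ≤ lam ^ 2 * R ^ 2 := by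
      rw [mul_pow]
      refine mul_le_mul_of_nonneg_left ?_ (sq_nonneg _)
      rw [← sq_abs]
      exact pow_le_pow_left₀ (abs_nonneg _) h3 2
    linarith
  refine (Finset.sum_le_sum hone).trans ?_
  have h7 : ∑ t ∈ S, p t * (1 + lam * (d t - D / P) + lam ^ 2 * R ^ 2) =
      (1 + lam ^ 2 * R ^ 2) * P := by
    have h8 : ∀ t ∈ S, p t * (1 + lam * (d t - D / P) + lam ^ 2 * R ^ 2) =
        (1 + lam ^ 2 * R ^ 2 - lam * (D / P)) * p t + lam * (d t * p t) := by
      intro t _
      ring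
    rw [Finset.sum_congr rfl h8, Finset.sum_add_distrib, ← Finset.mul_sum, ← Finset.mul_sum,
      ← hP, ← hD]
    field_simp
    ring
  rw [h7]
  refine mul_le_mul_of_nonneg_right ?_ hS.le
  have := Real.add_one_le_exp (lam ^ 2 * R ^ 2)
  linarith

variable {N B m : ℕ}

theorem dw_same (hm : m * (B + 2) ≤ N + 1) (om : Fin (N + 1) → ℕ) (k : Fin m)
    (π : Equiv.Perm (Fin (N + 1))) (g τ : Equiv.Perm (Fin (B + 1))) :
    dw hm om k (π * emb (win_le hm k) g) τ = dw hm om k π (g * τ) := by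
  have h1 : (fun i => om ((π * emb (win_le hm k) g) (wpos (win_le hm k) i))) =
      fun i => om (π (wpos (win_le hm k) (g i))) := by
    funext i
    rw [Equiv.Perm.mul_apply, emb_wpos]
  unfold dw
  rw [h1, cB_mul_emb hm, dB_mul_emb hm]
  rfl

theorem dw_other (hm : m * (B + 2) ≤ N + 1) (om : Fin (N + 1) → ℕ) (k l : Fin m) (hkl : k ≠ l)
    (π : Equiv.Perm (Fin (N + 1))) (g τ : Equiv.Perm (Fin (B + 1))) :
    dw hm om l (π * emb (win_le hm k) g) τ = dw hm om l π τ := by
  have hkl' : l.val ≠ k.val := fun h => hkl (Fin.ext h.symm)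
  have h2 : (fun i => om ((π * emb (win_le hm k) g) (wpos (win_le hm l) i))) =
      fun i => om (π (wpos (win_le hm l) i)) := by
    funext i
    have hi := wpos_in (win_le hm l) i
    have hd := win_disj B hkl'
    rw [Equiv.Perm.mul_apply, emb_of_not (win_le hm k) g (wpos (win_le hm l) i) (by omega)]
  unfold dw
  rw [h2, cB_mul_emb hm, dB_mul_emb hm]

theorem mu_other (hm : m * (B + 2) ≤ N + 1) (Q : Rel (N + 1)) (om : Fin (N + 1) → ℕ) (r : ℝ)
    (k l : Fin m) (hkl : k ≠ l) (π : Equiv.Perm (Fin (N + 1))) (g : Equiv.Perm (Fin (B + 1))) :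
    mu hm Q om r l (π * emb (win_le hm k) g) = mu hm Q om r l π := by
  unfold mu
  rw [(GW_win hm Q om π k l hkl g).2.1]
  simp only [dw_other hm om k l hkl]

theorem sum_same (hm : m * (B + 2) ≤ N + 1) (Q : Rel (N + 1)) (om : Fin (N + 1) → ℕ)
    (k : Fin m) {π : Equiv.Perm (Fin (N + 1))} (hπ : π ∈ LE Q) {g : Equiv.Perm (Fin (B + 1))}
    (hg : g ∈ LE (winRel (win_le hm k) Q π)) (f : ℕ → ℝ) :
    ∑ τ ∈ LE (winRel (win_le hm k) Q (π * emb (win_le hm k) g)),
        f (dw hm om k (π * emb (win_le hm k) g) τ) =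
      ∑ τ ∈ LE (winRel (win_le hm k) Q π), f (dw hm om k π τ) := by
  have hm' : π * emb (win_le hm k) g ∈ LE Q := (mul_emb_mem (win_le hm k) π hπ g).2 hg
  refine Finset.sum_bij' (fun g' _ => g * g') (fun g' _ => g⁻¹ * g') ?_ ?_ ?_ ?_ ?_
  · intro g' hg'
    rw [← mul_emb_mem (win_le hm k) _ hm', mul_assoc, ← emb_mul,
      mul_emb_mem (win_le hm k) π hπ] at hg'
    exact hg'
  · intro g' hg'
    rw [← mul_emb_mem (win_le hm k) _ hm', mul_assoc, ← emb_mul,
      mul_emb_mem (win_le hm k) π hπ, mul_inv_cancel_left]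
    exact hg'
  · intro g' _
    exact inv_mul_cancel_left g g'
  · intro g' _
    exact mul_inv_cancel_left g g'
  · intro g' _
    rw [dw_same]

theorem mu_win (hm : m * (B + 2) ≤ N + 1) (Q : Rel (N + 1)) (om : Fin (N + 1) → ℕ) (r : ℝ)
    (k : Fin m) {π : Equiv.Perm (Fin (N + 1))} (hπ : π ∈ LE Q) {g : Equiv.Perm (Fin (B + 1))}
    (hg : g ∈ LE (winRel (win_le hm k) Q π)) :
    mu hm Q om r k (π * emb (win_le hm k) g) = mu hm Q om r k π := by
  unfold mu
  rw [sum_same hm Q om k hπ hg (fun x => (x : ℝ) * r ^ x), sum_same hm Q om k hπ hg (fun x => r ^ x)]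

theorem dw_le (hm : m * (B + 2) ≤ N + 1) (om : Fin (N + 1) → ℕ) (k : Fin m)
    (π : Equiv.Perm (Fin (N + 1))) (τ : Equiv.Perm (Fin (B + 1))) :
    dw hm om k π τ ≤ B + 2 := by
  unfold dw desB
  have h1 : des (fun i => om (π (wpos (win_le hm k) i))) τ ≤ B := by
    unfold des
    exact (Finset.card_le_univ _).trans (by rw [Fintype.card_fin])
  split_ifs <;> omega

theorem conc {N B m : ℕ} (hm : m * (B + 2) ≤ N + 1) (Q : Rel (N + 1)) (om : Fin (N + 1) → ℕ)
    (r lam : ℝ) (hr0 : 0 < r) (hlam : |lam| * ((B : ℝ) + 2) ≤ 1) :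
    ∑ g ∈ LE Q, r ^ des om g * Real.exp (lam * ((des om g : ℝ) - zc hm Q om r g)) ≤
      Real.exp (lam ^ 2 * ((B : ℝ) + 2) ^ 2 * m) * WR Q om r := by
  classical
  obtain ⟨R, hR⟩ : ∃ R : ℝ, R = (B : ℝ) + 2 := ⟨_, rfl⟩
  rw [← hR] at hlam ⊢
  let Y : Fin m → Equiv.Perm (Fin (N + 1)) → ℝ := fun k g => (dw hm om k g 1 : ℝ) - mu hm Q om r k g
  have hY : ∀ g, (des om g : ℝ) - zc hm Q om r g = ∑ k : Fin m, Y k g := by
    intro g
    have h1 := des_eq_sum hm om g
    simp only [Y]
    unfold zc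
    rw [h1, Finset.sum_sub_distrib]
    push_cast
    unfold dw
    ring
  have key : ∀ K : Finset (Fin m),
      ∑ g ∈ LE Q, r ^ des om g * Real.exp (lam * ∑ k ∈ K, Y k g) ≤
        Real.exp (lam ^ 2 * R ^ 2 * K.card) * WR Q om r := by
    intro K
    induction K using Finset.induction_on with
    | empty => simp [WR]
    | insert k K hk ih =>
      obtain ⟨c, hc⟩ : ∃ c : Equiv.Perm (Fin (N + 1)) → ℝ, c = fun g =>
          r ^ ((∑ l ∈ Finset.univ.erase k, dw hm om l g 1) + rest om B m g) *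
            Real.exp (lam * ∑ l ∈ K, Y l g) := ⟨_, rfl⟩
      have hdes : ∀ g, r ^ des om g * Real.exp (lam * ∑ l ∈ K, Y l g) =
          c g * r ^ dw hm om k g 1 := by
        intro g
        have h1 := des_eq_sum hm om g
        have h2 : des om g = (∑ l ∈ Finset.univ.erase k, dw hm om l g 1) + rest om B m g +
            dw hm om k g 1 := by
          rw [h1, ← Finset.sum_erase_add _ _ (Finset.mem_univ k)]
          unfold dw
          ring
        rw [h2, pow_add, hc]
        ring
      have hcinv : ∀ (π : Equiv.Perm (Fin (N + 1))) (τ : Equiv.Perm (Fin (B + 1))),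
          c (π * emb (win_le hm k) τ) = c π := by
        intro π τ
        rw [hc]
        simp only
        have h1 : ∑ l ∈ Finset.univ.erase k, dw hm om l (π * emb (win_le hm k) τ) 1 =
            ∑ l ∈ Finset.univ.erase k, dw hm om l π 1 := by
          refine Finset.sum_congr rfl fun l hl => ?_
          exact dw_other hm om k l (Ne.symm (Finset.ne_of_mem_erase hl)) π τ 1
        have h2 : ∑ l ∈ K, Y l (π * emb (win_le hm k) τ) = ∑ l ∈ K, Y l π := by
          refine Finset.sum_congr rfl fun l hl => ?_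
          have hkl : k ≠ l := fun h => hk (h ▸ hl)
          simp only [Y]
          rw [dw_other hm om k l hkl, mu_other hm Q om r k l hkl]
        have h3 : rest om B m (π * emb (win_le hm k) τ) = rest om B m π := by
          by_cases hex : ∃ l : Fin m, k ≠ l
          · obtain ⟨l, hl⟩ := hex
            exact (GW_win hm Q om π k l hl τ).2.2.2
          · unfold rest
            congr 1
            refine Finset.filter_congr fun p _ => ?_
            refine and_congr_right fun hp => ?_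
            have hk' : (k.val + 1) * (B + 2) ≤ m * (B + 2) := Nat.mul_le_mul_right _ k.isLt
            rw [Nat.add_mul] at hk'
            rw [Equiv.Perm.mul_apply, Equiv.Perm.mul_apply,
              emb_of_not (win_le hm k) τ p.succ (by rw [Fin.val_succ]; omega),
              emb_of_not (win_le hm k) τ p.castSucc (by rw [Fin.val_castSucc]; omega)]
        rw [h1, h2, h3]
      have hc0 : ∀ π, 0 ≤ c π := by
        intro π
        rw [hc]
        exact mul_nonneg (pow_nonneg hr0.le _) (Real.exp_pos _).le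
      have hlhs : ∑ g ∈ LE Q, r ^ des om g * Real.exp (lam * ∑ l ∈ insert k K, Y l g) =
          ∑ g ∈ LE Q, c g * (r ^ dw hm om k g 1 *
            Real.exp (lam * ((dw hm om k g 1 : ℝ) - mu hm Q om r k g))) := by
        refine Finset.sum_congr rfl fun g _ => ?_
        rw [Finset.sum_insert hk, mul_add, Real.exp_add, ← mul_assoc, ← mul_assoc, ← hdes]
        simp only [Y]
        ring
      have hrhs : ∑ g ∈ LE Q, r ^ des om g * Real.exp (lam * ∑ l ∈ K, Y l g) =
          ∑ g ∈ LE Q, c g * r ^ dw hm om k g 1 := Finset.sum_congr rfl fun g _ => hdes g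
      have hstep : ∑ g ∈ LE Q, c g * (r ^ dw hm om k g 1 *
            Real.exp (lam * ((dw hm om k g 1 : ℝ) - mu hm Q om r k g))) ≤
          Real.exp (lam ^ 2 * R ^ 2) * ∑ g ∈ LE Q, c g * r ^ dw hm om k g 1 := by
        rw [avg (win_le hm k) (fun g => c g * (r ^ dw hm om k g 1 *
            Real.exp (lam * ((dw hm om k g 1 : ℝ) - mu hm Q om r k g)))),
          avg (win_le hm k) (fun g => c g * r ^ dw hm om k g 1), Finset.mul_sum]
        refine Finset.sum_le_sum fun π hπ => ?_
        rw [smul_eq_mul, smul_eq_mul, mul_left_comm]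
        refine mul_le_mul_of_nonneg_left ?_ (inv_nonneg.2 (Nat.cast_nonneg _))
        have h1 : ∀ τ ∈ LE (winRel (win_le hm k) Q π),
            c (π * emb (win_le hm k) τ) * (r ^ dw hm om k (π * emb (win_le hm k) τ) 1 *
              Real.exp (lam * ((dw hm om k (π * emb (win_le hm k) τ) 1 : ℝ) -
                mu hm Q om r k (π * emb (win_le hm k) τ)))) =
            c π * (r ^ dw hm om k π τ * Real.exp (lam * ((dw hm om k π τ : ℝ) -
                mu hm Q om r k π))) := by
          intro τ hτ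
          rw [hcinv, dw_same, mul_one, mu_win hm Q om r k hπ hτ]
        have h2 : ∀ τ ∈ LE (winRel (win_le hm k) Q π),
            c (π * emb (win_le hm k) τ) * r ^ dw hm om k (π * emb (win_le hm k) τ) 1 =
            c π * r ^ dw hm om k π τ := by
          intro τ _
          rw [hcinv, dw_same, mul_one]
        rw [Finset.sum_congr rfl h1, Finset.sum_congr rfl h2, ← Finset.mul_sum, ← Finset.mul_sum,
          mul_left_comm]
        refine mul_le_mul_of_nonneg_left ?_ (hc0 π)
        have hone := one_mem_winRel (win_le hm k) π hπ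
        have hpos : 0 < ∑ τ ∈ LE (winRel (win_le hm k) Q π), r ^ dw hm om k π τ :=
          Finset.sum_pos (fun τ _ => pow_pos hr0 _) ⟨1, hone⟩
        exact mgf_one (LE (winRel (win_le hm k) Q π)) (fun τ => r ^ dw hm om k π τ)
          (fun τ => (dw hm om k π τ : ℝ)) (fun τ _ => pow_nonneg hr0.le _) R lam
          (fun τ _ => ⟨Nat.cast_nonneg _, by
            rw [hR]
            exact_mod_cast dw_le hm om k π τ⟩) hlam hpos
      rw [hlhs]
      refine hstep.trans ?_
      rw [← hrhs, Finset.card_insert_of_notMem hk]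
      calc Real.exp (lam ^ 2 * R ^ 2) * ∑ g ∈ LE Q, r ^ des om g * Real.exp (lam * ∑ l ∈ K, Y l g)
          ≤ Real.exp (lam ^ 2 * R ^ 2) * (Real.exp (lam ^ 2 * R ^ 2 * K.card) * WR Q om r) :=
            mul_le_mul_of_nonneg_left ih (Real.exp_pos _).le
        _ = Real.exp (lam ^ 2 * R ^ 2 * (K.card + 1 : ℕ)) * WR Q om r := by
            rw [← mul_assoc, ← Real.exp_add]
            congr 2
            push_cast
            ring
  have h := key Finset.univ
  rw [Finset.card_univ, Fintype.card_fin] at h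
  simp only [hY]
  exact h

end Pool.IS45.ConcS25
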