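import Mathlib

set_option autoImplicit false

/-!
# IS45/ConcS48: moment generating function of a bounded weighted variable
-/

namespace Pool.IS45

open Finset

theorem mgf_one48 {T : Type} (S : Finset T) (p d : T → ℝ) (hp : ∀ t ∈ S, 0 ≤ p t) (R lam : ℝ)
    (hd : ∀ t ∈ S, 0 ≤ d t ∧ d t ≤ R) (hlam : |lam| * R ≤ 1) (hS : 0 < ∑ t ∈ S, p t) :
    ∑ t ∈ S, p t * Real.exp (lam * (d t - (∑ t ∈ S, d t * p t) / ∑ t ∈ S, p t)) ≤
      Real.exp (lam ^ 2 * R ^ 2) * ∑ t ∈ S, p t := by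
  set P : ℝ := ∑ t ∈ S, p t with hP
  set M : ℝ := (∑ t ∈ S, d t * p t) / P with hM
  have hMP : ∑ t ∈ S, d t * p t = M * P := by
    rw [hM, div_mul_cancel₀ _ hS.ne']
  have hM0 : 0 ≤ M := div_nonneg (sum_nonneg fun t ht => mul_nonneg (hd t ht).1 (hp t ht)) hS.le
  have hMR : M ≤ R := by
    rw [hM, div_le_iff₀ hS, hP, mul_sum]
    exact sum_le_sum fun t ht => mul_le_mul_of_nonneg_right (hd t ht).2 (hp t ht)
  have hR0 : 0 ≤ R := hM0.trans hMR
  have hterm : ∀ t ∈ S, p t * Real.exp (lam * (d t - M)) ≤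
      p t * (1 + lam ^ 2 * R ^ 2) + (lam * (d t * p t) - lam * M * p t) := by
    intro t ht
    have h1 : |d t - M| ≤ R := by
      rw [abs_le]
      constructor <;> linarith [(hd t ht).1, (hd t ht).2]
    have h2 : |lam * (d t - M)| ≤ |lam| * R := by
      rw [abs_mul]
      exact mul_le_mul_of_nonneg_left h1 (abs_nonneg _)
    have h3 := (abs_le.1 (Real.abs_exp_sub_one_sub_id_le (h2.trans hlam))).2
    have h4 : (lam * (d t - M)) ^ 2 ≤ lam ^ 2 * R ^ 2 := by
      rw [← mul_pow, ← sq_abs (lam * (d t - M)), ← sq_abs (lam * R), abs_mul lam R,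
        abs_of_nonneg hR0]
      exact pow_le_pow_left₀ (abs_nonneg _) h2 2
    have h5 : Real.exp (lam * (d t - M)) ≤ (1 + lam ^ 2 * R ^ 2) + lam * (d t - M) := by linarith
    have h6 := mul_le_mul_of_nonneg_left h5 (hp t ht)
    calc _ ≤ _ := h6
      _ = _ := by ring
  have hsum := sum_le_sum hterm
  have e : ∑ t ∈ S, (p t * (1 + lam ^ 2 * R ^ 2) + (lam * (d t * p t) - lam * M * p t)) =
      (1 + lam ^ 2 * R ^ 2) * P := by
    rw [sum_add_distrib, sum_sub_distrib, ← sum_mul, ← mul_sum, ← mul_sum, hMP, ← hP]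
    ring
  rw [e] at hsum
  refine hsum.trans (mul_le_mul_of_nonneg_right ?_ hS.le)
  have := Real.add_one_le_exp (lam ^ 2 * R ^ 2)
  linarith

end Pool.IS45
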