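import Mathlib

set_option autoImplicit false

/-!
# IS45/TailS29: exponential moments and tails of weighted sums (for `mgf_one`, `conc_tail`)
-/

namespace Pool.IS45

/-- a bounded weighted variable -/
theorem mgf_one_S29 {T : Type} (S : Finset T) (p d : T → ℝ) (hp : ∀ t ∈ S, 0 ≤ p t) (R lam : ℝ)
    (hd : ∀ t ∈ S, 0 ≤ d t ∧ d t ≤ R) (hlam : |lam| * R ≤ 1) (hS : 0 < ∑ t ∈ S, p t) :
    ∑ t ∈ S, p t * Real.exp (lam * (d t - (∑ t ∈ S, d t * p t) / ∑ t ∈ S, p t)) ≤
      Real.exp (lam ^ 2 * R ^ 2) * ∑ t ∈ S, p t := by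
  obtain ⟨P, hP⟩ : ∃ P, P = ∑ t ∈ S, p t := ⟨_, rfl⟩
  obtain ⟨M, hM⟩ : ∃ M, M = (∑ t ∈ S, d t * p t) / P := ⟨_, rfl⟩
  rw [← hP, ← hM]
  rw [← hP] at hS
  have hMP : M * P = ∑ t ∈ S, d t * p t := by
    rw [hM, div_mul_cancel₀ _ hS.ne']
  have hM0 : 0 ≤ M := by
    rw [hM]
    exact div_nonneg (Finset.sum_nonneg fun t ht => mul_nonneg (hd t ht).1 (hp t ht)) hS.le
  have hMR : M ≤ R := by
    rw [hM, div_le_iff₀ hS, hP, Finset.mul_sum]
    exact Finset.sum_le_sum fun t ht => mul_le_mul_of_nonneg_right (hd t ht).2 (hp t ht)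
  have hR : 0 ≤ R := hM0.trans hMR
  have hdm : ∀ t ∈ S, |d t - M| ≤ R := by
    intro t ht
    have := hd t ht
    rw [abs_le]
    constructor <;> linarith
  have hone : ∀ t ∈ S, p t * Real.exp (lam * (d t - M)) ≤
      p t * (1 + lam * (d t - M) + lam ^ 2 * R ^ 2) := by
    intro t ht
    refine mul_le_mul_of_nonneg_left ?_ (hp t ht)
    have h1 : |lam * (d t - M)| ≤ 1 := by
      rw [abs_mul]
      exact (mul_le_mul_of_nonneg_left (hdm t ht) (abs_nonneg _)).trans hlam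
    have h2 := Real.abs_exp_sub_one_sub_id_le h1
    have h3 : (lam * (d t - M)) ^ 2 ≤ lam ^ 2 * R ^ 2 := by
      rw [mul_pow]
      refine mul_le_mul_of_nonneg_left ?_ (sq_nonneg _)
      rw [← sq_abs]
      exact pow_le_pow_left₀ (abs_nonneg _) (hdm t ht) 2
    have h4 := (abs_le.1 h2).2
    linarith
  calc ∑ t ∈ S, p t * Real.exp (lam * (d t - M))
      ≤ ∑ t ∈ S, p t * (1 + lam * (d t - M) + lam ^ 2 * R ^ 2) := Finset.sum_le_sum hone
    _ = (1 + lam ^ 2 * R ^ 2) * P := by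
        have h5 : ∀ t ∈ S, p t * (1 + lam * (d t - M) + lam ^ 2 * R ^ 2) =
            (1 - lam * M + lam ^ 2 * R ^ 2) * p t + lam * (d t * p t) := by
          intro t _
          ring
        rw [Finset.sum_congr rfl h5, Finset.sum_add_distrib, ← Finset.mul_sum, ← Finset.mul_sum,
          ← hMP, ← hP]
        ring
    _ ≤ Real.exp (lam ^ 2 * R ^ 2) * P := by
        refine mul_le_mul_of_nonneg_right ?_ hS.le
        have := Real.add_one_le_exp (lam ^ 2 * R ^ 2)
        linarith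

open Classical in
/-- a tail bound from the exponential moments; `c = B + 2` -/
theorem tail_S29 {T : Type} (L : Finset T) (w X : T → ℝ) (hw : ∀ g ∈ L, 0 ≤ w g) (W c m a : ℝ)
    (hc : 0 < c) (hm : 0 < m)
    (h : ∀ lam : ℝ, |lam| * c ≤ 1 → ∑ g ∈ L, w g * Real.exp (lam * X g) ≤
      Real.exp (lam ^ 2 * c ^ 2 * m) * W) (ha0 : 0 ≤ a) (ha : a ≤ 2 * c * m) :
    ∑ g ∈ L.filter (fun g => a ≤ |X g|), w g ≤
      2 * Real.exp (-(a ^ 2 / (4 * c ^ 2 * m))) * W := by
  obtain ⟨lam, hlam⟩ : ∃ lam, lam = a / (2 * c ^ 2 * m) := ⟨_, rfl⟩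
  have hl0 : 0 ≤ lam := by rw [hlam]; positivity
  have hl1 : |lam| * c ≤ 1 := by
    rw [abs_of_nonneg hl0, hlam, div_mul_eq_mul_div, div_le_one (by positivity)]
    nlinarith
  have h1 := h lam hl1
  have h2 := h (-lam) (by rwa [abs_neg])
  have hex : lam ^ 2 * c ^ 2 * m - lam * a = -(a ^ 2 / (4 * c ^ 2 * m)) := by
    rw [hlam]
    field_simp
    ring
  have hpt : ∀ g ∈ L.filter (fun g => a ≤ |X g|), w g ≤ Real.exp (-(lam * a)) *
      (w g * Real.exp (lam * X g) + w g * Real.exp (-lam * X g)) := by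
    intro g hg
    obtain ⟨hgL, hga⟩ := Finset.mem_filter.1 hg
    have h3 : 1 ≤ Real.exp (-(lam * a)) * (Real.exp (lam * X g) + Real.exp (-lam * X g)) := by
      rw [mul_add, ← Real.exp_add, ← Real.exp_add]
      rcases le_abs.1 hga with h4 | h4
      · have h5 : 0 ≤ -(lam * a) + lam * X g := by nlinarith
        have h6 := Real.one_le_exp h5
        have h7 := Real.exp_pos (-(lam * a) + -lam * X g)
        linarith
      · have h5 : 0 ≤ -(lam * a) + -lam * X g := by nlinarith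
        have h6 := Real.one_le_exp h5
        have h7 := Real.exp_pos (-(lam * a) + lam * X g)
        linarith
    have h8 := mul_le_mul_of_nonneg_left h3 (hw g hgL)
    calc w g = w g * 1 := (mul_one _).symm
      _ ≤ _ := h8
      _ = _ := by ring
  calc ∑ g ∈ L.filter (fun g => a ≤ |X g|), w g
      ≤ ∑ g ∈ L.filter (fun g => a ≤ |X g|), Real.exp (-(lam * a)) *
        (w g * Real.exp (lam * X g) + w g * Real.exp (-lam * X g)) := Finset.sum_le_sum hpt
    _ ≤ ∑ g ∈ L, Real.exp (-(lam * a)) *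
        (w g * Real.exp (lam * X g) + w g * Real.exp (-lam * X g)) := by
        refine Finset.sum_le_sum_of_subset_of_nonneg (Finset.filter_subset _ _) ?_
        intro g hg _
        have := hw g hg
        positivity
    _ = Real.exp (-(lam * a)) * (∑ g ∈ L, w g * Real.exp (lam * X g) +
          ∑ g ∈ L, w g * Real.exp (-lam * X g)) := by
        rw [← Finset.mul_sum, Finset.sum_add_distrib]
    _ ≤ Real.exp (-(lam * a)) * (Real.exp (lam ^ 2 * c ^ 2 * m) * W +
          Real.exp ((-lam) ^ 2 * c ^ 2 * m) * W) := by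
        refine mul_le_mul_of_nonneg_left (add_le_add h1 h2) (Real.exp_pos _).le
    _ = 2 * (Real.exp (lam ^ 2 * c ^ 2 * m) * Real.exp (-(lam * a))) * W := by
        rw [neg_sq]
        ring
    _ = 2 * Real.exp (-(a ^ 2 / (4 * c ^ 2 * m))) * W := by
        rw [← Real.exp_add, ← sub_eq_add_neg, hex]

end Pool.IS45
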