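import Pool.Agent.IS45.Mu
import Pool.Agent.IS45.TailS29
import Pool.Agent.IS45.ConcS48
import Pool.Agent.IS45.ConcS25

set_option autoImplicit false

/-!
# IS45/Conc (STUB): `des` is concentrated around the cut function
-/

namespace Pool.IS45

open Pool.HB45

/-- a bounded weighted variable. PROOF. `e^u ≤ 1 + u + u²` for `|u| ≤ 1`, `u = lam (d - mean)`, `1 + v ≤ e^v`. -/
theorem mgf_one {T : Type} (S : Finset T) (p d : T → ℝ) (hp : ∀ t ∈ S, 0 ≤ p t) (R lam : ℝ)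
    (hd : ∀ t ∈ S, 0 ≤ d t ∧ d t ≤ R) (hlam : |lam| * R ≤ 1) (hS : 0 < ∑ t ∈ S, p t) :
    ∑ t ∈ S, p t * Real.exp (lam * (d t - (∑ t ∈ S, d t * p t) / ∑ t ∈ S, p t)) ≤
      Real.exp (lam ^ 2 * R ^ 2) * ∑ t ∈ S, p t :=
  mgf_one48 S p d hp R lam hd hlam hS

/-- PROOF. Induction over the set `K` of windows already treated, `HB45.avg` for one window, `HB45.des_eq_sum`, `desB_win`,
`GW_win` (the other windows, their means and `rest` are not changed), `mu` is a class function; template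
`HB45.win_decomp`, `TA43/SysW45`. -/
theorem conc {N B m : ℕ} (hm : m * (B + 2) ≤ N + 1) (Q : Rel (N + 1)) (om : Fin (N + 1) → ℕ)
    (r lam : ℝ) (hr0 : 0 < r) (hr1 : r ≤ 1) (hlam : |lam| * ((B : ℝ) + 2) ≤ 1) :
    ∑ g ∈ LE Q, r ^ des om g * Real.exp (lam * ((des om g : ℝ) - zc hm Q om r g)) ≤
      Real.exp (lam ^ 2 * ((B : ℝ) + 2) ^ 2 * m) * WR Q om r := by
  exact ConcS25.conc hm Q om r lam hr0 hlam

open Classical in
/-- PROOF. `conc` with `± lam`, `lam = a/(2 (B+2)^2 m)`. -/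
theorem conc_tail {N B m : ℕ} (hm : m * (B + 2) ≤ N + 1) (hm0 : 0 < m) (Q : Rel (N + 1))
    (om : Fin (N + 1) → ℕ) (r a : ℝ) (hr0 : 0 < r) (hr1 : r ≤ 1) (ha0 : 0 ≤ a)
    (ha : a ≤ 2 * ((B : ℝ) + 2) * m) :
    ∑ g ∈ (LE Q).filter (fun g => a ≤ |(des om g : ℝ) - zc hm Q om r g|), r ^ des om g ≤
      2 * Real.exp (-(a ^ 2 / (4 * ((B : ℝ) + 2) ^ 2 * m))) * WR Q om r := by
  exact tail_S29 (LE Q) (fun g => r ^ des om g) (fun g => (des om g : ℝ) - zc hm Q om r g)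
    (fun g _ => pow_nonneg hr0.le _) (WR Q om r) ((B : ℝ) + 2) m a (by positivity)
    (by exact_mod_cast hm0) (fun lam h => conc hm Q om r lam hr0 hr1 h) ha0 ha

end Pool.IS45
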