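import Pool.Agent.HB45.Win
import Pool.Agent.NL25.Defs

set_option autoImplicit false

/-!
# IS45/Defs: no gaps in the tilted law (MP_dcdbc5_co, note 3657), definitions

`om` is any injective labelling (natural: `des om` = descents; reversed: `des om` = ascents).
-/

namespace Pool.IS45

open Pool.HB45

/-- the outputs `T_j (x, y)`, `j < 2^l`: `T (l+1) (2i) = floor ((x + T l i)/2)`, `T (l+1) (2i+1) = ceil` -/
def TT : ℕ → ℕ → ℕ → ℕ → ℕ
  | 0, _, _, y => y
  | l + 1, j, x, y => (x + TT l (j / 2) x y + j % 2) / 2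

/-- entropy of `V` on the atoms `0, …, n - 1` with masses `q`, values in `{0, …, m}` -/
noncomputable def En (m n : ℕ) (V : ℕ → ℕ) (q : ℕ → ℝ) : ℝ :=
  ∑ v ∈ Finset.range (m + 1), Real.negMulLog (∑ i ∈ (Finset.range n).filter (fun i => V i = v), q i)

/-- the box `{0, …, m}^n` -/
def Box (n m : ℕ) : Finset (Fin n → ℕ) := Fintype.piFinset fun _ => Finset.range (m + 1)

theorem mem_Box {n m : ℕ} {F : Fin n → ℕ} : F ∈ Box n m ↔ ∀ a, F a ≤ m := by
  unfold Box
  simp [Fintype.mem_piFinset]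

open Classical in
/-- the `(Q, om)`-partitions with values `≤ m` -/
noncomputable def PP {n : ℕ} (Q : Rel n) (om : Fin n → ℕ) (m : ℕ) : Finset (Fin n → ℕ) :=
  (Box n m).filter fun F => ∀ a b, Q a b → F a + (if om b < om a then 1 else 0) ≤ F b

theorem mem_PP {n : ℕ} {Q : Rel n} {om : Fin n → ℕ} {m : ℕ} {F : Fin n → ℕ} :
    F ∈ PP Q om m ↔ (∀ a, F a ≤ m) ∧ ∀ a b, Q a b → F a + (if om b < om a then 1 else 0) ≤ F b := by
  classical
  unfold PP
  rw [Finset.mem_filter, mem_Box]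

/-- the largest value -/
def mx {n : ℕ} (F : Fin n → ℕ) : ℕ := Finset.univ.sup F

/-- sup-distance at most one -/
def Near {n : ℕ} (F G : Fin n → ℕ) : Prop := ∀ a, F a ≤ G a + 1 ∧ G a ≤ F a + 1

/-- the letters sorted by `(F, om)` -/
def word {n : ℕ} (om : Fin n → ℕ) (F : Fin n → ℕ) : Equiv.Perm (Fin n) :=
  Tuple.sort fun a => toLex (F a, om a)

/-- the small gaps of the word of `F`: indices `i` with `F (w (i+1)) ≤ F (w i) + 2` -/
def sg {N : ℕ} (om : Fin (N + 1) → ℕ) (F : Fin (N + 1) → ℕ) : Finset ℕ :=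
  (Finset.univ.filter fun i : Fin N =>
    F (word om F i.succ) ≤ F (word om F i.castSucc) + 2).image fun i => i.val

/-- weighted number of linear extensions -/
noncomputable def WR {N : ℕ} (Q : Rel (N + 1)) (om : Fin (N + 1) → ℕ) (r : ℝ) : ℝ :=
  ∑ g ∈ LE Q, r ^ des om g

/-! ### windows: `B + 1` positions, then a separator -/

variable {N B m : ℕ}

/-- number of descents of window `k` after the rearrangement `τ` -/
def dw (hm : m * (B + 2) ≤ N + 1) (om : Fin (N + 1) → ℕ) (k : Fin m)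
    (π : Equiv.Perm (Fin (N + 1))) (τ : Equiv.Perm (Fin (B + 1))) : ℕ :=
  desB (fun i => om (π (wpos (win_le hm k) i))) (cB om B k.val π) (dB om B k.val π) τ

/-- mean number of descents of window `k` in the tilt `r` -/
noncomputable def mu (hm : m * (B + 2) ≤ N + 1) (Q : Rel (N + 1)) (om : Fin (N + 1) → ℕ) (r : ℝ)
    (k : Fin m) (π : Equiv.Perm (Fin (N + 1))) : ℝ :=
  (∑ τ ∈ LE (winRel (win_le hm k) Q π), (dw hm om k π τ : ℝ) * r ^ dw hm om k π τ) /
    ∑ τ ∈ LE (winRel (win_le hm k) Q π), r ^ dw hm om k π τ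

/-- the same without tilt and without the separators -/
noncomputable def e0 (hm : m * (B + 2) ≤ N + 1) (Q : Rel (N + 1)) (om : Fin (N + 1) → ℕ)
    (k : Fin m) (π : Equiv.Perm (Fin (N + 1))) : ℝ :=
  (∑ τ ∈ LE (winRel (win_le hm k) Q π), (des (fun i => om (π (wpos (win_le hm k) i))) τ : ℝ)) /
    (LE (winRel (win_le hm k) Q π)).card

/-- the cut function -/
noncomputable def zc (hm : m * (B + 2) ≤ N + 1) (Q : Rel (N + 1)) (om : Fin (N + 1) → ℕ) (r : ℝ)
    (π : Equiv.Perm (Fin (N + 1))) : ℝ :=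
  (∑ k : Fin m, mu hm Q om r k π) + rest om B m π

/-- letters of window `k` -/
def ct (hm : m * (B + 2) ≤ N + 1) (k : Fin m) (π : Equiv.Perm (Fin (N + 1))) :
    Finset (Fin (N + 1)) :=
  Finset.univ.image fun i => π (wpos (win_le hm k) i)

/-- `om` is a natural labelling of `Q` or a reversed one -/
def Lab {n : ℕ} (Q : Rel n) (om : Fin n → ℕ) : Prop :=
  Function.Injective om ∧ ((∀ a b, Q a b → om a < om b) ∨ ∀ a b, Q a b → om b < om a)

/-- gap indices at the separator behind window `k`: `e`, `e + 1` with `e = k (B + 2) + B` -/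
def Lam (B m : ℕ) : Finset ℕ :=
  (Finset.range m).image (fun k => k * (B + 2) + B) ∪
    (Finset.range m).image (fun k => k * (B + 2) + B + 1)

/-- very bad separators -/
def VB (B m : ℕ) (S : Finset ℕ) : Finset ℕ :=
  (Finset.range m).filter fun k =>
    ((k * (B + 2) + B - 1 ∈ S ∧ k * (B + 2) + B ∈ S) ∨
      (k * (B + 2) + B ∈ S ∧ k * (B + 2) + B + 1 ∈ S)) ∨
      (k * (B + 2) + B + 1 ∈ S ∧ k * (B + 2) + B + 2 ∈ S)

end Pool.IS45
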