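import Pool.Agent.IS45.DimS38

set_option autoImplicit false

/-!
# IS45/Dim: dimension `n`

Proof in `DimS38`: induction on `n`. `n = 0`: one point. `n + 1`: `Fin.cons`.
-/

namespace Pool.IS45

theorem sum_Box_succ {M : Type} [AddCommMonoid M] (n m : ℕ) (f : (Fin (n + 1) → ℕ) → M) :
    ∑ x ∈ Box (n + 1) m, f x =
      ∑ a ∈ Finset.range (m + 1), ∑ x ∈ Box n m, f (Fin.cons a x) :=
  sum_Box_succ_S38 n m f

theorem dim (m l : ℕ) (n : ℕ) (f g : (Fin n → ℕ) → ℝ) (h : ℕ → (Fin n → ℕ) → ℝ)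
    (hf : ∀ x, 0 ≤ f x) (hg : ∀ x, 0 ≤ g x) (hh : ∀ j z, 0 ≤ h j z)
    (H : ∀ x ∈ Box n m, ∀ y ∈ Box n m, f x ^ (2 ^ l - 1) * g y ≤
      ∏ j ∈ Finset.range (2 ^ l), h j (fun i => TT l j (x i) (y i))) :
    (∑ x ∈ Box n m, f x) ^ (2 ^ l - 1) * ∑ y ∈ Box n m, g y ≤
      ∏ j ∈ Finset.range (2 ^ l), ∑ z ∈ Box n m, h j z :=
  dim_S38 m l n f g h hf hg hh H

end Pool.IS45
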