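import Pool.Agent.IS45.One

set_option autoImplicit false

/-!
# IS45/DimS38: dimension `n`, proof (helper38)
-/

namespace Pool.IS45

theorem sum_Box_succ_S38 {M : Type} [AddCommMonoid M] (n m : ℕ) (f : (Fin (n + 1) → ℕ) → M) :
    ∑ x ∈ Box (n + 1) m, f x =
      ∑ a ∈ Finset.range (m + 1), ∑ x ∈ Box n m, f (Fin.cons a x) := by
  rw [← Finset.sum_product' (Finset.range (m + 1)) (Box n m) (fun a x => f (Fin.cons a x))]
  refine Finset.sum_nbij' (fun x => (x 0, Fin.tail x)) (fun p => Fin.cons p.1 p.2) ?_ ?_ ?_ ?_ ?_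
  · intro x hx
    rw [mem_Box] at hx
    rw [Finset.mem_product, Finset.mem_range, mem_Box]
    exact ⟨Nat.lt_succ_of_le (hx 0), fun a => hx a.succ⟩
  · intro p hp
    rw [Finset.mem_product, Finset.mem_range, mem_Box] at hp
    rw [mem_Box]
    intro a
    refine Fin.cases ?_ (fun i => ?_) a
    · simpa using Nat.le_of_lt_succ hp.1
    · simpa using hp.2 i
  · intro x _
    exact Fin.cons_self_tail x
  · intro p _
    simp
  · intro x _
    simp only [Fin.cons_self_tail]

theorem dim_S38 (m l : ℕ) (n : ℕ) : ∀ (f g : (Fin n → ℕ) → ℝ) (h : ℕ → (Fin n → ℕ) → ℝ),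
    (∀ x, 0 ≤ f x) → (∀ x, 0 ≤ g x) → (∀ j z, 0 ≤ h j z) →
    (∀ x ∈ Box n m, ∀ y ∈ Box n m, f x ^ (2 ^ l - 1) * g y ≤
      ∏ j ∈ Finset.range (2 ^ l), h j (fun i => TT l j (x i) (y i))) →
    (∑ x ∈ Box n m, f x) ^ (2 ^ l - 1) * ∑ y ∈ Box n m, g y ≤
      ∏ j ∈ Finset.range (2 ^ l), ∑ z ∈ Box n m, h j z := by
  induction n with
  | zero =>
    intro f g h hf hg hh H
    have hB : Box 0 m = {fun i => i.elim0} := by
      ext x
      rw [mem_Box, Finset.mem_singleton]
      constructor
      · intro _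
        funext i
        exact i.elim0
      · intro _ i
        exact i.elim0
    have he : ∀ x : Fin 0 → ℕ, x = fun i => i.elim0 := fun x => funext fun i => i.elim0
    simp only [hB, Finset.sum_singleton]
    refine (H _ (by rw [hB]; simp) _ (by rw [hB]; simp)).trans_eq ?_
    refine Finset.prod_congr rfl fun j _ => ?_
    congr 1
    exact he _
  | succ n ih =>
    intro f g h hf hg hh H
    simp only [sum_Box_succ_S38]
    refine one_dim m l (fun a => ∑ x ∈ Box n m, f (Fin.cons a x))
      (fun a => ∑ x ∈ Box n m, g (Fin.cons a x)) (fun j a => ∑ x ∈ Box n m, h j (Fin.cons a x))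
      (fun a => Finset.sum_nonneg fun x _ => hf _) (fun a => Finset.sum_nonneg fun x _ => hg _)
      (fun j a => Finset.sum_nonneg fun x _ => hh j _) ?_
    intro a ha b hb
    refine ih (fun x => f (Fin.cons a x)) (fun x => g (Fin.cons b x))
      (fun j x => h j (Fin.cons (TT l j a b) x)) (fun x => hf _) (fun x => hg _)
      (fun j x => hh j _) ?_
    intro x hx y hy
    have hcons : ∀ c : ℕ, c ≤ m → ∀ z ∈ Box n m, (Fin.cons c z : Fin (n + 1) → ℕ) ∈ Box (n + 1) m := by
      intro c hc z hz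
      rw [mem_Box] at hz ⊢
      intro i
      refine Fin.cases ?_ (fun i => ?_) i
      · simpa using hc
      · simpa using hz i
    refine (H _ (hcons a ha x hx) _ (hcons b hb y hy)).trans_eq ?_
    refine Finset.prod_congr rfl fun j _ => ?_
    congr 1
    funext i
    refine Fin.cases ?_ (fun i => ?_) i
    · simp
    · simp

end Pool.IS45
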