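import Pool.Agent.IS45.Defs

set_option autoImplicit false

/-!
# IS45/DropS48: forgetting the relations of one letter multiplies the number of linear extensions by at most `n`
-/

namespace Pool.IS45

open Pool.HB45 Finset

/-- `Q` without the relations of the letter `a` -/
def drop {n : ℕ} (Q : Rel n) (a : Fin n) : Rel n := fun c d => (Q c d ∧ c ≠ a) ∧ d ≠ a

/-- a permutation of `Fin n` which fixes `p` and is monotone elsewhere is the identity -/
theorem fix_eq_one {n : ℕ} (ρ : Equiv.Perm (Fin n)) (p : Fin n) (hp : ρ p = p)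
    (hm : ∀ c d, c ≠ p → d ≠ p → (c < d ↔ ρ c < ρ d)) : ρ = 1 := by
  have hne : ∀ x : Fin n, x ≠ p ↔ ρ x ≠ p := by
    intro x
    constructor
    · intro h h'
      exact h (ρ.injective (h'.trans hp.symm))
    · intro h h'
      exact h (h' ▸ hp)
  let e : {x : Fin n // x ≠ p} ≃o {x : Fin n // x ≠ p} :=
    { toEquiv := ρ.subtypeEquiv hne
      map_rel_iff' := by
        intro x y
        have h1 := hm y.1 x.1 y.2 x.2
        change ρ x.1 ≤ ρ y.1 ↔ x.1 ≤ y.1
        rw [← not_lt, ← not_lt, ← h1] }
  have he : e = OrderIso.refl _ := Subsingleton.elim _ _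
  ext x
  by_cases hx : x = p
  · subst hx
    rw [hp]
    rfl
  · have h2 : e ⟨x, hx⟩ = ⟨x, hx⟩ := by rw [he]; rfl
    have h3 : ρ x = x := congrArg Subtype.val h2
    rw [h3]
    rfl

section one

variable {n : ℕ} (Q : Rel n) (a : Fin n) (g : Equiv.Perm (Fin n))

open Classical in
/-- the place of `a` in the canonical insertion -/
noncomputable def pla : ℕ := univ.sup fun c : Fin n => if Q c a then 2 * (g.symm c).val + 2 else 0

open Classical in
/-- keys of the canonical insertion -/
noncomputable def key (c : Fin n) : ℕ := if c = a then pla Q a g else 2 * (g.symm c).val + 1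

theorem pla_even : pla Q a g % 2 = 0 := by
  classical
  unfold pla
  refine Finset.sup_induction (p := fun k => k % 2 = 0) (by simp) ?_ ?_
  · intro x hx y hy
    rcases le_total x y with h | h
    · rw [sup_eq_right.2 h]
      exact hy
    · rw [sup_eq_left.2 h]
      exact hx
  · intro c _
    split_ifs <;> omega

theorem key_inj : Function.Injective (key Q a g) := by
  intro c d h
  unfold key at h
  have h0 := pla_even Q a g
  by_cases hc : c = a
  · by_cases hd : d = a
    · rw [hc, hd]
    · rw [if_pos hc, if_neg hd] at h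
      omega
  · by_cases hd : d = a
    · rw [if_neg hc, if_pos hd] at h
      omega
    · rw [if_neg hc, if_neg hd] at h
      have h1 : g.symm c = g.symm d := Fin.ext (by omega)
      exact g.symm.injective h1

/-- the canonical insertion -/
noncomputable def ins : Equiv.Perm (Fin n) := Tuple.sort (key Q a g)

theorem ins_lt (i j : Fin n) : i < j ↔ key Q a g (ins Q a g i) < key Q a g (ins Q a g j) := by
  have hm : StrictMono (key Q a g ∘ ins Q a g) :=
    (Tuple.monotone_sort (key Q a g)).strictMono_of_injective
      ((key_inj Q a g).comp (ins Q a g).injective)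
  exact (hm.lt_iff_lt).symm

theorem ins_symm_lt (c d : Fin n) :
    (ins Q a g).symm c < (ins Q a g).symm d ↔ key Q a g c < key Q a g d := by
  rw [ins_lt Q a g]
  simp

end one

theorem ins_mem {n : ℕ} {Q : Rel n} (htr : ∀ a b c, Q a b → Q b c → Q a c) (hirr : ∀ a, ¬ Q a a)
    (a : Fin n) {g : Equiv.Perm (Fin n)} (hg : g ∈ LE (drop Q a)) : ins Q a g ∈ LE Q := by
  classical
  rw [mem_LE] at hg ⊢
  intro i j hij
  rw [ins_lt Q a g]
  set c := ins Q a g i
  set d := ins Q a g j
  have hpos : ∀ c d, c ≠ a → d ≠ a → Q c d → g.symm c < g.symm d := by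
    intro c d hc hd h
    apply hg
    simp only [Equiv.apply_symm_apply]
    exact ⟨⟨h, hc⟩, hd⟩
  by_cases hc : c = a
  · by_cases hd : d = a
    · rw [hc, hd] at hij
      exact absurd hij (hirr a)
    · unfold key
      rw [if_pos hc, if_neg hd]
      have h1 : pla Q a g ≤ 2 * (g.symm d).val := by
        unfold pla
        refine Finset.sup_le fun e _ => ?_
        split_ifs with he
        · have hea : e ≠ a := fun h => hirr a (h ▸ he)
          rw [hc] at hij
          have h2 := Fin.lt_def.1 (hpos e d hea hd (htr _ _ _ he hij))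
          omega
        · exact Nat.zero_le _
      omega
  · by_cases hd : d = a
    · unfold key
      rw [if_neg hc, if_pos hd]
      rw [hd] at hij
      have h1 : (if Q c a then 2 * (g.symm c).val + 2 else 0) ≤ pla Q a g := by
        unfold pla
        exact Finset.le_sup (f := fun c : Fin n => if Q c a then 2 * (g.symm c).val + 2 else 0)
          (mem_univ c)
      rw [if_pos hij] at h1
      omega
    · unfold key
      rw [if_neg hc, if_neg hd]
      have := Fin.lt_def.1 (hpos c d hc hd hij)
      omega

theorem ins_inj {n : ℕ} (Q : Rel n) (a : Fin n) {g h : Equiv.Perm (Fin n)}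
    (h1 : ins Q a g = ins Q a h) (h2 : g.symm a = h.symm a) : g = h := by
  have key_lt : ∀ (f : Equiv.Perm (Fin n)) (c d : Fin n), c ≠ a → d ≠ a →
      (key Q a f c < key Q a f d ↔ f.symm c < f.symm d) := by
    intro f c d hc hd
    unfold key
    rw [if_neg hc, if_neg hd, Fin.lt_def]
    omega
  have hcd : ∀ c d, c ≠ a → d ≠ a → (g.symm c < g.symm d ↔ h.symm c < h.symm d) := by
    intro c d hc hd
    rw [← key_lt g c d hc hd, ← key_lt h c d hc hd, ← ins_symm_lt, ← ins_symm_lt, h1]
  have hρ := fix_eq_one (g.trans h.symm) (g.symm a)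
    (by rw [Equiv.trans_apply, Equiv.apply_symm_apply, h2]) (by
    intro x y hx hy
    have hx' : g x ≠ a := fun h' => hx (by rw [← h']; simp)
    have hy' : g y ≠ a := fun h' => hy (by rw [← h']; simp)
    have := hcd (g x) (g y) hx' hy'
    simpa using this)
  ext x
  have h3 : h.symm (g x) = x := by
    have := congrArg (fun e : Equiv.Perm (Fin n) => e x) hρ
    simpa using this
  have h4 : g x = h x := by
    rw [← h3]
    simp
    rw [h3]
  rw [h4]

theorem card_drop {n : ℕ} {Q : Rel n} (htr : ∀ a b c, Q a b → Q b c → Q a c)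
    (hirr : ∀ a, ¬ Q a a) (a : Fin n) : (LE (drop Q a)).card ≤ n * (LE Q).card := by
  classical
  have h := Finset.card_le_card_of_injOn (s := LE (drop Q a)) (t := LE Q ×ˢ (univ : Finset (Fin n)))
    (fun g => (ins Q a g, g.symm a))
    (fun g hg => by
      simp only [coe_product, coe_univ, Set.mem_prod, Set.mem_univ, and_true, mem_coe]
      exact ins_mem htr hirr a hg)
    (fun g _ h _ hgh => by
      have h1 := congrArg Prod.fst hgh
      have h2 := congrArg Prod.snd hgh
      exact ins_inj Q a h1 h2)
  rw [card_product, card_univ, Fintype.card_fin, mul_comm] at h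
  exact h

/-- the relation without the relations of `a` is transitive -/
theorem drop_trans {n : ℕ} {Q : Rel n} (htr : ∀ a b c, Q a b → Q b c → Q a c) (a : Fin n) :
    ∀ x y z, drop Q a x y → drop Q a y z → drop Q a x z :=
  fun _ _ _ h1 h2 => ⟨⟨htr _ _ _ h1.1.1 h2.1.1, h1.1.2⟩, h2.2⟩

theorem LE_sub_drop {n : ℕ} (Q : Rel n) (a : Fin n) : LE Q ⊆ LE (drop Q a) := by
  intro g hg
  rw [mem_LE] at hg ⊢
  exact fun i j h => hg i j h.1.1

end Pool.IS45
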