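import Pool.Agent.IS45.E0S48
import Pool.Agent.NL25.Stein

set_option autoImplicit false

/-!
# IS45/E0GS48: the untilted window mean and `GG`
-/

namespace Pool.IS45

open Pool.HB45

theorem des_nat48 {N : ℕ} {Q : Rel (N + 1)} {lab : Fin (N + 1) → ℕ} (hn : Nat' Q lab) :
    ∑ g ∈ LE Q, (des lab g : ℝ) = ((N : ℝ) - NL25.GG Q) / 2 * (LE Q).card := by
  have h := NL25.mean_X hn
  unfold NL25.Xf at h
  rw [Finset.sum_sub_distrib, ← Finset.mul_sum, Finset.sum_const, nsmul_eq_mul] at h
  linarith

theorem des_rev48 {N C : ℕ} {om : Fin (N + 1) → ℕ} (hi : Function.Injective om)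
    (hC : ∀ a, om a ≤ C) (g : Equiv.Perm (Fin (N + 1))) :
    des (fun a => C - om a) g + des om g = N := by
  classical
  have h := Finset.card_filter_add_card_filter_not (s := (Finset.univ : Finset (Fin N)))
    (fun i : Fin N => om (g i.succ) < om (g i.castSucc))
  rw [Finset.card_univ, Fintype.card_fin] at h
  unfold des
  have e : (Finset.univ.filter fun i : Fin N => C - om (g i.succ) < C - om (g i.castSucc)) =
      Finset.univ.filter fun i : Fin N => ¬ om (g i.succ) < om (g i.castSucc) := by
    refine Finset.filter_congr fun i _ => ?_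
    have h1 := hC (g i.succ)
    have h2 := hC (g i.castSucc)
    have h3 : om (g i.succ) ≠ om (g i.castSucc) := fun h' => by
      have h4 := g.injective (hi h')
      exact absurd h4 (Fin.castSucc_lt_succ (i := i)).ne'
    omega
  rw [e]
  omega

theorem e0_GG48 {N B m : ℕ} (hm : m * (B + 2) ≤ N + 1) {Q : Rel (N + 1)} {om : Fin (N + 1) → ℕ}
    (hL : Lab Q om) (k : Fin m) :
    (∀ w ∈ LE Q, e0 hm Q om k w = ((B : ℝ) - NL25.GG (winRel (win_le hm k) Q w)) / 2) ∨
      ∀ w ∈ LE Q, e0 hm Q om k w = ((B : ℝ) + NL25.GG (winRel (win_le hm k) Q w)) / 2 := by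
  rcases hL.2 with h | h
  · left
    intro w hw
    have hn : Nat' Q om := ⟨hL.1, h⟩
    have hc : (0 : ℝ) < (LE (winRel (win_le hm k) Q w)).card := by
      exact_mod_cast Finset.card_pos.2 ⟨1, one_mem_winRel (win_le hm k) w hw⟩
    have h1 := des_nat48 (nat_win hn (win_le hm k) w)
    unfold e0
    rw [h1, mul_div_assoc, div_self hc.ne', mul_one]
  · right
    intro w hw
    set C : ℕ := Finset.univ.sup om with hC
    have hle : ∀ a, om a ≤ C := fun a => Finset.le_sup (Finset.mem_univ a)
    have hn : Nat' Q (fun a => C - om a) := by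
      refine ⟨fun a b hab => ?_, fun a b hab => ?_⟩
      · have h1 := hle a
        have h2 := hle b
        have hab' : C - om a = C - om b := hab
        exact hL.1 (by omega)
      · have h1 := hle a
        have h2 := hle b
        have h3 := h a b hab
        change C - om a < C - om b
        omega
    have hc : (0 : ℝ) < (LE (winRel (win_le hm k) Q w)).card := by
      exact_mod_cast Finset.card_pos.2 ⟨1, one_mem_winRel (win_le hm k) w hw⟩
    have h1 := des_nat48 (nat_win hn (win_le hm k) w)
    have hinj : Function.Injective fun i : Fin (B + 1) => om (w (wpos (win_le hm k) i)) := by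
      intro i j hij
      have h2 := w.injective (hL.1 hij)
      have h3 : k.val * (B + 2) + i.val = k.val * (B + 2) + j.val := congrArg Fin.val h2
      exact Fin.ext (by omega)
    have h4 : ∑ g ∈ LE (winRel (win_le hm k) Q w),
        (des (fun i => C - om (w (wpos (win_le hm k) i))) g : ℝ) =
        ∑ g ∈ LE (winRel (win_le hm k) Q w),
          ((B : ℝ) - des (fun i => om (w (wpos (win_le hm k) i))) g) := by
      refine Finset.sum_congr rfl fun g _ => ?_
      have h5 := des_rev48 (C := C) hinj (fun i => hle _) g
      have h6 : ((des (fun i => C - om (w (wpos (win_le hm k) i))) g +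
          des (fun i => om (w (wpos (win_le hm k) i))) g : ℕ) : ℝ) = B := by exact_mod_cast h5
      push_cast at h6
      linarith
    rw [h4, Finset.sum_sub_distrib, Finset.sum_const, nsmul_eq_mul] at h1
    unfold e0
    rw [div_eq_iff hc.ne']
    linarith

end Pool.IS45
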