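import Pool.Agent.IS45.SameS48
import Pool.Agent.HB45.Avg

set_option autoImplicit false

/-!
# IS45/E0S48: the tilted and the untilted window mean
-/

namespace Pool.IS45

open Pool.HB45

/-- tilted and untilted mean of a bounded integer valued function -/
theorem tilt48 {T : Type} (S : Finset T) (hS : 0 < S.card) (d : T → ℕ) (R : ℕ)
    (hd : ∀ t ∈ S, d t ≤ R) (r : ℝ) (hr0 : 0 < r) (hr1 : r ≤ 1) (hr2 : 1 / 2 ≤ r ^ R) :
    |(∑ t ∈ S, (d t : ℝ) * r ^ d t) / ∑ t ∈ S, r ^ d t - (∑ t ∈ S, (d t : ℝ)) / S.card| ≤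
      2 * (R : ℝ) * (1 - r ^ R) := by
  have hc : (0 : ℝ) < S.card := by exact_mod_cast hS
  have hpow : ∀ t ∈ S, r ^ R ≤ r ^ d t := fun t ht => pow_le_pow_of_le_one hr0.le hr1 (hd t ht)
  have hpow1 : ∀ t ∈ S, r ^ d t ≤ 1 := fun t _ => pow_le_one₀ hr0.le hr1
  have hden : (S.card : ℝ) / 2 ≤ ∑ t ∈ S, r ^ d t := by
    calc (S.card : ℝ) / 2 ≤ ∑ t ∈ S, r ^ R := by
          rw [Finset.sum_const, nsmul_eq_mul]
          nlinarith
      _ ≤ _ := Finset.sum_le_sum hpow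
  have hden0 : 0 < ∑ t ∈ S, r ^ d t := by linarith
  set E : ℝ := (∑ t ∈ S, (d t : ℝ)) / S.card with hE
  have hEc : E * S.card = ∑ t ∈ S, (d t : ℝ) := by
    rw [hE, div_mul_cancel₀ _ hc.ne']
  have hE0 : 0 ≤ E := div_nonneg (Finset.sum_nonneg fun t _ => Nat.cast_nonneg _) hc.le
  have hER : E ≤ R := by
    rw [hE, div_le_iff₀ hc]
    calc ∑ t ∈ S, (d t : ℝ) ≤ ∑ t ∈ S, (R : ℝ) :=
          Finset.sum_le_sum fun t ht => by exact_mod_cast hd t ht
      _ = R * S.card := by rw [Finset.sum_const, nsmul_eq_mul, mul_comm]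
  have hnum : ∑ t ∈ S, (d t : ℝ) * r ^ d t - E * ∑ t ∈ S, r ^ d t =
      ∑ t ∈ S, ((d t : ℝ) - E) * (r ^ d t - 1) := by
    have h1 : ∑ t ∈ S, ((d t : ℝ) - E) * (r ^ d t - 1) = (∑ t ∈ S, (d t : ℝ) * r ^ d t -
        E * ∑ t ∈ S, r ^ d t) - (∑ t ∈ S, (d t : ℝ) - E * S.card) := by
      rw [Finset.mul_sum, ← Finset.sum_sub_distrib]
      have h2 : E * (S.card : ℝ) = ∑ t ∈ S, E := by
        rw [Finset.sum_const, nsmul_eq_mul, mul_comm]
      rw [h2, ← Finset.sum_sub_distrib, ← Finset.sum_sub_distrib]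
      exact Finset.sum_congr rfl fun t _ => by ring
    rw [h1, hEc]
    ring
  have habs : |∑ t ∈ S, ((d t : ℝ) - E) * (r ^ d t - 1)| ≤ S.card * ((R : ℝ) * (1 - r ^ R)) := by
    refine (Finset.abs_sum_le_sum_abs _ _).trans ?_
    calc ∑ t ∈ S, |((d t : ℝ) - E) * (r ^ d t - 1)| ≤ ∑ t ∈ S, (R : ℝ) * (1 - r ^ R) := by
          refine Finset.sum_le_sum fun t ht => ?_
          rw [abs_mul]
          refine mul_le_mul ?_ ?_ (abs_nonneg _) (Nat.cast_nonneg _)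
          · have h3 : (d t : ℝ) ≤ R := by exact_mod_cast hd t ht
            have h4 : (0 : ℝ) ≤ d t := Nat.cast_nonneg _
            rw [abs_le]
            constructor <;> linarith
          · rw [abs_le]
            constructor <;> linarith [hpow t ht, hpow1 t ht]
      _ = _ := by rw [Finset.sum_const, nsmul_eq_mul]
  have heq : (∑ t ∈ S, (d t : ℝ) * r ^ d t) / ∑ t ∈ S, r ^ d t - E =
      (∑ t ∈ S, ((d t : ℝ) - E) * (r ^ d t - 1)) / ∑ t ∈ S, r ^ d t := by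
    rw [← hnum]
    field_simp
  rw [heq, abs_div, abs_of_pos hden0, div_le_iff₀ hden0]
  have hfac : 0 ≤ (R : ℝ) * (1 - r ^ R) :=
    mul_nonneg (Nat.cast_nonneg _) (sub_nonneg.2 (pow_le_one₀ hr0.le hr1))
  calc _ ≤ S.card * ((R : ℝ) * (1 - r ^ R)) := habs
    _ = 2 * (R : ℝ) * (1 - r ^ R) * (S.card / 2) := by ring
    _ ≤ _ := mul_le_mul_of_nonneg_left hden (by linarith)

theorem mu_e048 {N B m : ℕ} (hm : m * (B + 2) ≤ N + 1) {Q : Rel (N + 1)} (om : Fin (N + 1) → ℕ)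
    (r : ℝ) (hr0 : 0 < r) (hr1 : r ≤ 1) (hr2 : 1 / 2 ≤ r ^ (B + 2)) (k : Fin m)
    {w : Equiv.Perm (Fin (N + 1))} (hw : w ∈ LE Q) :
    |mu hm Q om r k w - e0 hm Q om k w| ≤ 2 + 2 * ((B : ℝ) + 2) * (1 - r ^ (B + 2)) := by
  have hS : 0 < (LE (winRel (win_le hm k) Q w)).card :=
    Finset.card_pos.2 ⟨1, one_mem_winRel (win_le hm k) w hw⟩
  have hc : (0 : ℝ) < (LE (winRel (win_le hm k) Q w)).card := by exact_mod_cast hS
  have h1 := tilt48 (LE (winRel (win_le hm k) Q w)) hS (dw hm om k w) (B + 2)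
    (fun g _ => dw_le48 hm om k w g) r hr0 hr1 hr2
  push_cast at h1
  have h2 : |(∑ g ∈ LE (winRel (win_le hm k) Q w), (dw hm om k w g : ℝ)) /
      (LE (winRel (win_le hm k) Q w)).card - e0 hm Q om k w| ≤ 2 := by
    unfold e0
    rw [← sub_div, ← Finset.sum_sub_distrib, abs_div, abs_of_pos hc, div_le_iff₀ hc]
    refine (Finset.abs_sum_le_sum_abs _ _).trans ?_
    calc ∑ g ∈ LE (winRel (win_le hm k) Q w), |(dw hm om k w g : ℝ) -
          des (fun i => om (w (wpos (win_le hm k) i))) g| ≤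
        ∑ g ∈ LE (winRel (win_le hm k) Q w), (2 : ℝ) := by
          refine Finset.sum_le_sum fun g _ => ?_
          unfold dw desB
          push_cast
          split_ifs <;> (rw [abs_le]; constructor <;> push_cast <;> linarith)
      _ = _ := by rw [Finset.sum_const, nsmul_eq_mul, mul_comm]
  have e : mu hm Q om r k w - e0 hm Q om k w =
      (mu hm Q om r k w - (∑ g ∈ LE (winRel (win_le hm k) Q w), (dw hm om k w g : ℝ)) /
        (LE (winRel (win_le hm k) Q w)).card) +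
      ((∑ g ∈ LE (winRel (win_le hm k) Q w), (dw hm om k w g : ℝ)) /
        (LE (winRel (win_le hm k) Q w)).card - e0 hm Q om k w) := by ring
  rw [e]
  refine (abs_add_le _ _).trans ?_
  unfold mu
  linarith

end Pool.IS45
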