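import Mathlib

/-!
# IS45/EntS13: entropy of integer midpoints along a monotone coupling

Atoms `i < k` with masses `q i ≥ 0`; `X`, `Z` nondecreasing. `Ent k q V M` is the (unnormalised) entropy
`∑_v φ(mass of {V = v})`, `φ(t) = -t log t`. The mass of the atoms before `i` with the same value as `i` is
`pre V i`; the sets are final segments of `{j < i}`, hence nested, and intersection and union for
`⌊(X + Z)/2⌋`, `⌈(X + Z)/2⌉` are contained in intersection and union for `X`, `Z`.
-/

set_option autoImplicit false

namespace Pool.Agent.IS45.EntS13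

open Finset Real

/-- the atoms before `i` with the value of `i` -/
def preS (V : ℕ → ℕ) (i : ℕ) : Finset ℕ := (range i).filter fun j => V j = V i

/-- their mass -/
noncomputable def pre (q : ℕ → ℝ) (V : ℕ → ℕ) (i : ℕ) : ℝ := ∑ j ∈ preS V i, q j

/-- the entropy of `V` -/
noncomputable def Ent (k : ℕ) (q : ℕ → ℝ) (V : ℕ → ℕ) (M : ℕ) : ℝ :=
  ∑ v ∈ range M, negMulLog (∑ i ∈ (range k).filter (fun i => V i = v), q i)

/-- the increment of `φ` -/
noncomputable def inc (q t : ℝ) : ℝ := negMulLog (t + q) - negMulLog t

theorem inc_anti {q s t : ℝ} (hq : 0 ≤ q) (hs : 0 ≤ s) (hst : s ≤ t) : inc q t ≤ inc q s := by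
  unfold inc
  rcases eq_or_lt_of_le hst with rfl | hlt
  · exact le_rfl
  rcases eq_or_lt_of_le hq with rfl | hq0
  · simp
  have hc := concaveOn_negMulLog
  -- s ≤ s + q, t ≤ t + q, inside [s, t + q]
  have hL : 0 < t + q - s := by linarith
  have ms : s ∈ Set.Ici (0 : ℝ) := hs
  have mt : t + q ∈ Set.Ici (0 : ℝ) := by
    simp only [Set.mem_Ici]; linarith
  have pa : 0 ≤ (t - s) / (t + q - s) := by apply div_nonneg <;> linarith
  have pb : 0 ≤ q / (t + q - s) := by apply div_nonneg <;> linarith
  have p1 : (t - s) / (t + q - s) + q / (t + q - s) = 1 := by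
    rw [← add_div, div_eq_one_iff_eq hL.ne']; ring
  have h1 := hc.2 ms mt pa pb p1
  have h2 := hc.2 ms mt pb pa (by rw [add_comm]; exact p1)
  have e1 : ((t - s) / (t + q - s)) • s + (q / (t + q - s)) • (t + q) = s + q := by
    simp only [smul_eq_mul]
    field_simp
    ring
  have e2 : (q / (t + q - s)) • s + ((t - s) / (t + q - s)) • (t + q) = t := by
    simp only [smul_eq_mul]
    field_simp
    ring
  rw [e1] at h1
  rw [e2] at h2
  simp only [smul_eq_mul] at h1 h2
  generalize (t - s) / (t + q - s) = a at *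
  generalize q / (t + q - s) = b at *
  have h3 : a * s.negMulLog + b * (t + q).negMulLog + (b * s.negMulLog + a * (t + q).negMulLog) =
      s.negMulLog + (t + q).negMulLog := by
    calc _ = (a + b) * (s.negMulLog + (t + q).negMulLog) := by ring
      _ = _ := by rw [p1, one_mul]
  linarith

/-- The entropy as a sum of increments. -/
theorem ent_eq {q : ℕ → ℝ} {V : ℕ → ℕ} {M : ℕ} (hV : ∀ i, V i < M) (k : ℕ) :
    Ent k q V M = ∑ i ∈ range k, inc (q i) (pre q V i) := by
  induction k with
  | zero => simp [Ent]
  | succ k ih =>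
    rw [sum_range_succ, ← ih]
    have h1 : Ent (k + 1) q V M - Ent k q V M = inc (q k) (pre q V k) := by
      unfold Ent
      rw [← sum_sub_distrib, sum_eq_single (V k)]
      · have h2 : (range (k + 1)).filter (fun i => V i = V k) = insert k (preS V k) := by
          ext i
          simp only [preS, mem_filter, mem_range, mem_insert]
          constructor
          · rintro ⟨h3, h4⟩
            rcases Nat.lt_succ_iff_lt_or_eq.1 h3 with h5 | h5
            · exact Or.inr ⟨h5, h4⟩
            · exact Or.inl h5
          · rintro (rfl | ⟨h3, h4⟩)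
            · exact ⟨Nat.lt_succ_self _, rfl⟩
            · exact ⟨by omega, h4⟩
        rw [h2, sum_insert (by simp [preS])]
        unfold inc pre
        rw [add_comm (q k)]
        rfl
      · intro v _ hv
        have h2 : (range (k + 1)).filter (fun i => V i = v) = (range k).filter fun i => V i = v := by
          ext i
          simp only [mem_filter, mem_range]
          constructor
          · rintro ⟨h3, h4⟩
            refine ⟨?_, h4⟩
            rcases Nat.lt_succ_iff_lt_or_eq.1 h3 with h5 | h5
            · exact h5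
            · exact absurd (h5 ▸ h4).symm hv
          · rintro ⟨h3, h4⟩
            exact ⟨by omega, h4⟩
        rw [h2, sub_self]
      · intro hv
        exact absurd (mem_range.2 (hV k)) hv
    linarith

/-- nested sets: the two masses are those of the intersection and of the union -/
theorem nested {V W : ℕ → ℕ} (hV : Monotone V) (hW : Monotone W) (i : ℕ) :
    preS V i ⊆ preS W i ∨ preS W i ⊆ preS V i := by
  by_contra h
  push Not at h
  obtain ⟨⟨a, ha, ha'⟩, ⟨b, hb, hb'⟩⟩ :=
    And.intro (not_subset.1 h.1) (not_subset.1 h.2)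
  simp only [preS, mem_filter, mem_range, not_and] at ha ha' hb hb'
  rcases le_total a b with hab | hab
  · -- V constant on [a, i], so V b = V i
    exact hb' hb.1 (le_antisymm (hV (le_of_lt hb.1)) (ha.2 ▸ hV hab))
  · exact ha' ha.1 (le_antisymm (hW (le_of_lt ha.1)) (hb.2 ▸ hW hab))

theorem inc_pair (q : ℕ → ℝ) {V W : ℕ → ℕ} (hV : Monotone V) (hW : Monotone W)
    (i : ℕ) : inc (q i) (pre q V i) + inc (q i) (pre q W i) =
      inc (q i) (∑ j ∈ preS V i ∩ preS W i, q j) + inc (q i) (∑ j ∈ preS V i ∪ preS W i, q j) := by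
  unfold pre
  rcases nested hV hW i with h | h
  · rw [inter_eq_left.2 h, union_eq_right.2 h]
  · rw [inter_eq_right.2 h, union_eq_left.2 h, add_comm]

/-- (U): the entropies of the two midpoints have at least the sum of the entropies. -/
theorem ent_mid {q : ℕ → ℝ} (hq : ∀ i, 0 ≤ q i) {X Z : ℕ → ℕ} (hX : Monotone X) (hZ : Monotone Z)
    {M : ℕ} (hXM : ∀ i, X i < M) (hZM : ∀ i, Z i < M) (k : ℕ) :
    Ent k q X M + Ent k q Z M ≤ Ent k q (fun i => (X i + Z i) / 2) M +
      Ent k q (fun i => (X i + Z i + 1) / 2) M := by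
  have hF : Monotone fun i => (X i + Z i) / 2 := fun a b hab => by
    have h1 := hX hab
    have h2 := hZ hab
    change (X a + Z a) / 2 ≤ (X b + Z b) / 2
    omega
  have hC : Monotone fun i => (X i + Z i + 1) / 2 := fun a b hab => by
    have h1 := hX hab
    have h2 := hZ hab
    change (X a + Z a + 1) / 2 ≤ (X b + Z b + 1) / 2
    omega
  rw [ent_eq hXM, ent_eq hZM, ent_eq (fun i => by
    have h1 := hXM i
    have h2 := hZM i
    change (X i + Z i) / 2 < M
    omega), ent_eq (fun i => by
    have h1 := hXM i
    have h2 := hZM i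
    change (X i + Z i + 1) / 2 < M
    omega), ← sum_add_distrib, ← sum_add_distrib]
  refine sum_le_sum fun i _ => ?_
  rw [inc_pair q hX hZ, inc_pair q hF hC]
  have n0 : ∀ s : Finset ℕ, 0 ≤ ∑ j ∈ s, q j := fun s => sum_nonneg fun j _ => hq j
  refine add_le_add (inc_anti (hq i) (n0 _) ?_) (inc_anti (hq i) (n0 _) ?_)
  · refine sum_le_sum_of_subset_of_nonneg (fun j hj => ?_) fun j _ _ => hq j
    simp only [preS, mem_inter, mem_filter, mem_range] at hj ⊢
    obtain ⟨⟨h0, h1⟩, -, h2⟩ := hj
    have h3 := hX (le_of_lt h0)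
    have h4 := hZ (le_of_lt h0)
    omega
  · refine sum_le_sum_of_subset_of_nonneg (fun j hj => ?_) fun j _ _ => hq j
    simp only [preS, mem_union, mem_filter, mem_range] at hj ⊢
    have h0 : j < i := by tauto
    have h3 := hX (le_of_lt h0)
    have h4 := hZ (le_of_lt h0)
    omega

end Pool.Agent.IS45.EntS13
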