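import Pool.Agent.IS45.Defs
import Pool.Agent.IS45.EntS13

set_option autoImplicit false

/-!
# IS45/Ent: the entropy inequality (U)

PROOF of `two_out`. Reformulate with runs (`X`, `Z`, floor, ceil are nondecreasing, so the fibres are runs of atoms): for
a list of atoms define `R (v, a, []) = φ a`, `R (v, a, (v', q) :: L) = if v' = v then R (v, a + q, L) else φ a + R (v', q, L)`,
`φ = negMulLog`. Claim, by induction on the list, for all ages `a, b` of `X, Z` and `c, d` of floor, ceil with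
`min a b = min c d`, `max c d ≤ max a b`, and (`w = x + z` even → `c ≤ d`), (`w` odd → `d ≤ c`):
`R_X + R_Z - R_floor - R_ceil ≤ φ (max a b) - φ (max c d)`. Cases of the jump of `w`: `0`; `1` (exactly one of `X, Z`
breaks; ceil breaks if `w` was even, floor if odd); `≥ 2` (floor and ceil both break; `X`, `Z`: one or both). Used:
`φ (S + q) - φ (S' + q) ≤ φ S - φ S'` for `0 ≤ S' ≤ S`, `0 ≤ q` and `φ (s + t) ≤ φ s + φ t` (concavity on `[0, ∞)`, `φ 0 = 0`).
-/

namespace Pool.IS45

open Pool.Agent.IS45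

theorem phi_incr {S S' q : ℝ} (h0 : 0 ≤ S') (h1 : S' ≤ S) (hq : 0 ≤ q) :
    Real.negMulLog (S + q) - Real.negMulLog (S' + q) ≤ Real.negMulLog S - Real.negMulLog S' := by
  have h := EntS13.inc_anti hq h0 h1
  unfold EntS13.inc at h
  linarith

theorem phi_sub {s t : ℝ} (hs : 0 ≤ s) (ht : 0 ≤ t) :
    Real.negMulLog (s + t) ≤ Real.negMulLog s + Real.negMulLog t := by
  have h := EntS13.inc_anti ht le_rfl hs
  unfold EntS13.inc at h
  rw [zero_add, Real.negMulLog_zero] at h
  linarith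

/-- (U) -/
theorem two_out (m n : ℕ) (X Z : ℕ → ℕ) (hX : Monotone X) (hZ : Monotone Z) (hXm : ∀ i, X i ≤ m)
    (hZm : ∀ i, Z i ≤ m) (q : ℕ → ℝ) (hq : ∀ i, 0 ≤ q i) :
    En m n X q + En m n Z q ≤
      En m n (fun i => (X i + Z i) / 2) q + En m n (fun i => (X i + Z i + 1) / 2) q :=
  EntS13.ent_mid hq hX hZ (fun i => Nat.lt_succ_of_le (hXm i)) (fun i => Nat.lt_succ_of_le (hZm i)) n

end Pool.IS45
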