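import Mathlib

/-!
# IS45/EntS76: entropy of floor and ceiling of the mean of two nondecreasing sequences (helper76)

`ent x n`: the entropy of the masses of the values of `x 0, ..., x (n-1)` with weights `q i`. For nondecreasing `x`, `z`:
`ent x + ent z ≤ ent (floor) + ent (ceiling)`. Proof: adding one atom changes the entropy by `ψ (age)`, `ψ` nonincreasing;
the ages `a, b` of `x, z` and `c, d` of floor, ceiling satisfy `min a b = min c d`, `max c d ≤ max a b`, and the older one of floor
and ceiling is the one which changes at the next unit step of `x + z`.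
-/

set_option autoImplicit false

namespace Pool.IS45.EntS76

open Finset

/-- mass of the value `v` among the first `n` atoms -/
noncomputable def mass (q : ℕ → ℝ) (x : ℕ → ℕ) (n v : ℕ) : ℝ :=
  ∑ i ∈ range n, if x i = v then q i else 0

/-- entropy of the masses of the first `n` atoms -/
noncomputable def ent (q : ℕ → ℝ) (x : ℕ → ℕ) (n : ℕ) : ℝ :=
  ∑ v ∈ (range n).image x, Real.negMulLog (mass q x n v)

lemma mass_nonneg {q : ℕ → ℝ} (hq : ∀ i, 0 ≤ q i) (x : ℕ → ℕ) (n v : ℕ) : 0 ≤ mass q x n v := by
  unfold mass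
  refine sum_nonneg fun i _ => ?_
  split_ifs
  · exact hq i
  · exact le_rfl

lemma mass_succ (q : ℕ → ℝ) (x : ℕ → ℕ) (n v : ℕ) :
    mass q x (n + 1) v = mass q x n v + if x n = v then q n else 0 := by
  unfold mass
  rw [sum_range_succ]

lemma mass_notMem (q : ℕ → ℝ) (x : ℕ → ℕ) (n v : ℕ) (h : v ∉ (range n).image x) :
    mass q x n v = 0 := by
  unfold mass
  refine sum_eq_zero fun i hi => ?_
  rw [if_neg]
  intro h2
  exact h (mem_image.2 ⟨i, hi, h2⟩)

/-- entropy with respect to any larger set of values -/
lemma ent_eq (q : ℕ → ℝ) (x : ℕ → ℕ) (n : ℕ) (V : Finset ℕ) (hV : (range n).image x ⊆ V) :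
    ent q x n = ∑ v ∈ V, Real.negMulLog (mass q x n v) := by
  unfold ent
  refine sum_subset hV fun v _ hv => ?_
  rw [mass_notMem q x n v hv, Real.negMulLog_zero]

/-- increment of the entropy -/
noncomputable def psi (q α : ℝ) : ℝ := Real.negMulLog (α + q) - Real.negMulLog α

lemma ent_succ (q : ℕ → ℝ) (x : ℕ → ℕ) (n : ℕ) :
    ent q x (n + 1) = ent q x n + psi (q n) (mass q x n (x n)) := by
  classical
  have h1 : (range n).image x ⊆ (range (n + 1)).image x :=
    image_subset_image (range_subset_range.2 (Nat.le_succ n))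
  rw [ent_eq q x n _ h1, ent]
  have hm : x n ∈ (range (n + 1)).image x := mem_image.2 ⟨n, self_mem_range_succ n, rfl⟩
  rw [← add_sum_erase _ _ hm, ← add_sum_erase _ (fun v => Real.negMulLog (mass q x n v)) hm]
  have h2 : ∑ v ∈ ((range (n + 1)).image x).erase (x n), Real.negMulLog (mass q x (n + 1) v) =
      ∑ v ∈ ((range (n + 1)).image x).erase (x n), Real.negMulLog (mass q x n v) := by
    refine sum_congr rfl fun v hv => ?_
    rw [mass_succ, if_neg (ne_of_mem_erase hv).symm, add_zero]
  rw [h2, mass_succ, if_pos rfl]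
  unfold psi
  ring

lemma psi_anti {q : ℝ} (hq : 0 ≤ q) {α β : ℝ} (hα : 0 ≤ α) (h : α ≤ β) : psi q β ≤ psi q α := by
  unfold psi
  rcases eq_or_lt_of_le hq with h0 | hq0
  · rw [← h0]; simp
  rcases eq_or_lt_of_le h with h0 | h0
  · rw [h0]
  -- concavity
  have hc := Real.concaveOn_negMulLog
  have hs : 0 < β + q - α := by linarith
  have hs' : β + q - α ≠ 0 := hs.ne'
  -- `α + q` and `β` as convex combinations of `α` and `β + q`
  have w1 : 0 ≤ (β - α) / (β + q - α) := div_nonneg (by linarith) hs.le
  have w2 : 0 ≤ q / (β + q - α) := div_nonneg hq hs.le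
  have w3 : (β - α) / (β + q - α) + q / (β + q - α) = 1 := by
    rw [← add_div, div_eq_one_iff_eq hs']; ring
  have w4 : q / (β + q - α) + (β - α) / (β + q - α) = 1 := by
    rw [← add_div, div_eq_one_iff_eq hs']; ring
  have hβq : 0 ≤ β + q := by linarith
  have e1 := hc.2 (Set.mem_Ici.2 hα) (Set.mem_Ici.2 hβq) w1 w2 w3
  have e2 := hc.2 (Set.mem_Ici.2 hα) (Set.mem_Ici.2 hβq) w2 w1 w4
  simp only [smul_eq_mul] at e1 e2
  have f1 : (β - α) / (β + q - α) * α + q / (β + q - α) * (β + q) = α + q := by
    field_simp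
    ring
  have f2 : q / (β + q - α) * α + (β - α) / (β + q - α) * (β + q) = β := by
    field_simp
    ring
  rw [f1] at e1
  rw [f2] at e2
  have f3 : (β - α) / (β + q - α) + q / (β + q - α) = 1 := by
    rw [← add_div, div_eq_one_iff_eq hs']; ring
  have e3 : (β - α) / (β + q - α) * Real.negMulLog α + q / (β + q - α) * Real.negMulLog (β + q) +
      (q / (β + q - α) * Real.negMulLog α + (β - α) / (β + q - α) * Real.negMulLog (β + q)) =
      Real.negMulLog α + Real.negMulLog (β + q) := by
    linear_combination (Real.negMulLog α + Real.negMulLog (β + q)) * f3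
  linarith

/-- the mass of the next value of a nondecreasing sequence -/
lemma mass_next {q : ℕ → ℝ} {x : ℕ → ℕ} (hx : Monotone x) (n : ℕ) :
    mass q x (n + 1) (x (n + 1)) = if x (n + 1) = x n then mass q x (n + 1) (x n) else 0 := by
  split_ifs with h
  · rw [h]
  · apply mass_notMem
    intro hmem
    obtain ⟨i, hi, e⟩ := mem_image.1 hmem
    have h1 : x i ≤ x n := hx (Nat.lt_succ_iff.1 (mem_range.1 hi))
    have h2 : x n ≤ x (n + 1) := hx (Nat.le_succ n)
    omega

/-- floor of the mean -/
def fl (x z : ℕ → ℕ) (i : ℕ) : ℕ := (x i + z i) / 2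

/-- ceiling of the mean -/
def ce (x z : ℕ → ℕ) (i : ℕ) : ℕ := (x i + z i + 1) / 2

lemma fl_mono {x z : ℕ → ℕ} (hx : Monotone x) (hz : Monotone z) : Monotone (fl x z) := by
  intro i j h
  have h1 := hx h
  have h2 := hz h
  unfold fl
  omega

lemma ce_mono {x z : ℕ → ℕ} (hx : Monotone x) (hz : Monotone z) : Monotone (ce x z) := by
  intro i j h
  have h1 := hx h
  have h2 := hz h
  unfold ce
  omega

/-- the invariant after `n + 1` atoms -/
structure Inv (q : ℕ → ℝ) (x z : ℕ → ℕ) (n : ℕ) : Prop where
  hmin : min (mass q x (n + 1) (x n)) (mass q z (n + 1) (z n)) =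
    min (mass q (fl x z) (n + 1) (fl x z n)) (mass q (ce x z) (n + 1) (ce x z n))
  hmax : max (mass q (fl x z) (n + 1) (fl x z n)) (mass q (ce x z) (n + 1) (ce x z n)) ≤
    max (mass q x (n + 1) (x n)) (mass q z (n + 1) (z n))
  hev : (x n + z n) % 2 = 0 → mass q (fl x z) (n + 1) (fl x z n) ≤ mass q (ce x z) (n + 1) (ce x z n)
  hod : (x n + z n) % 2 = 1 → mass q (ce x z) (n + 1) (ce x z n) ≤ mass q (fl x z) (n + 1) (fl x z n)

lemma mass_self_succ (q : ℕ → ℝ) (x : ℕ → ℕ) (n : ℕ) :
    mass q x (n + 1) (x n) = mass q x n (x n) + q n := by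
  rw [mass_succ, if_pos rfl]

/-- one step: the new invariant and the comparison of the increments -/
lemma step {q : ℕ → ℝ} (hq : ∀ i, 0 ≤ q i) {x z : ℕ → ℕ} (hx : Monotone x) (hz : Monotone z) (n : ℕ)
    (h : Inv q x z n) : Inv q x z (n + 1) ∧
      psi (q (n + 1)) (mass q x (n + 1) (x (n + 1))) + psi (q (n + 1)) (mass q z (n + 1) (z (n + 1))) ≤
      psi (q (n + 1)) (mass q (fl x z) (n + 1) (fl x z (n + 1))) +
        psi (q (n + 1)) (mass q (ce x z) (n + 1) (ce x z (n + 1))) := by
  have ma := mass_next (q := q) hx n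
  have mb := mass_next (q := q) hz n
  have mc := mass_next (q := q) (fl_mono hx hz) n
  have md := mass_next (q := q) (ce_mono hx hz) n
  have sa := mass_self_succ q x (n + 1)
  have sb := mass_self_succ q z (n + 1)
  have sc := mass_self_succ q (fl x z) (n + 1)
  have sd := mass_self_succ q (ce x z) (n + 1)
  obtain ⟨h1, h2, h3, h4⟩ := h
  have na := mass_nonneg hq x (n + 1) (x n)
  have nb := mass_nonneg hq z (n + 1) (z n)
  have nc := mass_nonneg hq (fl x z) (n + 1) (fl x z n)
  have nd := mass_nonneg hq (ce x z) (n + 1) (ce x z n)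
  have hx1 : x n ≤ x (n + 1) := hx (Nat.le_succ n)
  have hz1 : z n ≤ z (n + 1) := hz (Nat.le_succ n)
  have hqq := hq (n + 1)
  set Q := q (n + 1) with hQ
  set a := mass q x (n + 1) (x n) with ha
  set b := mass q z (n + 1) (z n) with hb
  set c := mass q (fl x z) (n + 1) (fl x z n) with hc
  set d := mass q (ce x z) (n + 1) (ce x z n) with hd
  have key : ∀ a' b' c' d' : ℝ, 0 ≤ a' → 0 ≤ b' → 0 ≤ c' → 0 ≤ d' →
      mass q x (n + 1) (x (n + 1)) = a' → mass q z (n + 1) (z (n + 1)) = b' →
      mass q (fl x z) (n + 1) (fl x z (n + 1)) = c' → mass q (ce x z) (n + 1) (ce x z (n + 1)) = d' →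
      min a' b' = min c' d' → max c' d' ≤ max a' b' →
      ((x (n + 1) + z (n + 1)) % 2 = 0 → c' ≤ d') → ((x (n + 1) + z (n + 1)) % 2 = 1 → d' ≤ c') →
      Inv q x z (n + 1) ∧ psi Q a' + psi Q b' ≤ psi Q c' + psi Q d' := by
    intro a' b' c' d' p1 p2 p3 p4 e1 e2 e3 e4 k1 k2 k3 k4
    rw [e1] at sa
    rw [e2] at sb
    rw [e3] at sc
    rw [e4] at sd
    constructor
    · refine ⟨?_, ?_, ?_, ?_⟩
      · rw [sa, sb, sc, sd, min_add_add_right, min_add_add_right, k1]
      · rw [sa, sb, sc, sd, max_add_add_right, max_add_add_right]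
        linarith
      · intro h
        rw [sc, sd]
        linarith [k3 h]
      · intro h
        rw [sc, sd]
        linarith [k4 h]
    · have t1 : psi Q a' + psi Q b' = psi Q (min a' b') + psi Q (max a' b') := by
        rcases le_total a' b' with h | h
        · rw [min_eq_left h, max_eq_right h]
        · rw [min_eq_right h, max_eq_left h, add_comm]
      have t2 : psi Q c' + psi Q d' = psi Q (min c' d') + psi Q (max c' d') := by
        rcases le_total c' d' with h | h
        · rw [min_eq_left h, max_eq_right h]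
        · rw [min_eq_right h, max_eq_left h, add_comm]
      rw [t1, t2, k1]
      have := psi_anti hqq (le_max_of_le_left p3 : (0 : ℝ) ≤ max c' d') k2
      linarith
  by_cases ex : x (n + 1) = x n <;> by_cases ez : z (n + 1) = z n
  · -- nothing changes
    have ec : fl x z (n + 1) = fl x z n := by unfold fl; omega
    have ed : ce x z (n + 1) = ce x z n := by unfold ce; omega
    rw [if_pos ex] at ma
    rw [if_pos ez] at mb
    rw [if_pos ec] at mc
    rw [if_pos ed] at md
    rw [ma, mb, mc, md]
    refine key a b c d na nb nc nd ma mb mc md h1 h2 ?_ ?_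
    · rw [ex, ez]; exact h3
    · rw [ex, ez]; exact h4
  · -- only z changes
    rw [if_pos ex] at ma
    rw [if_neg ez] at mb
    by_cases hu : z (n + 1) = z n + 1
    · rcases Nat.mod_two_eq_zero_or_one (x n + z n) with hw | hw
      · have ec : fl x z (n + 1) = fl x z n := by unfold fl; omega
        have ed : ce x z (n + 1) ≠ ce x z n := by unfold ce; omega
        rw [if_pos ec] at mc
        rw [if_neg ed] at md
        rw [ma, mb, mc, md]
        have hcd := h3 hw
        have hcm : c = min a b := by rw [h1, min_eq_left hcd]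
        refine key a 0 c 0 na le_rfl nc le_rfl ma mb mc md ?_ ?_ ?_ ?_
        · rw [min_eq_right na, min_eq_right nc]
        · rw [max_eq_left nc, max_eq_left na, hcm]
          exact min_le_left _ _
        · intro h; omega
        · intro _; exact nc
      · have ec : fl x z (n + 1) ≠ fl x z n := by unfold fl; omega
        have ed : ce x z (n + 1) = ce x z n := by unfold ce; omega
        rw [if_neg ec] at mc
        rw [if_pos ed] at md
        rw [ma, mb, mc, md]
        have hcd := h4 hw
        have hcm : d = min a b := by rw [h1, min_eq_right hcd]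
        refine key a 0 0 d na le_rfl le_rfl nd ma mb mc md ?_ ?_ ?_ ?_
        · rw [min_eq_right na, min_eq_left nd]
        · rw [max_eq_right nd, max_eq_left na, hcm]
          exact min_le_left _ _
        · intro _; exact nd
        · intro h; omega
    · have ec : fl x z (n + 1) ≠ fl x z n := by unfold fl; omega
      have ed : ce x z (n + 1) ≠ ce x z n := by unfold ce; omega
      rw [if_neg ec] at mc
      rw [if_neg ed] at md
      rw [ma, mb, mc, md]
      refine key a 0 0 0 na le_rfl le_rfl le_rfl ma mb mc md ?_ ?_ ?_ ?_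
      · rw [min_eq_right na, min_self]
      · rw [max_self]; exact le_max_of_le_left na
      · intro _; exact le_rfl
      · intro _; exact le_rfl
  · -- only x changes
    rw [if_neg ex] at ma
    rw [if_pos ez] at mb
    by_cases hu : x (n + 1) = x n + 1
    · rcases Nat.mod_two_eq_zero_or_one (x n + z n) with hw | hw
      · have ec : fl x z (n + 1) = fl x z n := by unfold fl; omega
        have ed : ce x z (n + 1) ≠ ce x z n := by unfold ce; omega
        rw [if_pos ec] at mc
        rw [if_neg ed] at md
        rw [ma, mb, mc, md]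
        have hcd := h3 hw
        have hcm : c = min a b := by rw [h1, min_eq_left hcd]
        refine key 0 b c 0 le_rfl nb nc le_rfl ma mb mc md ?_ ?_ ?_ ?_
        · rw [min_eq_left nb, min_eq_right nc]
        · rw [max_eq_left nc, max_eq_right nb, hcm]
          exact min_le_right _ _
        · intro h; omega
        · intro _; exact nc
      · have ec : fl x z (n + 1) ≠ fl x z n := by unfold fl; omega
        have ed : ce x z (n + 1) = ce x z n := by unfold ce; omega
        rw [if_neg ec] at mc
        rw [if_pos ed] at md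
        rw [ma, mb, mc, md]
        have hcd := h4 hw
        have hcm : d = min a b := by rw [h1, min_eq_right hcd]
        refine key 0 b 0 d le_rfl nb le_rfl nd ma mb mc md ?_ ?_ ?_ ?_
        · rw [min_eq_left nb, min_eq_left nd]
        · rw [max_eq_right nd, max_eq_right nb, hcm]
          exact min_le_right _ _
        · intro _; exact nd
        · intro h; omega
    · have ec : fl x z (n + 1) ≠ fl x z n := by unfold fl; omega
      have ed : ce x z (n + 1) ≠ ce x z n := by unfold ce; omega
      rw [if_neg ec] at mc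
      rw [if_neg ed] at md
      rw [ma, mb, mc, md]
      refine key 0 b 0 0 le_rfl nb le_rfl le_rfl ma mb mc md ?_ ?_ ?_ ?_
      · rw [min_eq_left nb, min_self]
      · rw [max_self]; exact le_max_of_le_right nb
      · intro _; exact le_rfl
      · intro _; exact le_rfl
  · -- both change
    have ec : fl x z (n + 1) ≠ fl x z n := by unfold fl; omega
    have ed : ce x z (n + 1) ≠ ce x z n := by unfold ce; omega
    rw [if_neg ex] at ma
    rw [if_neg ez] at mb
    rw [if_neg ec] at mc
    rw [if_neg ed] at md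
    rw [ma, mb, mc, md]
    exact key 0 0 0 0 le_rfl le_rfl le_rfl le_rfl ma mb mc md rfl le_rfl (fun _ => le_rfl)
      (fun _ => le_rfl)

lemma inv_all {q : ℕ → ℝ} (hq : ∀ i, 0 ≤ q i) {x z : ℕ → ℕ} (hx : Monotone x) (hz : Monotone z)
    (n : ℕ) : Inv q x z n := by
  induction n with
  | zero =>
    have h : ∀ y : ℕ → ℕ, mass q y (0 + 1) (y 0) = q 0 := by
      intro y
      simp [mass]
    refine ⟨?_, ?_, ?_, ?_⟩
    · rw [h, h, h, h]
    · rw [h, h, h, h]
    · intro _; rw [h, h]
    · intro _; rw [h, h]
  | succ n ih => exact (step hq hx hz n ih).1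

/-- THE ENTROPY INEQUALITY. -/
theorem ent_add_le {q : ℕ → ℝ} (hq : ∀ i, 0 ≤ q i) {x z : ℕ → ℕ} (hx : Monotone x)
    (hz : Monotone z) (n : ℕ) :
    ent q x n + ent q z n ≤ ent q (fl x z) n + ent q (ce x z) n := by
  induction n with
  | zero => simp [ent]
  | succ n ih =>
    rw [ent_succ, ent_succ, ent_succ, ent_succ]
    rcases Nat.eq_zero_or_pos n with rfl | hn
    · have h : ∀ y : ℕ → ℕ, mass q y 0 (y 0) = 0 := by
        intro y
        simp [mass]
      rw [h, h, h, h]
      linarith
    · obtain ⟨m, rfl⟩ : ∃ m, n = m + 1 := ⟨n - 1, by omega⟩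
      have := (step hq hx hz m (inv_all hq hx hz m)).2
      linarith

end Pool.IS45.EntS76
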