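import Pool.Agent.IS45.Stab

set_option autoImplicit false

/-!
# IS45/FewS48: `GG` of two windows whose contents differ in at most two letters
-/

namespace Pool.IS45

open Pool.HB45

theorem GG_relabel48 {N : ℕ} (Q : Rel (N + 1)) (τ : Equiv.Perm (Fin (N + 1))) :
    NL25.GG (fun i j => Q (τ i) (τ j)) = NL25.GG Q := by
  classical
  have hmem : ∀ g : Equiv.Perm (Fin (N + 1)), g ∈ LE (fun i j => Q (τ i) (τ j)) ↔ τ * g ∈ LE Q := by
    intro g
    rw [mem_LE, mem_LE]
    exact Iff.rfl
  have hadj : ∀ g : Equiv.Perm (Fin (N + 1)), adj (fun i j => Q (τ i) (τ j)) g = adj Q (τ * g) := by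
    intro g
    unfold adj adjs
    congr 1
  have hcard : (LE (fun i j => Q (τ i) (τ j))).card = (LE Q).card :=
    Finset.card_equiv (Equiv.mulLeft τ) (fun g => by rw [hmem]; rfl)
  have hsum : ∑ g ∈ LE (fun i j => Q (τ i) (τ j)), (adj (fun i j => Q (τ i) (τ j)) g : ℝ) =
      ∑ g ∈ LE Q, (adj Q g : ℝ) :=
    Finset.sum_equiv (Equiv.mulLeft τ) (fun g => by rw [hmem]; rfl)
      (fun g _ => by rw [hadj]; rfl)
  unfold NL25.GG
  rw [hcard, hsum]

theorem lab_nat48 {n : ℕ} {Q : Rel n} {om : Fin n → ℕ} (hL : Lab Q om) :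
    ∃ lab : Fin n → ℕ, Nat' Q lab := by
  rcases hL.2 with h | h
  · exact ⟨om, hL.1, h⟩
  · set C : ℕ := Finset.univ.sup om with hC
    have hle : ∀ a, om a ≤ C := fun a => Finset.le_sup (Finset.mem_univ a)
    refine ⟨fun a => C - om a, fun a b hab => ?_, fun a b hab => ?_⟩
    · have h1 := hle a
      have h2 := hle b
      have hab' : C - om a = C - om b := hab
      exact hL.1 (by omega)
    · have h1 := hle a
      have h2 := hle b
      have h3 := h a b hab
      change C - om a < C - om b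
      omega

theorem GG_few48 (θ : ℝ) (hθ : 0 < θ) : ∃ B0 : ℕ, ∀ B ≥ B0, ∀ (N m : ℕ) (hm : m * (B + 2) ≤ N + 1)
    (Q : Rel (N + 1)) (om : Fin (N + 1) → ℕ), Lab Q om → (∀ a b c, Q a b → Q b c → Q a c) →
    ∀ (k : Fin m) (w w' : Equiv.Perm (Fin (N + 1))), w ∈ LE Q → w' ∈ LE Q →
    (ct hm k w \ ct hm k w').card ≤ 2 →
    |NL25.GG (winRel (win_le hm k) Q w) - NL25.GG (winRel (win_le hm k) Q w')| ≤ θ * B := by
  classical
  obtain ⟨B0, h0⟩ := stab θ hθ
  refine ⟨B0, fun B hB N m hm Q om hL htr k w w' _ _ hc => ?_⟩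
  obtain ⟨lab, hn⟩ := lab_nat48 hL
  set f : Fin (B + 1) → Fin (N + 1) := fun i => w (wpos (win_le hm k) i) with hf
  set f' : Fin (B + 1) → Fin (N + 1) := fun i => w' (wpos (win_le hm k) i) with hf'
  have hwinj : ∀ v : Equiv.Perm (Fin (N + 1)),
      Function.Injective fun i => v (wpos (win_le hm k) i) := by
    intro v i j hij
    have h1 := v.injective hij
    have h2 : k.val * (B + 2) + i.val = k.val * (B + 2) + j.val := congrArg Fin.val h1
    exact Fin.ext (by omega)
  have hfi : Function.Injective f := hwinj w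
  have hfi' : Function.Injective f' := hwinj w'
  have hct : ct hm k w = Finset.univ.image f := rfl
  have hct' : ct hm k w' = Finset.univ.image f' := rfl
  have hex : ∀ i, f i ∈ ct hm k w' → ∃ j, f' j = f i := by
    intro i hi
    rw [hct', Finset.mem_image] at hi
    obtain ⟨j, _, hj⟩ := hi
    exact ⟨j, hj⟩
  let h : Fin (B + 1) → Fin (B + 1) := fun i => if hi : f i ∈ ct hm k w' then (hex i hi).choose else i
  have hh : ∀ i, f i ∈ ct hm k w' → f' (h i) = f i := by
    intro i hi
    have e : h i = (hex i hi).choose := dif_pos hi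
    rw [e]
    exact (hex i hi).choose_spec
  set s : Finset (Fin (B + 1)) := Finset.univ.filter fun i => f i ∈ ct hm k w' with hs
  obtain ⟨g, hg⟩ := Finset.exists_equiv_extend_of_card_eq (α := Fin (B + 1)) (β := Fin (B + 1))
    (t := Finset.univ) (by simp) (s := s) (f := h) (Finset.subset_univ _) (by
      intro i hi j hj hij
      have hi' := (Finset.mem_filter.1 (Finset.mem_coe.1 hi)).2
      have hj' := (Finset.mem_filter.1 (Finset.mem_coe.1 hj)).2
      apply hfi
      rw [← hh i hi', ← hh j hj', hij])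
  let τ : Equiv.Perm (Fin (B + 1)) := g.trans (Equiv.subtypeUnivEquiv fun x => Finset.mem_univ x)
  have hτ : ∀ i ∈ s, f' (τ i) = f i := by
    intro i hi
    have e : τ i = h i := hg i hi
    rw [e]
    exact hh i (Finset.mem_filter.1 hi).2
  have hT : (sᶜ).card ≤ 2 := by
    refine le_trans ?_ hc
    refine Finset.card_le_card_of_injOn f (fun i hi => ?_) (hfi.injOn)
    have hi' : i ∉ s := Finset.mem_compl.1 (Finset.mem_coe.1 hi)
    rw [Finset.mem_coe, Finset.mem_sdiff]
    refine ⟨?_, fun hcon => hi' (Finset.mem_filter.2 ⟨Finset.mem_univ _, hcon⟩)⟩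
    rw [hct]
    exact Finset.mem_image_of_mem f (Finset.mem_univ i)
  have key := h0 B hB (winRel (win_le hm k) Q w)
    (fun i j => winRel (win_le hm k) Q w' (τ i) (τ j))
    (fun i => lab (w (wpos (win_le hm k) i))) (fun i => lab (w' (wpos (win_le hm k) (τ i))))
    (nat_win hn _ _)
    ⟨(nat_win hn (win_le hm k) w').inj.comp τ.injective,
      fun a b hab => (nat_win hn (win_le hm k) w').mono _ _ hab⟩
    (fun a b c h1 h2 => htr _ _ _ h1 h2) (fun a b c h1 h2 => htr _ _ _ h1 h2)
    sᶜ hT (fun i hi j hj => by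
      have hi' : i ∈ s := by
        by_contra hcon
        exact hi (Finset.mem_compl.2 hcon)
      have hj' : j ∈ s := by
        by_contra hcon
        exact hj (Finset.mem_compl.2 hcon)
      change Q (f i) (f j) ↔ Q (f' (τ i)) (f' (τ j))
      rw [hτ i hi', hτ j hj'])
  rw [GG_relabel48 (winRel (win_le hm k) Q w') τ] at key
  exact key

end Pool.IS45
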