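import Pool.Agent.IS45.Clm43
import Pool.Agent.IS45.Defs

set_option autoImplicit false

/-!
# IS45/Fin43: left and right side from (3') (hypothesis `GapAll`)
-/

namespace Pool.IS45

open Pool.HB45 Pool.HM63 Pool.PH43 Pool.SC25 Pool.SC45 Pool.TA43

/-- (3'), the tilted law has no gaps, for one `δ` -/
def GapAt (δ C1 s1 : ℝ) (N0 : ℕ) : Prop := ∀ N ≥ N0, ∀ (Q : Rel (N + 1)) (om : Fin (N + 1) → ℕ),
  Lab Q om → (∃ lab, Nat' Q lab) → ∀ (j : ℕ) (s : ℝ),
  C1 * Real.sqrt (Real.log ((N : ℝ) + 1) / ((N : ℝ) + 1)) ≤ s → s ≤ s1 →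
  ∑ g ∈ (LE Q).filter (fun g => des om g ≤ j), Real.exp (-s) ^ des om g =
    WR Q om (Real.exp (-s)) / 2 →
  ∃ i : ℕ, (j : ℝ) - 4 * δ * s * ((N : ℝ) + 1) ≤ i ∧ i ≤ j ∧
    WR Q om (Real.exp (-s)) / ((N : ℝ) + 1) ^ 4 ≤
      ∑ g ∈ (LE Q).filter (fun g => des om g = i), Real.exp (-s) ^ des om g

/-- (3') -/
def GapAll : Prop := ∀ δ : ℝ, 0 < δ → ∃ C1 s1 : ℝ, 0 < C1 ∧ 0 < s1 ∧ ∃ N0 : ℕ, GapAt δ C1 s1 N0

/-- the reversed labelling -/
def rv {n : ℕ} (lab : Fin n → ℕ) (a : Fin n) : ℕ := (∑ b, lab b) - lab a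

theorem rv_le {n : ℕ} (lab : Fin n → ℕ) (a : Fin n) : lab a ≤ ∑ b, lab b :=
  Finset.single_le_sum (f := lab) (fun _ _ => Nat.zero_le _) (Finset.mem_univ a)

theorem rv_lt {n : ℕ} (lab : Fin n → ℕ) (a b : Fin n) : rv lab a < rv lab b ↔ lab b < lab a := by
  have h1 := rv_le lab a
  have h2 := rv_le lab b
  unfold rv
  omega

theorem lab_rv {n : ℕ} {Q : Rel n} {lab : Fin n → ℕ} (hn : Nat' Q lab) : Lab Q (rv lab) := by
  refine ⟨fun a b h => hn.inj ?_, Or.inr fun a b h => (rv_lt lab b a).2 (hn.mono a b h)⟩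
  have h1 := rv_le lab a
  have h2 := rv_le lab b
  unfold rv at h
  omega

theorem lab_nat {n : ℕ} {Q : Rel n} {lab : Fin n → ℕ} (hn : Nat' Q lab) : Lab Q lab :=
  ⟨hn.inj, Or.inl hn.mono⟩

theorem des_rv {N : ℕ} {lab : Fin (N + 1) → ℕ} (hi : Function.Injective lab)
    (g : Equiv.Perm (Fin (N + 1))) : des (rv lab) g = N - des lab g := by
  classical
  have h : des (rv lab) g + des lab g = N := by
    have h1 : (Finset.univ.filter fun i : Fin N =>
        rv lab (g i.succ) < rv lab (g i.castSucc)) =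
        Finset.univ.filter fun i : Fin N => ¬ lab (g i.succ) < lab (g i.castSucc) := by
      apply Finset.filter_congr
      intro i _
      rw [rv_lt]
      have hne : lab (g i.succ) ≠ lab (g i.castSucc) := by
        intro he
        have := g.injective (hi he)
        have h2 := congrArg Fin.val this
        simp at h2
      omega
    have h2 := Finset.card_filter_add_card_filter_not (s := (Finset.univ : Finset (Fin N)))
      (fun i : Fin N => lab (g i.succ) < lab (g i.castSucc))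
    unfold des
    rw [h1]
    simp only [Finset.card_univ, Fintype.card_fin] at h2
    omega
  omega

/-- a sum of a sequence of levels over a set of levels -/
theorem VS_conv {N : ℕ} (Q : Rel (N + 1)) (d : Equiv.Perm (Fin (N + 1)) → ℕ) (v : ℕ → ℝ)
    (hv : ∀ F : ℕ → ℝ, ∑ i ∈ Finset.range (N + 1), v i * F i = ∑ g ∈ LE Q, F (d g)) (s : ℝ)
    (P : ℕ → Prop) [DecidablePred P] :
    VS v s ((Finset.range (N + 1)).filter P) =
      ∑ g ∈ (LE Q).filter (fun g => P (d g)), Real.exp (-s) ^ d g := by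
  have h := hv fun i => if P i then Real.exp (-(s * i)) else 0
  unfold VS
  rw [Finset.sum_filter, Finset.sum_filter]
  have e1 : ∀ i, (if P i then v i * Real.exp (-(s * (i : ℝ))) else 0) =
      v i * (if P i then Real.exp (-(s * (i : ℝ))) else 0) := by
    intro i
    split_ifs
    · rfl
    · rw [mul_zero]
  rw [Finset.sum_congr rfl fun i _ => e1 i, h]
  refine Finset.sum_congr rfl fun g _ => ?_
  split_ifs
  · rw [← Real.exp_nat_mul]
    congr 1
    ring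
  · rfl

/-- (3') in the form used by the climb -/
theorem gap_conv {N N0 : ℕ} {δ C1 s1 : ℝ} (hG : GapAt δ C1 s1 N0) (hN : N0 ≤ N) (Q : Rel (N + 1))
    (lab om : Fin (N + 1) → ℕ) (hn : Nat' Q lab) (hom : Lab Q om) (v : ℕ → ℝ)
    (hv : ∀ F : ℕ → ℝ, ∑ i ∈ Finset.range (N + 1), v i * F i = ∑ g ∈ LE Q, F (des om g)) (j : ℕ)
    (hj : j ≤ N) (s : ℝ) (hs : C1 * Real.sqrt (Real.log ((N : ℝ) + 1) / ((N : ℝ) + 1)) ≤ s)
    (hs1 : s ≤ s1) (hm : VS v s (Finset.range (j + 1)) = VV N v s / 2) :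
    ∃ i : ℕ, (j : ℝ) - 4 * δ * s * ((N : ℝ) + 1) ≤ i ∧ i ≤ j ∧
      VV N v s / ((N : ℝ) + 1) ^ 4 ≤ v i * Real.exp (-(s * i)) := by
  have hW : VV N v s = WR Q om (Real.exp (-s)) := by
    unfold VV WR
    rw [hv fun i => Real.exp (-(s * i))]
    refine Finset.sum_congr rfl fun g _ => ?_
    rw [← Real.exp_nat_mul]
    congr 1
    ring
  have hJ : VS v s (Finset.range (j + 1)) =
      ∑ g ∈ (LE Q).filter (fun g => des om g ≤ j), Real.exp (-s) ^ des om g := by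
    rw [← VS_conv Q (des om) v hv s (fun i => i ≤ j)]
    congr 1
    ext i
    rw [Finset.mem_filter, Finset.mem_range, Finset.mem_range]
    omega
  rw [hJ, hW] at hm
  obtain ⟨i, hi1, hi2, hi3⟩ := hG N hN Q om hom ⟨lab, hn⟩ j s hs hs1 hm
  refine ⟨i, hi1, hi2, ?_⟩
  rw [hW]
  refine hi3.trans (le_of_eq ?_)
  rw [← VS_conv Q (des om) v hv s (fun k => k = i)]
  have e : (Finset.range (N + 1)).filter (fun k => k = i) = {i} := by
    ext k
    rw [Finset.mem_filter, Finset.mem_range, Finset.mem_singleton]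
    omega
  rw [e]
  unfold VS
  rw [Finset.sum_singleton]

/-- `√N ≤ √(n log n)` -/
theorem sqrt_le_Sn (N : ℕ) (hN : 2 ≤ N) : Real.sqrt N ≤ Sn N := by
  have hN' : (2 : ℝ) ≤ N := by exact_mod_cast hN
  have hlog : 1 ≤ Real.log ((N : ℝ) + 1) := by
    rw [Real.le_log_iff_exp_le (by linarith)]
    have := Real.exp_one_lt_d9
    linarith
  unfold Sn
  apply Real.sqrt_le_sqrt
  nlinarith

/-- LEFT SIDE -/
theorem left_side43 (hG : GapAll) (ε : ℝ) (hε : 0 < ε) : ∃ C : ℝ, 0 < C ∧ ∃ N0 : ℕ, ∀ N ≥ N0,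
    ∀ (Q : Rel (N + 1)) (lab : Fin (N + 1) → ℕ), Nat' Q lab → ∀ j : ℕ, ε * N ≤ j →
    (j : ℝ) ≤ (N - NL25.GG Q) / 2 - C * Sn N → vL Q lab j ≤ vL Q lab (j + 1) := by
  obtain ⟨s0, hs0, htb⟩ := tilt_le ε hε
  obtain ⟨c2, hc2, N1, hlev⟩ := level_left ε s0 hε hs0
  obtain ⟨C1, s1, hC1, hs1, N3, hgap⟩ := hG (c2 / 16) (by positivity)
  obtain ⟨C, hC, N2, hcl⟩ := climb43 ε s0 c2 (c2 / 16) s1 C1 hε hs0 hc2 (by positivity)
    (by linarith) hs1 hC1
  refine ⟨max C 13, by positivity, max (max N1 N2) (max N3 2), fun N hN Q lab hn j hj hjD => ?_⟩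
  have g1 : N1 ≤ N := ((le_max_left _ _).trans (le_max_left _ _)).trans hN
  have g2 : N2 ≤ N := ((le_max_right _ _).trans (le_max_left _ _)).trans hN
  have g5 : N3 ≤ N := ((le_max_left _ _).trans (le_max_right _ _)).trans hN
  have g3 : 2 ≤ N := ((le_max_right _ _).trans (le_max_right _ _)).trans hN
  have hq1 := sqrt_le_Sn N g3
  have hSn := Sn_nonneg N
  have hG0 := NL25.GG_nonneg Q
  have hN0 : (0 : ℝ) ≤ N := Nat.cast_nonneg _
  have hj0 : (0 : ℝ) ≤ j := Nat.cast_nonneg _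
  obtain ⟨D, hD⟩ : ∃ D, D = (N - NL25.GG Q) / 2 - j := ⟨_, rfl⟩
  have hCD : C * Sn N ≤ D := by
    have := mul_le_mul_of_nonneg_right (le_max_left C 13) hSn
    linarith
  have h13 : 13 * Real.sqrt N ≤ D := by
    have h1 := mul_le_mul_of_nonneg_right (le_max_right C 13) hSn
    linarith
  have hD0 : 0 ≤ D := le_trans (by positivity) h13
  have hjN : j ≤ N := by
    have : (j : ℝ) ≤ N := by linarith
    exact_mod_cast this
  refine hcl N g2 (vL Q lab) 0 j D (vL_nonneg Q lab) (VV_zero_left hn) hjN (lc_left hn) ?_ ?_ ?_ ?_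
    ?_ hCD
  · intro i s hi hs
    exact htb N (by omega) (vL Q lab) 0 (vL_nonneg Q lab) (VV_zero_left hn) (half_left hn) i s hi hs
  · intro s hs1 hs2
    exact low_left (by omega) hn D s h13 (by linarith) hs1 hs2 j (by linarith)
  · intro i s hi _ hs1 hs2 hm
    exact hlev N g1 Q lab hn i s (by push_cast at hi; linarith) hs1 hs2 hm
  · intro s h1 h2 h3
    exact gap_conv hgap g5 Q lab lab hn (lab_nat hn) (vL Q lab) (sum_vL Q lab) j hjN s h1 h2 h3
  · push_cast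
    linarith

/-- RIGHT SIDE -/
theorem right_side43 (hG : GapAll) (ε : ℝ) (hε : 0 < ε) : ∃ C : ℝ, 0 < C ∧ ∃ N0 : ℕ, ∀ N ≥ N0,
    ∀ (Q : Rel (N + 1)) (κ lab : Fin (N + 1) → ℕ) (β : ℕ), Lev (β + 1) Q κ → Nat' Q lab →
    ∀ i : ℕ, i + 1 ≤ N → (β : ℝ) + ε * N ≤ i → (i : ℝ) + ε * N / 4 ≤ N → 3 / 8 * (N : ℝ) ≤ i →
    (i : ℝ) ≤ (N + NL25.GG Q) / 2 - C * Sn N → vR Q lab i ≤ vR Q lab (i + 1) := by
  obtain ⟨s0, hs0, htb⟩ := tilt_le ε hε
  obtain ⟨c2, hc2, N1, hlev⟩ := level_right ε s0 hε hs0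
  obtain ⟨C1, s1, hC1, hs1, N3, hgap⟩ := hG (c2 / 16) (by positivity)
  obtain ⟨C, hC, N2, hcl⟩ := climb43 ε s0 c2 (c2 / 16) s1 C1 hε hs0 hc2 (by positivity)
    (by linarith) hs1 hC1
  refine ⟨max C 13, by positivity, max (max N1 N2) (max N3 2), fun N hN Q κ lab β hκ hn j hjN hβ hj4
    h38 hjD => ?_⟩
  have g1 : N1 ≤ N := ((le_max_left _ _).trans (le_max_left _ _)).trans hN
  have g2 : N2 ≤ N := ((le_max_right _ _).trans (le_max_left _ _)).trans hN
  have g5 : N3 ≤ N := ((le_max_left _ _).trans (le_max_right _ _)).trans hN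
  have g3 : 2 ≤ N := ((le_max_right _ _).trans (le_max_right _ _)).trans hN
  have hq1 := sqrt_le_Sn N g3
  have hSn := Sn_nonneg N
  have hGN : NL25.GG Q ≤ N := by
    unfold NL25.GG
    have hc := NL25.card_pos hn
    rw [div_le_iff₀ hc]
    calc ∑ g ∈ LE Q, (adj Q g : ℝ) ≤ ∑ _g ∈ LE Q, (N : ℝ) := by
          refine Finset.sum_le_sum fun g _ => ?_
          have h1 : adj Q g ≤ N := by
            unfold adj
            exact (Finset.card_le_univ _).trans (by rw [Fintype.card_fin])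
          exact_mod_cast h1
      _ = N * (LE Q).card := by rw [Finset.sum_const, nsmul_eq_mul, mul_comm]
  have hN0 : (0 : ℝ) ≤ N := Nat.cast_nonneg _
  obtain ⟨D, hD⟩ : ∃ D, D = (N + NL25.GG Q) / 2 - j := ⟨_, rfl⟩
  have hCD : C * Sn N ≤ D := by
    have := mul_le_mul_of_nonneg_right (le_max_left C 13) hSn
    linarith
  have h13 : 13 * Real.sqrt N ≤ D := by
    have h1 := mul_le_mul_of_nonneg_right (le_max_right C 13) hSn
    linarith
  have hvR : ∀ F : ℕ → ℝ, ∑ i ∈ Finset.range (N + 1), vR Q lab i * F i =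
      ∑ g ∈ LE Q, F (des (rv lab) g) := by
    intro F
    rw [sum_vR]
    refine Finset.sum_congr rfl fun g _ => ?_
    rw [des_rv hn.inj]
  refine hcl N g2 (vR Q lab) β j D (vR_nonneg Q lab) (VV_zero_right hn) (by omega) (lc_right hn)
    ?_ ?_ ?_ ?_ hβ hCD
  · intro i s hi hs
    exact htb N (by omega) (vR Q lab) β (vR_nonneg Q lab) (VV_zero_right hn) (half_right hκ hn) i s
      hi hs
  · intro s hs1 hs2
    exact low_right (by omega) hn D s h13 (by linarith) hs1 hs2 j (by omega) (by linarith)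
  · intro i s hi hij hs1 hs2 hm
    have hij' : (i : ℝ) ≤ j := by exact_mod_cast hij
    exact hlev N g1 Q lab hn i s (by omega) (by linarith) hs1 hs2 hm
  · intro s h1 h2 h3
    exact gap_conv hgap g5 Q lab (rv lab) hn (lab_rv hn) (vR Q lab) hvR j (by omega) s h1 h2 h3

end Pool.IS45
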