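import Pool.Agent.IS45.Fin43
import Pool.Agent.TA43.FinP

set_option autoImplicit false

/-!
# IS45/FinP2: all posets, any height, `D = C √(n log n)`: the form for posets
-/

namespace Pool.IS45

open Pool.HB45 Pool.HM63 Pool.PH43 Pool.SC25 Pool.SC45 Pool.TA43

theorem one_le_Sn (N : ℕ) (hN : 1 ≤ N) : 1 ≤ Sn N := by
  have hN' : (1 : ℝ) ≤ N := by exact_mod_cast hN
  have h0 : (2 : ℝ) ≤ (N : ℝ) + 1 := by linarith
  have hlog : (1 / 2 : ℝ) ≤ Real.log ((N : ℝ) + 1) := by
    have h1 := Real.log_two_gt_d9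
    have h2 := Real.log_le_log (by norm_num : (0 : ℝ) < 2) h0
    linarith
  unfold Sn
  rw [Real.one_le_sqrt]
  nlinarith

/-- ALL POSETS, ANY HEIGHT: window `C √(n log n)` -/
theorem all_posets (hG : GapAll) (ε : ℝ) (hε : 0 < ε) : ∃ C : ℝ, 0 < C ∧ ∀ n : ℕ, 2 ≤ n →
    ∀ (α : Type) [PartialOrder α] (f : α ≃ Fin n), (∀ x y : α, x < y → f x < f y) →
    ∀ k : ℕ, ε * n ≤ k →
      ((k : ℝ) ≤ Pool.TA43.mu f - C * Real.sqrt (n * Real.log n) →
        dn f k ≤ dn f (k + 1)) ∧
      (Pool.TA43.mu f + C * Real.sqrt (n * Real.log n) ≤ k →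
        (n ≤ 2 * k + 1 ∨ ∀ s : Finset α, IsChain (· ≤ ·) (s : Set α) →
          (s.card : ℝ) + k + ε * n ≤ n) →
        dn f (k + 1) ≤ dn f k) := by
  classical
  obtain ⟨C1, hC1, N1, hL⟩ := left_side43 hG ε hε
  obtain ⟨C2, hC2, N2, hR⟩ := right_side43 hG (ε / 2) (by positivity)
  obtain ⟨N3, hN3⟩ := exists_nat_ge (2 / ε)
  obtain ⟨M, hM⟩ : ∃ M : ℕ, M = max (max N1 N2) (max N3 8) := ⟨_, rfl⟩
  obtain ⟨C, hCdef⟩ : ∃ C : ℝ, C = max (max C1 C2) (M + 2) := ⟨_, rfl⟩
  have e1 : C1 ≤ C := by rw [hCdef]; exact (le_max_left _ _).trans (le_max_left _ _)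
  have e2 : C2 ≤ C := by rw [hCdef]; exact (le_max_right _ _).trans (le_max_left _ _)
  have e3 : (M : ℝ) + 2 ≤ C := by rw [hCdef]; exact le_max_right _ _
  have hM0 : (0 : ℝ) ≤ M := Nat.cast_nonneg _
  refine ⟨C, by linarith, fun n hn2 α _ f hf k hk => ?_⟩
  obtain ⟨N, rfl⟩ : ∃ N, n = N + 1 := ⟨n - 1, by omega⟩
  have hN1 : 1 ≤ N := by omega
  have hDm : Real.sqrt (((N + 1 : ℕ) : ℝ) * Real.log ((N + 1 : ℕ) : ℝ)) = Sn N := by
    unfold Sn
    push_cast
    rfl
  rw [hDm]
  have hD1 := one_le_Sn N hN1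
  have hn := nat_rel f hf
  have hmu := Pool.TA43.mu_eq f hf
  have hG0 := NL25.GG_nonneg (rel f)
  have hGN := GG_le_N hn
  have hN0 : (0 : ℝ) ≤ N := Nat.cast_nonneg _
  have hk0 : (0 : ℝ) ≤ k := Nat.cast_nonneg _
  have : Fintype α := Fintype.ofEquiv _ f.symm
  have hne : Nonempty α := ⟨f.symm 0⟩
  have hcard : Fintype.card α = N + 1 := by
    rw [Fintype.card_congr f, Fintype.card_fin]
  have hup : N + 1 ≤ 2 * k + 1 → dn f (k + 1) ≤ dn f k := fun h => upper (N + 1) hcard f hf k h
  by_cases hMN : M ≤ N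
  · have g1 : N1 ≤ N := by rw [hM] at hMN; exact ((le_max_left _ _).trans (le_max_left _ _)).trans hMN
    have g2 : N2 ≤ N := by rw [hM] at hMN; exact ((le_max_right _ _).trans (le_max_left _ _)).trans hMN
    have g3 : N3 ≤ N := by rw [hM] at hMN; exact ((le_max_left _ _).trans (le_max_right _ _)).trans hMN
    have g4 : 8 ≤ N := by rw [hM] at hMN; exact ((le_max_right _ _).trans (le_max_right _ _)).trans hMN
    have hN8 : (8 : ℝ) ≤ N := by exact_mod_cast g4
    have hεN : 2 ≤ ε * N := by
      have h6 : 2 / ε ≤ N := hN3.trans (by exact_mod_cast g3)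
      rw [div_le_iff₀ hε] at h6
      linarith
    push_cast at hk
    constructor
    · intro hkD
      have h1 : vL (rel f) (fun a => a.val) k ≤ vL (rel f) (fun a => a.val) (k + 1) := by
        refine hL N g1 (rel f) _ hn k (by nlinarith) ?_
        have := mul_le_mul_of_nonneg_right e1 (by linarith : 0 ≤ Sn N)
        linarith
      rw [dn_eq, dn_eq]
      unfold vL at h1
      exact_mod_cast h1
    · intro hkD hor
      by_cases h2k : N + 1 ≤ 2 * k + 1
      · exact hup h2k
      · have hch : ∀ s : Finset α, IsChain (· ≤ ·) (s : Set α) →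
            (s.card : ℝ) + k + ε * (N + 1) ≤ N + 1 := by
          rcases hor with h | h
          · exact absurd h h2k
          · intro s hs
            have := h s hs
            push_cast at this
            exact this
        -- the longest chain
        obtain ⟨β, hβ⟩ : ∃ β : ℕ, β = ⌊(N : ℝ) - k - ε * (N + 1)⌋₊ := ⟨_, rfl⟩
        have hβ0 : 0 ≤ (N : ℝ) - k - ε * (N + 1) := by
          obtain ⟨a⟩ := hne
          have := hch {a} (by simp)
          rw [Finset.card_singleton] at this
          push_cast at this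
          linarith
        have hβle : (β : ℝ) ≤ (N : ℝ) - k - ε * (N + 1) := by
          rw [hβ]
          exact Nat.floor_le hβ0
        obtain ⟨κ, hκ⟩ := exists_lev (h := β + 1) f (by
          intro s hs
          have h3 := hch s hs
          rcases Nat.eq_zero_or_pos s.card with h0 | h0
          · omega
          · have h4 : ((s.card - 1 : ℕ) : ℝ) ≤ (N : ℝ) - k - ε * (N + 1) := by
              rw [Nat.cast_sub h0]
              push_cast
              linarith
            have h5 : s.card - 1 ≤ β := by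
              rw [hβ]
              exact Nat.le_floor h4
            omega)
        have hkN : 2 * k < N := by omega
        have hkN' : 2 * (k : ℝ) + 1 ≤ N := by exact_mod_cast hkN
        obtain ⟨i, hi⟩ : ∃ i, i = N - (k + 1) := ⟨_, rfl⟩
        have hiN : i + (k + 1) = N := by omega
        have hiR : (i : ℝ) = N - k - 1 := by
          have : (i : ℝ) + (k + 1) = N := by exact_mod_cast hiN
          linarith
        have h1 : vR (rel f) (fun a => a.val) i ≤ vR (rel f) (fun a => a.val) (i + 1) := by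
          refine hR N g2 (rel f) κ _ β hκ hn i (by omega) ?_ ?_ ?_ ?_
          · rw [hiR]
            nlinarith
          · rw [hiR]
            nlinarith
          · rw [hiR]
            linarith
          · rw [hiR]
            have := mul_le_mul_of_nonneg_right e2 (by linarith : 0 ≤ Sn N)
            linarith
        unfold vR at h1
        have h6 : N - i = k + 1 := by omega
        have h7 : N - (i + 1) = k := by omega
        rw [h6, h7] at h1
        rw [dn_eq, dn_eq]
        exact_mod_cast h1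
  · push Not at hMN
    have h3 : (N : ℝ) + 1 ≤ M := by exact_mod_cast hMN
    have h4 : (M : ℝ) + 2 ≤ C * Sn N := by nlinarith
    constructor
    · intro h
      exfalso
      linarith
    · intro h _
      refine hup ?_
      have h5 : (N : ℝ) + 1 ≤ k := by linarith
      have h6 : N + 1 ≤ k := by exact_mod_cast h5
      omega

end Pool.IS45
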