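import Pool.Agent.IS45.Stab

set_option autoImplicit false

/-!
# IS45/GGfewS24: proof of `GG_few`
-/

namespace Pool.IS45.GGfewS24

open Pool.HB45 Pool.IS45

theorem adj_rel {N : ℕ} (Q : Rel (N + 1)) (τ g : Equiv.Perm (Fin (N + 1))) :
    adj (fun i j => Q (τ i) (τ j)) g = adj Q (τ * g) := by
  classical
  unfold adj adjs
  congr 1

theorem mem_LE_rel {n : ℕ} (Q : Rel n) (τ g : Equiv.Perm (Fin n)) :
    g ∈ LE (fun i j => Q (τ i) (τ j)) ↔ τ * g ∈ LE Q := by
  rw [mem_LE, mem_LE]
  exact Iff.rfl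

/-- `GG` does not change under a renaming -/
theorem GG_rel {N : ℕ} (Q : Rel (N + 1)) (τ : Equiv.Perm (Fin (N + 1))) :
    NL25.GG (fun i j => Q (τ i) (τ j)) = NL25.GG Q := by
  classical
  have h1 : (LE (fun i j => Q (τ i) (τ j))).card = (LE Q).card := by
    refine Finset.card_bij (fun g _ => τ * g) (fun g hg => (mem_LE_rel Q τ g).1 hg)
      (fun g _ g' _ h => mul_left_cancel h) (fun g hg => ⟨τ⁻¹ * g, ?_, by rw [mul_inv_cancel_left]⟩)
    rw [mem_LE_rel, mul_inv_cancel_left]
    exact hg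
  have h2 : ∑ g ∈ LE (fun i j => Q (τ i) (τ j)), (adj (fun i j => Q (τ i) (τ j)) g : ℝ) =
      ∑ g ∈ LE Q, (adj Q g : ℝ) := by
    refine Finset.sum_bij (fun g _ => τ * g) (fun g hg => (mem_LE_rel Q τ g).1 hg)
      (fun g _ g' _ h => mul_left_cancel h) (fun g hg => ⟨τ⁻¹ * g, ?_, by rw [mul_inv_cancel_left]⟩) ?_
    · rw [mem_LE_rel, mul_inv_cancel_left]
      exact hg
    · intro g _
      rw [adj_rel]
  unfold NL25.GG
  rw [h1, h2]

/-- a bijection which matches two injections outside of a small set -/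
theorem exists_match {a b : ℕ} {f f' : Fin a → Fin b} (hf : Function.Injective f)
    (hc : (Finset.univ.image f \ Finset.univ.image f').card ≤ 2) :
    ∃ (τ : Equiv.Perm (Fin a)) (T : Finset (Fin a)), T.card ≤ 2 ∧ ∀ i, i ∉ T → f' (τ i) = f i := by
  classical
  let T : Finset (Fin a) := Finset.univ.filter fun i => f i ∉ Finset.univ.image f'
  have hT : T.card ≤ 2 := by
    refine le_trans ?_ hc
    rw [← Finset.card_image_of_injective T hf]
    refine Finset.card_le_card ?_
    intro y hy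
    obtain ⟨i, hi, rfl⟩ := Finset.mem_image.1 hy
    rw [Finset.mem_sdiff]
    exact ⟨Finset.mem_image_of_mem _ (Finset.mem_univ _), (Finset.mem_filter.1 hi).2⟩
  have hex : ∀ i : Fin a, i ∉ T → ∃ j, f' j = f i := by
    intro i hi
    by_contra hne
    apply hi
    refine Finset.mem_filter.2 ⟨Finset.mem_univ _, fun h => hne ?_⟩
    obtain ⟨j, -, hj⟩ := Finset.mem_image.1 h
    exact ⟨j, hj⟩
  let φ : Fin a → Fin a := fun i => if h : i ∉ T then (hex i h).choose else i
  have hφ : ∀ i, i ∉ T → f' (φ i) = f i := by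
    intro i hi
    have e : φ i = (hex i hi).choose := dif_pos hi
    rw [e]
    exact (hex i hi).choose_spec
  obtain ⟨g, hg⟩ := Finset.exists_equiv_extend_of_card_eq (α := Fin a) (β := Fin a) (t := Finset.univ)
    (by simp) (s := Tᶜ) (f := φ) (Finset.subset_univ _) (by
      intro i hi j hj hij
      have hi' : i ∉ T := Finset.mem_compl.1 (Finset.mem_coe.1 hi)
      have hj' : j ∉ T := Finset.mem_compl.1 (Finset.mem_coe.1 hj)
      apply hf
      rw [← hφ i hi', ← hφ j hj', hij])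
  let τ : Equiv.Perm (Fin a) := g.trans (Equiv.subtypeUnivEquiv fun x => Finset.mem_univ x)
  refine ⟨τ, T, hT, fun i hi => ?_⟩
  have e : τ i = φ i := hg i (Finset.mem_compl.2 hi)
  rw [e]
  exact hφ i hi

theorem nat_win {N o f : ℕ} (hof : o + f ≤ N + 1) {Q : Rel (N + 1)} {w : Equiv.Perm (Fin (N + 1))}
    (hw : w ∈ LE Q) : Nat' (winRel hof Q w) (fun i => i.val) where
  inj := Fin.val_injective
  mono := fun a b h => by
    have h1 := mem_LE.1 hw _ _ h
    have h2 : (wpos hof a).val < (wpos hof b).val := h1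
    unfold wpos at h2
    simpa using h2

theorem wpos_inj {n o f : ℕ} (hof : o + f ≤ n) : Function.Injective (wpos hof) := by
  intro i j h
  have h1 : (wpos hof i).val = (wpos hof j).val := by rw [h]
  unfold wpos at h1
  exact Fin.ext (by simpa using h1)

theorem GG_few (θ : ℝ) (hθ : 0 < θ) : ∃ B0 : ℕ, ∀ B ≥ B0, ∀ (N m : ℕ) (hm : m * (B + 2) ≤ N + 1)
    (Q : Rel (N + 1)) (om : Fin (N + 1) → ℕ), Lab Q om → (∀ a b c, Q a b → Q b c → Q a c) →
    ∀ (k : Fin m) (w w' : Equiv.Perm (Fin (N + 1))), w ∈ LE Q → w' ∈ LE Q →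
    (ct hm k w \ ct hm k w').card ≤ 2 →
    |NL25.GG (winRel (win_le hm k) Q w) - NL25.GG (winRel (win_le hm k) Q w')| ≤ θ * B := by
  obtain ⟨B0, hB0⟩ := stab θ hθ
  refine ⟨B0, fun B hB N m hm Q om _ ht k w w' hw hw' hc => ?_⟩
  obtain ⟨τ, T, hT, hτ⟩ := exists_match (f := fun i : Fin (B + 1) => w (wpos (win_le hm k) i))
    (f' := fun i : Fin (B + 1) => w' (wpos (win_le hm k) i))
    (w.injective.comp (wpos_inj _)) (by
      unfold ct at hc
      exact hc)
  have hn1 := nat_win (win_le hm k) hw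
  have hn2 := nat_win (win_le hm k) hw'
  have h := hB0 B hB (winRel (win_le hm k) Q w)
    (fun i j => winRel (win_le hm k) Q w' (τ i) (τ j)) (fun i => i.val) (fun i => (τ i).val) hn1
    ⟨fun i j hij => τ.injective (Fin.val_injective hij), fun a b hab => hn2.mono _ _ hab⟩
    (fun a b c => ht _ _ _) (fun a b c => ht _ _ _) T hT (by
      intro i hi j hj
      have e1 : w' (wpos (win_le hm k) (τ i)) = w (wpos (win_le hm k) i) := hτ i hi
      have e2 : w' (wpos (win_le hm k) (τ j)) = w (wpos (win_le hm k) j) := hτ j hj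
      unfold winRel
      rw [e1, e2])
  rw [GG_rel] at h
  exact h

end Pool.IS45.GGfewS24
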