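import Pool.Agent.IS45.IsoS63

set_option autoImplicit false

/-!
# IS45/Iso: isoperimetry for `(Q, om)`-partitions (proved in IsoS63)

PROOF. `dim` with `f = r^mx` on `A`, `g = r^mx` on `PP`, `h j = r^mx` on `N1`. For `x ∈ A`, `y ∈ PP`: the output is in `PP`
(`TT_add`, `TT_le`), near `x` (`TT_near_up`, `TT_near_lo`, `m ≤ 2^l`), `mx (TT x y) ≤ TT (mx x) (mx y)` (`TT_mono`) and `TT_sum`.
-/

namespace Pool.IS45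

open Pool.HB45

open Classical in
theorem iso {n : ℕ} (Q : Rel n) (om : Fin n → ℕ) (m l : ℕ) (hm : m ≤ 2 ^ l) (r : ℝ) (hr0 : 0 < r)
    (hr1 : r ≤ 1) (A : Finset (Fin n → ℕ)) (hA : A ⊆ PP Q om m) (hA0 : A.Nonempty) :
    (∑ F ∈ A, r ^ mx F) ^ (2 ^ l - 1) * ∑ F ∈ PP Q om m, r ^ mx F ≤
      (∑ F ∈ (PP Q om m).filter (fun F => ∃ G ∈ A, Near G F), r ^ mx F) ^ 2 ^ l :=
  isoS63 Q om m l hm r hr0 hr1 A hA hA0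

/-- PROOF. `a = ∑_A`, `b = ∑_(N1)`, `t = ∑_PP`: `(b/a)^K ≥ t/a ≥ 4/3`, so `b ≥ a (1 + log (4/3)/K)` and `log (4/3) ≥ 1/4`;
`a ≥ t/4`. -/
theorem iso_bd {a b t : ℝ} {K : ℕ} (hK : 1 ≤ K) (ha : t / 4 ≤ a) (hat : a ≤ 3 / 4 * t) (ht : 0 < t)
    (hb : 0 ≤ b) (h : a ^ (K - 1) * t ≤ b ^ K) : a + t / (16 * K) ≤ b :=
  iso_bdS63 hK ha hat ht hb h

end Pool.IS45
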