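import Pool.Agent.IS45.Word
import Pool.Agent.IS45.Iso
import Pool.Agent.IS45.Conc

set_option autoImplicit false

/-!
# IS45/GapCoreS25: isoperimetry against an assumed gap
-/

namespace Pool.IS45.GapCoreS25

open Pool.HB45

/-- the numbers -/
theorem nums {n T t a : ℝ} (hn : 1000 ≤ n) (hT : 0 < T)
    (ht1 : T * (1 - 1 / n ^ 5) ≤ t) (ht2 : t ≤ T)
    (ha1 : (1 - 1 / n ^ 5) * (T * (1 / 2 - 1 / (50 * n ^ 2) - 1 / n ^ 5)) ≤ a)
    (ha2 : a ≤ T * (1 / 2 + 1 / n ^ 5)) : t / 4 ≤ a ∧ a ≤ 3 / 4 * t := by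
  have h5 : (0 : ℝ) < n ^ 5 := by positivity
  have h2 : (0 : ℝ) < n ^ 2 := by positivity
  have e5 : 1 / n ^ 5 ≤ 1 / 1000 := by
    refine one_div_le_one_div_of_le (by norm_num) ?_
    calc (1000 : ℝ) ≤ n := hn
      _ = n ^ 1 := (pow_one n).symm
      _ ≤ n ^ 5 := pow_le_pow_right₀ (by linarith) (by norm_num)
  have e5' : 0 < 1 / n ^ 5 := by positivity
  have e2 : 1 / (50 * n ^ 2) ≤ 1 / 1000 := by
    refine one_div_le_one_div_of_le (by norm_num) ?_
    nlinarith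
  have e2' : 0 < 1 / (50 * n ^ 2) := by positivity
  obtain ⟨x, hx⟩ : ∃ x, x = 1 / n ^ 5 := ⟨_, rfl⟩
  obtain ⟨y, hy⟩ : ∃ y, y = 1 / (50 * n ^ 2) := ⟨_, rfl⟩
  rw [← hx] at ht1 ha1 ha2 e5 e5'
  rw [← hy] at ha1 e2 e2'
  have h6 : (1 - 1 / 1000) * (T * (1 / 2 - 1 / 1000 - 1 / 1000)) ≤ (1 - x) * (T * (1 / 2 - y - x)) := by
    refine mul_le_mul (by linarith) ?_ ?_ (by linarith)
    · exact mul_le_mul_of_nonneg_left (by linarith) hT.le
    · exact mul_nonneg hT.le (by norm_num)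
  have h7 : T * x ≤ T * (1 / 1000) := mul_le_mul_of_nonneg_left e5 hT.le
  constructor
  · nlinarith
  · nlinarith

theorem nums2 {n W S : ℝ} (hn : 1000 ≤ n) (hW : 0 < W)
    (h : W * ((1 - 1 / n ^ 5) / (16 * n ^ 2) - 1 / n ^ 5) ≤ S + W / n ^ 5)
    (hS : S < W / (50 * n ^ 2)) : False := by
  have h5 : (0 : ℝ) < n ^ 5 := by positivity
  have h2 : (0 : ℝ) < n ^ 2 := by positivity
  have h1 : W * ((1 - 1 / n ^ 5) / (16 * n ^ 2) - 1 / n ^ 5) < W / (50 * n ^ 2) + W / n ^ 5 := by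
    linarith
  have h3 : (1 - 1 / n ^ 5) / (16 * n ^ 2) - 1 / n ^ 5 < 1 / (50 * n ^ 2) + 1 / n ^ 5 := by
    have h4 : W / (50 * n ^ 2) + W / n ^ 5 = W * (1 / (50 * n ^ 2) + 1 / n ^ 5) := by ring
    rw [h4] at h1
    exact lt_of_mul_lt_mul_left h1 hW.le
  have h6 : ((1 - 1 / n ^ 5) / (16 * n ^ 2) - 1 / n ^ 5) * (400 * n ^ 5) <
      (1 / (50 * n ^ 2) + 1 / n ^ 5) * (400 * n ^ 5) :=
    mul_lt_mul_of_pos_right h3 (by positivity)
  have h7 : ((1 - 1 / n ^ 5) / (16 * n ^ 2) - 1 / n ^ 5) * (400 * n ^ 5) =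
      25 * n ^ 3 - 25 / n ^ 2 - 400 := by
    field_simp
    ring
  have h8 : (1 / (50 * n ^ 2) + 1 / n ^ 5) * (400 * n ^ 5) = 8 * n ^ 3 + 400 := by
    field_simp
    ring
  rw [h7, h8] at h6
  have h9 : 25 / n ^ 2 ≤ 1 := by
    rw [div_le_one h2]
    nlinarith
  have h10 : (1000 : ℝ) ≤ n ^ 3 := by
    calc (1000 : ℝ) ≤ n := hn
      _ = n ^ 1 := (pow_one n).symm
      _ ≤ n ^ 3 := pow_le_pow_right₀ (by linarith) (by norm_num)
  linarith

open Classical in
theorem gap_core {N B m L l : ℕ} (hm : m * (B + 2) ≤ N + 1) (hN : 1000 ≤ N) {Q : Rel (N + 1)}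
    {om : Fin (N + 1) → ℕ} (hL : Lab Q om) (hne : (LE Q).Nonempty) (r h : ℝ) (hr0 : 0 < r)
    (hr1 : r < 1) (hh : 0 ≤ h) (j : ℕ) (hK : (N + 1) * L ≤ 2 ^ l)
    (hK2 : ((2 : ℝ) ^ l) ≤ ((N : ℝ) + 1) ^ 2)
    (hrL : 1 - 1 / ((N : ℝ) + 1) ^ 5 ≤ (1 - r ^ L) ^ (N + 1))
    (htyp : ∑ G ∈ (PP Q om ((N + 1) * L)).filter (fun G => ∃ F ∈ PP Q om ((N + 1) * L), Near F G ∧
      h < |zc hm Q om r (word om F) - zc hm Q om r (word om G)|), r ^ mx G ≤
      WR Q om r / (1 - r) ^ (N + 1) / ((N : ℝ) + 1) ^ 5)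
    (hconc : ∑ g ∈ (LE Q).filter (fun g => h ≤ |(des om g : ℝ) - zc hm Q om r g|), r ^ des om g ≤
      WR Q om r / ((N : ℝ) + 1) ^ 5)
    (hmed : ∑ g ∈ (LE Q).filter (fun g => des om g ≤ j), r ^ des om g = WR Q om r / 2) :
    WR Q om r / (50 * ((N : ℝ) + 1) ^ 2) ≤
      ∑ g ∈ (LE Q).filter (fun g => (j : ℝ) - 4 * h ≤ des om g ∧ des om g ≤ j), r ^ des om g := by
  obtain ⟨n, hn⟩ : ∃ n : ℝ, n = (N : ℝ) + 1 := ⟨_, rfl⟩
  rw [← hn] at hK2 hrL htyp hconc ⊢
  have hn1 : 1000 ≤ n := by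
    have : (1000 : ℝ) ≤ N := by exact_mod_cast hN
    linarith
  obtain ⟨W, hWd⟩ : ∃ W, W = WR Q om r := ⟨_, rfl⟩
  rw [← hWd] at htyp hconc hmed ⊢
  have hW : 0 < W := by
    rw [hWd]
    exact Finset.sum_pos (fun g _ => pow_pos hr0 _) hne
  obtain ⟨D, hD⟩ : ∃ D, D = (1 - r) ^ (N + 1) := ⟨_, rfl⟩
  have hD0 : 0 < D := by
    rw [hD]
    exact pow_pos (by linarith) _
  rw [← hD] at htyp
  by_contra hcon
  rw [not_le] at hcon
  obtain ⟨S, hS⟩ : ∃ S, S = ∑ g ∈ (LE Q).filter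
      (fun g => (j : ℝ) - 4 * h ≤ des om g ∧ des om g ≤ j), r ^ des om g := ⟨_, rfl⟩
  rw [← hS] at hcon
  obtain ⟨P, hP⟩ : ∃ P, P = PP Q om ((N + 1) * L) := ⟨_, rfl⟩
  -- masses
  have hmemw : ∀ F ∈ P, word om F ∈ LE Q := fun F hF => word_mem hL (hP ▸ hF)
  have hfilt : ∀ p : Equiv.Perm (Fin (N + 1)) → Prop,
      P.filter (fun F => p (word om F)) = P.filter (fun F => word om F ∈ (LE Q).filter p) := by
    intro p
    refine Finset.filter_congr fun F hF => ?_
    rw [Finset.mem_filter]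
    exact ⟨fun h => ⟨hmemw F hF, h⟩, fun h => h.2⟩
  have hup : ∀ p : Equiv.Perm (Fin (N + 1)) → Prop,
      ∑ F ∈ P.filter (fun F => p (word om F)), r ^ mx F ≤
        (∑ g ∈ (LE Q).filter p, r ^ des om g) / D := by
    intro p
    have h1 := sum_up hL ((N + 1) * L) r hr0 hr1 ((LE Q).filter p) ∅ (Finset.empty_subset _)
    rw [Finset.card_empty, pow_zero, one_mul, ← hD, ← hP] at h1
    refine le_trans (le_of_eq ?_) h1
    rw [hfilt p]
    refine Finset.sum_congr (Finset.filter_congr fun F _ => ?_) fun _ _ => rfl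
    exact ⟨fun h => ⟨h, Finset.empty_subset _⟩, fun h => h.1⟩
  have hlo : ∀ p : Equiv.Perm (Fin (N + 1)) → Prop,
      (1 - 1 / n ^ 5) * ((∑ g ∈ (LE Q).filter p, r ^ des om g) / D) ≤
        ∑ F ∈ P.filter (fun F => p (word om F)), r ^ mx F := by
    intro p
    have h1 := sum_lo hL L r hr0 hr1 ((LE Q).filter p) (Finset.filter_subset _ _)
    rw [← hD, ← hP, ← hfilt p] at h1
    refine le_trans (mul_le_mul_of_nonneg_right hrL ?_) h1
    exact div_nonneg (Finset.sum_nonneg fun g _ => pow_nonneg hr0.le _) hD0.le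
  obtain ⟨T, hT⟩ : ∃ T, T = W / D := ⟨_, rfl⟩
  have hT0 : 0 < T := by
    rw [hT]
    exact div_pos hW hD0
  obtain ⟨t, ht⟩ : ∃ t, t = ∑ F ∈ P, r ^ mx F := ⟨_, rfl⟩
  have ht1 : T * (1 - 1 / n ^ 5) ≤ t := by
    have h1 := hlo (fun _ => True)
    rw [Finset.filter_true, Finset.filter_true] at h1
    have h2 : ∑ g ∈ LE Q, r ^ des om g = W := by rw [hWd]; rfl
    rw [h2, ← hT, ← ht] at h1
    linarith
  have ht2 : t ≤ T := by
    have h1 := hup (fun _ => True)
    rw [Finset.filter_true, Finset.filter_true] at h1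
    have h2 : ∑ g ∈ LE Q, r ^ des om g = W := by rw [hWd]; rfl
    rw [h2, ← hT, ← ht] at h1
    exact h1
  -- the words below the cut
  obtain ⟨z0, hz0⟩ : ∃ z0, z0 = (j : ℝ) - 3 * h := ⟨_, rfl⟩
  have hnn : ∀ (X : Finset (Equiv.Perm (Fin (N + 1)))), 0 ≤ ∑ g ∈ X, r ^ des om g :=
    fun X => Finset.sum_nonneg fun g _ => pow_nonneg hr0.le _
  have hw_lo : W * (1 / 2 - 1 / (50 * n ^ 2) - 1 / n ^ 5) ≤
      ∑ g ∈ (LE Q).filter (fun g => zc hm Q om r g ≤ z0), r ^ des om g := by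
    have h1 : (LE Q).filter (fun g => des om g ≤ j) ⊆
        (LE Q).filter (fun g => zc hm Q om r g ≤ z0) ∪
          ((LE Q).filter (fun g => (j : ℝ) - 4 * h ≤ des om g ∧ des om g ≤ j) ∪
            (LE Q).filter (fun g => h ≤ |(des om g : ℝ) - zc hm Q om r g|)) := by
      intro g hg
      rw [Finset.mem_filter] at hg
      rw [Finset.mem_union, Finset.mem_union, Finset.mem_filter, Finset.mem_filter,
        Finset.mem_filter]
      by_cases c1 : (j : ℝ) - 4 * h ≤ des om g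
      · exact Or.inr (Or.inl ⟨hg.1, c1, hg.2⟩)
      · by_cases c2 : h ≤ |(des om g : ℝ) - zc hm Q om r g|
        · exact Or.inr (Or.inr ⟨hg.1, c2⟩)
        · left
          refine ⟨hg.1, ?_⟩
          rw [not_le] at c1 c2
          have := (abs_lt.1 c2).1
          rw [hz0]
          linarith
    have h2 := Finset.sum_le_sum_of_subset_of_nonneg h1
      (f := fun g => r ^ des om g) fun g _ _ => pow_nonneg hr0.le _
    have h3 := Finset.sum_union_inter (s₁ := (LE Q).filter (fun g => zc hm Q om r g ≤ z0))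
      (s₂ := ((LE Q).filter (fun g => (j : ℝ) - 4 * h ≤ des om g ∧ des om g ≤ j) ∪
            (LE Q).filter (fun g => h ≤ |(des om g : ℝ) - zc hm Q om r g|)))
      (f := fun g => r ^ des om g)
    have h4 := Finset.sum_union_inter
      (s₁ := (LE Q).filter (fun g => (j : ℝ) - 4 * h ≤ des om g ∧ des om g ≤ j))
      (s₂ := (LE Q).filter (fun g => h ≤ |(des om g : ℝ) - zc hm Q om r g|))
      (f := fun g => r ^ des om g)
    have h5 := hnn ((LE Q).filter (fun g => zc hm Q om r g ≤ z0) ∩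
      ((LE Q).filter (fun g => (j : ℝ) - 4 * h ≤ des om g ∧ des om g ≤ j) ∪
            (LE Q).filter (fun g => h ≤ |(des om g : ℝ) - zc hm Q om r g|)))
    have h6 := hnn ((LE Q).filter (fun g => (j : ℝ) - 4 * h ≤ des om g ∧ des om g ≤ j) ∩
            (LE Q).filter (fun g => h ≤ |(des om g : ℝ) - zc hm Q om r g|))
    rw [← hS] at h4
    rw [hmed] at h2
    have e : W * (1 / 2 - 1 / (50 * n ^ 2) - 1 / n ^ 5) =
        W / 2 - W / (50 * n ^ 2) - W / n ^ 5 := by ring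
    rw [e]
    linarith
  have hw_up : ∑ g ∈ (LE Q).filter (fun g => zc hm Q om r g ≤ z0), r ^ des om g ≤
      W * (1 / 2 + 1 / n ^ 5) := by
    have h1 : (LE Q).filter (fun g => zc hm Q om r g ≤ z0) ⊆
        (LE Q).filter (fun g => des om g ≤ j) ∪
            (LE Q).filter (fun g => h ≤ |(des om g : ℝ) - zc hm Q om r g|) := by
      intro g hg
      rw [Finset.mem_filter] at hg
      rw [Finset.mem_union, Finset.mem_filter, Finset.mem_filter]
      by_cases c2 : h ≤ |(des om g : ℝ) - zc hm Q om r g|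
      · exact Or.inr ⟨hg.1, c2⟩
      · left
        refine ⟨hg.1, ?_⟩
        rw [not_le] at c2
        have h3 := (abs_lt.1 c2).2
        have h4 := hg.2
        rw [hz0] at h4
        have h5 : (des om g : ℝ) ≤ j := by linarith
        exact_mod_cast h5
    have h2 := Finset.sum_le_sum_of_subset_of_nonneg h1
      (f := fun g => r ^ des om g) fun g _ _ => pow_nonneg hr0.le _
    have h4 := Finset.sum_union_inter
      (s₁ := (LE Q).filter (fun g => des om g ≤ j))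
      (s₂ := (LE Q).filter (fun g => h ≤ |(des om g : ℝ) - zc hm Q om r g|))
      (f := fun g => r ^ des om g)
    have h6 := hnn ((LE Q).filter (fun g => des om g ≤ j) ∩
            (LE Q).filter (fun g => h ≤ |(des om g : ℝ) - zc hm Q om r g|))
    rw [hmed] at h4
    have e : W * (1 / 2 + 1 / n ^ 5) = W / 2 + W / n ^ 5 := by ring
    rw [e]
    linarith
  obtain ⟨A, hA⟩ : ∃ A, A = P.filter (fun F => zc hm Q om r (word om F) ≤ z0) := ⟨_, rfl⟩
  obtain ⟨a, ha⟩ : ∃ a, a = ∑ F ∈ A, r ^ mx F := ⟨_, rfl⟩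
  have ha1 : (1 - 1 / n ^ 5) * (T * (1 / 2 - 1 / (50 * n ^ 2) - 1 / n ^ 5)) ≤ a := by
    rw [ha, hA]
    refine le_trans ?_ (hlo (fun g => zc hm Q om r g ≤ z0))
    have h5 : (0 : ℝ) ≤ 1 - 1 / n ^ 5 := by
      have : 1 / n ^ 5 ≤ 1 := by
        rw [div_le_one (by positivity)]
        exact one_le_pow₀ (by linarith)
      linarith
    refine mul_le_mul_of_nonneg_left ?_ h5
    rw [hT, div_mul_eq_mul_div]
    exact div_le_div_of_nonneg_right hw_lo hD0.le
  have ha2 : a ≤ T * (1 / 2 + 1 / n ^ 5) := by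
    rw [ha, hA]
    refine le_trans (hup (fun g => zc hm Q om r g ≤ z0)) ?_
    rw [hT, div_mul_eq_mul_div]
    exact div_le_div_of_nonneg_right hw_up hD0.le
  obtain ⟨hat1, hat2⟩ := nums hn1 hT0 ht1 ht2 ha1 ha2
  have ht0 : 0 < t := by
    have h1 : 1 / n ^ 5 ≤ 1 / 1000 := by
      refine one_div_le_one_div_of_le (by norm_num) ?_
      calc (1000 : ℝ) ≤ n := hn1
        _ = n ^ 1 := (pow_one n).symm
        _ ≤ n ^ 5 := pow_le_pow_right₀ (by linarith) (by norm_num)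
    nlinarith
  have hAne : A.Nonempty := by
    by_contra hA0
    rw [Finset.not_nonempty_iff_eq_empty] at hA0
    rw [ha, hA0, Finset.sum_empty] at hat1
    linarith
  have hAP : A ⊆ PP Q om ((N + 1) * L) := by
    rw [hA, hP]
    exact Finset.filter_subset _ _
  have hiso := iso Q om ((N + 1) * L) l hK r hr0 hr1.le A hAP hAne
  rw [← hP, ← ht, ← ha] at hiso
  obtain ⟨N1, hN1⟩ : ∃ N1, N1 = P.filter (fun F => ∃ G ∈ A, Near G F) := ⟨_, rfl⟩
  obtain ⟨b, hb⟩ : ∃ b, b = ∑ F ∈ N1, r ^ mx F := ⟨_, rfl⟩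
  rw [← hN1, ← hb] at hiso
  have hb0 : 0 ≤ b := by
    rw [hb]
    exact Finset.sum_nonneg fun F _ => pow_nonneg hr0.le _
  have hbd := iso_bd (K := 2 ^ l) Nat.one_le_two_pow hat1 hat2 ht0 hb0 hiso
  -- the boundary
  have hAN : A ⊆ N1 := by
    intro F hF
    rw [hN1, Finset.mem_filter]
    refine ⟨?_, F, hF, fun x => ⟨Nat.le_succ _, Nat.le_succ _⟩⟩
    rw [hA, Finset.mem_filter] at hF
    exact hF.1
  have hsplit : ∑ F ∈ N1 \ A, r ^ mx F + a = b := by
    rw [ha, hb]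
    exact Finset.sum_sdiff hAN
  have hsub : N1 \ A ⊆ P.filter (fun F => ∃ G ∈ P, Near G F ∧
      h < |zc hm Q om r (word om G) - zc hm Q om r (word om F)|) ∪
      P.filter (fun F => z0 < zc hm Q om r (word om F) ∧ zc hm Q om r (word om F) ≤ z0 + h) := by
    intro F hF
    rw [Finset.mem_sdiff, hN1, Finset.mem_filter] at hF
    obtain ⟨⟨hFP, G, hGA, hGF⟩, hFA⟩ := hF
    have hG := hGA
    rw [hA, Finset.mem_filter] at hG
    have hF0 : z0 < zc hm Q om r (word om F) := by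
      by_contra hc
      exact hFA (by rw [hA, Finset.mem_filter]; exact ⟨hFP, not_lt.1 hc⟩)
    rw [Finset.mem_union, Finset.mem_filter, Finset.mem_filter]
    by_cases c : h < |zc hm Q om r (word om G) - zc hm Q om r (word om F)|
    · exact Or.inl ⟨hFP, G, hG.1, hGF, c⟩
    · right
      refine ⟨hFP, hF0, ?_⟩
      rw [not_lt] at c
      have := (abs_le.1 c).1
      linarith [hG.2]
  have hbnd : ∑ F ∈ N1 \ A, r ^ mx F ≤ T / n ^ 5 +
      (∑ g ∈ (LE Q).filter (fun g => z0 < zc hm Q om r g ∧ zc hm Q om r g ≤ z0 + h),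
        r ^ des om g) / D := by
    have h1 := Finset.sum_le_sum_of_subset_of_nonneg hsub
      (f := fun F => r ^ mx F) fun g _ _ => pow_nonneg hr0.le _
    have h2 := Finset.sum_union_inter (s₁ := P.filter (fun F => ∃ G ∈ P, Near G F ∧
      h < |zc hm Q om r (word om G) - zc hm Q om r (word om F)|))
      (s₂ := P.filter (fun F => z0 < zc hm Q om r (word om F) ∧
        zc hm Q om r (word om F) ≤ z0 + h)) (f := fun F => r ^ mx F)
    have h3 : 0 ≤ ∑ F ∈ P.filter (fun F => ∃ G ∈ P, Near G F ∧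
      h < |zc hm Q om r (word om G) - zc hm Q om r (word om F)|) ∩
      P.filter (fun F => z0 < zc hm Q om r (word om F) ∧
        zc hm Q om r (word om F) ≤ z0 + h), r ^ mx F :=
      Finset.sum_nonneg fun F _ => pow_nonneg hr0.le _
    have h4 : ∑ F ∈ P.filter (fun F => z0 < zc hm Q om r (word om F) ∧
        zc hm Q om r (word om F) ≤ z0 + h), r ^ mx F ≤
        (∑ g ∈ (LE Q).filter (fun g => z0 < zc hm Q om r g ∧ zc hm Q om r g ≤ z0 + h),
        r ^ des om g) / D := by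
      refine le_trans (le_of_eq ?_) ((hup (fun g => z0 < zc hm Q om r g ∧
        zc hm Q om r g ≤ z0 + h)).trans (le_of_eq ?_))
      · exact Finset.sum_congr (by ext F; simp only [Finset.mem_filter]) fun _ _ => rfl
      · congr 1
        exact Finset.sum_congr (by ext F; simp only [Finset.mem_filter]) fun _ _ => rfl
    have h5 : ∑ F ∈ P.filter (fun F => ∃ G ∈ P, Near G F ∧
        h < |zc hm Q om r (word om G) - zc hm Q om r (word om F)|), r ^ mx F ≤ T / n ^ 5 := by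
      rw [← hP, ← hT] at htyp
      refine le_trans (le_of_eq ?_) htyp
      exact Finset.sum_congr (by ext F; simp only [Finset.mem_filter]) fun _ _ => rfl
    linarith
  have hwin : ∑ g ∈ (LE Q).filter (fun g => z0 < zc hm Q om r g ∧ zc hm Q om r g ≤ z0 + h),
        r ^ des om g ≤ S + W / n ^ 5 := by
    have h1 : (LE Q).filter (fun g => z0 < zc hm Q om r g ∧ zc hm Q om r g ≤ z0 + h) ⊆
        (LE Q).filter (fun g => (j : ℝ) - 4 * h ≤ des om g ∧ des om g ≤ j) ∪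
            (LE Q).filter (fun g => h ≤ |(des om g : ℝ) - zc hm Q om r g|) := by
      intro g hg
      rw [Finset.mem_filter] at hg
      rw [Finset.mem_union, Finset.mem_filter, Finset.mem_filter]
      by_cases c2 : h ≤ |(des om g : ℝ) - zc hm Q om r g|
      · exact Or.inr ⟨hg.1, c2⟩
      · left
        rw [not_le] at c2
        have h3 := abs_lt.1 c2
        obtain ⟨hg1, hg2, hg3⟩ := hg
        rw [hz0] at hg2 hg3
        refine ⟨hg1, by linarith [h3.1], ?_⟩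
        have h5 : (des om g : ℝ) ≤ j := by linarith [h3.2]
        exact_mod_cast h5
    have h2 := Finset.sum_le_sum_of_subset_of_nonneg h1
      (f := fun g => r ^ des om g) fun g _ _ => pow_nonneg hr0.le _
    have h4 := Finset.sum_union_inter
      (s₁ := (LE Q).filter (fun g => (j : ℝ) - 4 * h ≤ des om g ∧ des om g ≤ j))
      (s₂ := (LE Q).filter (fun g => h ≤ |(des om g : ℝ) - zc hm Q om r g|))
      (f := fun g => r ^ des om g)
    have h6 := hnn ((LE Q).filter (fun g => (j : ℝ) - 4 * h ≤ des om g ∧ des om g ≤ j) ∩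
            (LE Q).filter (fun g => h ≤ |(des om g : ℝ) - zc hm Q om r g|))
    rw [← hS] at h4
    linarith
  have hfin : W * ((1 - 1 / n ^ 5) / (16 * n ^ 2) - 1 / n ^ 5) ≤ S + W / n ^ 5 := by
    have hKc : ((2 ^ l : ℕ) : ℝ) ≤ n ^ 2 := by
      push_cast
      exact hK2
    have hKp : (0 : ℝ) < ((2 ^ l : ℕ) : ℝ) := by positivity
    have h1 : t / (16 * n ^ 2) ≤ t / (16 * ((2 ^ l : ℕ) : ℝ)) :=
      div_le_div_of_nonneg_left ht0.le (by positivity) (by linarith)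
    have h2 : t / (16 * n ^ 2) ≤ T / n ^ 5 + (S + W / n ^ 5) / D := by
      have h3 := div_le_div_of_nonneg_right hwin hD0.le
      linarith
    have h4 : T * (1 - 1 / n ^ 5) / (16 * n ^ 2) ≤ t / (16 * n ^ 2) :=
      div_le_div_of_nonneg_right ht1 (by positivity)
    have h5 : T * (1 - 1 / n ^ 5) / (16 * n ^ 2) - T / n ^ 5 ≤ (S + W / n ^ 5) / D := by linarith
    have h6 : T * (1 - 1 / n ^ 5) / (16 * n ^ 2) - T / n ^ 5 =
        (W * ((1 - 1 / n ^ 5) / (16 * n ^ 2) - 1 / n ^ 5)) / D := by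
      rw [hT]
      ring
    rw [h6] at h5
    exact (div_le_div_iff_of_pos_right hD0).1 h5
  exact nums2 hn1 hW hfin hcon

end Pool.IS45.GapCoreS25
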