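import Pool.Agent.IS45.Word
import Pool.Agent.IS45.Iso
import Pool.Agent.IS45.Conc
import Pool.Agent.IS45.GapCoreS25

set_option autoImplicit false

/-!
# IS45/GapCore (STUB): isoperimetry against an assumed gap

PROOF (note 3657 (E)). `n = N + 1`, `W = WR Q om r`, `T = W/(1-r)^n`, `M = n L`, `K = 2^l`. Suppose
`∑_(j - 4 h ≤ des ≤ j) r^des < W/(50 n^2)`, `h = δ s n`. `z0 = j - 3 h`, `A = {F ∈ PP M : zc (word F) ≤ z0}`. `hconc`, `sum_up` (`S = ∅`),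
`sum_lo`: `t = ∑_PP r^mx ∈ [T (1 - n^-5), T]`, `t/4 ≤ ∑_A ≤ 3/4 t`. `iso`, `iso_bd`: `∑_(N1 \ A) ≥ t/(16 K)`. An element `G` of
`N1 \ A` has `z0 < zc (word G) ≤ z0 + h` or is counted in `htyp`; so by `sum_up` `∑_(z0 < zc ≤ z0 + h) r^des ≥
W (1/(20 K) - n^-5)`, by `hconc` `∑_(j - 4 h < des < j - h) r^des ≥ W (1/(20K) - 2 n^-5) ≥ W/(40 n^2)`.
-/

namespace Pool.IS45

open Pool.HB45

open Classical in
theorem gap_core {N B m L l : ℕ} (hm : m * (B + 2) ≤ N + 1) (hN : 1000 ≤ N) {Q : Rel (N + 1)}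
    {om : Fin (N + 1) → ℕ} (hL : Lab Q om) (hne : (LE Q).Nonempty) (r h : ℝ) (hr0 : 0 < r)
    (hr1 : r < 1) (hh : 0 ≤ h) (j : ℕ) (hK : (N + 1) * L ≤ 2 ^ l)
    (hK2 : ((2 : ℝ) ^ l) ≤ ((N : ℝ) + 1) ^ 2)
    (hrL : 1 - 1 / ((N : ℝ) + 1) ^ 5 ≤ (1 - r ^ L) ^ (N + 1))
    (htyp : ∑ G ∈ (PP Q om ((N + 1) * L)).filter (fun G => ∃ F ∈ PP Q om ((N + 1) * L), Near F G ∧
      h < |zc hm Q om r (word om F) - zc hm Q om r (word om G)|), r ^ mx G ≤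
      WR Q om r / (1 - r) ^ (N + 1) / ((N : ℝ) + 1) ^ 5)
    (hconc : ∑ g ∈ (LE Q).filter (fun g => h ≤ |(des om g : ℝ) - zc hm Q om r g|), r ^ des om g ≤
      WR Q om r / ((N : ℝ) + 1) ^ 5)
    (hmed : ∑ g ∈ (LE Q).filter (fun g => des om g ≤ j), r ^ des om g = WR Q om r / 2) :
    WR Q om r / (50 * ((N : ℝ) + 1) ^ 2) ≤
      ∑ g ∈ (LE Q).filter (fun g => (j : ℝ) - 4 * h ≤ des om g ∧ des om g ≤ j), r ^ des om g := by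
  exact GapCoreS25.gap_core hm hN hL hne r h hr0 hr1 hh j hK hK2 hrL htyp hconc hmed

end Pool.IS45
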