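import Mathlib

set_option autoImplicit false

/-!
# IS45/GapNumS5: the numbers `L`, `K = 2^l`
-/

namespace Pool.IS45

theorem gap_num5 (C : ℝ) (hC : 0 < C) : ∃ N0 : ℕ, ∀ N ≥ N0, ∀ s : ℝ,
    C * Real.sqrt (Real.log ((N : ℝ) + 1) / ((N : ℝ) + 1)) ≤ s → s ≤ 1 → ∃ L l : ℕ,
    (N + 1) * L ≤ 2 ^ l ∧ ((2 : ℝ) ^ l) ≤ ((N : ℝ) + 1) ^ 2 ∧
      1 - 1 / ((N : ℝ) + 1) ^ 5 ≤ (1 - Real.exp (-s) ^ L) ^ (N + 1) := by
  have h1 : ∀ᶠ y : ℝ in Filter.atTop, Real.log y ≤ (C / 24) ^ 2 * y := by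
    have := Real.isLittleO_log_id_atTop.def (show 0 < (C / 24) ^ 2 by positivity)
    filter_upwards [this, Filter.eventually_ge_atTop 1] with y hy hy1
    rw [Real.norm_of_nonneg (Real.log_nonneg hy1), id, Real.norm_of_nonneg (by linarith)] at hy
    exact hy
  have h2 := (Filter.tendsto_atTop_add_const_right Filter.atTop (1 : ℝ)
    (tendsto_natCast_atTop_atTop (R := ℝ))).eventually h1
  obtain ⟨N1, hN1⟩ := Filter.eventually_atTop.1 h2
  refine ⟨max N1 4, fun N hN s hs hs1 => ?_⟩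
  have hlogle := hN1 N (le_trans (le_max_left _ _) hN)
  have hN4 : 4 ≤ N := le_trans (le_max_right _ _) hN
  have hN4' : (4 : ℝ) ≤ N := by exact_mod_cast hN4
  set n : ℝ := (N : ℝ) + 1 with hn
  have hn5 : 5 ≤ n := by linarith
  have hn0 : 0 < n := by linarith
  have hlog : 0 < Real.log n := Real.log_pos (by linarith)
  have hs0 : 0 < s := lt_of_lt_of_le (by positivity) hs
  set x : ℝ := 6 * Real.log n / s with hx
  have hx0 : 0 < x := by positivity
  have hsx : s * x = 6 * Real.log n := mul_div_cancel₀ _ hs0.ne'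
  set L : ℕ := ⌈x⌉₊ with hL
  have hLx : x ≤ L := Nat.le_ceil x
  have hL1 : (L : ℝ) < x + 1 := Nat.ceil_lt_add_one hx0.le
  have hL0 : 1 ≤ L := Nat.one_le_iff_ne_zero.2 fun h => by
    rw [h] at hLx
    norm_num at hLx
    linarith
  -- the size of `x`
  have hroot : Real.sqrt (Real.log n / n) ≤ C / 24 := by
    rw [Real.sqrt_le_left (by positivity), div_le_iff₀ hn0]
    exact hlogle
  have hxn : x ≤ n / 4 := by
    rw [hx, div_le_iff₀ hs0]
    set w := Real.sqrt (Real.log n / n) with hw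
    have hw0 : 0 < w := Real.sqrt_pos.2 (by positivity)
    have hw2 : w * w = Real.log n / n := Real.mul_self_sqrt (by positivity)
    have e : Real.log n = n * (w * w) := by
      rw [hw2]
      field_simp
    rw [e]
    have h3 : 6 * (n * (w * w)) ≤ n / 4 * (C * w) := by
      have h4 := mul_le_mul_of_nonneg_left hroot (show 0 ≤ 6 * n * w by positivity)
      nlinarith
    exact h3.trans (mul_le_mul_of_nonneg_left hs (by positivity))
  have hnL : 1 < (N + 1) * L := by nlinarith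
  refine ⟨L, Nat.clog 2 ((N + 1) * L), Nat.le_pow_clog (by norm_num) _, ?_, ?_⟩
  · have hcl : 0 < Nat.clog 2 ((N + 1) * L) := Nat.clog_pos (by norm_num) hnL
    have h5 := Nat.pow_pred_clog_lt_self (b := 2) (by norm_num) hnL
    have h6 : 2 ^ Nat.clog 2 ((N + 1) * L) ≤ 2 * ((N + 1) * L) := by
      obtain ⟨c, hc⟩ := Nat.exists_eq_succ_of_ne_zero hcl.ne'
      rw [hc, Nat.pred_succ] at h5
      rw [hc, pow_succ]
      omega
    have h7 : (2 : ℝ) ^ Nat.clog 2 ((N + 1) * L) ≤ 2 * (n * L) := by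
      have : ((2 ^ Nat.clog 2 ((N + 1) * L) : ℕ) : ℝ) ≤ ((2 * ((N + 1) * L) : ℕ) : ℝ) := by
        exact_mod_cast h6
      push_cast at this
      exact this
    refine h7.trans ?_
    have h8 : 2 * (L : ℝ) ≤ n := by linarith
    nlinarith
  · have hexp : Real.exp (-s) ^ L ≤ (n ^ 6)⁻¹ := by
      rw [← Real.exp_nat_mul]
      calc Real.exp (L * -s) ≤ Real.exp (-(6 * Real.log n)) := by
            refine Real.exp_le_exp.2 ?_
            have := mul_le_mul_of_nonneg_left hLx hs0.le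
            rw [hsx] at this
            linarith
        _ = (n ^ 6)⁻¹ := by
          rw [Real.exp_neg, mul_comm, Real.exp_mul, Real.exp_log hn0]
          norm_cast
    have hexp1 : Real.exp (-s) ^ L ≤ 1 := pow_le_one₀ (Real.exp_pos _).le
      (Real.exp_le_one_iff.2 (by linarith))
    have hb := one_add_mul_le_pow (show (-2 : ℝ) ≤ -Real.exp (-s) ^ L by linarith) (N + 1)
    have e1 : (1 : ℝ) + -Real.exp (-s) ^ L = 1 - Real.exp (-s) ^ L := by ring
    rw [e1] at hb
    refine le_trans ?_ hb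
    push_cast
    have h9 : n * Real.exp (-s) ^ L ≤ 1 / n ^ 5 := by
      calc n * Real.exp (-s) ^ L ≤ n * (n ^ 6)⁻¹ := mul_le_mul_of_nonneg_left hexp hn0.le
        _ = 1 / n ^ 5 := by field_simp
    rw [← hn]
    linarith

end Pool.IS45
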