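import Mathlib
import Pool.Agent.IS45.GapNumS5

set_option autoImplicit false

/-!
# IS45/GapNum (STUB): the numbers `L`, `K = 2^l`

PROOF. `n = N + 1`, `L = ⌈6 log n/s⌉`: `exp (-s)^L ≤ n^(-6)` and `(1 - n^(-6))^n ≥ 1 - n^(-5)` (`one_add_mul_le_pow`). `n L ≤ n (6 log n/s + 1)
≤ 7 n log n/s ≤ (7/C) n^(3/2) (log n)^(1/2) ≤ n²/4` for large `n` (`s ≤ 1`), `2^l` = the least power of two `≥ n L`, `≤ 2 n L`.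
-/

namespace Pool.IS45

theorem gap_num (C : ℝ) (hC : 0 < C) : ∃ N0 : ℕ, ∀ N ≥ N0, ∀ s : ℝ,
    C * Real.sqrt (Real.log ((N : ℝ) + 1) / ((N : ℝ) + 1)) ≤ s → s ≤ 1 → ∃ L l : ℕ,
    (N + 1) * L ≤ 2 ^ l ∧ ((2 : ℝ) ^ l) ≤ ((N : ℝ) + 1) ^ 2 ∧
      1 - 1 / ((N : ℝ) + 1) ^ 5 ≤ (1 - Real.exp (-s) ^ L) ^ (N + 1) :=
  gap_num5 C hC

end Pool.IS45
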