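import Pool.Agent.IS45.Typ
import Pool.Agent.IS45.GapNum
import Pool.Agent.IS45.GapCore
import Pool.Agent.IS45.Fin43

set_option autoImplicit false

/-!
# IS45/Gap: no gap of length `4 δ s n` in the tilted law
-/

namespace Pool.IS45

open Pool.HB45

theorem WR_pos {N : ℕ} {Q : Rel (N + 1)} (om : Fin (N + 1) → ℕ) {r : ℝ} (hr0 : 0 < r)
    (hne : (LE Q).Nonempty) : 0 < WR Q om r :=
  Finset.sum_pos (fun _ _ => pow_pos hr0 _) hne

theorem des_le_N {N : ℕ} (om : Fin (N + 1) → ℕ) (g : Equiv.Perm (Fin (N + 1))) : des om g ≤ N := by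
  unfold des
  exact (Finset.card_le_univ _).trans (by rw [Fintype.card_fin])

/-- one of the levels carries the `n`-th part -/
theorem pigeon {N : ℕ} (hN : 50 ≤ N) (Q : Rel (N + 1)) (om : Fin (N + 1) → ℕ) (r lo : ℝ)
    (hr0 : 0 < r) (j : ℕ) (hne : (LE Q).Nonempty)
    (h : WR Q om r / (50 * ((N : ℝ) + 1) ^ 2) ≤
      ∑ g ∈ (LE Q).filter (fun g => lo ≤ des om g ∧ des om g ≤ j), r ^ des om g) :
    ∃ i : ℕ, lo ≤ i ∧ i ≤ j ∧ WR Q om r / ((N : ℝ) + 1) ^ 4 ≤
      ∑ g ∈ (LE Q).filter (fun g => des om g = i), r ^ des om g := by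
  classical
  by_contra hcon
  push Not at hcon
  have hW := WR_pos om hr0 hne
  have hN' : (50 : ℝ) ≤ N := by exact_mod_cast hN
  have h1 : ∑ g ∈ (LE Q).filter (fun g => lo ≤ des om g ∧ des om g ≤ j), r ^ des om g ≤
      ∑ _i ∈ Finset.range (N + 1), WR Q om r / ((N : ℝ) + 1) ^ 4 := by
    rw [← Finset.sum_fiberwise_of_maps_to (t := Finset.range (N + 1)) (g := fun g => des om g)
      (fun g _ => Finset.mem_range.2 (Nat.lt_succ_of_le (des_le_N om g)))]
    refine Finset.sum_le_sum fun i _ => ?_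
    by_cases hi : lo ≤ (i : ℝ) ∧ i ≤ j
    · refine le_trans (Finset.sum_le_sum_of_subset_of_nonneg ?_ fun _ _ _ => (pow_pos hr0 _).le)
        (hcon i hi.1 hi.2).le
      intro g hg
      rw [Finset.mem_filter, Finset.mem_filter] at hg
      exact Finset.mem_filter.2 ⟨hg.1.1, hg.2⟩
    · rw [Finset.sum_eq_zero_iff_of_nonneg (fun _ _ => (pow_pos hr0 _).le) |>.2]
      · positivity
      · intro g hg
        rw [Finset.mem_filter, Finset.mem_filter] at hg
        exfalso
        apply hi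
        rw [← hg.2]
        exact hg.1.2
  rw [Finset.sum_const, Finset.card_range, nsmul_eq_mul] at h1
  have h2 := h.trans h1
  push_cast at h2
  have e : ((N : ℝ) + 1) * (WR Q om r / ((N : ℝ) + 1) ^ 4) = WR Q om r / ((N : ℝ) + 1) ^ 3 := by
    field_simp
  rw [e, div_le_div_iff_of_pos_left hW (by positivity) (by positivity)] at h2
  have h3 : ((N : ℝ) + 1) ^ 2 * (N + 1 - 50) ≤ 0 := by nlinarith
  have h4 : 0 < ((N : ℝ) + 1) ^ 2 * (N + 1 - 50) := by
    apply mul_pos (by positivity)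
    linarith
  linarith

/-- (3') for transitive relations -/
theorem no_gap (δ : ℝ) (hδ : 0 < δ) : ∃ C1 s1 : ℝ, 0 < C1 ∧ 0 < s1 ∧ ∃ N0 : ℕ, ∀ N ≥ N0,
    ∀ (Q : Rel (N + 1)) (om : Fin (N + 1) → ℕ), Lab Q om → (∀ a b c, Q a b → Q b c → Q a c) →
    (LE Q).Nonempty → ∀ (j : ℕ) (s : ℝ),
    C1 * Real.sqrt (Real.log ((N : ℝ) + 1) / ((N : ℝ) + 1)) ≤ s → s ≤ s1 →
    ∑ g ∈ (LE Q).filter (fun g => des om g ≤ j), Real.exp (-s) ^ des om g =
      WR Q om (Real.exp (-s)) / 2 →
    ∃ i : ℕ, (j : ℝ) - 4 * δ * s * ((N : ℝ) + 1) ≤ i ∧ i ≤ j ∧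
      WR Q om (Real.exp (-s)) / ((N : ℝ) + 1) ^ 4 ≤
        ∑ g ∈ (LE Q).filter (fun g => des om g = i), Real.exp (-s) ^ des om g := by
  classical
  obtain ⟨B, _, C1, hC1, s1, hs1, N1, htyp⟩ := typ δ hδ
  obtain ⟨C2, hC2, s2, hs2, N2, hcn⟩ := conc_num δ hδ B
  obtain ⟨N3, hnum⟩ := gap_num 1 one_pos
  refine ⟨max C1 (max C2 1), min s1 (min s2 1), by positivity, by positivity,
    max (max N1 N2) (max N3 1000), fun N hN Q om hL ht hne j s hs hs' hmed => ?_⟩
  have g1 : N1 ≤ N := ((le_max_left _ _).trans (le_max_left _ _)).trans hN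
  have g2 : N2 ≤ N := ((le_max_right _ _).trans (le_max_left _ _)).trans hN
  have g3 : N3 ≤ N := ((le_max_left _ _).trans (le_max_right _ _)).trans hN
  have g4 : 1000 ≤ N := ((le_max_right _ _).trans (le_max_right _ _)).trans hN
  have hN' : (1000 : ℝ) ≤ N := by exact_mod_cast g4
  have hq : 0 < Real.sqrt (Real.log ((N : ℝ) + 1) / ((N : ℝ) + 1)) := by
    apply Real.sqrt_pos.2
    apply div_pos (Real.log_pos (by linarith)) (by linarith)
  have k1 : C1 * Real.sqrt (Real.log ((N : ℝ) + 1) / ((N : ℝ) + 1)) ≤ s :=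
    le_trans (mul_le_mul_of_nonneg_right (le_max_left _ _) hq.le) hs
  have k2 : C2 * Real.sqrt (Real.log ((N : ℝ) + 1) / ((N : ℝ) + 1)) ≤ s :=
    le_trans (mul_le_mul_of_nonneg_right ((le_max_left _ _).trans (le_max_right _ _)) hq.le) hs
  have k3 : 1 * Real.sqrt (Real.log ((N : ℝ) + 1) / ((N : ℝ) + 1)) ≤ s :=
    le_trans (mul_le_mul_of_nonneg_right ((le_max_right _ _).trans (le_max_right _ _)) hq.le) hs
  have l1 : s ≤ s1 := hs'.trans (min_le_left _ _)
  have l2 : s ≤ s2 := hs'.trans ((min_le_right _ _).trans (min_le_left _ _))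
  have l3 : s ≤ 1 := hs'.trans ((min_le_right _ _).trans (min_le_right _ _))
  have hs0 : 0 < s := lt_of_lt_of_le (by linarith) k3
  obtain ⟨L, l, hK, hK2, hrL⟩ := hnum N g3 s k3 l3
  obtain ⟨m, hmdef⟩ : ∃ m, m = (N + 1) / (B + 2) := ⟨_, rfl⟩
  have hm : m * (B + 2) ≤ N + 1 := by rw [hmdef]; exact Nat.div_mul_le_self _ _
  have hm' : N + 1 < (m + 1) * (B + 2) := by
    have h1 := Nat.div_add_mod (N + 1) (B + 2)
    have h2 := Nat.mod_lt (N + 1) (show 0 < B + 2 by omega)
    rw [hmdef]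
    calc N + 1 = (B + 2) * ((N + 1) / (B + 2)) + (N + 1) % (B + 2) := h1.symm
      _ < (B + 2) * ((N + 1) / (B + 2)) + (B + 2) := by omega
      _ = ((N + 1) / (B + 2) + 1) * (B + 2) := by ring
  have hr1 : Real.exp (-s) < 1 := by
    rw [Real.exp_lt_one_iff]
    linarith
  have hT := htyp N g1 m hm hm' Q om hL ht s k1 l1 ((N + 1) * L)
  have hC := hcn N g2 m hm hm' Q om s k2 l2
  have hcore := gap_core hm g4 hL hne (Real.exp (-s)) (δ * s * ((N : ℝ) + 1)) (Real.exp_pos _) hr1
    (by positivity) j hK hK2 hrL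
    (le_trans (le_of_eq (Finset.sum_congr (by ext x; simp only [Finset.mem_filter])
      fun _ _ => rfl)) hT)
    (le_trans (le_of_eq (Finset.sum_congr (by ext x; simp only [Finset.mem_filter])
      fun _ _ => rfl)) hC) hmed
  obtain ⟨i, h1, h2, h3⟩ := pigeon (by omega) Q om (Real.exp (-s)) _ (Real.exp_pos _) j hne hcore
  refine ⟨i, le_trans (le_of_eq (by ring)) h1, h2, h3⟩

theorem LE_trans {n : ℕ} (Q : Rel n) : LE (fun a b => Relation.TransGen Q a b) = LE Q := by
  ext g
  rw [mem_LE, mem_LE]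
  constructor
  · intro h i j hij
    exact h i j (Relation.TransGen.single hij)
  · intro h
    have key : ∀ a b, Relation.TransGen Q a b → g.symm a < g.symm b := by
      intro a b hab
      induction hab with
      | single hb =>
        apply h
        simpa using hb
      | tail _ hc ih =>
        refine ih.trans ?_
        apply h
        simpa using hc
    intro i j hij
    have := key _ _ hij
    simpa using this

theorem lab_trans {n : ℕ} {Q : Rel n} {om : Fin n → ℕ} (hL : Lab Q om) :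
    Lab (fun a b => Relation.TransGen Q a b) om := by
  refine ⟨hL.1, ?_⟩
  rcases hL.2 with h | h
  · left
    intro a b hab
    induction hab with
    | single hb => exact h _ _ hb
    | tail _ hc ih => exact ih.trans (h _ _ hc)
  · right
    intro a b hab
    induction hab with
    | single hb => exact h _ _ hb
    | tail _ hc ih => exact (h _ _ hc).trans ih

/-- PROOF. The transitive closure `Relation.TransGen Q` has the same linear extensions. -/
theorem gap_all : GapAll := by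
  intro δ hδ
  obtain ⟨C1, s1, hC1, hs1, N0, h⟩ := no_gap δ hδ
  refine ⟨C1, s1, hC1, hs1, N0, fun N hN Q om hL hn j s hs hs' hmed => ?_⟩
  obtain ⟨lab, hlab⟩ := hn
  have hne : (LE Q).Nonempty := by
    have := NL25.card_pos hlab
    apply Finset.card_pos.1
    exact_mod_cast this
  have hE := LE_trans Q
  have hW : WR (fun a b => Relation.TransGen Q a b) om (Real.exp (-s)) =
      WR Q om (Real.exp (-s)) := by
    unfold WR
    rw [hE]
  have key := h N hN (fun a b => Relation.TransGen Q a b) om (lab_trans hL)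
    (fun a b c hab hbc => Relation.TransGen.trans hab hbc) (by rw [hE]; exact hne) j s hs hs'
    (by rw [hE, hW]; exact hmed)
  rw [hE, hW] at key
  exact key

end Pool.IS45
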