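import Pool.Agent.IS45.Dim

set_option autoImplicit false

/-!
# IS45/IsoS63: isoperimetry for `(Q, om)`-partitions (proofs of Iso)
-/

namespace Pool.IS45

open Pool.HB45

theorem exp_quarter : Real.exp (1 / 4) < 4 / 3 := by
  have h1 : Real.exp (1 / 4) ^ 4 = Real.exp 1 := by
    rw [← Real.exp_nat_mul]
    norm_num
  have h2 := Real.exp_one_lt_d9
  by_contra h
  have h3 : (4 / 3 : ℝ) ^ 4 ≤ Real.exp (1 / 4) ^ 4 :=
    pow_le_pow_left₀ (by norm_num) (not_lt.1 h) 4
  rw [h1] at h3
  norm_num at h3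
  linarith

theorem iso_bdS63 {a b t : ℝ} {K : ℕ} (hK : 1 ≤ K) (ha : t / 4 ≤ a) (hat : a ≤ 3 / 4 * t)
    (ht : 0 < t) (hb : 0 ≤ b) (h : a ^ (K - 1) * t ≤ b ^ K) : a + t / (16 * K) ≤ b := by
  by_contra hlt
  rw [not_le] at hlt
  have hK0 : (0 : ℝ) < K := by exact_mod_cast hK
  have ha0 : 0 < a := by linarith
  set x : ℝ := t / (16 * K) / a with hx
  have hx0 : 0 ≤ x := by positivity
  have hxK : (K : ℝ) * x ≤ 1 / 4 := by
    have e : (K : ℝ) * x = t / (16 * a) := by
      rw [hx]
      field_simp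
    rw [e, div_le_div_iff₀ (by positivity) (by norm_num)]
    linarith
  have e1 : a + t / (16 * K) = a * (1 + x) := by
    rw [hx]
    field_simp
  rw [e1] at hlt
  have h1 : b ^ K ≤ (a * (1 + x)) ^ K := pow_le_pow_left₀ hb hlt.le K
  have h2 : (1 + x) ^ K ≤ Real.exp (1 / 4) := by
    calc (1 + x) ^ K ≤ Real.exp x ^ K := by
          refine pow_le_pow_left₀ (by linarith) ?_ K
          linarith [Real.add_one_le_exp x]
      _ = Real.exp (K * x) := by rw [← Real.exp_nat_mul]
      _ ≤ Real.exp (1 / 4) := Real.exp_le_exp.2 hxK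
  have h3 : a ^ K * (4 / 3) ≤ a ^ (K - 1) * t := by
    have e2 : a ^ K = a ^ (K - 1) * a := by
      rw [← pow_succ]
      congr 1
      omega
    rw [e2, mul_assoc]
    refine mul_le_mul_of_nonneg_left ?_ (by positivity)
    linarith
  have h4 : a ^ K * (1 + x) ^ K < a ^ K * (4 / 3) :=
    mul_lt_mul_of_pos_left (lt_of_le_of_lt h2 exp_quarter) (by positivity)
  rw [mul_pow] at h1
  linarith

theorem mx_le {n : ℕ} {F : Fin n → ℕ} (a : Fin n) : F a ≤ mx F :=
  Finset.le_sup (f := F) (Finset.mem_univ a)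

open Classical in
theorem isoS63 {n : ℕ} (Q : Rel n) (om : Fin n → ℕ) (m l : ℕ) (hm : m ≤ 2 ^ l) (r : ℝ)
    (hr0 : 0 < r) (hr1 : r ≤ 1) (A : Finset (Fin n → ℕ)) (hA : A ⊆ PP Q om m)
    (hA0 : A.Nonempty) :
    (∑ F ∈ A, r ^ mx F) ^ (2 ^ l - 1) * ∑ F ∈ PP Q om m, r ^ mx F ≤
      (∑ F ∈ (PP Q om m).filter (fun F => ∃ G ∈ A, Near G F), r ^ mx F) ^ 2 ^ l := by
  set N1 := (PP Q om m).filter (fun F => ∃ G ∈ A, Near G F) with hN1
  have hPB : PP Q om m ⊆ Box n m := by
    unfold PP
    exact Finset.filter_subset _ _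
  have hNP : N1 ⊆ PP Q om m := Finset.filter_subset _ _
  have hAB := hA.trans hPB
  have hNB := hNP.trans hPB
  have sums : ∀ S : Finset (Fin n → ℕ), S ⊆ Box n m →
      ∑ x ∈ Box n m, (if x ∈ S then r ^ mx x else 0) = ∑ x ∈ S, r ^ mx x := by
    intro S hS
    rw [Finset.sum_ite_mem, Finset.inter_eq_right.2 hS]
  have hout : ∀ x ∈ A, ∀ y ∈ PP Q om m, ∀ j < 2 ^ l,
      (fun i => TT l j (x i) (y i)) ∈ N1 := by
    intro x hx y hy j hj
    have hxP := mem_PP.1 (hA hx)
    have hyP := mem_PP.1 hy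
    rw [hN1, Finset.mem_filter]
    refine ⟨mem_PP.2 ⟨fun a => TT_le l j (hxP.1 a) (hyP.1 a) hj, fun a b hab =>
      TT_add l j _ (hxP.2 a b hab) (hyP.2 a b hab)⟩, x, hx, fun a => ⟨?_, ?_⟩⟩
    · exact TT_near_lo l j (by
        have := hxP.1 a
        omega)
    · exact TT_near_up l j (by
        have := hyP.1 a
        omega)
  have hmx : ∀ x y : Fin n → ℕ, ∀ j, mx (fun i => TT l j (x i) (y i)) ≤ TT l j (mx x) (mx y) := by
    intro x y j
    unfold mx
    refine Finset.sup_le fun i _ => ?_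
    exact TT_mono l j (mx_le i) (mx_le i)
  have key := dim m l n (fun x => if x ∈ A then r ^ mx x else 0)
    (fun x => if x ∈ PP Q om m then r ^ mx x else 0)
    (fun _ x => if x ∈ N1 then r ^ mx x else 0)
    (fun x => by
      split_ifs <;> positivity)
    (fun x => by
      split_ifs <;> positivity)
    (fun j x => by
      split_ifs <;> positivity)
    (by
      intro x _ y _
      have hprod : 0 ≤ ∏ j ∈ Finset.range (2 ^ l),
          (if (fun i => TT l j (x i) (y i)) ∈ N1 then r ^ mx (fun i => TT l j (x i) (y i))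
            else 0 : ℝ) :=
        Finset.prod_nonneg fun j _ => by split_ifs <;> positivity
      by_cases hy : y ∈ PP Q om m
      · rw [if_pos hy]
        have main : ∀ x' ∈ A, (r ^ mx x') ^ (2 ^ l - 1) * r ^ mx y ≤
            ∏ j ∈ Finset.range (2 ^ l),
              (if (fun i => TT l j (x' i) (y i)) ∈ N1 then
                r ^ mx (fun i => TT l j (x' i) (y i)) else 0 : ℝ) := by
          intro x' hx'
          calc (r ^ mx x') ^ (2 ^ l - 1) * r ^ mx y
              = r ^ ∑ j ∈ Finset.range (2 ^ l), TT l j (mx x') (mx y) := by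
                rw [TT_sum, ← pow_mul, ← pow_add, Nat.mul_comm]
            _ = ∏ j ∈ Finset.range (2 ^ l), r ^ TT l j (mx x') (mx y) :=
                (Finset.prod_pow_eq_pow_sum _ _ _).symm
            _ ≤ _ := by
                refine Finset.prod_le_prod (fun j _ => by positivity) fun j hj => ?_
                rw [if_pos (hout x' hx' y hy j (Finset.mem_range.1 hj))]
                exact pow_le_pow_of_le_one hr0.le hr1 (hmx x' y j)
        by_cases hx : x ∈ A
        · rw [if_pos hx]
          exact main x hx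
        · rw [if_neg hx]
          rcases Nat.eq_zero_or_pos l with hl | hl
          · subst hl
            obtain ⟨x', hx'⟩ := hA0
            have h1 := main x' hx'
            have e0 : (0 : ℝ) ^ (2 ^ 0 - 1) * r ^ mx y = (r ^ mx x') ^ (2 ^ 0 - 1) * r ^ mx y := by
              simp
            rw [e0]
            exact h1
          · have h2 : 2 ^ l - 1 ≠ 0 := by
              have : 2 ^ 1 ≤ 2 ^ l := Nat.pow_le_pow_right (by norm_num) hl
              omega
            rw [zero_pow h2, zero_mul]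
            exact hprod
      · rw [if_neg hy, mul_zero]
        exact hprod)
  rw [sums A hAB, sums _ hPB] at key
  simp only [sums N1 hNB, Finset.prod_const, Finset.card_range] at key
  exact key

end Pool.IS45
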