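import Mathlib

/-!
# IS45/IterS13: the iterated midpoints `T l s x y`, `s < 2 ^ l`, with weights `1 - 2 ^ (-l)` and `2 ^ (-l)`
-/

set_option autoImplicit false

namespace Pool.Agent.IS45.IterS13

open Finset

/-- the iterated midpoint: towards `x`, rounded down (`s` even) or up (`s` odd) -/
def T : ℕ → ℕ → ℕ → ℕ → ℕ
  | 0, _, _, y => y
  | l + 1, s, x, y => (x + T l (s / 2) x y + s % 2) / 2

theorem T_zero (s x y : ℕ) : T 0 s x y = y := rfl

theorem T_succ (l s x y : ℕ) : T (l + 1) s x y = (x + T l (s / 2) x y + s % 2) / 2 := rfl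

theorem T_even (l s x y : ℕ) : T (l + 1) (2 * s) x y = (x + T l s x y) / 2 := by
  rw [T_succ, show 2 * s / 2 = s by omega, show 2 * s % 2 = 0 by omega, add_zero]

theorem T_odd (l s x y : ℕ) : T (l + 1) (2 * s + 1) x y = (x + T l s x y + 1) / 2 := by
  rw [T_succ, show (2 * s + 1) / 2 = s by omega, show (2 * s + 1) % 2 = 1 by omega]

theorem prod_two_mul {A : Type*} [CommMonoid A] (F : ℕ → A) (N : ℕ) :
    ∏ s ∈ range (2 * N), F s = ∏ s ∈ range N, (F (2 * s) * F (2 * s + 1)) := by
  induction N with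
  | zero => simp
  | succ N ih =>
    rw [show 2 * (N + 1) = 2 * N + 1 + 1 by ring, prod_range_succ, prod_range_succ, ih,
      prod_range_succ, mul_assoc]

theorem sum_two_mul {A : Type*} [AddCommMonoid A] (F : ℕ → A) (N : ℕ) :
    ∑ s ∈ range (2 * N), F s = ∑ s ∈ range N, (F (2 * s) + F (2 * s + 1)) := by
  induction N with
  | zero => simp
  | succ N ih =>
    rw [show 2 * (N + 1) = 2 * N + 1 + 1 by ring, sum_range_succ, sum_range_succ, ih,
      sum_range_succ, add_assoc]

theorem sum_T (l x y : ℕ) : ∑ s ∈ range (2 ^ l), T l s x y = (2 ^ l - 1) * x + y := by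
  induction l with
  | zero => simp [T_zero]
  | succ l ih =>
    rw [pow_succ', sum_two_mul]
    have h1 : ∀ s ∈ range (2 ^ l), T (l + 1) (2 * s) x y + T (l + 1) (2 * s + 1) x y =
        x + T l s x y := by
      intro s _
      rw [T_even, T_odd]
      omega
    rw [sum_congr rfl h1, sum_add_distrib, ih, sum_const, card_range, smul_eq_mul]
    have h2 : 1 ≤ 2 ^ l := Nat.one_le_two_pow
    obtain ⟨K, hK⟩ := Nat.exists_eq_add_of_le h2
    rw [hK, show 1 + K - 1 = K by omega, show 2 * (1 + K) - 1 = 2 * K + 1 by omega]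
    ring

theorem T_step {x y x' y' e : ℕ} (hx : x + e ≤ x') (hy : y + e ≤ y') (l s : ℕ) :
    T l s x y + e ≤ T l s x' y' := by
  induction l generalizing s with
  | zero => simpa [T_zero] using hy
  | succ l ih =>
    rw [T_succ, T_succ]
    have := ih (s / 2)
    omega

theorem T_mono {x y x' y' : ℕ} (hx : x ≤ x') (hy : y ≤ y') (l s : ℕ) :
    T l s x y ≤ T l s x' y' := T_step (e := 0) hx hy l s

theorem T_lt {x y M : ℕ} (hx : x < M) (hy : y < M) (l s : ℕ) : T l s x y < M := by
  induction l generalizing s with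
  | zero => simpa [T_zero] using hy
  | succ l ih =>
    rw [T_succ]
    have := ih (s / 2)
    omega

theorem T_near_aux {x y : ℕ} (l : ℕ) : ∀ m s : ℕ, x ≤ y + 2 ^ (l + m) → y ≤ x + 2 ^ (l + m) →
    T l s x y ≤ x + 2 ^ m ∧ x ≤ T l s x y + 2 ^ m := by
  induction l with
  | zero =>
    intro m s h1 h2
    rw [T_zero]
    rw [zero_add] at h1 h2
    exact ⟨h2, h1⟩
  | succ l ih =>
    intro m s h1 h2
    rw [T_succ]
    have h3 := ih (m + 1) (s / 2) (by rw [show l + (m + 1) = l + 1 + m by ring]; exact h1)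
      (by rw [show l + (m + 1) = l + 1 + m by ring]; exact h2)
    rw [pow_succ] at h3
    omega

/-- `T` is within `1` of `x` if `x`, `y` are within `2 ^ l`. -/
theorem T_near {x y l : ℕ} (h1 : x ≤ y + 2 ^ l) (h2 : y ≤ x + 2 ^ l) (s : ℕ) :
    T l s x y ≤ x + 1 ∧ x ≤ T l s x y + 1 := by
  have := T_near_aux (x := x) (y := y) l 0 s (by simpa using h1) (by simpa using h2)
  simpa using this

end Pool.Agent.IS45.IterS13
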