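import Pool.Agent.IS45.Ent
import Pool.Agent.IS45.IterS13

set_option autoImplicit false

/-!
# IS45/Iter: the outputs `TT`

All by induction on `l`; sums over `j < 2^(l+1)` split into `2 i` and `2 i + 1`.
-/

namespace Pool.IS45

open Pool.Agent.IS45

theorem TT_eq (l : ℕ) : ∀ j x y : ℕ, TT l j x y = IterS13.T l j x y := by
  induction l with
  | zero => exact fun _ _ _ => rfl
  | succ l ih =>
    intro j x y
    rw [TT, IterS13.T_succ, ih]

/-- splitting of a sum over `range (2 n)` -/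
theorem sum_two {M : Type} [AddCommMonoid M] (f : ℕ → M) (n : ℕ) :
    ∑ j ∈ Finset.range (2 * n), f j = ∑ i ∈ Finset.range n, (f (2 * i) + f (2 * i + 1)) :=
  IterS13.sum_two_mul f n

theorem TT_sum (l x y : ℕ) :
    ∑ j ∈ Finset.range (2 ^ l), TT l j x y = (2 ^ l - 1) * x + y := by
  simp only [TT_eq]
  exact IterS13.sum_T l x y

theorem TT_mono (l j : ℕ) {x x' y y' : ℕ} (hx : x ≤ x') (hy : y ≤ y') :
    TT l j x y ≤ TT l j x' y' := by
  rw [TT_eq, TT_eq]
  exact IterS13.T_mono hx hy l j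

/-- `e = 0, 1` -/
theorem TT_add (l j e : ℕ) {x x' y y' : ℕ} (hx : x + e ≤ x') (hy : y + e ≤ y') :
    TT l j x y + e ≤ TT l j x' y' := by
  rw [TT_eq, TT_eq]
  exact IterS13.T_step hx hy l j

theorem TT_le' (l j : ℕ) {m x y : ℕ} (hx : x ≤ m) (hy : y ≤ m) : TT l j x y ≤ m := by
  rw [TT_eq]
  exact Nat.lt_succ_iff.1 (IterS13.T_lt (Nat.lt_succ_of_le hx) (Nat.lt_succ_of_le hy) l j)

theorem TT_le (l j : ℕ) {m x y : ℕ} (hx : x ≤ m) (hy : y ≤ m) (_ : j < 2 ^ l) :
    TT l j x y ≤ m := TT_le' l j hx hy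

/-- after `l` steps the output is near `x` -/
theorem TT_near_up (l j : ℕ) {x y : ℕ} (h : y ≤ x + 2 ^ l) : TT l j x y ≤ x + 1 := by
  have key : ∀ l m j : ℕ, y ≤ x + 2 ^ (l + m) → TT l j x y ≤ x + 2 ^ m := by
    intro l
    induction l with
    | zero =>
      intro m j h
      rw [zero_add] at h
      exact h
    | succ l ih =>
      intro m j h
      have h3 := ih (m + 1) (j / 2) (by rw [show l + (m + 1) = l + 1 + m by ring]; exact h)
      rw [pow_succ] at h3
      rw [TT]
      omega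
  simpa using key l 0 j (by simpa using h)

theorem TT_near_lo (l j : ℕ) {x y : ℕ} (h : x ≤ y + 2 ^ l) : x ≤ TT l j x y + 1 := by
  have key : ∀ l m j : ℕ, x ≤ y + 2 ^ (l + m) → x ≤ TT l j x y + 2 ^ m := by
    intro l
    induction l with
    | zero =>
      intro m j h
      rw [zero_add] at h
      exact h
    | succ l ih =>
      intro m j h
      have h3 := ih (m + 1) (j / 2) (by rw [show l + (m + 1) = l + 1 + m by ring]; exact h)
      rw [pow_succ] at h3
      rw [TT]
      omega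
  simpa using key l 0 j (by simpa using h)

/-- PROOF. `two_out` for `X` and `TT l i X Y` (monotone by `TT_mono`). -/
theorem TT_ent (m n l : ℕ) (X Y : ℕ → ℕ) (hX : Monotone X) (hY : Monotone Y) (hXm : ∀ i, X i ≤ m)
    (hYm : ∀ i, Y i ≤ m) (q : ℕ → ℝ) (hq : ∀ i, 0 ≤ q i) :
    ((2 ^ l - 1 : ℕ) : ℝ) * En m n X q + En m n Y q ≤
      ∑ j ∈ Finset.range (2 ^ l), En m n (fun i => TT l j (X i) (Y i)) q := by
  induction l with
  | zero => simp [TT]
  | succ l ih =>
    rw [pow_succ', sum_two]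
    have h1 : ∀ i ∈ Finset.range (2 ^ l), En m n X q + En m n (fun a => TT l i (X a) (Y a)) q ≤
        En m n (fun a => TT (l + 1) (2 * i) (X a) (Y a)) q +
          En m n (fun a => TT (l + 1) (2 * i + 1) (X a) (Y a)) q := by
      intro i _
      have h2 := two_out m n X (fun a => TT l i (X a) (Y a)) hX
        (fun a b hab => TT_mono l i (hX hab) (hY hab)) hXm (fun a => TT_le' l i (hXm a) (hYm a)) q hq
      simpa only [TT, show 2 * i / 2 = i by omega, show 2 * i % 2 = 0 by omega, add_zero,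
        show (2 * i + 1) / 2 = i by omega, show (2 * i + 1) % 2 = 1 by omega] using h2
    refine le_trans ?_ (Finset.sum_le_sum h1)
    rw [Finset.sum_add_distrib, Finset.sum_const, Finset.card_range, nsmul_eq_mul]
    have h3 : 1 ≤ 2 ^ l := Nat.one_le_two_pow
    obtain ⟨K, hK⟩ := Nat.exists_eq_add_of_le h3
    rw [hK, show 1 + K - 1 = K by omega] at ih
    rw [hK, show 2 * (1 + K) - 1 = 2 * K + 1 by omega]
    push_cast at ih ⊢
    linarith

end Pool.IS45
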