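import Pool.Agent.IS45.Ent

set_option autoImplicit false

/-!
# IS45/IterS58: the outputs `TT`, proofs
-/

namespace Pool.IS45

theorem sum_two58 {M : Type} [AddCommMonoid M] (f : ℕ → M) (n : ℕ) :
    ∑ j ∈ Finset.range (2 * n), f j = ∑ i ∈ Finset.range n, (f (2 * i) + f (2 * i + 1)) := by
  induction n with
  | zero => simp
  | succ n ih =>
    rw [show 2 * (n + 1) = 2 * n + 1 + 1 by ring, Finset.sum_range_succ, Finset.sum_range_succ,
      ih, Finset.sum_range_succ, add_assoc]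

theorem TT_even58 (l i x y : ℕ) : TT (l + 1) (2 * i) x y = (x + TT l i x y) / 2 := by
  have h1 : 2 * i / 2 = i := by omega
  have h2 : 2 * i % 2 = 0 := by omega
  rw [TT, h1, h2, add_zero]

theorem TT_odd58 (l i x y : ℕ) : TT (l + 1) (2 * i + 1) x y = (x + TT l i x y + 1) / 2 := by
  have h1 : (2 * i + 1) / 2 = i := by omega
  have h2 : (2 * i + 1) % 2 = 1 := by omega
  rw [TT, h1, h2]

theorem TT_sum58 (l x y : ℕ) :
    ∑ j ∈ Finset.range (2 ^ l), TT l j x y = (2 ^ l - 1) * x + y := by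
  induction l with
  | zero => simp [TT]
  | succ l ih =>
    rw [pow_succ', sum_two58]
    have h1 : ∀ i, TT (l + 1) (2 * i) x y + TT (l + 1) (2 * i + 1) x y = x + TT l i x y := by
      intro i
      rw [TT_even58, TT_odd58]
      omega
    simp only [h1]
    rw [Finset.sum_add_distrib, ih, Finset.sum_const, Finset.card_range, smul_eq_mul]
    have h2 : 1 ≤ 2 ^ l := Nat.one_le_two_pow
    obtain ⟨c, hc⟩ : ∃ c, 2 ^ l = c + 1 := ⟨2 ^ l - 1, by omega⟩
    rw [hc]
    have h3 : c + 1 - 1 = c := by omega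
    have h4 : 2 * (c + 1) - 1 = 2 * c + 1 := by omega
    rw [h3, h4]
    ring

theorem TT_mono58 (l j : ℕ) {x x' y y' : ℕ} (hx : x ≤ x') (hy : y ≤ y') :
    TT l j x y ≤ TT l j x' y' := by
  induction l generalizing j with
  | zero => exact hy
  | succ l ih =>
    have := ih (j / 2)
    show (x + TT l (j / 2) x y + j % 2) / 2 ≤ (x' + TT l (j / 2) x' y' + j % 2) / 2
    omega

theorem TT_add58 (l j e : ℕ) {x x' y y' : ℕ} (hx : x + e ≤ x') (hy : y + e ≤ y') :
    TT l j x y + e ≤ TT l j x' y' := by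
  induction l generalizing j with
  | zero => exact hy
  | succ l ih =>
    have := ih (j / 2)
    show (x + TT l (j / 2) x y + j % 2) / 2 + e ≤ (x' + TT l (j / 2) x' y' + j % 2) / 2
    omega

theorem TT_le58 (l j : ℕ) {m x y : ℕ} (hx : x ≤ m) (hy : y ≤ m) : TT l j x y ≤ m := by
  induction l generalizing j with
  | zero => exact hy
  | succ l ih =>
    have := ih (j / 2)
    show (x + TT l (j / 2) x y + j % 2) / 2 ≤ m
    omega

theorem TT_up58 (l : ℕ) : ∀ (j k : ℕ) {x y : ℕ}, y ≤ x + 2 ^ l * k → TT l j x y ≤ x + k := by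
  induction l with
  | zero =>
    intro j k x y h
    rw [pow_zero, one_mul] at h
    exact h
  | succ l ih =>
    intro j k x y h
    have h1 : 2 ^ (l + 1) * k = 2 ^ l * (2 * k) := by ring
    rw [h1] at h
    have := ih (j / 2) (2 * k) h
    show (x + TT l (j / 2) x y + j % 2) / 2 ≤ x + k
    omega

theorem TT_lo58 (l : ℕ) : ∀ (j k : ℕ) {x y : ℕ}, x ≤ y + 2 ^ l * k → x ≤ TT l j x y + k := by
  induction l with
  | zero =>
    intro j k x y h
    rw [pow_zero, one_mul] at h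
    exact h
  | succ l ih =>
    intro j k x y h
    have h1 : 2 ^ (l + 1) * k = 2 ^ l * (2 * k) := by ring
    rw [h1] at h
    have := ih (j / 2) (2 * k) h
    show x ≤ (x + TT l (j / 2) x y + j % 2) / 2 + k
    omega

theorem TT_near_up58 (l j : ℕ) {x y : ℕ} (h : y ≤ x + 2 ^ l) : TT l j x y ≤ x + 1 :=
  TT_up58 l j 1 (by rw [mul_one]; exact h)

theorem TT_near_lo58 (l j : ℕ) {x y : ℕ} (h : x ≤ y + 2 ^ l) : x ≤ TT l j x y + 1 :=
  TT_lo58 l j 1 (by rw [mul_one]; exact h)

theorem TT_ent58 (m n l : ℕ) (X Y : ℕ → ℕ) (hX : Monotone X) (hY : Monotone Y) (hXm : ∀ i, X i ≤ m)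
    (hYm : ∀ i, Y i ≤ m) (q : ℕ → ℝ) (hq : ∀ i, 0 ≤ q i) :
    ((2 ^ l - 1 : ℕ) : ℝ) * En m n X q + En m n Y q ≤
      ∑ j ∈ Finset.range (2 ^ l), En m n (fun i => TT l j (X i) (Y i)) q := by
  induction l with
  | zero => simp [TT]
  | succ l ih =>
    rw [show 2 ^ (l + 1) = 2 * 2 ^ l by rw [pow_succ'], sum_two58]
    have h1 : ∀ j, En m n X q + En m n (fun i => TT l j (X i) (Y i)) q ≤
        En m n (fun i => TT (l + 1) (2 * j) (X i) (Y i)) q +
          En m n (fun i => TT (l + 1) (2 * j + 1) (X i) (Y i)) q := by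
      intro j
      have := two_out m n X (fun i => TT l j (X i) (Y i)) hX
        (fun a b hab => TT_mono58 l j (hX hab) (hY hab)) hXm
        (fun i => TT_le58 l j (hXm i) (hYm i)) q hq
      simp only [TT_even58, TT_odd58]
      exact this
    have h2 := Finset.sum_le_sum fun j (_ : j ∈ Finset.range (2 ^ l)) => h1 j
    rw [Finset.sum_add_distrib, Finset.sum_const, Finset.card_range, nsmul_eq_mul] at h2
    refine le_trans ?_ h2
    have h3 : 1 ≤ 2 ^ l := Nat.one_le_two_pow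
    have h4 : ((2 * 2 ^ l - 1 : ℕ) : ℝ) = ((2 ^ l : ℕ) : ℝ) + ((2 ^ l - 1 : ℕ) : ℝ) := by
      have : 2 * 2 ^ l - 1 = 2 ^ l + (2 ^ l - 1) := by omega
      rw [this]
      push_cast
      ring
    rw [h4, add_mul, add_assoc]
    exact add_le_add le_rfl ih

end Pool.IS45
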