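import Pool.Agent.IS45.LipS51

set_option autoImplicit false

/-!
# IS45/Lip: one lattice step moves the cut function little
-/

namespace Pool.IS45

open Pool.HB45

/-- PROOF. Window `k` with separators `k` and `k - 1` (if `k ≥ 1`), `e = k (B + 2) + B`. All of `e`, `e + 1`, and for `k ≥ 1` also
`e - (B + 2)`, `e - (B + 2) + 1`, not in `sg G`: the contents and the separators agree (`agree_of_not_sg`, `ct_eq`, `ltr_eq`), `mu_same`.
Else, if `k`, `k - 1` are not in `VB`: `ct_two`, so at most `Θ` (`hΘ`). Else at most `B + 2` (`mu_bd`). Each index of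
`sg ∩ Lam` belongs to one separator, each separator to at most two windows. `rest`: at most `B + 2` positions. -/
theorem lip {N B m : ℕ} (hm : m * (B + 2) ≤ N + 1) (hm' : N + 1 < (m + 1) * (B + 2)) (hB : 3 ≤ B)
    {Q : Rel (N + 1)} {om : Fin (N + 1) → ℕ} (hL : Lab Q om) (r Θ : ℝ) (hr0 : 0 < r) (hΘ0 : 0 ≤ Θ)
    (hΘ : ∀ (k : Fin m) (w w' : Equiv.Perm (Fin (N + 1))), w ∈ LE Q → w' ∈ LE Q →
      (ct hm k w \ ct hm k w').card ≤ 2 → |mu hm Q om r k w - mu hm Q om r k w'| ≤ Θ)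
    (M : ℕ) {F G : Fin (N + 1) → ℕ} (hF : F ∈ PP Q om M) (hG : G ∈ PP Q om M) (hFG : Near F G) :
    |zc hm Q om r (word om F) - zc hm Q om r (word om G)| ≤
      2 * Θ * (sg om G ∩ Lam B m).card + 2 * ((B : ℝ) + 2) * (VB B m (sg om G)).card +
        ((B : ℝ) + 2) :=
  S51.lip hm hm' hB hL r Θ hr0 hΘ0 hΘ M hF hG hFG

end Pool.IS45
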