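import Pool.Agent.IS45.Stab

set_option autoImplicit false

/-!
# IS45/MuS5: the tilted window means of windows with almost the same letters
-/

namespace Pool.IS45

open Pool.HB45

theorem mu_few5
    (mu_e0 : ∀ {N B m : ℕ} (hm : m * (B + 2) ≤ N + 1) {Q : Rel (N + 1)} (om : Fin (N + 1) → ℕ)
      (r : ℝ), 0 < r → r ≤ 1 → 1 / 2 ≤ r ^ (B + 2) → ∀ (k : Fin m)
      {w : Equiv.Perm (Fin (N + 1))}, w ∈ LE Q →
      |mu hm Q om r k w - e0 hm Q om k w| ≤ 2 + 2 * ((B : ℝ) + 2) * (1 - r ^ (B + 2)))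
    (e0_GG : ∀ {N B m : ℕ} (hm : m * (B + 2) ≤ N + 1) {Q : Rel (N + 1)} {om : Fin (N + 1) → ℕ},
      Lab Q om → ∀ (k : Fin m),
      (∀ w ∈ LE Q, e0 hm Q om k w = ((B : ℝ) - NL25.GG (winRel (win_le hm k) Q w)) / 2) ∨
        ∀ w ∈ LE Q, e0 hm Q om k w = ((B : ℝ) + NL25.GG (winRel (win_le hm k) Q w)) / 2)
    (GG_few : ∀ (θ : ℝ), 0 < θ → ∃ B0 : ℕ, ∀ B ≥ B0, ∀ (N m : ℕ) (hm : m * (B + 2) ≤ N + 1)
      (Q : Rel (N + 1)) (om : Fin (N + 1) → ℕ), Lab Q om → (∀ a b c, Q a b → Q b c → Q a c) →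
      ∀ (k : Fin m) (w w' : Equiv.Perm (Fin (N + 1))), w ∈ LE Q → w' ∈ LE Q →
      (ct hm k w \ ct hm k w').card ≤ 2 →
      |NL25.GG (winRel (win_le hm k) Q w) - NL25.GG (winRel (win_le hm k) Q w')| ≤ θ * B)
    (θ : ℝ) (hθ : 0 < θ) : ∃ B0 : ℕ, ∀ B ≥ B0, ∀ (N m : ℕ) (hm : m * (B + 2) ≤ N + 1)
    (Q : Rel (N + 1)) (om : Fin (N + 1) → ℕ), Lab Q om → (∀ a b c, Q a b → Q b c → Q a c) →
    ∀ r : ℝ, 0 < r → r ≤ 1 → 1 / 2 ≤ r ^ (B + 2) →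
    ∀ (k : Fin m) (w w' : Equiv.Perm (Fin (N + 1))), w ∈ LE Q → w' ∈ LE Q →
    (ct hm k w \ ct hm k w').card ≤ 2 →
    |mu hm Q om r k w - mu hm Q om r k w'| ≤
      θ * B + 4 + 4 * ((B : ℝ) + 2) * (1 - r ^ (B + 2)) := by
  obtain ⟨B0, h0⟩ := GG_few θ hθ
  refine ⟨B0, fun B hB N m hm Q om hL ht r hr0 hr1 hr2 k w w' hw hw' hc => ?_⟩
  have h1 := h0 B hB N m hm Q om hL ht k w w' hw hw' hc
  have h2 := mu_e0 hm om r hr0 hr1 hr2 k hw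
  have h3 := mu_e0 hm om r hr0 hr1 hr2 k hw'
  rw [abs_le] at h1 h2 h3 ⊢
  have hB0 : (0 : ℝ) ≤ θ * B := mul_nonneg hθ.le (Nat.cast_nonneg _)
  rcases e0_GG hm hL k with h4 | h4
  · have h5 := h4 w hw
    have h6 := h4 w' hw'
    constructor <;> linarith [h1.1, h1.2, h2.1, h2.2, h3.1, h3.2]
  · have h5 := h4 w hw
    have h6 := h4 w' hw'
    constructor <;> linarith [h1.1, h1.2, h2.1, h2.2, h3.1, h3.2]

end Pool.IS45
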