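import Pool.Agent.IS45.Defs

set_option autoImplicit false

/-!
# IS45/SameS48: the window mean does not see the order of the letters
-/

namespace Pool.IS45

open Pool.HB45

variable {N B m : ℕ}

theorem mu_same48 (hm : m * (B + 2) ≤ N + 1) (Q : Rel (N + 1)) (om : Fin (N + 1) → ℕ) (r : ℝ)
    (k : Fin m) {w w' : Equiv.Perm (Fin (N + 1))} (hc : ct hm k w = ct hm k w')
    (h1 : cB om B k.val w = cB om B k.val w') (h2 : dB om B k.val w = dB om B k.val w') :
    mu hm Q om r k w = mu hm Q om r k w' := by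
  classical
  have hwinj : ∀ v : Equiv.Perm (Fin (N + 1)),
      Function.Injective fun i => v (wpos (win_le hm k) i) := by
    intro v i j hij
    have h1 := v.injective hij
    have h2 : k.val * (B + 2) + i.val = k.val * (B + 2) + j.val := congrArg Fin.val h1
    exact Fin.ext (by omega)
  have hex : ∀ i : Fin (B + 1), ∃ j : Fin (B + 1),
      w (wpos (win_le hm k) j) = w' (wpos (win_le hm k) i) := by
    intro i
    have hi : w' (wpos (win_le hm k) i) ∈ ct hm k w := by
      rw [hc]
      exact Finset.mem_image_of_mem _ (Finset.mem_univ i)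
    obtain ⟨j, _, hj⟩ := Finset.mem_image.1 hi
    exact ⟨j, hj⟩
  choose t ht using hex
  have htinj : Function.Injective t := by
    intro i j hij
    apply hwinj w'
    change w' (wpos (win_le hm k) i) = w' (wpos (win_le hm k) j)
    rw [← ht i, ← ht j, hij]
  let τ : Equiv.Perm (Fin (B + 1)) := Equiv.ofBijective t (Finite.injective_iff_bijective.1 htinj)
  have hτ : ∀ i, w (wpos (win_le hm k) (τ i)) = w' (wpos (win_le hm k) i) := ht
  have hmem : ∀ g : Equiv.Perm (Fin (B + 1)), g ∈ LE (winRel (win_le hm k) Q w') ↔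
      τ * g ∈ LE (winRel (win_le hm k) Q w) := by
    intro g
    rw [mem_LE, mem_LE]
    unfold winRel
    simp only [Equiv.Perm.coe_mul, Function.comp_apply, hτ]
  have hdw : ∀ g : Equiv.Perm (Fin (B + 1)), dw hm om k w' g = dw hm om k w (τ * g) := by
    intro g
    unfold dw desB des
    rw [h1, h2]
    simp only [Equiv.Perm.coe_mul, Function.comp_apply, hτ]
  unfold mu
  symm
  have e1 : ∑ g ∈ LE (winRel (win_le hm k) Q w'), (dw hm om k w' g : ℝ) * r ^ dw hm om k w' g =
      ∑ g ∈ LE (winRel (win_le hm k) Q w), (dw hm om k w g : ℝ) * r ^ dw hm om k w g :=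
    Finset.sum_equiv (Equiv.mulLeft τ) (fun g => by rw [hmem]; rfl)
      (fun g _ => by rw [hdw]; rfl)
  have e2 : ∑ g ∈ LE (winRel (win_le hm k) Q w'), r ^ dw hm om k w' g =
      ∑ g ∈ LE (winRel (win_le hm k) Q w), r ^ dw hm om k w g :=
    Finset.sum_equiv (Equiv.mulLeft τ) (fun g => by rw [hmem]; rfl)
      (fun g _ => by rw [hdw]; rfl)
  rw [e1, e2]

/-- the window descents are at most `B + 2` -/
theorem dw_le48 (hm : m * (B + 2) ≤ N + 1) (om : Fin (N + 1) → ℕ) (k : Fin m)
    (π : Equiv.Perm (Fin (N + 1))) (g : Equiv.Perm (Fin (B + 1))) :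
    dw hm om k π g ≤ B + 2 := by
  unfold dw desB
  have h1 : des (fun i => om (π (wpos (win_le hm k) i))) g ≤ B := by
    unfold des
    refine (Finset.card_le_univ _).trans ?_
    rw [Fintype.card_fin]
  split_ifs <;> omega

theorem mu_bd48 (hm : m * (B + 2) ≤ N + 1) {Q : Rel (N + 1)} (om : Fin (N + 1) → ℕ) (r : ℝ)
    (hr0 : 0 < r) (k : Fin m) (w : Equiv.Perm (Fin (N + 1))) :
    0 ≤ mu hm Q om r k w ∧ mu hm Q om r k w ≤ (B : ℝ) + 2 := by
  have hpos : ∀ g : Equiv.Perm (Fin (B + 1)), 0 ≤ r ^ dw hm om k w g := fun g => pow_nonneg hr0.le _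
  unfold mu
  constructor
  · exact div_nonneg (Finset.sum_nonneg fun g _ => mul_nonneg (Nat.cast_nonneg _) (hpos g))
      (Finset.sum_nonneg fun g _ => hpos g)
  · refine div_le_of_le_mul₀ (Finset.sum_nonneg fun g _ => hpos g) (by positivity) ?_
    rw [Finset.mul_sum]
    refine Finset.sum_le_sum fun g _ => mul_le_mul_of_nonneg_right ?_ (hpos g)
    exact_mod_cast dw_le48 hm om k w g

end Pool.IS45
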