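import Pool.Agent.IS45.Stab
import Pool.Agent.IS45.E0GS48
import Pool.Agent.IS45.E0S48
import Pool.Agent.IS45.SameS48
import Pool.Agent.IS45.MuS5
import Pool.Agent.IS45.GGfewS24

set_option autoImplicit false

/-!
# IS45/Mu (STUB): the tilted window means
-/

namespace Pool.IS45

open Pool.HB45

variable {N B m : ℕ}

theorem mu_bd (hm : m * (B + 2) ≤ N + 1) {Q : Rel (N + 1)} (om : Fin (N + 1) → ℕ) (r : ℝ)
    (hr0 : 0 < r) (k : Fin m) {w : Equiv.Perm (Fin (N + 1))} (hw : w ∈ LE Q) :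
    0 ≤ mu hm Q om r k w ∧ mu hm Q om r k w ≤ (B : ℝ) + 2 :=
  mu_bd48 hm om r hr0 k w

/-- the mean does not see the order of the letters. PROOF. `w' (wpos i) = w (wpos (τ i))` for a bijection `τ`; substitute
`τ * ·` in the sums. -/
theorem mu_same (hm : m * (B + 2) ≤ N + 1) (Q : Rel (N + 1)) (om : Fin (N + 1) → ℕ) (r : ℝ)
    (k : Fin m) {w w' : Equiv.Perm (Fin (N + 1))} (hc : ct hm k w = ct hm k w')
    (h1 : cB om B k.val w = cB om B k.val w') (h2 : dB om B k.val w = dB om B k.val w') :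
    mu hm Q om r k w = mu hm Q om r k w' :=
  mu_same48 hm Q om r k hc h1 h2

/-- PROOF. `mu - E = ∑ (d - E)(r^d - 1)/∑ r^d`, `E` = untilted mean of `dw`, `|E - e0| ≤ 2`, `r^(B+2) ≥ 1/2`. -/
theorem mu_e0 (hm : m * (B + 2) ≤ N + 1) {Q : Rel (N + 1)} (om : Fin (N + 1) → ℕ) (r : ℝ)
    (hr0 : 0 < r) (hr1 : r ≤ 1) (hr2 : 1 / 2 ≤ r ^ (B + 2)) (k : Fin m)
    {w : Equiv.Perm (Fin (N + 1))} (hw : w ∈ LE Q) :
    |mu hm Q om r k w - e0 hm Q om k w| ≤ 2 + 2 * ((B : ℝ) + 2) * (1 - r ^ (B + 2)) :=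
  mu_e048 hm om r hr0 hr1 hr2 k hw

/-- PROOF. Natural: `NL25.mean_X` for `winRel` with `nat_win`. Reversed: the labelling `C - om` is natural, `des` becomes
`B - des`. -/
theorem e0_GG (hm : m * (B + 2) ≤ N + 1) {Q : Rel (N + 1)} {om : Fin (N + 1) → ℕ} (hL : Lab Q om)
    (k : Fin m) : (∀ w ∈ LE Q, e0 hm Q om k w = ((B : ℝ) - NL25.GG (winRel (win_le hm k) Q w)) / 2) ∨
      ∀ w ∈ LE Q, e0 hm Q om k w = ((B : ℝ) + NL25.GG (winRel (win_le hm k) Q w)) / 2 :=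
  e0_GG48 hm hL k

/-- PROOF. Bijection `τ` of `Fin (B+1)` with `w' (wpos (τ i)) = w (wpos i)` outside a set `T` of two indices; `GG` of
`fun i j => winRel w' (τ i) (τ j)` is `GG (winRel w')` (substitution `τ`); `stab`. -/
theorem GG_few (θ : ℝ) (hθ : 0 < θ) : ∃ B0 : ℕ, ∀ B ≥ B0, ∀ (N m : ℕ) (hm : m * (B + 2) ≤ N + 1)
    (Q : Rel (N + 1)) (om : Fin (N + 1) → ℕ), Lab Q om → (∀ a b c, Q a b → Q b c → Q a c) →
    ∀ (k : Fin m) (w w' : Equiv.Perm (Fin (N + 1))), w ∈ LE Q → w' ∈ LE Q →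
    (ct hm k w \ ct hm k w').card ≤ 2 →
    |NL25.GG (winRel (win_le hm k) Q w) - NL25.GG (winRel (win_le hm k) Q w')| ≤ θ * B :=
  GGfewS24.GG_few θ hθ

/-- PROOF. `mu_e0`, `e0_GG`, `GG_few`. -/
theorem mu_few (θ : ℝ) (hθ : 0 < θ) : ∃ B0 : ℕ, ∀ B ≥ B0, ∀ (N m : ℕ) (hm : m * (B + 2) ≤ N + 1)
    (Q : Rel (N + 1)) (om : Fin (N + 1) → ℕ), Lab Q om → (∀ a b c, Q a b → Q b c → Q a c) →
    ∀ r : ℝ, 0 < r → r ≤ 1 → 1 / 2 ≤ r ^ (B + 2) →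
    ∀ (k : Fin m) (w w' : Equiv.Perm (Fin (N + 1))), w ∈ LE Q → w' ∈ LE Q →
    (ct hm k w \ ct hm k w').card ≤ 2 →
    |mu hm Q om r k w - mu hm Q om r k w'| ≤
      θ * B + 4 + 4 * ((B : ℝ) + 2) * (1 - r ^ (B + 2)) :=
  mu_few5 mu_e0 e0_GG GG_few θ hθ

end Pool.IS45
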