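import Pool.Agent.IS45.Step
import Pool.Agent.IS45.Mu

set_option autoImplicit false

/-!
# IS45/LipS51: one lattice step moves the cut function little
-/

namespace Pool.IS45.S51

open Pool.HB45

theorem sum_here (A : Finset ℕ) (c : ℝ) (hc : 0 ≤ c) (m : ℕ) :
    ∑ k ∈ Finset.range m, (if k ∈ A then c else 0) ≤ c * A.card := by
  rw [← Finset.sum_filter, Finset.sum_const, nsmul_eq_mul, mul_comm]
  refine mul_le_mul_of_nonneg_left ?_ hc
  have : (Finset.range m).filter (fun k => k ∈ A) ⊆ A := fun k hk => (Finset.mem_filter.1 hk).2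
  exact_mod_cast Finset.card_le_card this

theorem sum_shift (A : Finset ℕ) (c : ℝ) (hc : 0 ≤ c) (m : ℕ) :
    ∑ k ∈ Finset.range m, (if k ≠ 0 ∧ k - 1 ∈ A then c else 0) ≤ c * A.card := by
  rw [← Finset.sum_filter, Finset.sum_const, nsmul_eq_mul, mul_comm]
  refine mul_le_mul_of_nonneg_left ?_ hc
  have h : (Finset.range m).filter (fun k => k ≠ 0 ∧ k - 1 ∈ A) ⊆ A.image (fun j => j + 1) := by
    intro k hk
    have h1 := (Finset.mem_filter.1 hk).2
    exact Finset.mem_image.2 ⟨k - 1, h1.2, by omega⟩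
  exact_mod_cast (Finset.card_le_card h).trans Finset.card_image_le

/-- separators with a small gap -/
def Aff (B m : ℕ) (S : Finset ℕ) : Finset ℕ :=
  (Finset.range m).filter fun k => k * (B + 2) + B ∈ S ∨ k * (B + 2) + B + 1 ∈ S

theorem card_Aff (B m : ℕ) (S : Finset ℕ) : (Aff B m S).card ≤ (S ∩ Lam B m).card := by
  refine Finset.card_le_card_of_injOn
    (fun k => if k * (B + 2) + B ∈ S then k * (B + 2) + B else k * (B + 2) + B + 1) ?_ ?_
  · intro k hk
    have hk' := Finset.mem_filter.1 (Finset.mem_coe.1 hk)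
    have hr := hk'.1
    dsimp only
    rw [Finset.mem_coe, Finset.mem_inter]
    unfold Lam
    split_ifs with h
    · exact ⟨h, Finset.mem_union_left _ (Finset.mem_image.2 ⟨k, hr, rfl⟩)⟩
    · exact ⟨hk'.2.resolve_left h, Finset.mem_union_right _ (Finset.mem_image.2 ⟨k, hr, rfl⟩)⟩
  · intro k _ l _ hkl
    dsimp only at hkl
    by_contra hne
    rcases Nat.lt_or_gt_of_ne hne with h | h
    · have h3 : (k + 1) * (B + 2) ≤ l * (B + 2) := Nat.mul_le_mul_right _ h
      rw [Nat.add_mul] at h3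
      split_ifs at hkl <;> omega
    · have h3 : (l + 1) * (B + 2) ≤ k * (B + 2) := Nat.mul_le_mul_right _ h
      rw [Nat.add_mul] at h3
      split_ifs at hkl <;> omega

theorem rest_le {N : ℕ} (om : Fin (N + 1) → ℕ) (B m : ℕ) (hm' : N + 1 < (m + 1) * (B + 2))
    (π : Equiv.Perm (Fin (N + 1))) : rest om B m π ≤ B + 2 := by
  unfold rest
  have h1 : (Finset.univ.filter fun p : Fin N =>
      m * (B + 2) ≤ p.val + 1 ∧ om (π p.succ) < om (π p.castSucc)).card ≤
      (Finset.Ico (m * (B + 2) - 1) N).card := by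
    refine Finset.card_le_card_of_injOn (fun p => p.val) ?_ ?_
    · intro p hp
      have h := (Finset.mem_filter.1 (Finset.mem_coe.1 hp)).2
      rw [Finset.mem_coe, Finset.mem_Ico]
      have := p.isLt
      dsimp only
      omega
    · intro p _ q _ hpq
      exact Fin.ext hpq
  rw [Nat.card_Ico] at h1
  rw [Nat.add_mul] at hm'
  omega

theorem lip {N B m : ℕ} (hm : m * (B + 2) ≤ N + 1) (hm' : N + 1 < (m + 1) * (B + 2)) (hB : 3 ≤ B)
    {Q : Rel (N + 1)} {om : Fin (N + 1) → ℕ} (hL : Lab Q om) (r Θ : ℝ) (hr0 : 0 < r) (hΘ0 : 0 ≤ Θ)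
    (hΘ : ∀ (k : Fin m) (w w' : Equiv.Perm (Fin (N + 1))), w ∈ LE Q → w' ∈ LE Q →
      (ct hm k w \ ct hm k w').card ≤ 2 → |mu hm Q om r k w - mu hm Q om r k w'| ≤ Θ)
    (M : ℕ) {F G : Fin (N + 1) → ℕ} (hF : F ∈ PP Q om M) (hG : G ∈ PP Q om M) (hFG : Near F G) :
    |zc hm Q om r (word om F) - zc hm Q om r (word om G)| ≤
      2 * Θ * (sg om G ∩ Lam B m).card + 2 * ((B : ℝ) + 2) * (VB B m (sg om G)).card +
        ((B : ℝ) + 2) := by
  have hw : word om F ∈ LE Q := word_mem hL hF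
  have hw' : word om G ∈ LE Q := word_mem hL hG
  have hag : ∀ i, i ∉ sg om G → Agree (word om F) (word om G) i := fun i hi =>
    agree_of_not_sg hL.1 hFG i hi
  obtain ⟨w, hwe⟩ : ∃ w, w = word om F := ⟨_, rfl⟩
  obtain ⟨w', hwe'⟩ : ∃ w', w' = word om G := ⟨_, rfl⟩
  obtain ⟨S, hS⟩ : ∃ S, S = sg om G := ⟨_, rfl⟩
  rw [← hwe] at hw hag ⊢
  rw [← hwe'] at hw' hag ⊢
  rw [← hS] at hag ⊢
  have hB0 : (0 : ℝ) ≤ (B : ℝ) + 2 := by positivity
  have key : ∀ k : Fin m, |mu hm Q om r k w - mu hm Q om r k w'| ≤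
      (if k.val ∈ Aff B m S then Θ else 0) +
      (if k.val ≠ 0 ∧ k.val - 1 ∈ Aff B m S then Θ else 0) +
      (if k.val ∈ VB B m S then (B : ℝ) + 2 else 0) +
      (if k.val ≠ 0 ∧ k.val - 1 ∈ VB B m S then (B : ℝ) + 2 else 0) := by
    intro k
    have i1 : (0 : ℝ) ≤ if k.val ∈ Aff B m S then Θ else 0 := by split_ifs <;> simp [hΘ0]
    have i2 : (0 : ℝ) ≤ if k.val ≠ 0 ∧ k.val - 1 ∈ Aff B m S then Θ else 0 := by
      split_ifs <;> simp [hΘ0]
    have i3 : (0 : ℝ) ≤ if k.val ∈ VB B m S then (B : ℝ) + 2 else 0 := by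
      split_ifs
      · exact hB0
      · exact le_rfl
    have i4 : (0 : ℝ) ≤ if k.val ≠ 0 ∧ k.val - 1 ∈ VB B m S then (B : ℝ) + 2 else 0 := by
      split_ifs
      · exact hB0
      · exact le_rfl
    have hbd : |mu hm Q om r k w - mu hm Q om r k w'| ≤ (B : ℝ) + 2 := by
      have h1 := mu_bd hm om r hr0 k hw
      have h2 := mu_bd hm om r hr0 k hw'
      rw [abs_le]
      constructor <;> linarith
    by_cases hv : k.val ∈ VB B m S
    · rw [if_pos hv]
      rw [if_pos hv] at i3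
      linarith
    by_cases hv' : k.val ≠ 0 ∧ k.val - 1 ∈ VB B m S
    · rw [if_pos hv']
      rw [if_pos hv'] at i4
      linarith
    have hkm := k.isLt
    -- positions
    have hpos : k.val ≠ 0 → (k.val - 1) * (B + 2) + B + 2 = k.val * (B + 2) := by
      intro h0
      obtain ⟨j, hj⟩ : ∃ j, k.val = j + 1 := ⟨k.val - 1, by omega⟩
      rw [hj, Nat.add_sub_cancel, Nat.add_mul]
      omega
    have hvS : ¬ (((k.val * (B + 2) + B - 1 ∈ S ∧ k.val * (B + 2) + B ∈ S) ∨
      (k.val * (B + 2) + B ∈ S ∧ k.val * (B + 2) + B + 1 ∈ S)) ∨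
      (k.val * (B + 2) + B + 1 ∈ S ∧ k.val * (B + 2) + B + 2 ∈ S)) := fun h =>
      hv (Finset.mem_filter.2 ⟨Finset.mem_range.2 hkm, h⟩)
    have hvS' : k.val ≠ 0 → ¬ (((k.val * (B + 2) - 3 ∈ S ∧ k.val * (B + 2) - 2 ∈ S) ∨
      (k.val * (B + 2) - 2 ∈ S ∧ k.val * (B + 2) - 1 ∈ S)) ∨
      (k.val * (B + 2) - 1 ∈ S ∧ k.val * (B + 2) ∈ S)) := by
      intro h0 h
      refine hv' ⟨h0, Finset.mem_filter.2 ⟨Finset.mem_range.2 (by omega), ?_⟩⟩
      have hp := hpos h0
      have e1 : (k.val - 1) * (B + 2) + B - 1 = k.val * (B + 2) - 3 := by omega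
      have e2 : (k.val - 1) * (B + 2) + B = k.val * (B + 2) - 2 := by omega
      have e3 : (k.val - 1) * (B + 2) + B + 1 = k.val * (B + 2) - 1 := by omega
      have e4 : (k.val - 1) * (B + 2) + B + 2 = k.val * (B + 2) := by omega
      rw [e1, e4, e3, e2]
      exact h
    by_cases ha : k.val ∈ Aff B m S ∨ (k.val ≠ 0 ∧ k.val - 1 ∈ Aff B m S)
    · -- at most two letters
      have hct : (ct hm k w \ ct hm k w').card ≤ 2 := by
        refine ct_two hm k ?_ ?_ (by omega)
        · by_cases h0 : k.val = 0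
          · exact Or.inl h0
          · right
            have h := hvS' h0
            by_cases h1 : k.val * (B + 2) - 1 ∈ S
            · right
              exact ⟨hag _ fun h2 => h (Or.inl (Or.inr ⟨h2, h1⟩)), hag _ fun h2 => h (Or.inr ⟨h1, h2⟩)⟩
            · exact Or.inl (hag _ h1)
        · by_cases h1 : k.val * (B + 2) + B ∈ S
          · right
            exact ⟨hag _ fun h2 => hvS (Or.inl (Or.inl ⟨h2, h1⟩)),
              hag _ fun h2 => hvS (Or.inl (Or.inr ⟨h1, h2⟩))⟩
          · exact Or.inl (hag _ h1)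
      have h := hΘ k w w' hw hw' hct
      rcases ha with ha | ha
      · rw [if_pos ha]
        linarith
      · rw [if_pos ha]
        linarith
    · -- all gaps are large
      push Not at ha
      have hA : k.val * (B + 2) + B ∉ S ∧ k.val * (B + 2) + B + 1 ∉ S := by
        constructor
        · exact fun h => ha.1 (Finset.mem_filter.2 ⟨Finset.mem_range.2 hkm, Or.inl h⟩)
        · exact fun h => ha.1 (Finset.mem_filter.2 ⟨Finset.mem_range.2 hkm, Or.inr h⟩)
      have hA' : k.val ≠ 0 → k.val * (B + 2) - 2 ∉ S ∧ k.val * (B + 2) - 1 ∉ S := by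
        intro h0
        have hp := hpos h0
        have e2 : (k.val - 1) * (B + 2) + B = k.val * (B + 2) - 2 := by omega
        have e3 : (k.val - 1) * (B + 2) + B + 1 = k.val * (B + 2) - 1 := by omega
        constructor
        · exact fun h => ha.2 h0 (Finset.mem_filter.2 ⟨Finset.mem_range.2 (by omega),
            Or.inl (by rw [e2]; exact h)⟩)
        · exact fun h => ha.2 h0 (Finset.mem_filter.2 ⟨Finset.mem_range.2 (by omega),
            Or.inr (by rw [e3]; exact h)⟩)
      have hc : ct hm k w = ct hm k w' := by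
        refine ct_eq hm k ?_ (hag _ hA.1)
        by_cases h0 : k.val = 0
        · exact Or.inl h0
        · exact Or.inr (hag _ (hA' h0).2)
      have hcB : cB om B k.val w = cB om B k.val w' := by
        unfold cB
        by_cases h0 : k.val = 0
        · rw [if_pos h0, if_pos h0]
        · rw [if_neg h0, if_neg h0]
          have hp := hpos h0
          refine ltr_eq _ (by omega) (hag _ ?_) (hag _ (hA' h0).2)
          have e : k.val * (B + 2) - 1 - 1 = k.val * (B + 2) - 2 := by omega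
          rw [e]
          exact (hA' h0).1
      have hdB : dB om B k.val w = dB om B k.val w' := by
        unfold dB
        refine ltr_eq _ (by omega) (hag _ ?_) (hag _ hA.2)
        rw [Nat.add_sub_cancel]
        exact hA.1
      rw [mu_same hm Q om r k hc hcB hdB, sub_self, abs_zero]
      linarith
  -- sum over the windows
  have hsum : ∑ k : Fin m, |mu hm Q om r k w - mu hm Q om r k w'| ≤
      2 * Θ * (S ∩ Lam B m).card + 2 * ((B : ℝ) + 2) * (VB B m S).card := by
    refine (Finset.sum_le_sum fun k _ => key k).trans ?_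
    rw [Finset.sum_add_distrib, Finset.sum_add_distrib, Finset.sum_add_distrib]
    have s1 : ∑ k : Fin m, (if k.val ∈ Aff B m S then Θ else 0) ≤ Θ * (Aff B m S).card := by
      rw [← Finset.sum_range (fun k => if k ∈ Aff B m S then Θ else 0)]
      exact sum_here _ _ hΘ0 m
    have s2 : ∑ k : Fin m, (if k.val ≠ 0 ∧ k.val - 1 ∈ Aff B m S then Θ else 0) ≤
        Θ * (Aff B m S).card := by
      rw [← Finset.sum_range (fun k => if k ≠ 0 ∧ k - 1 ∈ Aff B m S then Θ else 0)]
      exact sum_shift _ _ hΘ0 m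
    have s3 : ∑ k : Fin m, (if k.val ∈ VB B m S then (B : ℝ) + 2 else 0) ≤
        ((B : ℝ) + 2) * (VB B m S).card := by
      rw [← Finset.sum_range (fun k => if k ∈ VB B m S then (B : ℝ) + 2 else 0)]
      exact sum_here _ _ hB0 m
    have s4 : ∑ k : Fin m, (if k.val ≠ 0 ∧ k.val - 1 ∈ VB B m S then (B : ℝ) + 2 else 0) ≤
        ((B : ℝ) + 2) * (VB B m S).card := by
      rw [← Finset.sum_range (fun k => if k ≠ 0 ∧ k - 1 ∈ VB B m S then (B : ℝ) + 2 else 0)]
      exact sum_shift _ _ hB0 m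
    have hA : ((Aff B m S).card : ℝ) ≤ (S ∩ Lam B m).card := by exact_mod_cast card_Aff B m S
    have hA2 : Θ * ((Aff B m S).card : ℝ) ≤ Θ * (S ∩ Lam B m).card :=
      mul_le_mul_of_nonneg_left hA hΘ0
    linarith
  have hrest : |(rest om B m w : ℝ) - rest om B m w'| ≤ (B : ℝ) + 2 := by
    have h1 : (rest om B m w : ℝ) ≤ (B : ℝ) + 2 := by exact_mod_cast rest_le om B m hm' w
    have h2 : (rest om B m w' : ℝ) ≤ (B : ℝ) + 2 := by exact_mod_cast rest_le om B m hm' w'
    have h3 : (0 : ℝ) ≤ rest om B m w := Nat.cast_nonneg _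
    have h4 : (0 : ℝ) ≤ rest om B m w' := Nat.cast_nonneg _
    rw [abs_le]
    constructor <;> linarith
  unfold zc
  have e : (∑ k : Fin m, mu hm Q om r k w) + (rest om B m w : ℝ) -
      ((∑ k : Fin m, mu hm Q om r k w') + (rest om B m w' : ℝ)) =
      (∑ k : Fin m, (mu hm Q om r k w - mu hm Q om r k w')) +
        ((rest om B m w : ℝ) - rest om B m w') := by
    rw [Finset.sum_sub_distrib]
    ring
  rw [e]
  calc |(∑ k : Fin m, (mu hm Q om r k w - mu hm Q om r k w')) +
        ((rest om B m w : ℝ) - rest om B m w')| ≤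
      |∑ k : Fin m, (mu hm Q om r k w - mu hm Q om r k w')| +
        |(rest om B m w : ℝ) - rest om B m w'| := abs_add_le _ _
    _ ≤ ∑ k : Fin m, |mu hm Q om r k w - mu hm Q om r k w'| + ((B : ℝ) + 2) :=
      add_le_add (Finset.abs_sum_le_sum_abs _ _) hrest
    _ ≤ _ := by linarith

end Pool.IS45.S51
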