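import Pool.Agent.IS45.Defs
import Pool.Agent.NL25.Stein

set_option autoImplicit false

/-!
# IS45/MuS41: the untilted window mean in terms of the number of comparable neighbours
-/

namespace Pool.IS45

open Pool.HB45

/-- descents of the reversed labelling -/
theorem des_rev41 {B : ℕ} {lab : Fin (B + 1) → ℕ} (hi : Function.Injective lab) {C : ℕ}
    (hC : ∀ i, lab i ≤ C) (g : Equiv.Perm (Fin (B + 1))) :
    des (fun i => C - lab i) g + des lab g = B := by
  unfold des
  have h1 : (Finset.univ.filter fun i : Fin B => C - lab (g i.succ) < C - lab (g i.castSucc)) =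
      Finset.univ.filter fun i : Fin B => ¬ lab (g i.succ) < lab (g i.castSucc) := by
    refine Finset.filter_congr fun i _ => ?_
    have h2 := hC (g i.succ)
    have h3 := hC (g i.castSucc)
    have h4 : lab (g i.succ) ≠ lab (g i.castSucc) := by
      intro h
      have h5 := g.injective (hi h)
      have h6 := congrArg Fin.val h5
      simp at h6
    omega
  rw [h1, add_comm, Finset.card_filter_add_card_filter_not, Finset.card_univ, Fintype.card_fin]

theorem e0_nat41 {B : ℕ} {Q' : Rel (B + 1)} {lab : Fin (B + 1) → ℕ} (hn : Nat' Q' lab)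
    (hne : (LE Q').Nonempty) :
    (∑ τ ∈ LE Q', (des lab τ : ℝ)) / (LE Q').card = ((B : ℝ) - NL25.GG Q') / 2 := by
  have h := NL25.mean_X hn
  have hc : (0 : ℝ) < (LE Q').card := by exact_mod_cast Finset.card_pos.2 hne
  unfold NL25.Xf at h
  rw [Finset.sum_sub_distrib, Finset.sum_const, nsmul_eq_mul, ← Finset.mul_sum] at h
  rw [div_eq_iff hc.ne']
  linarith

theorem e0_rev41 {B : ℕ} {Q' : Rel (B + 1)} {lab : Fin (B + 1) → ℕ} (hi : Function.Injective lab)
    (hr : ∀ a b, Q' a b → lab b < lab a) (hne : (LE Q').Nonempty) :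
    (∑ τ ∈ LE Q', (des lab τ : ℝ)) / (LE Q').card = ((B : ℝ) + NL25.GG Q') / 2 := by
  obtain ⟨C, hC⟩ : ∃ C : ℕ, ∀ i, lab i ≤ C :=
    ⟨Finset.univ.sup lab, fun i => Finset.le_sup (Finset.mem_univ i)⟩
  have hn : Nat' Q' (fun i => C - lab i) := by
    refine ⟨fun i j hij => ?_, fun a b hab => ?_⟩
    · have h1 := hC i
      have h2 := hC j
      have h3 : C - lab i = C - lab j := hij
      exact hi (by omega)
    · have h1 := hC a
      have h2 := hC b
      have h3 := hr a b hab
      show C - lab a < C - lab b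
      omega
  have h := e0_nat41 hn hne
  have hc : (0 : ℝ) < (LE Q').card := by exact_mod_cast Finset.card_pos.2 hne
  have h1 : ∑ τ ∈ LE Q', (des (fun i => C - lab i) τ : ℝ)
      = (LE Q').card * B - ∑ τ ∈ LE Q', (des lab τ : ℝ) := by
    rw [eq_sub_iff_add_eq, ← Finset.sum_add_distrib]
    rw [Finset.sum_congr rfl (fun τ _ => show
      ((des (fun i => C - lab i) τ : ℝ) + (des lab τ : ℝ)) = (B : ℝ) by
        exact_mod_cast des_rev41 hi hC τ)]
    rw [Finset.sum_const, nsmul_eq_mul]
  rw [h1, div_eq_iff hc.ne'] at h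
  rw [div_eq_iff hc.ne']
  linarith

theorem e0_GG41 {N B m : ℕ} (hm : m * (B + 2) ≤ N + 1) {Q : Rel (N + 1)} {om : Fin (N + 1) → ℕ}
    (hL : Lab Q om) (k : Fin m) :
    (∀ w ∈ LE Q, e0 hm Q om k w = ((B : ℝ) - NL25.GG (winRel (win_le hm k) Q w)) / 2) ∨
      ∀ w ∈ LE Q, e0 hm Q om k w = ((B : ℝ) + NL25.GG (winRel (win_le hm k) Q w)) / 2 := by
  have hinj : ∀ w : Equiv.Perm (Fin (N + 1)),
      Function.Injective (fun i => om (w (wpos (win_le hm k) i))) := by
    intro w i j hij
    have h1 := w.injective (hL.1 hij)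
    have h2 := congrArg Fin.val h1
    have h3 : k.val * (B + 2) + i.val = k.val * (B + 2) + j.val := h2
    exact Fin.ext (by omega)
  rcases hL.2 with h | h
  · left
    intro w hw
    exact e0_nat41 ⟨hinj w, fun _ _ hab => h _ _ hab⟩ ⟨1, one_mem_winRel (win_le hm k) w hw⟩
  · right
    intro w hw
    exact e0_rev41 (hinj w) (fun _ _ hab => h _ _ hab) ⟨1, one_mem_winRel (win_le hm k) w hw⟩

end Pool.IS45
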