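import Pool.Agent.IS45.Iter

set_option autoImplicit false

/-!
# IS45/OneS48: Gibbs inequality and the passage from the coupling to dimension one
-/

namespace Pool.IS45

open Finset

theorem fib48 (m n : ℕ) (V : ℕ → ℕ) (hV : ∀ i, V i ≤ m) (q : ℕ → ℝ) (F : ℕ → ℝ) :
    ∑ i ∈ range n, q i * F (V i) =
      ∑ v ∈ range (m + 1), (∑ i ∈ (range n).filter (fun i => V i = v), q i) * F v := by
  have hmaps : ∀ i ∈ range n, V i ∈ range (m + 1) := fun i _ =>
    mem_range.2 (Nat.lt_succ_of_le (hV i))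
  rw [← sum_fiberwise_of_maps_to hmaps]
  refine sum_congr rfl fun v _ => ?_
  rw [sum_mul]
  refine sum_congr rfl fun i hi => ?_
  rw [(mem_filter.1 hi).2]

theorem gibbs48 (m n : ℕ) (V : ℕ → ℕ) (hV : ∀ i, V i ≤ m) (q : ℕ → ℝ) (hq : ∀ i, 0 ≤ q i)
    (hq1 : ∑ i ∈ Finset.range n, q i = 1) (h : ℕ → ℝ) (hh : ∀ v, 0 ≤ h v)
    (hpos : ∀ i < n, 0 < q i → 0 < h (V i)) :
    (∑ i ∈ Finset.range n, q i * Real.log (h (V i))) + En m n V q ≤
      Real.log (∑ v ∈ Finset.range (m + 1), h v) := by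
  set Q : ℕ → ℝ := fun v => ∑ i ∈ (range n).filter (fun i => V i = v), q i with hQdef
  have hQ0 : ∀ v, 0 ≤ Q v := fun v => sum_nonneg fun i _ => hq i
  have h1 : ∑ i ∈ range n, q i * Real.log (h (V i)) =
      ∑ v ∈ range (m + 1), Q v * Real.log (h v) := fib48 m n V hV q fun v => Real.log (h v)
  have h2 : ∑ v ∈ range (m + 1), Q v = 1 := by
    have := fib48 m n V hV q fun _ => 1
    simp only [mul_one] at this
    rw [← this, hq1]
  set S : ℝ := ∑ v ∈ range (m + 1), h v with hS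
  have hSpos : 0 < S := by
    obtain ⟨i, hi, hqi⟩ : ∃ i ∈ range n, 0 < q i := by
      by_contra hcon
      push Not at hcon
      have : ∑ i ∈ range n, q i ≤ 0 := sum_nonpos hcon
      linarith
    have hi' := mem_range.1 hi
    have h3 := hpos i hi' hqi
    have h4 : h (V i) ≤ S := single_le_sum (f := h) (fun v _ => hh v)
      (mem_range.2 (Nat.lt_succ_of_le (hV i)))
    linarith
  have hterm : ∀ v ∈ range (m + 1), Q v * Real.log (h v) + Real.negMulLog (Q v) ≤
      Q v * Real.log S + (h v / S - Q v) := by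
    intro v _
    rcases eq_or_lt_of_le (hQ0 v) with h0 | h0
    · rw [← h0]
      simp only [zero_mul, Real.negMulLog_zero, zero_add, sub_zero, add_zero]
      exact div_nonneg (hh v) hSpos.le
    · have hv : 0 < h v := by
        obtain ⟨i, hi, hqi⟩ : ∃ i ∈ (range n).filter (fun i => V i = v), 0 < q i := by
          by_contra hcon
          push Not at hcon
          have : Q v ≤ 0 := sum_nonpos hcon
          linarith
        have h5 := hpos i (mem_range.1 (mem_filter.1 hi).1) hqi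
        rwa [(mem_filter.1 hi).2] at h5
      have hx : 0 < h v / (Q v * S) := div_pos hv (mul_pos h0 hSpos)
      have h6 := Real.log_le_sub_one_of_pos hx
      rw [Real.log_div hv.ne' (mul_pos h0 hSpos).ne', Real.log_mul h0.ne' hSpos.ne'] at h6
      have h7 := mul_le_mul_of_nonneg_left h6 h0.le
      have h8 : Q v * (h v / (Q v * S) - 1) = h v / S - Q v := by
        field_simp
      rw [h8] at h7
      unfold Real.negMulLog
      linarith
  have hsum := sum_le_sum hterm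
  rw [sum_add_distrib, sum_add_distrib, ← sum_mul, h2, sum_sub_distrib, h2, ← sum_div, ← hS,
    div_self hSpos.ne'] at hsum
  rw [h1]
  unfold En
  linarith

/-- `∑ q log f (X) + E X = log ∑ f` for a coupling with marginal `f / ∑ f` -/
theorem marg48 (m n : ℕ) (X : ℕ → ℕ) (hX : ∀ i, X i ≤ m) (q : ℕ → ℝ) (f : ℕ → ℝ)
    (hf : ∀ x, 0 ≤ f x) {A : ℝ} (hA : 0 < A) (hAf : ∑ x ∈ range (m + 1), f x = A)
    (hm : ∀ v ≤ m, ∑ i ∈ (range n).filter (fun i => X i = v), q i = f v / A) :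
    (∑ i ∈ range n, q i * Real.log (f (X i))) + En m n X q = Real.log A := by
  rw [fib48 m n X hX q fun v => Real.log (f v)]
  unfold En
  rw [← sum_add_distrib]
  have h1 : ∀ v ∈ range (m + 1),
      (∑ i ∈ (range n).filter (fun i => X i = v), q i) * Real.log (f v) +
        Real.negMulLog (∑ i ∈ (range n).filter (fun i => X i = v), q i) =
      (f v / A) * Real.log A := by
    intro v hv
    rw [hm v (Nat.lt_succ_iff.1 (mem_range.1 hv))]
    rcases eq_or_lt_of_le (hf v) with h0 | h0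
    · rw [← h0]
      simp
    · unfold Real.negMulLog
      rw [Real.log_div h0.ne' hA.ne']
      ring
  rw [sum_congr rfl h1, ← sum_mul, ← sum_div, hAf, div_self hA.ne', one_mul]

theorem one_dim48 (nw : ∀ (m : ℕ) (f g : ℕ → ℝ), (∀ x, 0 ≤ f x) → (∀ x, 0 ≤ g x) →
    (∑ x ∈ Finset.range (m + 1), f x = 1) → (∑ x ∈ Finset.range (m + 1), g x = 1) →
    ∃ (n : ℕ) (X Y : ℕ → ℕ) (q : ℕ → ℝ), Monotone X ∧ Monotone Y ∧ (∀ i, X i ≤ m) ∧
      (∀ i, Y i ≤ m) ∧ (∀ i, 0 ≤ q i) ∧
      (∀ v ≤ m, ∑ i ∈ (Finset.range n).filter (fun i => X i = v), q i = f v) ∧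
      ∀ v ≤ m, ∑ i ∈ (Finset.range n).filter (fun i => Y i = v), q i = g v)
    (m l : ℕ) (f g : ℕ → ℝ) (h : ℕ → ℕ → ℝ) (hf : ∀ x, 0 ≤ f x) (hg : ∀ x, 0 ≤ g x)
    (hh : ∀ j z, 0 ≤ h j z)
    (H : ∀ x ≤ m, ∀ y ≤ m, f x ^ (2 ^ l - 1) * g y ≤
      ∏ j ∈ Finset.range (2 ^ l), h j (TT l j x y)) :
    (∑ x ∈ Finset.range (m + 1), f x) ^ (2 ^ l - 1) * ∑ y ∈ Finset.range (m + 1), g y ≤
      ∏ j ∈ Finset.range (2 ^ l), ∑ z ∈ Finset.range (m + 1), h j z := by
  have hR : 0 ≤ ∏ j ∈ range (2 ^ l), ∑ z ∈ range (m + 1), h j z :=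
    prod_nonneg fun j _ => sum_nonneg fun z _ => hh j z
  set A : ℝ := ∑ x ∈ range (m + 1), f x with hA
  set B : ℝ := ∑ y ∈ range (m + 1), g y with hB
  have hA0 : 0 ≤ A := sum_nonneg fun x _ => hf x
  have hB0 : 0 ≤ B := sum_nonneg fun x _ => hg x
  -- the case `l = 0`
  rcases Nat.eq_zero_or_pos l with hl | hl
  · subst hl
    simp only [pow_zero, Nat.sub_self, one_mul, range_one, prod_singleton]
    refine sum_le_sum fun y hy => ?_
    have := H 0 (Nat.zero_le _) y (Nat.lt_succ_iff.1 (mem_range.1 hy))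
    simpa [TT] using this
  have hK : 2 ^ l - 1 ≠ 0 := by
    have : 2 ≤ 2 ^ l := by
      calc 2 = 2 ^ 1 := by norm_num
        _ ≤ 2 ^ l := Nat.pow_le_pow_right (by norm_num) hl
    omega
  rcases eq_or_lt_of_le hA0 with hAz | hApos
  · rw [← hAz, zero_pow hK, zero_mul]
    exact hR
  rcases eq_or_lt_of_le hB0 with hBz | hBpos
  · rw [← hBz, mul_zero]
    exact hR
  obtain ⟨n, X, Y, q, hX, hY, hXm, hYm, hq, hXf, hYg⟩ := nw m (fun x => f x / A) (fun y => g y / B)
    (fun x => div_nonneg (hf x) hA0) (fun y => div_nonneg (hg y) hB0)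
    (by rw [← sum_div, ← hA, div_self hApos.ne']) (by rw [← sum_div, ← hB, div_self hBpos.ne'])
  have hq1 : ∑ i ∈ range n, q i = 1 := by
    have h1 := fib48 m n X hXm q fun _ => 1
    simp only [mul_one] at h1
    rw [h1]
    calc ∑ v ∈ range (m + 1), ∑ i ∈ (range n).filter (fun i => X i = v), q i
        = ∑ v ∈ range (m + 1), f v / A :=
          sum_congr rfl fun v hv => hXf v (Nat.lt_succ_iff.1 (mem_range.1 hv))
      _ = 1 := by rw [← sum_div, ← hA, div_self hApos.ne']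
  have hfpos : ∀ i < n, 0 < q i → 0 < f (X i) := by
    intro i hi hqi
    have h1 : q i ≤ f (X i) / A := by
      rw [← hXf (X i) (hXm i)]
      exact single_le_sum (f := q) (fun k _ => hq k) (mem_filter.2 ⟨mem_range.2 hi, rfl⟩)
    have h2 : 0 < f (X i) / A := lt_of_lt_of_le hqi h1
    by_contra hc
    have h3 : f (X i) = 0 := le_antisymm (not_lt.1 hc) (hf _)
    rw [h3, zero_div] at h2
    exact lt_irrefl _ h2
  have hgpos : ∀ i < n, 0 < q i → 0 < g (Y i) := by
    intro i hi hqi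
    have h1 : q i ≤ g (Y i) / B := by
      rw [← hYg (Y i) (hYm i)]
      exact single_le_sum (f := q) (fun k _ => hq k) (mem_filter.2 ⟨mem_range.2 hi, rfl⟩)
    have h2 : 0 < g (Y i) / B := lt_of_lt_of_le hqi h1
    by_contra hc
    have h3 : g (Y i) = 0 := le_antisymm (not_lt.1 hc) (hg _)
    rw [h3, zero_div] at h2
    exact lt_irrefl _ h2
  have hprod : ∀ i < n, 0 < q i → 0 < f (X i) ^ (2 ^ l - 1) * g (Y i) := fun i hi hqi =>
    mul_pos (pow_pos (hfpos i hi hqi) _) (hgpos i hi hqi)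
  have hhpos : ∀ j ∈ range (2 ^ l), ∀ i < n, 0 < q i → 0 < h j (TT l j (X i) (Y i)) := by
    intro j hj i hi hqi
    have h1 := lt_of_lt_of_le (hprod i hi hqi) (H (X i) (hXm i) (Y i) (hYm i))
    have h2 : h j (TT l j (X i) (Y i)) ≠ 0 := fun h0 => by
      rw [prod_eq_zero hj h0] at h1
      exact lt_irrefl _ h1
    exact lt_of_le_of_ne (hh _ _) (Ne.symm h2)
  -- Gibbs for every `j`
  have hG : ∀ j ∈ range (2 ^ l),
      (∑ i ∈ range n, q i * Real.log (h j (TT l j (X i) (Y i)))) +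
        En m n (fun i => TT l j (X i) (Y i)) q ≤ Real.log (∑ z ∈ range (m + 1), h j z) := by
    intro j hj
    exact gibbs48 m n (fun i => TT l j (X i) (Y i))
      (fun i => TT_le l j (hXm i) (hYm i) (mem_range.1 hj)) q hq hq1 (h j) (hh j)
      (fun i hi hqi => hhpos j hj i hi hqi)
  have hGs := sum_le_sum hG
  rw [sum_add_distrib] at hGs
  have hE := TT_ent m n l X Y hX hY hXm hYm q hq
  -- exchange the sums
  have hex : ∑ j ∈ range (2 ^ l), ∑ i ∈ range n, q i * Real.log (h j (TT l j (X i) (Y i))) =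
      ∑ i ∈ range n, q i * ∑ j ∈ range (2 ^ l), Real.log (h j (TT l j (X i) (Y i))) := by
    rw [sum_comm]
    exact sum_congr rfl fun i _ => by rw [mul_sum]
  have hlow : ∑ i ∈ range n, (((2 ^ l - 1 : ℕ) : ℝ) * (q i * Real.log (f (X i))) +
      q i * Real.log (g (Y i))) ≤
      ∑ i ∈ range n, q i * ∑ j ∈ range (2 ^ l), Real.log (h j (TT l j (X i) (Y i))) := by
    refine sum_le_sum fun i hi => ?_
    have hi' := mem_range.1 hi
    rcases eq_or_lt_of_le (hq i) with h0 | h0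
    · rw [← h0]
      simp
    · have h1 := H (X i) (hXm i) (Y i) (hYm i)
      have h2 := Real.log_le_log (hprod i hi' h0) h1
      rw [Real.log_mul (pow_pos (hfpos i hi' h0) _).ne' (hgpos i hi' h0).ne', Real.log_pow,
        Real.log_prod (fun j hj => (hhpos j hj i hi' h0).ne')] at h2
      have h3 := mul_le_mul_of_nonneg_left h2 h0.le
      calc ((2 ^ l - 1 : ℕ) : ℝ) * (q i * Real.log (f (X i))) + q i * Real.log (g (Y i))
          = q i * (((2 ^ l - 1 : ℕ) : ℝ) * Real.log (f (X i)) + Real.log (g (Y i))) := by ring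
        _ ≤ _ := h3
  rw [sum_add_distrib, ← mul_sum] at hlow
  have hMf := marg48 m n X hXm q f hf hApos hA.symm hXf
  have hMg := marg48 m n Y hYm q g hg hBpos hB.symm hYg
  have hfin : ((2 ^ l - 1 : ℕ) : ℝ) * Real.log A + Real.log B ≤
      ∑ j ∈ range (2 ^ l), Real.log (∑ z ∈ range (m + 1), h j z) := by
    rw [hex] at hGs
    rw [← hMf, ← hMg]
    have e : ((2 ^ l - 1 : ℕ) : ℝ) * ((∑ i ∈ range n, q i * Real.log (f (X i))) + En m n X q) +
        ((∑ i ∈ range n, q i * Real.log (g (Y i))) + En m n Y q) =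
        (((2 ^ l - 1 : ℕ) : ℝ) * ∑ i ∈ range n, q i * Real.log (f (X i)) +
          ∑ i ∈ range n, q i * Real.log (g (Y i))) +
        (((2 ^ l - 1 : ℕ) : ℝ) * En m n X q + En m n Y q) := by ring
    rw [e]
    linarith
  -- an atom of positive mass
  obtain ⟨i0, hi0, hqi0⟩ : ∃ i < n, 0 < q i := by
    by_contra hcon
    push Not at hcon
    have : ∑ i ∈ range n, q i ≤ 0 := sum_nonpos fun i hi => hcon i (mem_range.1 hi)
    linarith
  have hSj : ∀ j ∈ range (2 ^ l), 0 < ∑ z ∈ range (m + 1), h j z := by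
    intro j hj
    have h1 := hhpos j hj i0 hi0 hqi0
    have h2 : h j (TT l j (X i0) (Y i0)) ≤ ∑ z ∈ range (m + 1), h j z :=
      single_le_sum (f := h j) (fun v _ => hh j v)
        (mem_range.2 (Nat.lt_succ_of_le (TT_le l j (hXm i0) (hYm i0) (mem_range.1 hj))))
    linarith
  rw [← Real.log_prod (fun j hj => (hSj j hj).ne'), ← Real.log_pow,
    ← Real.log_mul (pow_pos hApos _).ne' hBpos.ne'] at hfin
  exact (Real.log_le_log_iff (mul_pos (pow_pos hApos _) hBpos) (prod_pos hSj)).1 hfin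

end Pool.IS45
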