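import Pool.Agent.IS45.Iter

set_option autoImplicit false

/-!
# IS45/OneS74: north-west corner coupling
-/

namespace Pool.IS45

/-- monotone couplings of `f` on `[a, m]` and `g` on `[b, m]` -/
def Cpl74 (m a b : ℕ) (f g : ℕ → ℝ) : Prop :=
  ∃ (n : ℕ) (X Y : ℕ → ℕ) (q : ℕ → ℝ), Monotone X ∧ Monotone Y ∧ (∀ i, a ≤ X i ∧ X i ≤ m) ∧
    (∀ i, b ≤ Y i ∧ Y i ≤ m) ∧ (∀ i, 0 ≤ q i) ∧
    (∀ v, a ≤ v → v ≤ m → ∑ i ∈ Finset.range n, (if X i = v then q i else 0) = f v) ∧
    ∀ v, b ≤ v → v ≤ m → ∑ i ∈ Finset.range n, (if Y i = v then q i else 0) = g v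

theorem Cpl74.symm {m a b : ℕ} {f g : ℕ → ℝ} (h : Cpl74 m a b f g) : Cpl74 m b a g f := by
  obtain ⟨n, X, Y, q, h1, h2, h3, h4, h5, h6, h7⟩ := h
  exact ⟨n, Y, X, q, h2, h1, h4, h3, h5, h7, h6⟩

/-- put a value in front -/
def pre74 {α : Type} (a : α) (X : ℕ → α) : ℕ → α
  | 0 => a
  | i + 1 => X i

theorem pre74_mono {a : ℕ} {X : ℕ → ℕ} (hX : Monotone X) (ha : ∀ i, a ≤ X i) :
    Monotone (pre74 a X) := by
  refine monotone_nat_of_le_succ fun i => ?_
  cases i with
  | zero => exact ha 0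
  | succ i => exact hX (Nat.le_succ i)

theorem pre74_sum (n : ℕ) (a v : ℕ) (X : ℕ → ℕ) (q0 : ℝ) (q : ℕ → ℝ) :
    ∑ i ∈ Finset.range (n + 1), (if pre74 a X i = v then pre74 q0 q i else 0) =
      (if a = v then q0 else 0) + ∑ i ∈ Finset.range n, (if X i = v then q i else 0) := by
  rw [Finset.sum_range_succ', add_comm]
  rfl

theorem Cpl74.step {m a b : ℕ} {f g : ℕ → ℝ} (ha : a < m) (hb : b ≤ m) (hfa : 0 ≤ f a)
    (h : Cpl74 m (a + 1) b f (Function.update g b (g b - f a))) : Cpl74 m a b f g := by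
  obtain ⟨n, X, Y, q, h1, h2, h3, h4, h5, h6, h7⟩ := h
  refine ⟨n + 1, pre74 a X, pre74 b Y, pre74 (f a) q, pre74_mono h1 fun i => ?_,
    pre74_mono h2 fun i => (h4 i).1, ?_, ?_, ?_, ?_, ?_⟩
  · have := (h3 i).1
    omega
  · intro i
    cases i with
    | zero => exact ⟨le_rfl, ha.le⟩
    | succ i =>
      have := h3 i
      exact ⟨by change a ≤ X i; omega, this.2⟩
  · intro i
    cases i with
    | zero => exact ⟨le_rfl, hb⟩
    | succ i => exact h4 i
  · intro i
    cases i with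
    | zero => exact hfa
    | succ i => exact h5 i
  · intro v hv hvm
    rw [pre74_sum]
    rcases Nat.eq_or_lt_of_le hv with rfl | hlt
    · rw [if_pos rfl, Finset.sum_eq_zero, add_zero]
      intro i _
      have := (h3 i).1
      rw [if_neg (by omega)]
    · rw [if_neg (by omega), zero_add]
      exact h6 v hlt hvm
  · intro v hv hvm
    rw [pre74_sum, h7 v hv hvm]
    by_cases hbv : b = v
    · subst hbv
      rw [if_pos rfl, Function.update_self]
      ring
    · rw [if_neg hbv, zero_add, Function.update_of_ne (Ne.symm hbv)]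

theorem icc74 {a m : ℕ} (ha : a ≤ m) (f : ℕ → ℝ) :
    ∑ x ∈ Finset.Icc a m, f x = f a + ∑ x ∈ Finset.Icc (a + 1) m, f x := by
  have h : Finset.Icc a m = insert a (Finset.Icc (a + 1) m) := by
    ext x
    simp only [Finset.mem_insert, Finset.mem_Icc]
    omega
  rw [h, Finset.sum_insert (by simp)]

theorem cpl74 (m : ℕ) : ∀ (s a b : ℕ) (f g : ℕ → ℝ), (m - a) + (m - b) = s → a ≤ m → b ≤ m →
    (∀ x, 0 ≤ f x) → (∀ x, 0 ≤ g x) →
    ∑ x ∈ Finset.Icc a m, f x = ∑ x ∈ Finset.Icc b m, g x → Cpl74 m a b f g := by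
  intro s
  induction s using Nat.strong_induction_on with
  | _ s ih =>
  -- one half of the step
  have half : ∀ (a b : ℕ) (f g : ℕ → ℝ), (m - a) + (m - b) = s → a ≤ m → b ≤ m →
      (∀ x, 0 ≤ f x) → (∀ x, 0 ≤ g x) →
      ∑ x ∈ Finset.Icc a m, f x = ∑ x ∈ Finset.Icc b m, g x → f a ≤ g b → Cpl74 m a b f g := by
    intro a b f g hs ha hb hf hg hsum hab
    have hgs := icc74 hb g
    have hfs := icc74 ha f
    rcases Nat.eq_or_lt_of_le ha with rfl | hlt
    · -- last column
      have h0 : ∑ x ∈ Finset.Icc (a + 1) a, f x = 0 := by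
        rw [Finset.Icc_eq_empty (by omega), Finset.sum_empty]
      rw [hfs, hgs, h0, add_zero] at hsum
      have h1 : 0 ≤ ∑ x ∈ Finset.Icc (b + 1) a, g x := Finset.sum_nonneg fun x _ => hg x
      have h2 : ∑ x ∈ Finset.Icc (b + 1) a, g x = 0 := by linarith
      have h3 : f a = g b := by linarith
      have h4 := (Finset.sum_eq_zero_iff_of_nonneg (fun x _ => hg x)).1 h2
      refine ⟨1, fun _ => a, fun _ => b, fun _ => f a, monotone_const, monotone_const,
        fun _ => ⟨le_rfl, le_rfl⟩, fun _ => ⟨le_rfl, hb⟩, fun _ => hf a, ?_, ?_⟩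
      · intro v hv hvm
        have : a = v := le_antisymm hv hvm
        subst this
        simp
      · intro v hv hvm
        rw [Finset.sum_range_one]
        by_cases hbv : b = v
        · subst hbv
          rw [if_pos rfl, h3]
        · rw [if_neg hbv, h4 v (Finset.mem_Icc.2 ⟨by omega, hvm⟩)]
    · apply Cpl74.step hlt hb (hf a)
      refine ih ((m - (a + 1)) + (m - b)) (by omega) (a + 1) b f _ rfl hlt hb hf ?_ ?_
      · intro x
        by_cases hx : x = b
        · subst hx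
          rw [Function.update_self]
          linarith
        · rw [Function.update_of_ne hx]
          exact hg x
      · have h5 : ∑ x ∈ Finset.Icc b m, Function.update g b (g b - f a) x =
            (g b - f a) + ∑ x ∈ Finset.Icc (b + 1) m, g x := by
          rw [icc74 hb, Function.update_self]
          congr 1
          refine Finset.sum_congr rfl fun x hx => ?_
          rw [Function.update_of_ne]
          have := (Finset.mem_Icc.1 hx).1
          omega
        rw [h5]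
        linarith
  intro a b f g hs ha hb hf hg hsum
  rcases le_total (f a) (g b) with h | h
  · exact half a b f g hs ha hb hf hg hsum h
  · exact (half b a g f (by omega) hb ha hg hf hsum.symm h).symm

theorem nw74 (m : ℕ) (f g : ℕ → ℝ) (hf : ∀ x, 0 ≤ f x) (hg : ∀ x, 0 ≤ g x)
    (hf1 : ∑ x ∈ Finset.range (m + 1), f x = 1) (hg1 : ∑ x ∈ Finset.range (m + 1), g x = 1) :
    ∃ (n : ℕ) (X Y : ℕ → ℕ) (q : ℕ → ℝ), Monotone X ∧ Monotone Y ∧ (∀ i, X i ≤ m) ∧
      (∀ i, Y i ≤ m) ∧ (∀ i, 0 ≤ q i) ∧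
      (∀ v ≤ m, ∑ i ∈ (Finset.range n).filter (fun i => X i = v), q i = f v) ∧
      ∀ v ≤ m, ∑ i ∈ (Finset.range n).filter (fun i => Y i = v), q i = g v := by
  have hr : Finset.Icc 0 m = Finset.range (m + 1) := by
    ext x
    rw [Finset.mem_Icc, Finset.mem_range]
    omega
  obtain ⟨n, X, Y, q, h1, h2, h3, h4, h5, h6, h7⟩ :=
    cpl74 m _ 0 0 f g rfl (Nat.zero_le _) (Nat.zero_le _) hf hg (by rw [hr, hf1, hg1])
  refine ⟨n, X, Y, q, h1, h2, fun i => (h3 i).2, fun i => (h4 i).2, h5, ?_, ?_⟩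
  · intro v hv
    rw [Finset.sum_filter]
    exact h6 v (Nat.zero_le _) hv
  · intro v hv
    rw [Finset.sum_filter]
    exact h7 v (Nat.zero_le _) hv

end Pool.IS45
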