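import Pool.Agent.IS45.Iter
import Pool.Agent.IS45.OneS74
import Pool.Agent.IS45.OneS48

set_option autoImplicit false

/-!
# IS45/One (STUB): dimension one

`nw`: NORTH-WEST CORNER COUPLING. PROOF. Recursion on the two lists `f 0, …, f m` and `g 0, …, g m` with equal sums: if
`f x ≤ g y` (rest masses) use the atom `(x, y, f x)` and go to `x + 1` with `g y - f x`, else the atom `(x, y, g y)` and go
to `y + 1`. `2 m + 2` atoms suffice. (Or: cumulative sums, overlap of intervals.)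

`gibbs1`: `∑ h ≥ exp (∑ q log h + E)`: concavity of `log` (`Real.add_pow_le_pow_mul_pow_of_add_eq_one` /
`Real.geom_mean_le_arith_mean_weighted`, or `log x ≤ x - 1`): with `Q v` = mass of `V = v`, `∑ Q = 1`:
`∑_v Q v (log (h v) - log (Q v)) ≤ log ∑ h` (sum over `Q v > 0`).

`one_dim`: if one of the sums is `0` the left side is `0` (for `l = 0` the first factor is `1`; then `∑ g = 0` or the claim is
`∑ g ≤ ∑ h 0`). Else couple `f/∑ f` and `g/∑ g` by `nw`, `gibbs1` for every `h j` with `V = TT l j X Y`, add, use `H` at the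
atoms of positive mass, `TT_ent`, and `∑_i q_i log f (X i) = log ∑ f - E X` (the same for `g`).
-/

namespace Pool.IS45

theorem nw (m : ℕ) (f g : ℕ → ℝ) (hf : ∀ x, 0 ≤ f x) (hg : ∀ x, 0 ≤ g x)
    (hf1 : ∑ x ∈ Finset.range (m + 1), f x = 1) (hg1 : ∑ x ∈ Finset.range (m + 1), g x = 1) :
    ∃ (n : ℕ) (X Y : ℕ → ℕ) (q : ℕ → ℝ), Monotone X ∧ Monotone Y ∧ (∀ i, X i ≤ m) ∧
      (∀ i, Y i ≤ m) ∧ (∀ i, 0 ≤ q i) ∧
      (∀ v ≤ m, ∑ i ∈ (Finset.range n).filter (fun i => X i = v), q i = f v) ∧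
      ∀ v ≤ m, ∑ i ∈ (Finset.range n).filter (fun i => Y i = v), q i = g v :=
  nw74 m f g hf hg hf1 hg1

theorem gibbs1 (m n : ℕ) (V : ℕ → ℕ) (hV : ∀ i, V i ≤ m) (q : ℕ → ℝ) (hq : ∀ i, 0 ≤ q i)
    (hq1 : ∑ i ∈ Finset.range n, q i = 1) (h : ℕ → ℝ) (hh : ∀ v, 0 ≤ h v)
    (hpos : ∀ i < n, 0 < q i → 0 < h (V i)) :
    (∑ i ∈ Finset.range n, q i * Real.log (h (V i))) + En m n V q ≤
      Real.log (∑ v ∈ Finset.range (m + 1), h v) :=
  gibbs48 m n V hV q hq hq1 h hh hpos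

theorem one_dim (m l : ℕ) (f g : ℕ → ℝ) (h : ℕ → ℕ → ℝ) (hf : ∀ x, 0 ≤ f x) (hg : ∀ x, 0 ≤ g x)
    (hh : ∀ j z, 0 ≤ h j z)
    (H : ∀ x ≤ m, ∀ y ≤ m, f x ^ (2 ^ l - 1) * g y ≤
      ∏ j ∈ Finset.range (2 ^ l), h j (TT l j x y)) :
    (∑ x ∈ Finset.range (m + 1), f x) ^ (2 ^ l - 1) * ∑ y ∈ Finset.range (m + 1), g y ≤
      ∏ j ∈ Finset.range (2 ^ l), ∑ z ∈ Finset.range (m + 1), h j z :=
  one_dim48 nw m l f g h hf hg hh H

end Pool.IS45
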