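import Pool.Agent.IS45.Defs

set_option autoImplicit false

/-!
# IS45/PigS58: one of the levels carries the `n`-th part
-/

namespace Pool.IS45

open Pool.HB45

theorem s58_des_le {N : ℕ} (om : Fin (N + 1) → ℕ) (g : Equiv.Perm (Fin (N + 1))) :
    des om g ≤ N := by
  unfold des
  refine (Finset.card_le_univ _).trans ?_
  simp

theorem pigeon58 {N : ℕ} (hN : 50 ≤ N) (Q : Rel (N + 1)) (om : Fin (N + 1) → ℕ) (r lo : ℝ)
    (hr0 : 0 < r) (j : ℕ) (hne : (LE Q).Nonempty)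
    (h : WR Q om r / (50 * ((N : ℝ) + 1) ^ 2) ≤
      ∑ g ∈ (LE Q).filter (fun g => lo ≤ des om g ∧ des om g ≤ j), r ^ des om g) :
    ∃ i : ℕ, lo ≤ i ∧ i ≤ j ∧ WR Q om r / ((N : ℝ) + 1) ^ 4 ≤
      ∑ g ∈ (LE Q).filter (fun g => des om g = i), r ^ des om g := by
  classical
  by_contra hcon
  push Not at hcon
  have hN' : (50 : ℝ) ≤ N := by exact_mod_cast hN
  have hW : 0 < WR Q om r := by
    unfold WR
    exact Finset.sum_pos (fun g _ => pow_pos hr0 _) hne
  obtain ⟨I, hI⟩ : ∃ I : Finset ℕ, I = (Finset.range (N + 1)).filter (fun i : ℕ => lo ≤ (i : ℝ) ∧ i ≤ j) :=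
    ⟨_, rfl⟩
  have h1 : ∑ g ∈ (LE Q).filter (fun g => lo ≤ des om g ∧ des om g ≤ j), r ^ des om g =
      ∑ i ∈ I, ∑ g ∈ (LE Q).filter (fun g => des om g = i), r ^ des om g := by
    rw [← Finset.sum_fiberwise_of_maps_to (t := I) (g := fun g => des om g)]
    · refine Finset.sum_congr rfl fun i hi => ?_
      rw [Finset.filter_filter]
      refine Finset.sum_congr ?_ fun g _ => rfl
      ext g
      rw [hI, Finset.mem_filter] at hi
      simp only [Finset.mem_filter]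
      constructor
      · rintro ⟨a, b, c⟩
        exact ⟨a, c⟩
      · rintro ⟨a, c⟩
        refine ⟨a, ?_, c⟩
        rw [c]
        exact hi.2
    · intro g hg
      rw [Finset.mem_filter] at hg
      rw [hI, Finset.mem_filter]
      exact ⟨Finset.mem_range.2 (Nat.lt_succ_of_le (s58_des_le om g)), hg.2⟩
  have h2 : ∑ i ∈ I, ∑ g ∈ (LE Q).filter (fun g => des om g = i), r ^ des om g ≤
      ∑ i ∈ I, WR Q om r / ((N : ℝ) + 1) ^ 4 := by
    refine Finset.sum_le_sum fun i hi => ?_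
    rw [hI, Finset.mem_filter] at hi
    exact (hcon i hi.2.1 hi.2.2).le
  rw [Finset.sum_const, nsmul_eq_mul] at h2
  have h3 : (I.card : ℝ) ≤ (N : ℝ) + 1 := by
    have : I.card ≤ N + 1 := by
      rw [hI]
      refine (Finset.card_filter_le _ _).trans ?_
      rw [Finset.card_range]
    exact_mod_cast this
  have h4 : (I.card : ℝ) * (WR Q om r / ((N : ℝ) + 1) ^ 4) ≤
      ((N : ℝ) + 1) * (WR Q om r / ((N : ℝ) + 1) ^ 4) :=
    mul_le_mul_of_nonneg_right h3 (by positivity)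
  have h5 : ((N : ℝ) + 1) * (WR Q om r / ((N : ℝ) + 1) ^ 4) = WR Q om r / ((N : ℝ) + 1) ^ 3 := by
    field_simp
  have h6 : WR Q om r / ((N : ℝ) + 1) ^ 3 < WR Q om r / (50 * ((N : ℝ) + 1) ^ 2) := by
    refine div_lt_div_of_pos_left hW (by positivity) ?_
    nlinarith [sq_nonneg ((N : ℝ) + 1), pow_pos (show (0 : ℝ) < (N : ℝ) + 1 by linarith) 2]
  linarith

end Pool.IS45

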