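import Mathlib

set_option autoImplicit false

/-!
# IS45/PigeonS29: one of the levels carries the `n`-th part (abstract form of `pigeon`)
-/

namespace Pool.IS45

open Classical in
theorem pigeon_S29 {T : Type} (L : Finset T) (f : T → ℕ) (w : T → ℝ) (hw : ∀ g ∈ L, 0 < w g)
    {N : ℕ} (hN : 50 ≤ N) (hf : ∀ g ∈ L, f g ≤ N) (hne : L.Nonempty) (W lo : ℝ)
    (hW : W = ∑ g ∈ L, w g) (j : ℕ)
    (h : W / (50 * ((N : ℝ) + 1) ^ 2) ≤ ∑ g ∈ L.filter (fun g => lo ≤ f g ∧ f g ≤ j), w g) :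
    ∃ i : ℕ, lo ≤ i ∧ i ≤ j ∧ W / ((N : ℝ) + 1) ^ 4 ≤ ∑ g ∈ L.filter (fun g => f g = i), w g := by
  have hN' : (50 : ℝ) ≤ N := by exact_mod_cast hN
  have hWpos : 0 < W := by
    rw [hW]
    exact Finset.sum_pos hw hne
  by_contra hcon
  push Not at hcon
  have hsum : ∑ g ∈ L.filter (fun g => lo ≤ f g ∧ f g ≤ j), w g =
      ∑ i ∈ (Finset.range (N + 1)).filter (fun i : ℕ => lo ≤ i ∧ i ≤ j),
        ∑ g ∈ L.filter (fun g => f g = i), w g := by
    have h1 : ∀ g ∈ L.filter (fun g => lo ≤ f g ∧ f g ≤ j),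
        f g ∈ (Finset.range (N + 1)).filter (fun i : ℕ => lo ≤ i ∧ i ≤ j) := by
      intro g hg
      obtain ⟨hgL, hg1⟩ := Finset.mem_filter.1 hg
      exact Finset.mem_filter.2 ⟨Finset.mem_range.2 (Nat.lt_succ_of_le (hf g hgL)), hg1⟩
    rw [← Finset.sum_fiberwise_of_maps_to h1]
    refine Finset.sum_congr rfl fun i hi => ?_
    refine Finset.sum_congr ?_ fun _ _ => rfl
    ext g
    rw [Finset.mem_filter, Finset.mem_filter, Finset.mem_filter]
    constructor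
    · rintro ⟨⟨h2, -⟩, h3⟩
      exact ⟨h2, h3⟩
    · rintro ⟨h2, h3⟩
      exact ⟨⟨h2, h3 ▸ (Finset.mem_filter.1 hi).2⟩, h3⟩
  have hle : ∑ i ∈ (Finset.range (N + 1)).filter (fun i : ℕ => lo ≤ i ∧ i ≤ j),
      ∑ g ∈ L.filter (fun g => f g = i), w g ≤ ((N : ℝ) + 1) * (W / ((N : ℝ) + 1) ^ 4) := by
    calc ∑ i ∈ (Finset.range (N + 1)).filter (fun i : ℕ => lo ≤ i ∧ i ≤ j),
        ∑ g ∈ L.filter (fun g => f g = i), w g
        ≤ ∑ _i ∈ (Finset.range (N + 1)).filter (fun i : ℕ => lo ≤ i ∧ i ≤ j),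
          W / ((N : ℝ) + 1) ^ 4 := by
          refine Finset.sum_le_sum fun i hi => ?_
          obtain ⟨h2, h3⟩ := (Finset.mem_filter.1 hi).2
          exact (hcon i h2 h3).le
      _ ≤ ∑ _i ∈ Finset.range (N + 1), W / ((N : ℝ) + 1) ^ 4 :=
          Finset.sum_le_sum_of_subset_of_nonneg (Finset.filter_subset _ _)
            fun _ _ _ => by positivity
      _ = ((N : ℝ) + 1) * (W / ((N : ℝ) + 1) ^ 4) := by
          rw [Finset.sum_const, Finset.card_range, nsmul_eq_mul]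
          push_cast
          ring
  rw [hsum] at h
  have hlt : ((N : ℝ) + 1) * (W / ((N : ℝ) + 1) ^ 4) < W / (50 * ((N : ℝ) + 1) ^ 2) := by
    have h4 : ((N : ℝ) + 1) * (W / ((N : ℝ) + 1) ^ 4) = W / ((N : ℝ) + 1) ^ 3 := by
      field_simp
    rw [h4]
    apply div_lt_div_of_pos_left hWpos (by positivity)
    have h5 : ((N : ℝ) + 1) ^ 3 = ((N : ℝ) + 1) * ((N : ℝ) + 1) ^ 2 := by ring
    rw [h5]
    exact mul_lt_mul_of_pos_right (by linarith) (by positivity)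
  linarith

end Pool.IS45
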