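import Pool.Agent.TA63.Low14
import Pool.Agent.NL25.Stein
import Pool.Agent.IS45.Defs

set_option autoImplicit false

/-!
# IS45/StabS63: `GG_sub` and `stab` (with `card_del` as a hypothesis)
-/

namespace Pool.IS45.StabS63

open Pool.HB45

theorem GG_sub {N : ℕ} {Q Q' : Rel (N + 1)} {lab : Fin (N + 1) → ℕ} (hn : Nat' Q lab)
    (hn' : Nat' Q' lab) (hsub : LE Q ⊆ LE Q') (C t : ℝ)
    (hC : ((LE Q').card : ℝ) ≤ C * (LE Q).card) (ht0 : 0 < t) (ht1 : t ≤ 1 / 96) :
    |NL25.GG Q - NL25.GG Q'| ≤ 2 / t * (Real.log C + 14 * t ^ 2 * N) := by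
  have hc := NL25.card_pos hn
  have hc' := NL25.card_pos hn'
  have hC0 : 0 < C := by
    by_contra h
    have h1 : C * (LE Q).card ≤ 0 := mul_nonpos_of_nonpos_of_nonneg (not_lt.1 h) hc.le
    linarith
  have key : ∀ u : ℝ, |u| ≤ 1 / 96 →
      u * (NL25.GG Q - NL25.GG Q') / 2 ≤ Real.log C + 14 * u ^ 2 * N := by
    intro u hu
    have h1 := NL25.jensen hn u
    have h2 : NL25.MG Q lab u ≤ NL25.MG Q' lab u := by
      unfold NL25.MG
      exact Finset.sum_le_sum_of_subset_of_nonneg hsub fun g _ _ => (Real.exp_pos _).le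
    have h3 := TA63.logMG14 hn' u hu
    have h4 : ((LE Q).card : ℝ) * Real.exp (u * NL25.GG Q / 2) ≤
        (LE Q).card * (C * Real.exp (u * NL25.GG Q' / 2 + 14 * u ^ 2 * N)) := by
      calc ((LE Q).card : ℝ) * Real.exp (u * NL25.GG Q / 2)
          ≤ (LE Q').card * Real.exp (u * NL25.GG Q' / 2 + 14 * u ^ 2 * N) :=
            (h1.trans h2).trans h3
        _ ≤ (C * (LE Q).card) * Real.exp (u * NL25.GG Q' / 2 + 14 * u ^ 2 * N) :=
            mul_le_mul_of_nonneg_right hC (Real.exp_pos _).le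
        _ = _ := by ring
    have h5 := le_of_mul_le_mul_left h4 hc
    have h6 := Real.log_le_log (Real.exp_pos _) h5
    rw [Real.log_mul hC0.ne' (Real.exp_pos _).ne', Real.log_exp, Real.log_exp] at h6
    linarith
  have h1 := key t (by rw [abs_of_pos ht0]; exact ht1)
  have h2 := key (-t) (by rw [abs_neg, abs_of_pos ht0]; exact ht1)
  have e : 2 / t * (Real.log C + 14 * t ^ 2 * N) = (Real.log C + 14 * t ^ 2 * N) * 2 / t := by
    ring
  rw [e, le_div_iff₀ ht0, ← abs_of_pos ht0, ← abs_mul, abs_of_pos ht0, abs_le]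
  constructor
  · have : (-t) ^ 2 = t ^ 2 := by ring
    rw [this] at h2
    nlinarith
  · nlinarith

/-- `Q` without the relations of `a` -/
def del {n : ℕ} (Q : Rel n) (a : Fin n) : Rel n := fun i j => Q i j ∧ i ≠ a ∧ j ≠ a

theorem nat_del {n : ℕ} {Q : Rel n} {lab : Fin n → ℕ} (hn : Nat' Q lab) (a : Fin n) :
    Nat' (del Q a) lab := ⟨hn.inj, fun i j h => hn.mono i j h.1⟩

theorem tr_del {n : ℕ} {Q : Rel n} (ht : ∀ a b c, Q a b → Q b c → Q a c) (x : Fin n) :
    ∀ a b c, del Q x a b → del Q x b c → del Q x a c :=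
  fun a b c h1 h2 => ⟨ht a b c h1.1 h2.1, h1.2.1, h2.2.2⟩

theorem LE_del {n : ℕ} (Q : Rel n) (a : Fin n) : LE Q ⊆ LE (del Q a) := by
  intro g hg
  rw [mem_LE] at hg ⊢
  exact fun i j h => hg i j h.1

/-- one side: `Q` against `Q` without the relations of `a` and `b` -/
theorem one_side (hcd : ∀ {n : ℕ} {Q : Rel n} {lab : Fin n → ℕ}, Nat' Q lab →
      (∀ a b c, Q a b → Q b c → Q a c) → ∀ a : Fin n, (LE (del Q a)).card ≤ n * (LE Q).card)
    {B : ℕ} {Q : Rel (B + 1)} {lab : Fin (B + 1) → ℕ} (hn : Nat' Q lab)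
    (htr : ∀ a b c, Q a b → Q b c → Q a c) (a b : Fin (B + 1)) (t : ℝ) (ht0 : 0 < t)
    (ht1 : t ≤ 1 / 96) :
    |NL25.GG Q - NL25.GG (del (del Q a) b)| ≤
      2 / t * (2 * Real.log (B + 1) + 14 * t ^ 2 * B) := by
  have h1 := hcd hn htr a
  have h2 := hcd (nat_del hn a) (tr_del htr a) b
  have h3 : ((LE (del (del Q a) b)).card : ℝ) ≤ ((B : ℝ) + 1) ^ 2 * (LE Q).card := by
    have h4 : (LE (del (del Q a) b)).card ≤ (B + 1) * ((B + 1) * (LE Q).card) :=
      h2.trans (Nat.mul_le_mul_left _ h1)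
    have h5 : ((LE (del (del Q a) b)).card : ℝ) ≤ (((B + 1) * ((B + 1) * (LE Q).card) : ℕ) : ℝ) := by
      exact_mod_cast h4
    push_cast at h5
    calc ((LE (del (del Q a) b)).card : ℝ) ≤ _ := h5
      _ = _ := by ring
  have h6 := GG_sub hn (nat_del (nat_del hn a) b) ((LE_del Q a).trans (LE_del _ b)) _ t h3 ht0 ht1
  rw [Real.log_pow] at h6
  push_cast at h6
  exact h6

theorem stab (hcd : ∀ {n : ℕ} {Q : Rel n} {lab : Fin n → ℕ}, Nat' Q lab →
      (∀ a b c, Q a b → Q b c → Q a c) → ∀ a : Fin n, (LE (del Q a)).card ≤ n * (LE Q).card)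
    (θ : ℝ) (hθ : 0 < θ) : ∃ B0 : ℕ, ∀ B ≥ B0, ∀ (Q1 Q2 : Rel (B + 1))
    (lab1 lab2 : Fin (B + 1) → ℕ), Nat' Q1 lab1 → Nat' Q2 lab2 →
    (∀ a b c, Q1 a b → Q1 b c → Q1 a c) → (∀ a b c, Q2 a b → Q2 b c → Q2 a c) →
    ∀ T : Finset (Fin (B + 1)), T.card ≤ 2 → (∀ i, i ∉ T → ∀ j, j ∉ T → (Q1 i j ↔ Q2 i j)) →
    |NL25.GG Q1 - NL25.GG Q2| ≤ θ * B := by
  set t : ℝ := min (1 / 96) (θ / 112) with ht
  have ht0 : 0 < t := lt_min (by norm_num) (by positivity)
  have ht1 : t ≤ 1 / 96 := min_le_left _ _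
  have ht2 : t ≤ θ / 112 := min_le_right _ _
  have hc : 0 < θ * t / 32 := by positivity
  have hlog := (Real.isLittleO_log_id_atTop.def hc).filter_mono
    (le_refl Filter.atTop)
  have hcast : Filter.Tendsto (fun B : ℕ => (B : ℝ) + 1) Filter.atTop Filter.atTop :=
    Filter.tendsto_atTop_add_const_right _ _ tendsto_natCast_atTop_atTop
  obtain ⟨B1, hB1⟩ := Filter.eventually_atTop.1 (hcast.eventually hlog)
  refine ⟨max B1 1, fun B hB Q1 Q2 lab1 lab2 hn1 hn2 tr1 tr2 T hT hag => ?_⟩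
  have hB0 : 1 ≤ B := (le_max_right _ _).trans hB
  have hB0' : (1 : ℝ) ≤ B := by exact_mod_cast hB0
  have hl := hB1 B ((le_max_left _ _).trans hB)
  have hlog0 : 0 ≤ Real.log ((B : ℝ) + 1) := Real.log_nonneg (by linarith)
  have hl' : Real.log ((B : ℝ) + 1) ≤ θ * t / 32 * (B + 1) := by
    rw [Real.norm_eq_abs, abs_of_nonneg hlog0] at hl
    simp only [id_eq, Real.norm_eq_abs] at hl
    rwa [abs_of_nonneg (by linarith : (0 : ℝ) ≤ (B : ℝ) + 1)] at hl
  obtain ⟨a, b, hab⟩ : ∃ a b : Fin (B + 1), T ⊆ {a, b} := by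
    rcases Nat.lt_or_ge T.card 1 with h | h
    · have : T = ∅ := Finset.card_eq_zero.1 (by omega)
      exact ⟨0, 0, by rw [this]; exact Finset.empty_subset _⟩
    · rcases Nat.lt_or_ge T.card 2 with h' | h'
      · obtain ⟨a, ha⟩ := Finset.card_eq_one.1 (show T.card = 1 by omega)
        exact ⟨a, a, by rw [ha]; simp⟩
      · obtain ⟨a, b, -, hab⟩ := Finset.card_eq_two.1 (show T.card = 2 by omega)
        exact ⟨a, b, by rw [hab]⟩
  have hQ : del (del Q1 a) b = del (del Q2 a) b := by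
    funext i j
    refine propext ⟨fun h => ?_, fun h => ?_⟩
    · have hi : i ∉ T := fun h' => by
        have := hab h'
        simp only [Finset.mem_insert, Finset.mem_singleton] at this
        rcases this with e | e
        · exact h.1.2.1 e
        · exact h.2.1 e
      have hj : j ∉ T := fun h' => by
        have := hab h'
        simp only [Finset.mem_insert, Finset.mem_singleton] at this
        rcases this with e | e
        · exact h.1.2.2 e
        · exact h.2.2 e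
      exact ⟨⟨(hag i hi j hj).1 h.1.1, h.1.2⟩, h.2⟩
    · have hi : i ∉ T := fun h' => by
        have := hab h'
        simp only [Finset.mem_insert, Finset.mem_singleton] at this
        rcases this with e | e
        · exact h.1.2.1 e
        · exact h.2.1 e
      have hj : j ∉ T := fun h' => by
        have := hab h'
        simp only [Finset.mem_insert, Finset.mem_singleton] at this
        rcases this with e | e
        · exact h.1.2.2 e
        · exact h.2.2 e
      exact ⟨⟨(hag i hi j hj).2 h.1.1, h.1.2⟩, h.2⟩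
  have h1 := one_side hcd hn1 tr1 a b t ht0 ht1
  have h2 := one_side hcd hn2 tr2 a b t ht0 ht1
  rw [hQ] at h1
  have h3 : |NL25.GG Q1 - NL25.GG Q2| ≤
      2 * (2 / t * (2 * Real.log (B + 1) + 14 * t ^ 2 * B)) := by
    have h4 : NL25.GG Q1 - NL25.GG Q2 = (NL25.GG Q1 - NL25.GG (del (del Q2 a) b)) -
        (NL25.GG Q2 - NL25.GG (del (del Q2 a) b)) := by ring
    rw [h4]
    refine (abs_sub _ _).trans ?_
    linarith
  refine h3.trans ?_
  have e1 : 2 * (2 / t * (2 * Real.log ((B : ℝ) + 1) + 14 * t ^ 2 * B)) =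
      8 / t * Real.log (B + 1) + 56 * t * B := by
    field_simp
    ring
  rw [e1]
  have h5 : 8 / t * Real.log ((B : ℝ) + 1) ≤ θ / 2 * B := by
    calc 8 / t * Real.log ((B : ℝ) + 1) ≤ 8 / t * (θ * t / 32 * (B + 1)) :=
          mul_le_mul_of_nonneg_left hl' (by positivity)
      _ = θ / 4 * (B + 1) := by
          field_simp
          ring
      _ ≤ θ / 2 * B := by nlinarith
  have h6 : 56 * t * B ≤ θ / 2 * B := by
    refine mul_le_mul_of_nonneg_right ?_ (by linarith)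
    linarith
  linarith

end Pool.IS45.StabS63
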