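import Pool.Agent.TA63.Low14
import Pool.Agent.NL25.Stein
import Pool.Agent.IS45.Defs
import Pool.Agent.IS45.StabS63
import Pool.Agent.IS45.DropS48

set_option autoImplicit false

/-!
# IS45/Stab (STUB): stability of `GG` under a change of two letters
-/

namespace Pool.IS45

open Pool.HB45

/-- `Q` without the relations of `a` -/
def del {n : ℕ} (Q : Rel n) (a : Fin n) : Rel n := fun i j => Q i j ∧ i ≠ a ∧ j ≠ a

/-- PROOF. CANONICAL INSERTION: for `g ∈ LE (del Q a)` move the letter `a` directly behind the last letter below `a` (to the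
front if there is none): the result is in `LE Q` (`Q` transitive: every letter below `a` is before every letter above
`a`), and `g` is recovered from it and the old position of `a` (`n` possibilities). A move is `g * c` with a cycle `c` of
a window (`Fin.cycleRange`-like), or compose adjacent transpositions. -/
theorem card_del {n : ℕ} {Q : Rel n} {lab : Fin n → ℕ} (hn : Nat' Q lab)
    (ht : ∀ a b c, Q a b → Q b c → Q a c) (a : Fin n) :
    (LE (del Q a)).card ≤ n * (LE Q).card := by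
  have h : del Q a = drop Q a := by
    funext i j
    exact propext ⟨fun h => ⟨⟨h.1, h.2.1⟩, h.2.2⟩, fun h => ⟨h.1.1, h.1.2, h.2⟩⟩
  rw [h]
  exact card_drop ht (fun x hx => lt_irrefl _ (hn.mono x x hx)) a

/-- PROOF. `X = N - 2 des` has mean `GG Q` on `LE Q` and `GG Q'` on `LE Q'` (`NL25.mean_X`); Jensen and `TA63.logMG14` for `Q'`:
`exp (t GG Q/2) ≤ (1/#LE Q) ∑_(LE Q) exp (t X/2) ≤ C exp (t GG Q'/2 + 14 t² N)` for `|t| ≤ 1/96`, both signs of `t`. -/
theorem GG_sub {N : ℕ} {Q Q' : Rel (N + 1)} {lab : Fin (N + 1) → ℕ} (hn : Nat' Q lab)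
    (hn' : Nat' Q' lab) (hsub : LE Q ⊆ LE Q') (C t : ℝ)
    (hC : ((LE Q').card : ℝ) ≤ C * (LE Q).card) (ht0 : 0 < t) (ht1 : t ≤ 1 / 96) :
    |NL25.GG Q - NL25.GG Q'| ≤ 2 / t * (Real.log C + 14 * t ^ 2 * N) :=
  StabS63.GG_sub hn hn' hsub C t hC ht0 ht1

/-- PROOF. `Q0` = `Q1` without the relations of the letters of `T` = the same for `Q2` (`card_del` twice: `C = (B+1)^2`), `GG_sub` with
`t = √(log (B+1)/(B+1))`, both natural labellings are natural for `Q0`. -/
theorem stab (θ : ℝ) (hθ : 0 < θ) : ∃ B0 : ℕ, ∀ B ≥ B0, ∀ (Q1 Q2 : Rel (B + 1))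
    (lab1 lab2 : Fin (B + 1) → ℕ), Nat' Q1 lab1 → Nat' Q2 lab2 →
    (∀ a b c, Q1 a b → Q1 b c → Q1 a c) → (∀ a b c, Q2 a b → Q2 b c → Q2 a c) →
    ∀ T : Finset (Fin (B + 1)), T.card ≤ 2 → (∀ i, i ∉ T → ∀ j, j ∉ T → (Q1 i j ↔ Q2 i j)) →
    |NL25.GG Q1 - NL25.GG Q2| ≤ θ * B :=
  StabS63.stab (fun hn ht a => card_del hn ht a) θ hθ

end Pool.IS45
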