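import Pool.Agent.IS45.Word

set_option autoImplicit false

/-!
# IS45/StepS25: one lattice step; prefix sets
-/

namespace Pool.IS45.StepS25

open Pool.HB45

variable {N B m : ℕ}

def Agree (w w' : Equiv.Perm (Fin (N + 1))) (i : ℕ) : Prop :=
  ∀ a, (w.symm a).val ≤ i ↔ (w'.symm a).val ≤ i

theorem card_pre (w : Equiv.Perm (Fin (N + 1))) {i : ℕ} (hi : i < N + 1) :
    (Finset.univ.filter (fun a => (w.symm a).val ≤ i)).card = i + 1 := by
  have h1 : Finset.univ.filter (fun a => (w.symm a).val ≤ i) =
      (Finset.Iic (⟨i, hi⟩ : Fin (N + 1))).map w.toEmbedding := by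
    ext a
    simp only [Finset.mem_filter, Finset.mem_univ, true_and, Finset.mem_map_equiv,
      Finset.mem_Iic, Fin.le_def]
  rw [h1, Finset.card_map, Fin.card_Iic]

theorem lt_of_F {n : ℕ} {om : Fin n → ℕ} (hi : Function.Injective om) {F : Fin n → ℕ} {a b : Fin n}
    (h : F a < F b) : (word om F).symm a < (word om F).symm b := by
  by_contra hcon
  have h1 := (word_strict hi F).monotone (not_lt.1 hcon)
  simp only [Equiv.apply_symm_apply] at h1
  rw [Prod.Lex.le_iff] at h1
  simp only [ofLex_toLex] at h1
  omega

theorem agree_of_not_sg {om : Fin (N + 1) → ℕ} (hi : Function.Injective om)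
    {F G : Fin (N + 1) → ℕ} (hFG : Near F G) (i : ℕ) (h : i ∉ sg om G) :
    Agree (word om F) (word om G) i := by
  intro a
  rcases Nat.lt_or_ge i N with hN | hN
  · obtain ⟨p, hp⟩ : ∃ p : Fin N, p.val = i := ⟨⟨i, hN⟩, rfl⟩
    have h1 : G (word om G p.castSucc) + 3 ≤ G (word om G p.succ) := by
      by_contra hcon
      refine h ?_
      unfold sg
      rw [Finset.mem_image]
      refine ⟨p, ?_, hp⟩
      rw [Finset.mem_filter]
      exact ⟨Finset.mem_univ p, by omega⟩
    have hS : ∀ b, ((word om G).symm b).val ≤ i → F b ≤ G (word om G p.castSucc) + 1 := by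
      intro b hb
      have h2 : (word om G).symm b ≤ p.castSucc := by
        rw [Fin.le_def, Fin.val_castSucc, hp]
        exact hb
      have h3 := word_mono om G h2
      simp only [Equiv.apply_symm_apply] at h3
      have h4 := (hFG b).1
      omega
    have hS' : ∀ b, ¬ ((word om G).symm b).val ≤ i → G (word om G p.castSucc) + 2 ≤ F b := by
      intro b hb
      have h2 : p.succ ≤ (word om G).symm b := by
        rw [Fin.le_def, Fin.val_succ, hp]
        omega
      have h3 := word_mono om G h2
      simp only [Equiv.apply_symm_apply] at h3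
      have h4 := (hFG b).2
      omega
    have hlt : ∀ b c, ((word om G).symm b).val ≤ i → ¬ ((word om G).symm c).val ≤ i →
        ((word om F).symm b).val < ((word om F).symm c).val := by
      intro b c hb hc
      have h2 := hS b hb
      have h3 := hS' c hc
      exact lt_of_F hi (by omega)
    have c1 := card_pre (word om F) (i := i) (by omega)
    have c2 := card_pre (word om G) (i := i) (by omega)
    constructor
    · intro ha
      by_contra hcon
      have hsub : insert a (Finset.univ.filter (fun b => ((word om G).symm b).val ≤ i)) ⊆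
          Finset.univ.filter (fun b => ((word om F).symm b).val ≤ i) := by
        intro b hb
        rw [Finset.mem_insert, Finset.mem_filter] at hb
        rw [Finset.mem_filter]
        refine ⟨Finset.mem_univ b, ?_⟩
        rcases hb with rfl | ⟨-, hb⟩
        · exact ha
        · have := hlt b a hb hcon
          omega
      have h2 := Finset.card_le_card hsub
      rw [Finset.card_insert_of_notMem (by
        rw [Finset.mem_filter]
        rintro ⟨-, h3⟩
        exact hcon h3), c1, c2] at h2
      omega
    · intro ha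
      by_contra hcon
      have hsub : insert a (Finset.univ.filter (fun b => ((word om F).symm b).val ≤ i)) ⊆
          Finset.univ.filter (fun b => ((word om G).symm b).val ≤ i) := by
        intro b hb
        rw [Finset.mem_insert, Finset.mem_filter] at hb
        rw [Finset.mem_filter]
        refine ⟨Finset.mem_univ b, ?_⟩
        rcases hb with rfl | ⟨-, hb⟩
        · exact ha
        · by_contra hb'
          have := hlt a b ha hb'
          omega
      have h2 := Finset.card_le_card hsub
      rw [Finset.card_insert_of_notMem (by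
        rw [Finset.mem_filter]
        rintro ⟨-, h3⟩
        exact hcon h3), c1, c2] at h2
      omega
  · have h1 := ((word om F).symm a).isLt
    have h2 := ((word om G).symm a).isLt
    constructor
    · intro _
      omega
    · intro _
      omega

theorem mem_ct (hm : m * (B + 2) ≤ N + 1) (k : Fin m) {w : Equiv.Perm (Fin (N + 1))}
    {a : Fin (N + 1)} : a ∈ ct hm k w ↔
      k.val * (B + 2) ≤ (w.symm a).val ∧ (w.symm a).val ≤ k.val * (B + 2) + B := by
  unfold ct
  rw [Finset.mem_image]
  constructor
  · rintro ⟨i, -, rfl⟩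
    rw [Equiv.symm_apply_apply]
    unfold wpos
    have := i.isLt
    simp only
    omega
  · rintro ⟨h1, h2⟩
    refine ⟨⟨(w.symm a).val - k.val * (B + 2), by omega⟩, Finset.mem_univ _, ?_⟩
    have h3 : wpos (win_le hm k) ⟨(w.symm a).val - k.val * (B + 2), by omega⟩ = w.symm a := by
      apply Fin.ext
      unfold wpos
      simp only
      omega
    rw [h3, Equiv.apply_symm_apply]

theorem ct_eq (hm : m * (B + 2) ≤ N + 1) (k : Fin m) {w w' : Equiv.Perm (Fin (N + 1))}
    (h1 : k.val = 0 ∨ Agree w w' (k.val * (B + 2) - 1)) (h2 : Agree w w' (k.val * (B + 2) + B)) :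
    ct hm k w = ct hm k w' := by
  ext a
  rw [mem_ct, mem_ct]
  have g2 := h2 a
  rcases h1 with h1 | h1
  · rw [h1] at g2 ⊢
    simp only [Nat.zero_mul, Nat.zero_le, true_and]
    simpa using g2
  · have g1 := h1 a
    rcases Nat.eq_zero_or_pos (k.val * (B + 2)) with h3 | h3
    · rw [h3] at g2 ⊢
      simp only [Nat.zero_le, true_and]
      simpa using g2
    · constructor
      · rintro ⟨h4, h5⟩
        refine ⟨?_, g2.1 h5⟩
        by_contra h6
        have := g1.2 (by omega)
        omega
      · rintro ⟨h4, h5⟩
        refine ⟨?_, g2.2 h5⟩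
        by_contra h6
        have := g1.1 (by omega)
        omega

theorem ltr_eq {om : Fin (N + 1) → ℕ} {w w' : Equiv.Perm (Fin (N + 1))} (q : ℕ) (hq : 1 ≤ q)
    (h1 : Agree w w' (q - 1)) (h2 : Agree w w' q) : ltr om w q = ltr om w' q := by
  unfold ltr
  split_ifs with h
  · have g1 := h1 (w ⟨q, h⟩)
    have g2 := h2 (w ⟨q, h⟩)
    rw [Equiv.symm_apply_apply] at g1 g2
    have g3 : (w'.symm (w ⟨q, h⟩)).val = q := by
      have g4 := g2.1 le_rfl
      by_contra g5
      have g6 : (⟨q, h⟩ : Fin (N + 1)).val ≤ q - 1 := g1.2 (by omega)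
      simp only at g6
      omega
    have g4 : w'.symm (w ⟨q, h⟩) = ⟨q, h⟩ := Fin.ext g3
    have g5 : w ⟨q, h⟩ = w' ⟨q, h⟩ := by
      rw [← g4, Equiv.apply_symm_apply, g4]
    rw [g5]
  · rfl

theorem ct_two (hm : m * (B + 2) ≤ N + 1) (k : Fin m) {w w' : Equiv.Perm (Fin (N + 1))}
    (h1 : k.val = 0 ∨ Agree w w' (k.val * (B + 2) - 1) ∨
      (Agree w w' (k.val * (B + 2) - 2) ∧ Agree w w' (k.val * (B + 2))))
    (h2 : Agree w w' (k.val * (B + 2) + B) ∨
      (Agree w w' (k.val * (B + 2) + B - 1) ∧ Agree w w' (k.val * (B + 2) + B + 1)))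
    (hB : 1 ≤ B) : (ct hm k w \ ct hm k w').card ≤ 2 := by
  have hle := win_le hm k
  have hsub : ct hm k w \ ct hm k w' ⊆ {w ⟨k.val * (B + 2), by omega⟩,
      w ⟨k.val * (B + 2) + B, by omega⟩} := by
    intro a ha
    rw [Finset.mem_sdiff, mem_ct, mem_ct] at ha
    obtain ⟨⟨ha1, ha2⟩, ha3⟩ := ha
    rw [Finset.mem_insert, Finset.mem_singleton]
    have hpos : (w.symm a).val = k.val * (B + 2) ∨ (w.symm a).val = k.val * (B + 2) + B := by
      rcases Nat.lt_or_ge (w'.symm a).val (k.val * (B + 2)) with h3 | h3
      · left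
        rcases h1 with h1 | h1 | ⟨-, h1⟩
        · rw [h1] at h3
          omega
        · have := (h1 a).2 (by omega)
          omega
        · have := (h1 a).2 (by omega)
          omega
      · right
        have h4 : k.val * (B + 2) + B < (w'.symm a).val := by
          by_contra h5
          exact ha3 ⟨h3, by omega⟩
        rcases h2 with h2 | ⟨h2, -⟩
        · have := (h2 a).1 ha2
          omega
        · by_contra h5
          have := (h2 a).1 (by omega)
          omega
    rcases hpos with h | h
    · left
      have e : w.symm a = ⟨k.val * (B + 2), by omega⟩ := Fin.ext h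
      rw [← e, Equiv.apply_symm_apply]
    · right
      have e : w.symm a = ⟨k.val * (B + 2) + B, by omega⟩ := Fin.ext h
      rw [← e, Equiv.apply_symm_apply]
  exact (Finset.card_le_card hsub).trans Finset.card_le_two

end Pool.IS45.StepS25
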