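import Pool.Agent.IS45.Word
import Pool.Agent.IS45.StepS25

set_option autoImplicit false

/-!
# IS45/Step (STUB): one lattice step; prefix sets
-/

namespace Pool.IS45

open Pool.HB45

variable {N B m : ℕ}

/-- the prefixes of length `i + 1` of the words `w`, `w'` have the same letters -/
def Agree (w w' : Equiv.Perm (Fin (N + 1))) (i : ℕ) : Prop :=
  ∀ a, (w.symm a).val ≤ i ↔ (w'.symm a).val ≤ i

/-- PROOF. `i ≥ N`: trivial. Else the gap of `G` behind position `i` is `≥ 3`: `F ≤ G + 1 ≤ G (w' i) + 1` on the first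
`i + 1` letters of `w'`, `F ≥ G (w' (i+1)) - 1 ≥ G (w' i) + 2` on the others; `word_strict`, counting. -/
theorem agree_of_not_sg {om : Fin (N + 1) → ℕ} (hi : Function.Injective om)
    {F G : Fin (N + 1) → ℕ} (hFG : Near F G) (i : ℕ) (h : i ∉ sg om G) :
    Agree (word om F) (word om G) i := by
  exact StepS25.agree_of_not_sg hi hFG i h

/-- PROOF. The letters of window `k` are those with position in `[o, o + B]`. -/
theorem ct_eq (hm : m * (B + 2) ≤ N + 1) (k : Fin m) {w w' : Equiv.Perm (Fin (N + 1))}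
    (h1 : k.val = 0 ∨ Agree w w' (k.val * (B + 2) - 1)) (h2 : Agree w w' (k.val * (B + 2) + B)) :
    ct hm k w = ct hm k w' := by
  exact StepS25.ct_eq hm k h1 h2

/-- PROOF. The letter at position `q` is the letter in the prefix `≤ q` and not in the prefix `≤ q - 1`. -/
theorem ltr_eq {om : Fin (N + 1) → ℕ} {w w' : Equiv.Perm (Fin (N + 1))} (q : ℕ) (hq : 1 ≤ q)
    (h1 : Agree w w' (q - 1)) (h2 : Agree w w' q) : ltr om w q = ltr om w' q := by
  exact StepS25.ltr_eq q hq h1 h2

/-- PROOF. If the prefixes agree at `i - 1` and `i + 1` (or at `i`), then the prefixes at `i` differ in at most one letter; so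
the contents of a window with this property at both ends differ in at most two letters. -/
theorem ct_two (hm : m * (B + 2) ≤ N + 1) (k : Fin m) {w w' : Equiv.Perm (Fin (N + 1))}
    (h1 : k.val = 0 ∨ Agree w w' (k.val * (B + 2) - 1) ∨
      (Agree w w' (k.val * (B + 2) - 2) ∧ Agree w w' (k.val * (B + 2))))
    (h2 : Agree w w' (k.val * (B + 2) + B) ∨
      (Agree w w' (k.val * (B + 2) + B - 1) ∧ Agree w w' (k.val * (B + 2) + B + 1)))
    (hB : 1 ≤ B) : (ct hm k w \ ct hm k w').card ≤ 2 := by
  exact StepS25.ct_two hm k h1 h2 hB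

end Pool.IS45
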