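import Pool.Agent.IS45.Conc

set_option autoImplicit false

/-!
# IS45/TypS43: proof of `conc_num`
-/

namespace Pool.IS45.TypS43

open Pool.HB45 Pool.IS45

open Classical in
theorem conc_num (δ : ℝ) (hδ : 0 < δ) (B : ℕ) : ∃ C : ℝ, 0 < C ∧ ∃ s1 : ℝ, 0 < s1 ∧ ∃ N0 : ℕ,
    ∀ N ≥ N0, ∀ (m : ℕ) (hm : m * (B + 2) ≤ N + 1), N + 1 < (m + 1) * (B + 2) →
    ∀ (Q : Rel (N + 1)) (om : Fin (N + 1) → ℕ),
    ∀ s : ℝ, C * Real.sqrt (Real.log ((N : ℝ) + 1) / ((N : ℝ) + 1)) ≤ s → s ≤ s1 →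
    ∑ g ∈ (LE Q).filter (fun g => δ * s * ((N : ℝ) + 1) ≤
      |(des om g : ℝ) - zc hm Q om (Real.exp (-s)) g|), Real.exp (-s) ^ des om g ≤
      WR Q om (Real.exp (-s)) / ((N : ℝ) + 1) ^ 5 := by
  refine ⟨5 * ((B : ℝ) + 2) / δ, by positivity, 1 / δ, by positivity, 2 * (B + 2), ?_⟩
  intro N hN m hm hm' Q om s hs hs1
  have hB : (0 : ℝ) ≤ B := Nat.cast_nonneg _
  have hNr : 2 * ((B : ℝ) + 2) ≤ N := by exact_mod_cast hN
  have hn0 : (0 : ℝ) < (N : ℝ) + 1 := by linarith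
  have hm1 : (m : ℝ) * ((B : ℝ) + 2) ≤ (N : ℝ) + 1 := by exact_mod_cast hm
  have hm2 : (N : ℝ) + 1 < ((m : ℝ) + 1) * ((B : ℝ) + 2) := by exact_mod_cast hm'
  have hm3 : ((N : ℝ) + 1) / 2 ≤ m * ((B : ℝ) + 2) := by linarith
  have hm0 : 0 < m := by
    rcases Nat.eq_zero_or_pos m with h | h
    · subst h
      exfalso
      push_cast at hm3
      linarith
    · exact h
  have hmr : (0 : ℝ) < m := by exact_mod_cast hm0
  obtain ⟨L, hL⟩ : ∃ L : ℝ, L = Real.log ((N : ℝ) + 1) := ⟨_, rfl⟩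
  have hL1 : Real.log 2 ≤ L := by
    rw [hL]
    exact Real.log_le_log (by norm_num) (by linarith)
  have hlog2 : 0 < Real.log 2 := Real.log_pos (by norm_num)
  have hL0 : 0 < L := by linarith
  rw [← hL] at hs
  have hq0 : 0 < Real.sqrt (L / ((N : ℝ) + 1)) := Real.sqrt_pos.2 (by positivity)
  have hs0 : 0 < s := lt_of_lt_of_le (by positivity) hs
  have hδs : δ * s ≤ 1 := by
    have := mul_le_mul_of_nonneg_left hs1 hδ.le
    rwa [mul_one_div_cancel hδ.ne'] at this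
  have h := conc_tail hm hm0 Q om (Real.exp (-s)) (δ * s * ((N : ℝ) + 1)) (Real.exp_pos _)
    (Real.exp_le_one_iff.2 (by linarith)) (by positivity) (by
      calc δ * s * ((N : ℝ) + 1) ≤ 1 * ((N : ℝ) + 1) := mul_le_mul_of_nonneg_right hδs hn0.le
        _ ≤ 2 * ((B : ℝ) + 2) * m := by linarith)
  have hW : 0 ≤ WR Q om (Real.exp (-s)) :=
    Finset.sum_nonneg fun _ _ => pow_nonneg (Real.exp_nonneg _) _
  refine h.trans ?_
  have hexp : 6 * L ≤ (δ * s * ((N : ℝ) + 1)) ^ 2 / (4 * ((B : ℝ) + 2) ^ 2 * m) := by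
    rw [le_div_iff₀ (by positivity)]
    have k1 : (5 * ((B : ℝ) + 2) / δ) ^ 2 * (L / ((N : ℝ) + 1)) ≤ s ^ 2 := by
      have := pow_le_pow_left₀ (by positivity) hs 2
      rwa [mul_pow, Real.sq_sqrt (by positivity)] at this
    have k2 : 25 * ((B : ℝ) + 2) ^ 2 * L ≤ δ ^ 2 * s ^ 2 * ((N : ℝ) + 1) := by
      have k3 : 25 * ((B : ℝ) + 2) ^ 2 * L =
          (5 * ((B : ℝ) + 2) / δ) ^ 2 * (L / ((N : ℝ) + 1)) * (δ ^ 2 * ((N : ℝ) + 1)) := by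
        field_simp
        ring
      rw [k3]
      calc (5 * ((B : ℝ) + 2) / δ) ^ 2 * (L / ((N : ℝ) + 1)) * (δ ^ 2 * ((N : ℝ) + 1))
          ≤ s ^ 2 * (δ ^ 2 * ((N : ℝ) + 1)) := mul_le_mul_of_nonneg_right k1 (by positivity)
        _ = δ ^ 2 * s ^ 2 * ((N : ℝ) + 1) := by ring
    have k4 : 6 * L * (4 * ((B : ℝ) + 2) ^ 2 * m) ≤ 24 * L * ((B : ℝ) + 2) * ((N : ℝ) + 1) := by
      calc 6 * L * (4 * ((B : ℝ) + 2) ^ 2 * m) =
          24 * L * ((B : ℝ) + 2) * (m * ((B : ℝ) + 2)) := by ring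
        _ ≤ _ := mul_le_mul_of_nonneg_left hm1 (by positivity)
    have k5 : 24 * L * ((B : ℝ) + 2) ≤ 25 * ((B : ℝ) + 2) ^ 2 * L := by
      have : 24 * ((B : ℝ) + 2) ≤ 25 * ((B : ℝ) + 2) ^ 2 := by nlinarith
      nlinarith
    calc 6 * L * (4 * ((B : ℝ) + 2) ^ 2 * m) ≤ 24 * L * ((B : ℝ) + 2) * ((N : ℝ) + 1) := k4
      _ ≤ 25 * ((B : ℝ) + 2) ^ 2 * L * ((N : ℝ) + 1) := mul_le_mul_of_nonneg_right k5 hn0.le
      _ ≤ δ ^ 2 * s ^ 2 * ((N : ℝ) + 1) * ((N : ℝ) + 1) := mul_le_mul_of_nonneg_right k2 hn0.le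
      _ = (δ * s * ((N : ℝ) + 1)) ^ 2 := by ring
  have he : 2 * Real.exp (-((δ * s * ((N : ℝ) + 1)) ^ 2 / (4 * ((B : ℝ) + 2) ^ 2 * m))) ≤
      1 / ((N : ℝ) + 1) ^ 5 := by
    have e1 : ((N : ℝ) + 1) ^ 5 = Real.exp (5 * L) := by
      rw [hL, mul_comm, Real.exp_mul, Real.exp_log hn0]
      norm_cast
    rw [e1, one_div, ← Real.exp_neg]
    have e2 : (2 : ℝ) = Real.exp (Real.log 2) := (Real.exp_log (by norm_num)).symm
    calc 2 * Real.exp (-((δ * s * ((N : ℝ) + 1)) ^ 2 / (4 * ((B : ℝ) + 2) ^ 2 * m)))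
        ≤ 2 * Real.exp (-(6 * L)) := by
          apply mul_le_mul_of_nonneg_left _ (by norm_num)
          exact Real.exp_le_exp.2 (by linarith)
      _ = Real.exp (Real.log 2 + -(6 * L)) := by
          rw [Real.exp_add, ← e2]
      _ ≤ Real.exp (-(5 * L)) := Real.exp_le_exp.2 (by linarith)
  calc 2 * Real.exp (-((δ * s * ((N : ℝ) + 1)) ^ 2 / (4 * ((B : ℝ) + 2) ^ 2 * m))) *
        WR Q om (Real.exp (-s))
      ≤ 1 / ((N : ℝ) + 1) ^ 5 * WR Q om (Real.exp (-s)) := mul_le_mul_of_nonneg_right he hW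
    _ = WR Q om (Real.exp (-s)) / ((N : ℝ) + 1) ^ 5 := by ring

end Pool.IS45.TypS43
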