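import Pool.Agent.IS45.Cnt
import Pool.Agent.IS45.Lip
import Pool.Agent.IS45.Conc

set_option autoImplicit false

/-!
# IS45/TypS51: the numbers
-/

namespace Pool.IS45.S51

open Pool.HB45 Filter

theorem ev_log (K : ℝ) (hK : 0 < K) : ∃ N0 : ℕ, ∀ N ≥ N0, 1 ≤ Real.log ((N : ℝ) + 1) ∧
    K ^ 2 * Real.log ((N : ℝ) + 1) ≤ (N : ℝ) + 1 := by
  have h1 : ∀ᶠ x : ℝ in atTop, 1 ≤ Real.log x := Real.tendsto_log_atTop.eventually_ge_atTop 1
  have h2 : ∀ᶠ x : ℝ in atTop, ‖Real.log x‖ ≤ (1 / K ^ 2) * ‖id x‖ :=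
    Real.isLittleO_log_id_atTop.bound (by positivity)
  have h3 : ∀ᶠ x : ℝ in atTop, 0 < x := eventually_gt_atTop 0
  have ht : Tendsto (fun N : ℕ => (N : ℝ) + 1) atTop atTop :=
    tendsto_atTop_add_const_right _ _ tendsto_natCast_atTop_atTop
  obtain ⟨N0, hN0⟩ := eventually_atTop.1 (ht.eventually ((h1.and h2).and h3))
  refine ⟨N0, fun N hN => ?_⟩
  obtain ⟨⟨a, b⟩, c⟩ := hN0 N hN
  refine ⟨a, ?_⟩
  rw [Real.norm_of_nonneg (by linarith), Real.norm_of_nonneg (by simpa using c.le)] at b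
  have hK2 : 0 < K ^ 2 := by positivity
  have h : K ^ 2 * Real.log ((N : ℝ) + 1) ≤ K ^ 2 * (1 / K ^ 2 * ((N : ℝ) + 1)) :=
    mul_le_mul_of_nonneg_left b hK2.le
  refine h.trans (le_of_eq ?_)
  field_simp

theorem exp_neg_one : (1 : ℝ) / 3 ≤ Real.exp (-1) := by
  rw [Real.exp_neg, ← one_div]
  exact one_div_le_one_div_of_le (Real.exp_pos 1) (by linarith [Real.exp_one_lt_d9])

open Classical in
theorem typ (δ : ℝ) (hδ : 0 < δ) : ∃ B : ℕ, 3 ≤ B ∧ ∃ C : ℝ, 0 < C ∧ ∃ s1 : ℝ, 0 < s1 ∧ ∃ N0 : ℕ,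
    ∀ N ≥ N0, ∀ (m : ℕ) (hm : m * (B + 2) ≤ N + 1), N + 1 < (m + 1) * (B + 2) →
    ∀ (Q : Rel (N + 1)) (om : Fin (N + 1) → ℕ), Lab Q om → (∀ a b c, Q a b → Q b c → Q a c) →
    ∀ s : ℝ, C * Real.sqrt (Real.log ((N : ℝ) + 1) / ((N : ℝ) + 1)) ≤ s → s ≤ s1 → ∀ M : ℕ,
    ∑ G ∈ (PP Q om M).filter (fun G => ∃ F ∈ PP Q om M, Near F G ∧
      δ * s * ((N : ℝ) + 1) < |zc hm Q om (Real.exp (-s)) (word om F) -
        zc hm Q om (Real.exp (-s)) (word om G)|), Real.exp (-s) ^ mx G ≤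
      WR Q om (Real.exp (-s)) / (1 - Real.exp (-s)) ^ (N + 1) / ((N : ℝ) + 1) ^ 5 := by
  obtain ⟨B0, hB0⟩ := mu_few (δ / 1000) (by positivity)
  obtain ⟨B1, hB1⟩ := exists_nat_ge (4800 / δ)
  obtain ⟨B, hBdef⟩ : ∃ B : ℕ, B = B0 + B1 + 3 := ⟨_, rfl⟩
  have hBB0 : B ≥ B0 := by omega
  have hB3 : 3 ≤ B := by omega
  have hb : (0 : ℝ) < (B : ℝ) + 2 := by positivity
  have hb1 : 4800 / δ ≤ (B : ℝ) + 2 := by
    have : (B1 : ℝ) ≤ B := by exact_mod_cast (by omega : B1 ≤ B)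
    linarith
  have hb1' : 4800 ≤ δ * ((B : ℝ) + 2) := by
    rw [div_le_iff₀ hδ] at hb1
    linarith
  obtain ⟨b, hbdef⟩ : ∃ b : ℝ, b = (B : ℝ) + 2 := ⟨_, rfl⟩
  rw [← hbdef] at hb hb1'
  obtain ⟨K, hK⟩ : ∃ K : ℝ, K = 192 * b / δ + b := ⟨_, rfl⟩
  have hKpos : 0 < K := by rw [hK]; positivity
  obtain ⟨N0, hN0⟩ := ev_log K hKpos
  refine ⟨B, hB3, 1, one_pos, min (δ / (4800 * b)) (min (1 / (2 * b)) (δ / 7776)),
    by positivity, N0 + 2, ?_⟩
  intro N hN m hm hm' Q om hL hQ s hs hs1 M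
  obtain ⟨hL1, hL2⟩ := hN0 N (by omega)
  obtain ⟨n, hn⟩ : ∃ n : ℝ, n = (N : ℝ) + 1 := ⟨_, rfl⟩
  rw [← hn] at hL1 hL2 hs ⊢
  have hn2 : 2 ≤ n := by
    have : (2 : ℝ) ≤ N := by exact_mod_cast (by omega : 2 ≤ N)
    rw [hn]; linarith
  have hn0 : 0 < n := by linarith
  obtain ⟨ℓ, hℓ⟩ : ∃ ℓ : ℝ, ℓ = Real.log n := ⟨_, rfl⟩
  rw [← hℓ] at hL1 hL2 hs
  have hs1a : s ≤ δ / (4800 * b) := hs1.trans (min_le_left _ _)
  have hs1b : s ≤ 1 / (2 * b) := hs1.trans ((min_le_right _ _).trans (min_le_left _ _))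
  have hs1c : s ≤ δ / 7776 := hs1.trans ((min_le_right _ _).trans (min_le_right _ _))
  have hs0 : 0 < s := by
    refine lt_of_lt_of_le ?_ hs
    rw [one_mul]
    exact Real.sqrt_pos.2 (by positivity)
  -- s n is at least K ℓ
  have hsn : K * ℓ ≤ s * n := by
    have h1 : Real.sqrt (ℓ / n) * n ≤ s * n := by
      rw [one_mul] at hs
      exact mul_le_mul_of_nonneg_right hs hn0.le
    refine le_trans ?_ h1
    have h2 : Real.sqrt (ℓ / n) * n = Real.sqrt (ℓ * n) := by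
      have h3 : ℓ * n = ℓ / n * n ^ 2 := by field_simp
      rw [h3, Real.sqrt_mul (by positivity), Real.sqrt_sq hn0.le]
    rw [h2]
    refine Real.le_sqrt_of_sq_le ?_
    nlinarith
  have hsnb : 192 * b / δ * ℓ ≤ s * n ∧ b * ℓ ≤ s * n := by
    have h1 : 0 ≤ 192 * b / δ * ℓ := by positivity
    have h2 : 0 ≤ b * ℓ := by positivity
    rw [hK, add_mul] at hsn
    constructor <;> linarith
  have hsn0 : 0 < s * n := by positivity
  -- the weight
  obtain ⟨r, hr⟩ : ∃ r : ℝ, r = Real.exp (-s) := ⟨_, rfl⟩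
  rw [← hr]
  have hr0 : 0 < r := by rw [hr]; exact Real.exp_pos _
  have hr1 : r < 1 := by rw [hr, ← Real.exp_zero]; exact Real.exp_lt_exp.2 (by linarith)
  have hrk : ∀ k : ℕ, 1 - r ^ k ≤ s * k := by
    intro k
    rw [hr, ← Real.exp_nat_mul]
    have := Real.add_one_le_exp ((k : ℝ) * -s)
    linarith
  have hr3 : 1 - r ^ 3 ≤ 3 * s := by
    have := hrk 3
    push_cast at this
    linarith
  have hr3' : 0 ≤ 1 - r ^ 3 := by
    have : r ^ 3 ≤ 1 := pow_le_one₀ hr0.le hr1.le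
    linarith
  have hrB : 1 - r ^ (B + 2) ≤ s * b := by
    have := hrk (B + 2)
    rw [hbdef]
    push_cast at this
    linarith
  have hsb : s * b ≤ 1 / 2 := by
    rw [le_div_iff₀ (by positivity)] at hs1b
    linarith
  have hrB' : 1 / 2 ≤ r ^ (B + 2) := by linarith
  have hrB0 : 0 ≤ 1 - r ^ (B + 2) := by
    have : r ^ (B + 2) ≤ 1 := pow_le_one₀ hr0.le hr1.le
    linarith
  have hsb2 : s * b ≤ δ / 4800 := by
    rw [le_div_iff₀ (by positivity)] at hs1a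
    rw [le_div_iff₀ (by norm_num)]
    linarith
  -- the bound for one window
  obtain ⟨Θ, hΘ⟩ : ∃ Θ : ℝ, Θ = δ / 1000 * B + 4 + 4 * ((B : ℝ) + 2) * (1 - r ^ (B + 2)) := ⟨_, rfl⟩
  have hΘ0 : 0 ≤ Θ := by rw [hΘ]; positivity
  have hΘb : 120 * Θ ≤ (33 / 100) * δ * b := by
    have h1 : 4 * ((B : ℝ) + 2) * (1 - r ^ (B + 2)) ≤ 4 * b * (δ / 4800) := by
      rw [← hbdef]
      exact mul_le_mul_of_nonneg_left (hrB.trans hsb2) (by positivity)
    have h2 : δ / 1000 * (B : ℝ) ≤ δ / 1000 * b := by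
      refine mul_le_mul_of_nonneg_left ?_ (by positivity)
      rw [hbdef]; linarith
    have h3 : 4 ≤ δ * b / 1200 := by linarith
    rw [hΘ]
    nlinarith
  have hmu := hB0 B hBB0 N m hm Q om hL hQ r hr0 hr1.le hrB'
  -- thresholds
  obtain ⟨R1, hR1⟩ : ∃ R1 : ℕ, R1 = ⌈60 * (s * n) / b⌉₊ := ⟨_, rfl⟩
  obtain ⟨R2, hR2⟩ : ∃ R2 : ℕ, R2 = ⌈δ * (s * n) / (32 * b)⌉₊ := ⟨_, rfl⟩
  have hR1a : 60 * (s * n) / b ≤ R1 := by rw [hR1]; exact Nat.le_ceil _
  have hR2a : δ * (s * n) / (32 * b) ≤ R2 := by rw [hR2]; exact Nat.le_ceil _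
  have hR1l : 6 * ℓ ≤ R1 := by
    refine le_trans ?_ hR1a
    rw [le_div_iff₀ hb]
    nlinarith [hsnb.2]
  have hR2l : 6 * ℓ ≤ R2 := by
    refine le_trans ?_ hR2a
    rw [le_div_iff₀ (by positivity)]
    have h1 := mul_le_mul_of_nonneg_left hsnb.1 hδ.le
    have h2 : δ * (192 * b / δ * ℓ) = 192 * b * ℓ := by field_simp
    linarith
  have hR1p : 1 ≤ R1 := by
    have : (0 : ℝ) < R1 := by linarith
    exact_mod_cast this
  have hR2p : 1 ≤ R2 := by
    have : (0 : ℝ) < R2 := by linarith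
    exact_mod_cast this
  have hmn : (m : ℝ) * b ≤ n := by
    rw [hbdef, hn]
    exact_mod_cast hm
  obtain ⟨T, hT⟩ : ∃ T : ℝ, T = WR Q om r / (1 - r) ^ (N + 1) := ⟨_, rfl⟩
  have hT0 : 0 ≤ T := by
    rw [hT]
    refine div_nonneg (Finset.sum_nonneg fun g _ => pow_nonneg hr0.le _) (pow_nonneg ?_ _)
    linarith
  rw [← hT]
  -- the two exceptional sums
  have hpow : ∀ R : ℕ, 6 * ℓ ≤ R → ∀ x : ℝ, 0 ≤ x → x ≤ 1 / 3 → x ^ R ≤ 1 / n ^ 6 := by
    intro R hR x hx0 hx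
    calc x ^ R ≤ (Real.exp (-1)) ^ R := pow_le_pow_left₀ hx0 (hx.trans exp_neg_one) R
      _ = Real.exp (-(R : ℝ)) := by rw [← Real.exp_nat_mul]; ring_nf
      _ ≤ Real.exp (-(6 * ℓ)) := Real.exp_le_exp.2 (by linarith)
      _ = 1 / n ^ 6 := by
        have e : -(6 * ℓ) = ((6 : ℕ) : ℝ) * -ℓ := by push_cast; ring
        rw [e, Real.exp_nat_mul, Real.exp_neg, hℓ, Real.exp_log hn0, inv_pow, one_div]
  have hsum1 : ∑ F ∈ (PP Q om M).filter (fun F => R1 ≤ (sg om F ∩ Lam B m).card), r ^ mx F ≤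
      1 / n ^ 6 * T := by
    refine (cnt_small hL M r hr0 hr1 (Lam B m) R1).trans ?_
    rw [← hT]
    refine mul_le_mul_of_nonneg_right ?_ hT0
    refine (choose_bd _ R1 _ hr3' hR1p).trans ?_
    have hR1pos : (0 : ℝ) < R1 := by exact_mod_cast hR1p
    refine hpow R1 hR1l _ (by positivity) ?_
    rw [div_le_iff₀ hR1pos]
    have hLam : ((Lam B m).card : ℝ) ≤ 2 * m := by
      have h1 : (Lam B m).card ≤ m + m := by
        unfold Lam
        refine (Finset.card_union_le _ _).trans (Nat.add_le_add ?_ ?_)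
        · exact Finset.card_image_le.trans (by rw [Finset.card_range])
        · exact Finset.card_image_le.trans (by rw [Finset.card_range])
      have h2 : ((Lam B m).card : ℝ) ≤ (m : ℝ) + m := by exact_mod_cast h1
      linarith
    have h1 : 3 * ((Lam B m).card : ℝ) * (1 - r ^ 3) ≤ 3 * (2 * m) * (3 * s) := by
      refine mul_le_mul (by linarith) hr3 hr3' (by positivity)
    have h2 : 60 * (s * n) ≤ R1 * b := by rwa [div_le_iff₀ hb] at hR1a
    have h3 : 60 * (s * ((m : ℝ) * b)) ≤ R1 * b :=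
      le_trans (by nlinarith) h2
    have h4 : 60 * (s * (m : ℝ)) ≤ R1 := by
      have : 60 * (s * (m : ℝ)) * b ≤ R1 * b := by linarith
      exact le_of_mul_le_mul_right this hb
    have h5 : 0 ≤ s * (m : ℝ) := by positivity
    linarith
  have hsum2 : ∑ F ∈ (PP Q om M).filter (fun F => R2 ≤ (VB B m (sg om F)).card), r ^ mx F ≤
      1 / n ^ 6 * T := by
    refine (cnt_vb hB3 hL M r hr0 hr1 R2).trans ?_
    rw [← hT]
    refine mul_le_mul_of_nonneg_right ?_ hT0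
    refine (choose_bd _ R2 _ (by positivity) hR2p).trans ?_
    have hR2pos : (0 : ℝ) < R2 := by exact_mod_cast hR2p
    refine hpow R2 hR2l _ (by positivity) ?_
    rw [div_le_iff₀ hR2pos]
    have h0 : (1 - r ^ 3) ^ 2 ≤ (3 * s) ^ 2 := pow_le_pow_left₀ hr3' hr3 2
    have h1 : 3 * (m : ℝ) * (3 * (1 - r ^ 3) ^ 2) ≤ 3 * (m : ℝ) * (3 * (3 * s) ^ 2) :=
      mul_le_mul_of_nonneg_left (by linarith) (by positivity)
    have h2 : δ * (s * n) ≤ R2 * (32 * b) := by rwa [div_le_iff₀ (by positivity)] at hR2a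
    have h3 : δ * (s * ((m : ℝ) * b)) ≤ R2 * (32 * b) := by
      refine le_trans ?_ h2
      exact mul_le_mul_of_nonneg_left (mul_le_mul_of_nonneg_left hmn hs0.le) hδ.le
    have h4 : δ * (s * (m : ℝ)) ≤ R2 * 32 := by
      have : δ * (s * (m : ℝ)) * b ≤ R2 * 32 * b := by linarith
      exact le_of_mul_le_mul_right this hb
    have h5 : 7776 * s ≤ δ := by
      rw [le_div_iff₀ (by norm_num)] at hs1c
      linarith
    have h6 : 7776 * s * (s * (m : ℝ)) ≤ δ * (s * (m : ℝ)) :=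
      mul_le_mul_of_nonneg_right h5 (by positivity)
    nlinarith
  -- inclusion
  have hsub : (PP Q om M).filter (fun G => ∃ F ∈ PP Q om M, Near F G ∧
      δ * s * n < |zc hm Q om r (word om F) - zc hm Q om r (word om G)|) ⊆
      (PP Q om M).filter (fun F => R1 ≤ (sg om F ∩ Lam B m).card) ∪
      (PP Q om M).filter (fun F => R2 ≤ (VB B m (sg om F)).card) := by
    intro G hG
    obtain ⟨hG1, F, hF, hFG, hlt⟩ := Finset.mem_filter.1 hG
    by_contra hno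
    rw [Finset.mem_union, Finset.mem_filter, Finset.mem_filter, not_or] at hno
    have c1 : (sg om G ∩ Lam B m).card < R1 := by
      by_contra h
      exact hno.1 ⟨hG1, not_lt.1 h⟩
    have c2 : (VB B m (sg om G)).card < R2 := by
      by_contra h
      exact hno.2 ⟨hG1, not_lt.1 h⟩
    have d1 : ((sg om G ∩ Lam B m).card : ℝ) ≤ 60 * (s * n) / b := by
      rw [hR1] at c1
      exact (Nat.lt_ceil.1 c1).le
    have d2 : ((VB B m (sg om G)).card : ℝ) ≤ δ * (s * n) / (32 * b) := by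
      rw [hR2] at c2
      exact (Nat.lt_ceil.1 c2).le
    have hlip := lip hm hm' hB3 hL r Θ hr0 hΘ0 (fun k w w' hw hw' hc => by
      rw [hΘ]; exact hmu k w w' hw hw' hc) M hF hG1 hFG
    rw [← hbdef] at hlip
    have e1 : 2 * Θ * ((sg om G ∩ Lam B m).card : ℝ) ≤ (33 / 100) * (δ * (s * n)) := by
      calc 2 * Θ * ((sg om G ∩ Lam B m).card : ℝ) ≤ 2 * Θ * (60 * (s * n) / b) :=
            mul_le_mul_of_nonneg_left d1 (by positivity)
        _ = 120 * Θ * ((s * n) / b) := by ring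
        _ ≤ (33 / 100) * δ * b * ((s * n) / b) :=
            mul_le_mul_of_nonneg_right hΘb (by positivity)
        _ = (33 / 100) * (δ * (s * n)) := by field_simp
    have e2 : 2 * b * ((VB B m (sg om G)).card : ℝ) ≤ 1 / 16 * (δ * (s * n)) := by
      calc 2 * b * ((VB B m (sg om G)).card : ℝ) ≤ 2 * b * (δ * (s * n) / (32 * b)) :=
            mul_le_mul_of_nonneg_left d2 (by positivity)
        _ = 1 / 16 * (δ * (s * n)) := by field_simp; norm_num
    have e3 : b ≤ 1 / 100 * (δ * (s * n)) := by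
      have h1 := mul_le_mul_of_nonneg_left hsnb.1 hδ.le
      have h2 : δ * (192 * b / δ * ℓ) = 192 * b * ℓ := by field_simp
      have h3 : b ≤ b * ℓ := by nlinarith
      nlinarith
    have hpos : 0 < δ * (s * n) := by positivity
    have hlt' : δ * (s * n) < |zc hm Q om r (word om F) - zc hm Q om r (word om G)| := by
      have e : δ * s * n = δ * (s * n) := by ring
      rwa [e] at hlt
    linarith
  have hnn : ∀ F ∈ (PP Q om M).filter (fun F => R1 ≤ (sg om F ∩ Lam B m).card) ∪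
      (PP Q om M).filter (fun F => R2 ≤ (VB B m (sg om F)).card), 0 ≤ r ^ mx F :=
    fun F _ => pow_nonneg hr0.le _
  calc _ ≤ ∑ F ∈ (PP Q om M).filter (fun F => R1 ≤ (sg om F ∩ Lam B m).card) ∪
      (PP Q om M).filter (fun F => R2 ≤ (VB B m (sg om F)).card), r ^ mx F :=
        Finset.sum_le_sum_of_subset_of_nonneg hsub fun F hF _ => hnn F hF
    _ ≤ ∑ F ∈ (PP Q om M).filter (fun F => R1 ≤ (sg om F ∩ Lam B m).card), r ^ mx F +
      ∑ F ∈ (PP Q om M).filter (fun F => R2 ≤ (VB B m (sg om F)).card), r ^ mx F := by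
        rw [← Finset.sum_union_inter]
        have : 0 ≤ ∑ F ∈ (PP Q om M).filter (fun F => R1 ≤ (sg om F ∩ Lam B m).card) ∩
          (PP Q om M).filter (fun F => R2 ≤ (VB B m (sg om F)).card), r ^ mx F :=
          Finset.sum_nonneg fun F _ => pow_nonneg hr0.le _
        linarith
    _ ≤ 1 / n ^ 6 * T + 1 / n ^ 6 * T := add_le_add hsum1 hsum2
    _ = T / n ^ 5 * (2 / n) := by field_simp; ring
    _ ≤ T / n ^ 5 * 1 := by
        refine mul_le_mul_of_nonneg_left ?_ (by positivity)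
        rw [div_le_one hn0]
        exact hn2
    _ = T / n ^ 5 := mul_one _

end Pool.IS45.S51
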