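import Pool.Agent.IS45.Cnt
import Pool.Agent.IS45.Lip
import Pool.Agent.IS45.Conc
import Pool.Agent.IS45.TypS43
import Pool.Agent.IS45.TypS51

set_option autoImplicit false

/-!
# IS45/Typ: the numbers

`n = N + 1`, `r = e^(-s)`, `1 - r^3 ≤ 3 s`, `1 - r^(B+2) ≤ s (B+2) ≤ 1/2`. `m` = number of windows, `m (B+2) ≤ n < (m+1)(B+2)`.
-/

namespace Pool.IS45

open Pool.HB45

open Classical in
/-- THE STEP MOVES THE CUT FUNCTION BY AT MOST `δ s n`, for typical end points. PROOF. `mu_few` with `θ = δ/1000`, `Θ = θ B + 4 +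
4 (B+2)^2 s`; `R1 = ⌈60 s n/(B+2)⌉`, `R2 = ⌈δ s n/(32 (B+2))⌉`. If `#(sg ∩ Lam) < R1` and `#VB < R2`, `lip` gives at most
`2 Θ R1 + 2 (B+2) R2 + (B+2) ≤ δ s n` for `B ≥ B0(δ)`, `s ≤ s1(δ, B)`, `s n ≥ √(n log n)` large. `cnt_small` with `A = Lam`
(`#Lam ≤ 2 n/(B+2)`), `choose_bd`: `(3 · 2 n/(B+2) · 3 s/R1)^R1 ≤ (18/60)^R1 ≤ e^(-R1)`; `cnt_vb`: `(3 m · 27 s²/R2)^R2 ≤
(81 · 32 s/δ)^R2 ≤ e^(-R2)`; `R1, R2 ≥ 8 log n`. -/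
theorem typ (δ : ℝ) (hδ : 0 < δ) : ∃ B : ℕ, 3 ≤ B ∧ ∃ C : ℝ, 0 < C ∧ ∃ s1 : ℝ, 0 < s1 ∧ ∃ N0 : ℕ,
    ∀ N ≥ N0, ∀ (m : ℕ) (hm : m * (B + 2) ≤ N + 1), N + 1 < (m + 1) * (B + 2) →
    ∀ (Q : Rel (N + 1)) (om : Fin (N + 1) → ℕ), Lab Q om → (∀ a b c, Q a b → Q b c → Q a c) →
    ∀ s : ℝ, C * Real.sqrt (Real.log ((N : ℝ) + 1) / ((N : ℝ) + 1)) ≤ s → s ≤ s1 → ∀ M : ℕ,
    ∑ G ∈ (PP Q om M).filter (fun G => ∃ F ∈ PP Q om M, Near F G ∧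
      δ * s * ((N : ℝ) + 1) < |zc hm Q om (Real.exp (-s)) (word om F) -
        zc hm Q om (Real.exp (-s)) (word om G)|), Real.exp (-s) ^ mx G ≤
      WR Q om (Real.exp (-s)) / (1 - Real.exp (-s)) ^ (N + 1) / ((N : ℝ) + 1) ^ 5 :=
  S51.typ δ hδ

open Classical in
/-- PROOF. `conc_tail` with `a = δ s n ≤ 2 (B+2) m` (`s ≤ s1`), exponent `≥ δ² s² n/(4 (B+2)) ≥ 6 log n`. -/
theorem conc_num (δ : ℝ) (hδ : 0 < δ) (B : ℕ) : ∃ C : ℝ, 0 < C ∧ ∃ s1 : ℝ, 0 < s1 ∧ ∃ N0 : ℕ,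
    ∀ N ≥ N0, ∀ (m : ℕ) (hm : m * (B + 2) ≤ N + 1), N + 1 < (m + 1) * (B + 2) →
    ∀ (Q : Rel (N + 1)) (om : Fin (N + 1) → ℕ),
    ∀ s : ℝ, C * Real.sqrt (Real.log ((N : ℝ) + 1) / ((N : ℝ) + 1)) ≤ s → s ≤ s1 →
    ∑ g ∈ (LE Q).filter (fun g => δ * s * ((N : ℝ) + 1) ≤
      |(des om g : ℝ) - zc hm Q om (Real.exp (-s)) g|), Real.exp (-s) ^ des om g ≤
      WR Q om (Real.exp (-s)) / ((N : ℝ) + 1) ^ 5 := by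
  exact TypS43.conc_num δ hδ B

end Pool.IS45
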