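import Pool.Agent.IS45.Defs

set_option autoImplicit false

/-!
# IS45/WordS34: the upper bound `sum_up`
-/

namespace Pool.IS34w

open Pool.HB45 Pool.IS45

variable {N : ℕ}

theorem wmono {n : ℕ} (om : Fin n → ℕ) (F : Fin n → ℕ) : Monotone fun i => F (word om F i) := by
  intro i j hij
  have h := Tuple.monotone_sort (fun a => toLex (F a, om a)) hij
  simp only [Function.comp] at h
  rw [Prod.Lex.toLex_le_toLex] at h
  rcases h with h | h
  · exact h.le
  · exact h.1.le

theorem wdesc {om : Fin (N + 1) → ℕ} (F : Fin (N + 1) → ℕ) (i : Fin N)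
    (h : om (word om F i.succ) < om (word om F i.castSucc)) :
    F (word om F i.castSucc) < F (word om F i.succ) := by
  have h1 := Tuple.monotone_sort (fun a => toLex (F a, om a)) (Fin.castSucc_le_succ i)
  simp only [Function.comp] at h1
  rw [Prod.Lex.toLex_le_toLex] at h1
  rcases h1 with h1 | h1
  · exact h1
  · exact absurd h1.2 (not_le.2 h)

theorem mxe (om : Fin (N + 1) → ℕ) (F : Fin (N + 1) → ℕ) : mx F = F (word om F (Fin.last N)) := by
  refine le_antisymm (Finset.sup_le fun a _ => ?_) (Finset.le_sup (Finset.mem_univ _))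
  have h := wmono om F (Fin.le_last ((word om F).symm a))
  simpa using h

/-- the gaps -/
def gp {n : ℕ} (H : Fin (n + 1) → ℕ) : Fin (n + 1) → ℕ :=
  Fin.cases (H 0) fun i => H i.succ - H i.castSucc

theorem gp_zero {n : ℕ} (H : Fin (n + 1) → ℕ) : gp H 0 = H 0 := rfl

theorem gp_succ {n : ℕ} (H : Fin (n + 1) → ℕ) (i : Fin n) :
    gp H i.succ = H i.succ - H i.castSucc := rfl

theorem gp_sum {n : ℕ} (H : Fin (n + 1) → ℕ) (hH : Monotone H) : ∑ i, gp H i = H (Fin.last n) := by
  induction n with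
  | zero =>
    rw [Fin.sum_univ_one]
    rfl
  | succ n ih =>
    have h1 : ∀ i : Fin (n + 1), gp H i.castSucc = gp (fun j : Fin (n + 1) => H j.castSucc) i := by
      intro i
      refine Fin.cases ?_ (fun i => ?_) i
      · rfl
      · rfl
    rw [Fin.sum_univ_castSucc, Finset.sum_congr rfl fun i _ => h1 i,
      ih (fun j => H j.castSucc) (fun a b hab => hH (Fin.castSucc_le_castSucc_iff.2 hab))]
    have h2 : gp H (Fin.last (n + 1)) = H (Fin.last (n + 1)) - H (Fin.last n).castSucc := by
      rw [← Fin.succ_last, gp_succ]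
    rw [h2]
    have h3 : H (Fin.last n).castSucc ≤ H (Fin.last (n + 1)) := hH (Fin.le_last _)
    omega

theorem gp_inj {n : ℕ} {H H' : Fin (n + 1) → ℕ} (hH : Monotone H) (hH' : Monotone H')
    (h : gp H = gp H') : H = H' := by
  funext i
  induction i using Fin.induction with
  | zero => exact congrFun h 0
  | succ i ih =>
    have h1 := congrFun h i.succ
    rw [gp_succ, gp_succ] at h1
    have h2 := hH (Fin.castSucc_le_succ i)
    have h3 := hH' (Fin.castSucc_le_succ i)
    omega

theorem geo_le {r : ℝ} (hr0 : 0 < r) (hr1 : r < 1) (e m : ℕ) :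
    ∑ t ∈ (Finset.range (m + 1)).filter (fun t => e ≤ t), r ^ t ≤ r ^ e / (1 - r) := by
  have h1 : ∑ t ∈ (Finset.range (m + 1)).filter (fun t => e ≤ t), r ^ t ≤
      ∑ t ∈ Finset.range (m + 1), r ^ (e + t) := by
    have h2 : (Finset.range (m + 1)).filter (fun t => e ≤ t) ⊆
        (Finset.range (m + 1)).image fun t => e + t := by
      intro t ht
      rw [Finset.mem_filter, Finset.mem_range] at ht
      rw [Finset.mem_image]
      exact ⟨t - e, by rw [Finset.mem_range]; omega, by omega⟩
    refine (Finset.sum_le_sum_of_subset_of_nonneg h2 fun _ _ _ => by positivity).trans ?_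
    rw [Finset.sum_image fun a _ b _ h => by omega]
  have h3 : ∑ t ∈ Finset.range (m + 1), r ^ t ≤ 1 / (1 - r) := by
    have h4 : (∑ t ∈ Finset.range (m + 1), r ^ t) * (1 - r) = 1 - r ^ (m + 1) := by
      have := geom_sum_mul_neg r (m + 1)
      exact this
    rw [le_div_iff₀ (by linarith), h4]
    have : 0 < r ^ (m + 1) := by positivity
    linarith
  refine h1.trans ?_
  have h5 : ∑ t ∈ Finset.range (m + 1), r ^ (e + t) = r ^ e * ∑ t ∈ Finset.range (m + 1), r ^ t := by
    rw [Finset.mul_sum]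
    exact Finset.sum_congr rfl fun t _ => pow_add r e t
  rw [h5]
  calc r ^ e * ∑ t ∈ Finset.range (m + 1), r ^ t ≤ r ^ e * (1 / (1 - r)) :=
        mul_le_mul_of_nonneg_left h3 (by positivity)
    _ = _ := by ring

theorem geo2_le {r : ℝ} (hr0 : 0 < r) (hr1 : r < 1) {e : ℕ} (he : e ≤ 1) (m : ℕ) :
    ∑ t ∈ (Finset.range (m + 1)).filter (fun t => e ≤ t ∧ t ≤ 2), r ^ t ≤
      (1 - r ^ 3) * (r ^ e / (1 - r)) := by
  have h1 : (Finset.range (m + 1)).filter (fun t => e ≤ t ∧ t ≤ 2) ⊆ Finset.Icc e 2 := by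
    intro t ht
    rw [Finset.mem_filter] at ht
    rw [Finset.mem_Icc]
    exact ht.2
  refine (Finset.sum_le_sum_of_subset_of_nonneg h1 fun _ _ _ => by positivity).trans ?_
  have h0 : 0 < 1 - r := by linarith
  rw [← mul_div_assoc, le_div_iff₀ h0]
  have h3 : 0 < r ^ 3 := by positivity
  have h4 : 0 < r ^ 4 := by positivity
  interval_cases e
  · have h2 : Finset.Icc 0 2 = {0, 1, 2} := by decide
    rw [h2, Finset.sum_insert (by decide), Finset.sum_insert (by decide), Finset.sum_singleton]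
    nlinarith
  · have h2 : Finset.Icc 1 2 = {1, 2} := by decide
    rw [h2, Finset.sum_insert (by decide), Finset.sum_singleton]
    have h5 : r ^ 4 ≤ r ^ 3 := pow_le_pow_of_le_one hr0.le hr1.le (by norm_num)
    nlinarith

open Classical in
/-- the allowed gaps -/
noncomputable def AA (om : Fin (N + 1) → ℕ) (m : ℕ) (S : Finset ℕ) (g : Equiv.Perm (Fin (N + 1))) :
    Fin (N + 1) → Finset ℕ :=
  Fin.cases (Finset.range (m + 1)) fun i => (Finset.range (m + 1)).filter fun t =>
    (if om (g i.succ) < om (g i.castSucc) then 1 else 0) ≤ t ∧ (i.val ∈ S → t ≤ 2)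

open Classical in
theorem prod_le (om : Fin (N + 1) → ℕ) (m : ℕ) (S : Finset ℕ) (hS : S ⊆ Finset.range N)
    (g : Equiv.Perm (Fin (N + 1))) {r : ℝ} (hr0 : 0 < r) (hr1 : r < 1) :
    ∏ p, ∑ t ∈ AA om m S g p, r ^ t ≤ (1 - r ^ 3) ^ S.card * (r ^ des om g / (1 - r) ^ (N + 1)) := by
  have h0 : 0 < 1 - r := by linarith
  have h3 : 0 ≤ 1 - r ^ 3 := by
    have := pow_le_one₀ (n := 3) hr0.le hr1.le
    linarith
  rw [Fin.prod_univ_succ]
  have hA0 : ∑ t ∈ AA om m S g 0, r ^ t ≤ 1 / (1 - r) := by
    have h := geo_le hr0 hr1 0 m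
    simpa [AA] using h
  have hAi : ∀ i : Fin N, ∑ t ∈ AA om m S g i.succ, r ^ t ≤
      (if i.val ∈ S then (1 - r ^ 3) else 1) *
        (r ^ (if om (g i.succ) < om (g i.castSucc) then 1 else 0) * (1 / (1 - r))) := by
    intro i
    have he : (if om (g i.succ) < om (g i.castSucc) then 1 else 0) ≤ 1 := by split_ifs <;> omega
    obtain ⟨e, hee⟩ : ∃ e : ℕ, e = (if om (g i.succ) < om (g i.castSucc) then 1 else 0) := ⟨_, rfl⟩
    have hAe : AA om m S g i.succ = (Finset.range (m + 1)).filter fun t =>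
        e ≤ t ∧ (i.val ∈ S → t ≤ 2) := by
      rw [hee]
      rfl
    rw [hAe, ← hee]
    rw [← hee] at he
    by_cases hiS : i.val ∈ S
    · rw [if_pos hiS]
      have h5 : (Finset.range (m + 1)).filter (fun t => e ≤ t ∧ (i.val ∈ S → t ≤ 2)) =
          (Finset.range (m + 1)).filter fun t => e ≤ t ∧ t ≤ 2 := by
        refine Finset.filter_congr fun t _ => ?_
        simp [hiS]
      rw [h5]
      have h6 := geo2_le hr0 hr1 he m
      rw [mul_one_div]
      exact h6
    · rw [if_neg hiS, one_mul]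
      have h5 : (Finset.range (m + 1)).filter (fun t => e ≤ t ∧ (i.val ∈ S → t ≤ 2)) =
          (Finset.range (m + 1)).filter fun t => e ≤ t := by
        refine Finset.filter_congr fun t _ => ?_
        simp [hiS]
      rw [h5, mul_one_div]
      exact geo_le hr0 hr1 e m
  have hnn : ∀ p, 0 ≤ ∑ t ∈ AA om m S g p, r ^ t := fun p =>
    Finset.sum_nonneg fun t _ => by positivity
  have hP : ∏ i : Fin N, ∑ t ∈ AA om m S g i.succ, r ^ t ≤
      ∏ i : Fin N, ((if i.val ∈ S then (1 - r ^ 3) else 1) *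
        (r ^ (if om (g i.succ) < om (g i.castSucc) then 1 else 0) * (1 / (1 - r)))) :=
    Finset.prod_le_prod (fun i _ => hnn _) fun i _ => hAi i
  have hE : ∏ i : Fin N, ((if i.val ∈ S then (1 - r ^ 3) else 1) *
        (r ^ (if om (g i.succ) < om (g i.castSucc) then 1 else 0) * (1 / (1 - r)))) =
      (1 - r ^ 3) ^ S.card * (r ^ des om g * (1 / (1 - r)) ^ N) := by
    rw [Finset.prod_mul_distrib, Finset.prod_mul_distrib, Finset.prod_const, Finset.card_univ,
      Fintype.card_fin]
    congr 1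
    · rw [← Finset.prod_filter, Finset.prod_const]
      congr 1
      have h7 : S = (Finset.univ.filter fun i : Fin N => i.val ∈ S).image fun i => i.val := by
        ext x
        rw [Finset.mem_image]
        constructor
        · intro hx
          exact ⟨⟨x, Finset.mem_range.1 (hS hx)⟩, by simpa using hx, rfl⟩
        · rintro ⟨i, hi, rfl⟩
          exact (Finset.mem_filter.1 hi).2
      conv_rhs => rw [h7]
      rw [Finset.card_image_of_injective _ Fin.val_injective]
    · congr 1
      rw [Finset.prod_pow_eq_pow_sum]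
      congr 1
      unfold des
      rw [Finset.card_filter]
  have hfin : (∑ t ∈ AA om m S g 0, r ^ t) * ∏ i : Fin N, ∑ t ∈ AA om m S g i.succ, r ^ t ≤
      1 / (1 - r) * ((1 - r ^ 3) ^ S.card * (r ^ des om g * (1 / (1 - r)) ^ N)) := by
    refine mul_le_mul hA0 (hP.trans hE.le) (Finset.prod_nonneg fun i _ => hnn _) (by positivity)
  refine hfin.trans (le_of_eq ?_)
  rw [one_div, div_eq_mul_inv, ← inv_pow, pow_succ]
  ring

open Classical in
theorem sum_up {Q : Rel (N + 1)} {om : Fin (N + 1) → ℕ} (m : ℕ) (r : ℝ)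
    (hr0 : 0 < r) (hr1 : r < 1) (G : Finset (Equiv.Perm (Fin (N + 1)))) (S : Finset ℕ)
    (hS : S ⊆ Finset.range N) :
    ∑ F ∈ (PP Q om m).filter (fun F => word om F ∈ G ∧ S ⊆ sg om F), r ^ mx F ≤
      (1 - r ^ 3) ^ S.card * ((∑ g ∈ G, r ^ des om g) / (1 - r) ^ (N + 1)) := by
  obtain ⟨T, hT⟩ : ∃ T, T = (PP Q om m).filter (fun F => word om F ∈ G ∧ S ⊆ sg om F) := ⟨_, rfl⟩
  rw [← hT]
  have hmaps : ∀ F ∈ T, word om F ∈ G := by
    intro F hF
    rw [hT, Finset.mem_filter] at hF
    exact hF.2.1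
  rw [← Finset.sum_fiberwise_of_maps_to hmaps, Finset.sum_div, Finset.mul_sum]
  refine Finset.sum_le_sum fun g _ => ?_
  refine le_trans ?_ (prod_le om m S hS g hr0 hr1)
  rw [Finset.prod_univ_sum]
  have h1 : ∀ F ∈ T.filter (fun F => word om F = g), r ^ mx F =
      ∏ p, r ^ gp (fun i => F (g i)) p := by
    intro F hF
    rw [Finset.mem_filter] at hF
    have hw := hF.2
    rw [Finset.prod_pow_eq_pow_sum, gp_sum, ← hw, mxe om F]
    rw [← hw]
    exact wmono om F
  rw [Finset.sum_congr rfl h1]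
  have hinj : Set.InjOn (fun F : Fin (N + 1) → ℕ => gp (fun i => F (g i)))
      (T.filter (fun F => word om F = g) : Finset (Fin (N + 1) → ℕ)) := by
    intro F hF F' hF' h
    rw [Finset.mem_coe, Finset.mem_filter] at hF hF'
    have h2 : (fun i => F (g i)) = fun i => F' (g i) := by
      refine gp_inj ?_ ?_ h
      · rw [← hF.2]
        exact wmono om F
      · rw [← hF'.2]
        exact wmono om F'
    funext a
    have h3 := congrFun h2 (g.symm a)
    simpa using h3
  have h2 : ∑ F ∈ T.filter (fun F => word om F = g), ∏ p, r ^ gp (fun i => F (g i)) p =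
      ∑ u ∈ (T.filter (fun F => word om F = g)).image (fun F : Fin (N + 1) → ℕ =>
        gp (fun i => F (g i))), ∏ p, r ^ u p := by
    rw [Finset.sum_image hinj]
  rw [h2]
  refine Finset.sum_le_sum_of_subset_of_nonneg ?_ fun _ _ _ =>
    Finset.prod_nonneg fun _ _ => by positivity
  intro u hu
  rw [Finset.mem_image] at hu
  obtain ⟨F, hF, rfl⟩ := hu
  rw [Finset.mem_filter] at hF
  obtain ⟨hFT, hw⟩ := hF
  rw [hT, Finset.mem_filter, mem_PP] at hFT
  obtain ⟨⟨hbox, _⟩, _, hSsg⟩ := hFT
  rw [Fintype.mem_piFinset]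
  intro p
  refine Fin.cases ?_ (fun i => ?_) p
  · rw [gp_zero]
    have := hbox (g 0)
    simp only [AA, Fin.cases_zero, Finset.mem_range]
    omega
  · rw [gp_succ]
    have hb := hbox (g i.succ)
    simp only [AA, Fin.cases_succ, Finset.mem_filter, Finset.mem_range]
    refine ⟨by omega, ?_, ?_⟩
    · split_ifs with hd
      · have hd' : om (word om F i.succ) < om (word om F i.castSucc) := by rw [hw]; exact hd
        have h4 := wdesc F i hd'
        rw [hw] at h4
        omega
      · exact Nat.zero_le _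
    · intro hiS
      have h5 := hSsg hiS
      unfold sg at h5
      rw [Finset.mem_image] at h5
      obtain ⟨i', hi', hii⟩ := h5
      have : i' = i := Fin.ext hii
      subst this
      rw [Finset.mem_filter] at hi'
      have h6 := hi'.2
      rw [hw] at h6
      omega

end Pool.IS34w
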