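import Pool.Agent.IS45.Defs

set_option autoImplicit false

/-!
# IS45/WordS58: `word_strict`, `word_eq`, `word_mem`
-/

namespace Pool.IS45

open Pool.HB45

theorem s58_inj {n : ℕ} {om : Fin n → ℕ} (hi : Function.Injective om) (F : Fin n → ℕ) :
    Function.Injective fun a => toLex (F a, om a) := by
  intro a b hab
  have h : (F a, om a) = (F b, om b) := toLex.injective hab
  exact hi (congrArg Prod.snd h)

theorem word_strict58 {n : ℕ} {om : Fin n → ℕ} (hi : Function.Injective om) (F : Fin n → ℕ) :
    StrictMono fun i => toLex (F (word om F i), om (word om F i)) := by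
  have h1 : Monotone ((fun a => toLex (F a, om a)) ∘ word om F) :=
    Tuple.monotone_sort fun a => toLex (F a, om a)
  have h2 : Function.Injective ((fun a => toLex (F a, om a)) ∘ word om F) :=
    (s58_inj hi F).comp (word om F).injective
  exact h1.strictMono_of_injective h2

theorem word_eq58 {n : ℕ} {om : Fin n → ℕ} (hi : Function.Injective om) {F : Fin n → ℕ}
    {g : Equiv.Perm (Fin n)} (h : StrictMono fun i => toLex (F (g i), om (g i))) :
    word om F = g := by
  have h1 : Monotone ((fun a => toLex (F a, om a)) ∘ word om F) :=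
    Tuple.monotone_sort fun a => toLex (F a, om a)
  have h2 : Monotone ((fun a => toLex (F a, om a)) ∘ g) := h.monotone
  have h3 := Tuple.unique_monotone h1 h2
  apply Equiv.ext
  intro i
  exact s58_inj hi F (congrFun h3 i)

theorem word_mem58 {n : ℕ} {Q : Rel n} {om : Fin n → ℕ} (hL : Lab Q om) {m : ℕ} {F : Fin n → ℕ}
    (hF : F ∈ PP Q om m) : word om F ∈ LE Q := by
  rw [mem_LE]
  intro i j hab
  have hs := word_strict58 hL.1 F
  obtain ⟨a, ha⟩ : ∃ a, a = word om F i := ⟨_, rfl⟩
  obtain ⟨b, hb⟩ : ∃ b, b = word om F j := ⟨_, rfl⟩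
  rw [← ha, ← hb] at hab
  have h1 := (mem_PP.1 hF).2 a b hab
  have h2 : toLex (F a, om a) < toLex (F b, om b) := by
    rw [Prod.Lex.toLex_lt_toLex]
    rcases hL.2 with h | h
    · have h3 := h a b hab
      rw [if_neg (not_lt.2 h3.le)] at h1
      rcases (show F a ≤ F b by omega).lt_or_eq with h4 | h4
      · exact Or.inl h4
      · exact Or.inr ⟨h4, h3⟩
    · rw [if_pos (h a b hab)] at h1
      exact Or.inl (by show F a < F b; omega)
  rw [ha, hb] at h2
  exact hs.lt_iff_lt.1 h2

end Pool.IS45

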