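import Pool.Agent.IS45.Defs
import Pool.Agent.IS45.WordS58
import Pool.Agent.IS45.WordS34

set_option autoImplicit false

/-!
# IS45/WordS9: the lower bound `sum_lo`
-/

namespace Pool.IS9w

open Pool.HB45 Pool.IS45 Pool.IS34w

variable {N : ℕ}

/-- partial sums -/
def HH (u : Fin (N + 1) → ℕ) (k : ℕ) : ℕ :=
  ∑ j ∈ Finset.range k, if h : j < N + 1 then u ⟨j, h⟩ else 0

theorem HH_mono (u : Fin (N + 1) → ℕ) {k l : ℕ} (h : k ≤ l) : HH u k ≤ HH u l :=
  Finset.sum_le_sum_of_subset (Finset.range_subset_range.2 h)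

theorem HH_succ (u : Fin (N + 1) → ℕ) (i : Fin (N + 1)) : HH u (i.val + 1) = HH u i.val + u i := by
  unfold HH
  rw [Finset.sum_range_succ, dif_pos i.isLt]

theorem HH_all (u : Fin (N + 1) → ℕ) : HH u (N + 1) = ∑ p, u p := by
  unfold HH
  rw [Finset.sum_range]
  exact Finset.sum_congr rfl fun i _ => by rw [dif_pos i.isLt]

/-- the partition with word `g` and gaps `u` -/
def FF (g : Equiv.Perm (Fin (N + 1))) (u : Fin (N + 1) → ℕ) (a : Fin (N + 1)) : ℕ :=
  HH u ((g.symm a).val + 1)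

theorem FF_g (g : Equiv.Perm (Fin (N + 1))) (u : Fin (N + 1) → ℕ) (i : Fin (N + 1)) :
    FF g u (g i) = HH u (i.val + 1) := by
  unfold FF
  rw [Equiv.symm_apply_apply]

theorem gp_FF (g : Equiv.Perm (Fin (N + 1))) (u : Fin (N + 1) → ℕ) :
    gp (fun i => FF g u (g i)) = u := by
  funext p
  refine Fin.cases ?_ (fun i => ?_) p
  · rw [gp_zero, FF_g]
    have := HH_succ u 0
    rw [this]
    simp [HH]
  · rw [gp_succ, FF_g, FF_g]
    have h1 := HH_succ u i.succ
    rw [h1]
    have h2 : (i.succ).val = i.castSucc.val + 1 := by simp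
    rw [h2]
    omega

/-- the number one at the descents -/
def ee (om : Fin (N + 1) → ℕ) (g : Equiv.Perm (Fin (N + 1))) : Fin (N + 1) → ℕ :=
  Fin.cases 0 fun i => if om (g i.succ) < om (g i.castSucc) then 1 else 0

theorem ee_le (om : Fin (N + 1) → ℕ) (g : Equiv.Perm (Fin (N + 1))) (p : Fin (N + 1)) :
    ee om g p ≤ 1 := by
  refine Fin.cases ?_ (fun i => ?_) p
  · simp [ee]
  · simp only [ee, Fin.cases_succ]
    split_ifs <;> omega

theorem ee_sum (om : Fin (N + 1) → ℕ) (g : Equiv.Perm (Fin (N + 1))) :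
    ∑ p, ee om g p = des om g := by
  rw [Fin.sum_univ_succ]
  simp only [ee, Fin.cases_zero, Fin.cases_succ, zero_add]
  unfold des
  rw [Finset.card_filter]

theorem geo_eq {r : ℝ} (hr1 : r < 1) (e L : ℕ) :
    ∑ t ∈ Finset.Ico e (e + L), r ^ t = r ^ e * ((1 - r ^ L) / (1 - r)) := by
  rw [Finset.sum_Ico_eq_sum_range, Nat.add_sub_cancel_left]
  have h0 : 0 < 1 - r := by linarith
  have h1 : ∑ k ∈ Finset.range L, r ^ (e + k) = r ^ e * ∑ k ∈ Finset.range L, r ^ k := by
    rw [Finset.mul_sum]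
    exact Finset.sum_congr rfl fun t _ => pow_add r e t
  rw [h1]
  congr 1
  rw [eq_div_iff h0.ne']
  exact geom_sum_mul_neg r L

theorem strict (om : Fin (N + 1) → ℕ) (hi : Function.Injective om) (g : Equiv.Perm (Fin (N + 1)))
    (u : Fin (N + 1) → ℕ) (hu : ∀ p, ee om g p ≤ u p) :
    StrictMono fun i => toLex (FF g u (g i), om (g i)) := by
  rw [Fin.strictMono_iff_lt_succ]
  intro i
  rw [Prod.Lex.toLex_lt_toLex]
  simp only
  rw [FF_g, FF_g, HH_succ u i.succ]
  have h2 : (i.succ).val = i.castSucc.val + 1 := by simp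
  rw [h2]
  have h3 := hu i.succ
  simp only [ee, Fin.cases_succ] at h3
  split_ifs at h3 with h4
  · left
    omega
  · have h5 : om (g i.castSucc) ≠ om (g i.succ) := by
      intro h
      exact (Fin.castSucc_lt_succ (i := i)).ne (g.injective (hi h))
    rcases Nat.eq_zero_or_pos (u i.succ) with h6 | h6
    · right
      exact ⟨by omega, by omega⟩
    · left
      omega

open Classical in
theorem sum_lo {Q : Rel (N + 1)} {om : Fin (N + 1) → ℕ} (hL : Lab Q om) (L : ℕ) (r : ℝ)
    (hr0 : 0 < r) (hr1 : r < 1) (G : Finset (Equiv.Perm (Fin (N + 1)))) (hG : G ⊆ LE Q) :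
    (1 - r ^ L) ^ (N + 1) * ((∑ g ∈ G, r ^ des om g) / (1 - r) ^ (N + 1)) ≤
      ∑ F ∈ (PP Q om ((N + 1) * L)).filter (fun F => word om F ∈ G), r ^ mx F := by
  obtain ⟨T, hT⟩ : ∃ T, T = (PP Q om ((N + 1) * L)).filter (fun F => word om F ∈ G) := ⟨_, rfl⟩
  rw [← hT]
  have hmaps : ∀ F ∈ T, word om F ∈ G := by
    intro F hF
    rw [hT, Finset.mem_filter] at hF
    exact hF.2
  rw [← Finset.sum_fiberwise_of_maps_to hmaps, Finset.sum_div, Finset.mul_sum]
  refine Finset.sum_le_sum fun g hg => ?_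
  have h0 : 0 < 1 - r := by linarith
  -- the set of gaps
  have key : (1 - r ^ L) ^ (N + 1) * (r ^ des om g / (1 - r) ^ (N + 1)) =
      ∑ u ∈ Fintype.piFinset fun p => Finset.Ico (ee om g p) (ee om g p + L), ∏ p, r ^ u p := by
    rw [← Finset.prod_univ_sum]
    rw [Finset.prod_congr rfl fun p _ => geo_eq hr1 (ee om g p) L]
    rw [Finset.prod_mul_distrib, Finset.prod_pow_eq_pow_sum, ee_sum, Finset.prod_const,
      Finset.card_univ, Fintype.card_fin, div_pow]
    ring
  rw [key]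
  have hinj : Set.InjOn (fun u : Fin (N + 1) → ℕ => FF g u)
      (Fintype.piFinset fun p => Finset.Ico (ee om g p) (ee om g p + L) :
        Finset (Fin (N + 1) → ℕ)) := by
    intro u _ u' _ h
    have h1 : FF g u = FF g u' := h
    rw [← gp_FF g u, ← gp_FF g u', h1]
  have hmem : ∀ u ∈ Fintype.piFinset fun p => Finset.Ico (ee om g p) (ee om g p + L),
      FF g u ∈ T.filter (fun F => word om F = g) ∧ mx (FF g u) = ∑ p, u p := by
    intro u hu
    rw [Fintype.mem_piFinset] at hu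
    have hu1 : ∀ p, ee om g p ≤ u p := fun p => (Finset.mem_Ico.1 (hu p)).1
    have hu2 : ∀ p, u p ≤ L := fun p => by
      have h1 := (Finset.mem_Ico.1 (hu p)).2
      have h2 := ee_le om g p
      omega
    have hs := strict om hL.1 g u hu1
    have hw : word om (FF g u) = g := word_eq58 hL.1 hs
    have hmx : mx (FF g u) = ∑ p, u p := by
      rw [mxe om, hw, FF_g, ← HH_all]
      simp
    refine ⟨?_, hmx⟩
    rw [Finset.mem_filter]
    refine ⟨?_, hw⟩
    rw [hT, Finset.mem_filter, hw]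
    refine ⟨?_, hg⟩
    rw [mem_PP]
    constructor
    · intro a
      calc FF g u a ≤ HH u (N + 1) := HH_mono u (by have := (g.symm a).isLt; omega)
        _ = ∑ p, u p := HH_all u
        _ ≤ ∑ _p : Fin (N + 1), L := Finset.sum_le_sum fun p _ => hu2 p
        _ = (N + 1) * L := by simp
    · intro a b hab
      have h1 := mem_LE.1 (hG hg) (g.symm a) (g.symm b) (by simpa using hab)
      have h2 := hs h1
      simp only [Equiv.apply_symm_apply] at h2
      rw [Prod.Lex.toLex_lt_toLex] at h2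
      simp only at h2
      split_ifs with h3
      · rcases h2 with h2 | h2
        · omega
        · omega
      · rcases h2 with h2 | h2 <;> omega
  calc ∑ u ∈ Fintype.piFinset fun p => Finset.Ico (ee om g p) (ee om g p + L), ∏ p, r ^ u p
      = ∑ u ∈ Fintype.piFinset fun p => Finset.Ico (ee om g p) (ee om g p + L),
          r ^ mx (FF g u) := by
        refine Finset.sum_congr rfl fun u hu => ?_
        rw [(hmem u hu).2, Finset.prod_pow_eq_pow_sum]
    _ = ∑ F ∈ (Fintype.piFinset fun p => Finset.Ico (ee om g p) (ee om g p + L)).image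
          (fun u : Fin (N + 1) → ℕ => FF g u), r ^ mx F := by
        rw [Finset.sum_image hinj]
    _ ≤ ∑ F ∈ T.filter (fun F => word om F = g), r ^ mx F := by
        refine Finset.sum_le_sum_of_subset_of_nonneg ?_ fun _ _ _ => by positivity
        intro F hF
        rw [Finset.mem_image] at hF
        obtain ⟨u, hu, rfl⟩ := hF
        exact (hmem u hu).1

/-- `a.choose R ≤ (e a/R)^R` -/
theorem choose_bd (a R : ℕ) (p : ℝ) (hp : 0 ≤ p) (hR : 1 ≤ R) :
    (a.choose R : ℝ) * p ^ R ≤ (3 * a * p / R) ^ R := by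
  have hR0 : (0 : ℝ) < R := by exact_mod_cast hR
  have h1 : (a.choose R : ℝ) ≤ (a : ℝ) ^ R / (R.factorial : ℝ) := Nat.choose_le_pow_div R a
  have h2 : ((R : ℝ) / 3) ^ R ≤ (R.factorial : ℝ) := by
    have h3 : ((R : ℝ)) ^ R / (R.factorial : ℝ) ≤ Real.exp R := Real.pow_div_factorial_le_exp R hR0.le R
    have h4 : Real.exp R ≤ 3 ^ R := by
      have h5 : Real.exp 1 ≤ 3 := Real.exp_one_lt_d9.le.trans (by norm_num)
      calc Real.exp R = Real.exp 1 ^ R := by rw [← Real.exp_nat_mul, mul_one]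
        _ ≤ 3 ^ R := pow_le_pow_left₀ (Real.exp_pos 1).le h5 R
    have hf : (0 : ℝ) < R.factorial := by exact_mod_cast R.factorial_pos
    rw [div_le_iff₀ hf] at h3
    rw [div_pow, div_le_iff₀ (by positivity)]
    calc (R : ℝ) ^ R ≤ Real.exp R * R.factorial := h3
      _ ≤ 3 ^ R * R.factorial := mul_le_mul_of_nonneg_right h4 hf.le
      _ = R.factorial * 3 ^ R := mul_comm _ _
  have hf : (0 : ℝ) < R.factorial := by exact_mod_cast R.factorial_pos
  have h3 : (a : ℝ) ^ R / (R.factorial : ℝ) ≤ (a : ℝ) ^ R / ((R : ℝ) / 3) ^ R :=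
    div_le_div_of_nonneg_left (by positivity) (by positivity) h2
  calc (a.choose R : ℝ) * p ^ R ≤ (a : ℝ) ^ R / ((R : ℝ) / 3) ^ R * p ^ R :=
        mul_le_mul_of_nonneg_right (h1.trans h3) (pow_nonneg hp R)
    _ = (3 * a * p / R) ^ R := by
        rw [← div_pow, ← mul_pow]
        congr 1
        field_simp

end Pool.IS9w
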