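import Pool.Agent.IS45.Defs
import Pool.Agent.IS45.WordS58
import Pool.Agent.IS45.WordS34
import Pool.Agent.IS45.WordS9

set_option autoImplicit false

/-!
# IS45/Word (STUB): partitions and their words

The word of `F` is sorted by `(F, om)` in the lexicographic order, gaps `u_0 = F (w 0)`, `u_(i+1) = F (w (i+1)) - F (w i)`,
`u_(i+1) ≥ 1` at the descents of the word, `mx F = ∑ u = F (w (last))`. `F ↦ (word, u)` is injective; conversely for `g ∈ LE Q` and
gaps `u` with `u ≥ 1` at the descents the map `F (g p) = ∑_(q ≤ p) u_q` is a partition with word `g`.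
-/

namespace Pool.IS45

open Pool.HB45

variable {N : ℕ}

theorem word_strict {n : ℕ} {om : Fin n → ℕ} (hi : Function.Injective om) (F : Fin n → ℕ) :
    StrictMono fun i => toLex (F (word om F i), om (word om F i)) :=
  word_strict58 hi F

theorem word_mono {n : ℕ} (om : Fin n → ℕ) (F : Fin n → ℕ) : Monotone fun i => F (word om F i) :=
  Pool.IS34w.wmono om F

/-- uniqueness -/
theorem word_eq {n : ℕ} {om : Fin n → ℕ} (hi : Function.Injective om) {F : Fin n → ℕ}
    {g : Equiv.Perm (Fin n)} (h : StrictMono fun i => toLex (F (g i), om (g i))) :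
    word om F = g :=
  word_eq58 hi h

theorem word_mem {n : ℕ} {Q : Rel n} {om : Fin n → ℕ} (hL : Lab Q om) {m : ℕ} {F : Fin n → ℕ}
    (hF : F ∈ PP Q om m) : word om F ∈ LE Q :=
  word_mem58 hL hF

theorem mx_eq (om : Fin (N + 1) → ℕ) (F : Fin (N + 1) → ℕ) :
    mx F = F (word om F (Fin.last N)) :=
  Pool.IS34w.mxe om F

open Classical in
/-- UPPER BOUND. PROOF. Injection into pairs (word, gaps) with all gaps `≤ m`, gaps `≤ 2` at `S`; product of geometric sums:
a factor `r^e/(1 - r)` (`e = 1` at the descents), at `S` at most `(1 - r^3)` times this. -/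
theorem sum_up {Q : Rel (N + 1)} {om : Fin (N + 1) → ℕ} (hL : Lab Q om) (m : ℕ) (r : ℝ)
    (hr0 : 0 < r) (hr1 : r < 1) (G : Finset (Equiv.Perm (Fin (N + 1)))) (S : Finset ℕ)
    (hS : S ⊆ Finset.range N) :
    ∑ F ∈ (PP Q om m).filter (fun F => word om F ∈ G ∧ S ⊆ sg om F), r ^ mx F ≤
      (1 - r ^ 3) ^ S.card * ((∑ g ∈ G, r ^ des om g) / (1 - r) ^ (N + 1)) := by
  exact Pool.IS34w.sum_up m r hr0 hr1 G S hS

open Classical in
/-- LOWER BOUND. PROOF. All gaps `≤ L`. -/
theorem sum_lo {Q : Rel (N + 1)} {om : Fin (N + 1) → ℕ} (hL : Lab Q om) (L : ℕ) (r : ℝ)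
    (hr0 : 0 < r) (hr1 : r < 1) (G : Finset (Equiv.Perm (Fin (N + 1)))) (hG : G ⊆ LE Q) :
    (1 - r ^ L) ^ (N + 1) * ((∑ g ∈ G, r ^ des om g) / (1 - r) ^ (N + 1)) ≤
      ∑ F ∈ (PP Q om ((N + 1) * L)).filter (fun F => word om F ∈ G), r ^ mx F := by
  exact Pool.IS9w.sum_lo hL L r hr0 hr1 G hG

end Pool.IS45
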